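import Pool.Agent.H379R3.CStarReg

/-!
# The Jacobson radical under algebraic extension of the coefficient field
-/

set_option autoImplicit false

namespace Pool.Agent.H379R3.CS

open Polynomial

/-- finite central extensions -/
lemma left_inv_of_finite {R S : Type*} [Ring R] [Ring S] (ι : R →+* S) {n : ℕ} (e : Fin n → S)
    (hcomm : ∀ i r, e i * ι r = ι r * e i)
    (hspan : ∀ s : S, ∃ r : Fin n → R, s = ∑ i, ι (r i) * e i)
    {a : R} (ha : a ∈ Ideal.jacobson (⊥ : Ideal R)) (y : S) :
    ∃ z : S, z * (1 + y * ι a) = 1 := by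
  classical
  let _ : Module R S := Module.compHom S ι
  have hsm : ∀ (r : R) (s : S), r • s = ι r * s := fun _ _ => rfl
  let L : Submodule R S :=
    { carrier := {s | ∃ z, s = z * (1 + y * ι a)}
      add_mem' := by
        rintro _ _ ⟨z, rfl⟩ ⟨w, rfl⟩
        exact ⟨z + w, by rw [add_mul]⟩
      zero_mem' := ⟨0, by rw [zero_mul]⟩
      smul_mem' := by
        rintro r _ ⟨z, rfl⟩
        exact ⟨ι r * z, by rw [hsm, mul_assoc]⟩ }
  have hmem : ∀ z : S, z * (1 + y * ι a) ∈ L := fun z => ⟨z, rfl⟩
  have hfg : (⊤ : Submodule R (S ⧸ L)).FG := by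
    refine ⟨Finset.univ.image (fun i => L.mkQ (e i)), ?_⟩
    rw [eq_top_iff]
    rintro q -
    obtain ⟨s, rfl⟩ := L.mkQ_surjective q
    obtain ⟨r, hr⟩ := hspan s
    rw [hr, map_sum]
    refine Submodule.sum_mem _ fun i _ => ?_
    rw [← hsm, map_smul]
    exact Submodule.smul_mem _ _ (Submodule.subset_span (by simp))
  have hle : (⊤ : Submodule R (S ⧸ L)) ≤ Ring.jacobson R • (⊤ : Submodule R (S ⧸ L)) := by
    rintro q -
    obtain ⟨s, rfl⟩ := L.mkQ_surjective q
    have h1 : L.mkQ s = - L.mkQ (s * y * ι a) := by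
      rw [← map_neg, ← sub_eq_zero, ← map_sub, Submodule.mkQ_apply, Submodule.Quotient.mk_eq_zero]
      have : s - -(s * y * ι a) = s * (1 + y * ι a) := by
        rw [mul_add, mul_one, sub_neg_eq_add, mul_assoc]
      rw [this]
      exact hmem s
    rw [h1]
    refine Submodule.neg_mem _ ?_
    obtain ⟨r, hr⟩ := hspan (s * y)
    rw [hr, Finset.sum_mul, map_sum]
    refine Submodule.sum_mem _ fun i _ => ?_
    have h2 : ι (r i) * e i * ι a = (r i * a) • e i := by
      rw [hsm, map_mul, mul_assoc, hcomm, mul_assoc]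
    rw [h2, map_smul]
    refine Submodule.smul_mem_smul ?_ Submodule.mem_top
    rw [← Ideal.jacobson_bot]
    exact Ideal.mul_mem_left _ _ ha
  have hbot := hfg.eq_bot_of_le_jacobson_smul hle
  have h1 : L.mkQ (1 : S) ∈ (⊤ : Submodule R (S ⧸ L)) := Submodule.mem_top
  rw [hbot, Submodule.mem_bot, Submodule.mkQ_apply, Submodule.Quotient.mk_eq_zero] at h1
  obtain ⟨z, hz⟩ := h1
  exact ⟨z, hz.symm⟩

section

variable {G : Type*} [Group G]

/-- finite extension of the coefficient field -/
lemma left_inv_of_finite_field {K E : Type*} [Field K] [Field E] [Algebra K E]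
    [FiniteDimensional K E] {a : MonoidAlgebra K G}
    (ha : a ∈ Ideal.jacobson (⊥ : Ideal (MonoidAlgebra K G))) (y : MonoidAlgebra E G) :
    ∃ z, z * (1 + y * MonoidAlgebra.mapRingHom G (algebraMap K E) a) = 1 := by
  let b := Module.finBasis K E
  refine left_inv_of_finite (MonoidAlgebra.mapRingHom G (algebraMap K E))
    (fun i => MonoidAlgebra.single 1 (b i)) ?_ ?_ ha y
  · intro i r
    exact MonoidAlgebra.single_one_comm _ _
  · intro s
    induction s using MonoidAlgebra.induction_linear with
    | zero => exact ⟨fun _ => 0, by simp⟩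
    | add s t hs ht =>
      obtain ⟨r, hr⟩ := hs
      obtain ⟨r', hr'⟩ := ht
      refine ⟨fun i => r i + r' i, ?_⟩
      simp only [map_add, add_mul, Finset.sum_add_distrib]
      rw [← hr, ← hr']
    | single g c =>
      refine ⟨fun i => MonoidAlgebra.single g (b.repr c i), ?_⟩
      simp only [MonoidAlgebra.mapRingHom_single, MonoidAlgebra.single_mul_single, mul_one]
      have h := b.sum_repr c
      have h2 : ∀ s : Finset (Fin (Module.finrank K E)), ∀ f : Fin (Module.finrank K E) → E,
          ∑ i ∈ s, (MonoidAlgebra.single g (f i) : MonoidAlgebra E G) =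
            MonoidAlgebra.single g (∑ i ∈ s, f i) := by
        intro s f
        exact (map_sum (MonoidAlgebra.singleAddHom g) f s).symm
      rw [h2]
      congr 1
      rw [← h]
      refine Finset.sum_congr rfl fun i _ => ?_
      rw [h, Algebra.smul_def]

/-- the Jacobson radical under algebraic extension of the coefficient field -/
lemma mem_jacobson_of_algebraic {K M : Type*} [Field K] [Field M] [Algebra K M]
    [Algebra.IsAlgebraic K M] {a : MonoidAlgebra K G}
    (ha : a ∈ Ideal.jacobson (⊥ : Ideal (MonoidAlgebra K G))) :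
    MonoidAlgebra.mapRingHom G (algebraMap K M) a ∈
      Ideal.jacobson (⊥ : Ideal (MonoidAlgebra M G)) := by
  classical
  rw [Ideal.mem_jacobson_iff]
  intro y
  let T : Set M := (y.coeff.support.image y.coeff : Finset M)
  let E : IntermediateField K M := IntermediateField.adjoin K T
  have : FiniteDimensional K E :=
    IntermediateField.finiteDimensional_adjoin fun x _ => (Algebra.IsAlgebraic.isAlgebraic x).isIntegral
  have hy : ∀ g ∈ y.coeff.support, y.coeff g ∈ E := fun g hg =>
    IntermediateField.subset_adjoin K T (by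
      simp only [T, Finset.coe_image]
      exact ⟨g, hg, rfl⟩)
  obtain ⟨y', hy'⟩ : ∃ y' : MonoidAlgebra E G,
      MonoidAlgebra.mapRingHom G (algebraMap E M) y' = y := by
    refine ⟨∑ g ∈ y.coeff.support.attach, MonoidAlgebra.single (g : G) ⟨y.coeff g, hy g g.2⟩, ?_⟩
    rw [map_sum]
    simp only [MonoidAlgebra.mapRingHom_single]
    conv_rhs => rw [← MonoidAlgebra.sum_coeff_single y, Finsupp.sum]
    rw [← Finset.sum_attach y.coeff.support]
    rfl
  obtain ⟨z, hz⟩ := left_inv_of_finite_field (E := E) ha y'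
  refine ⟨MonoidAlgebra.mapRingHom G (algebraMap E M) z, ?_⟩
  rw [Ideal.mem_bot, sub_eq_zero]
  have h := congrArg (MonoidAlgebra.mapRingHom G (algebraMap E M)) hz
  rw [map_mul, map_add, map_one, map_mul, hy'] at h
  have h3 : MonoidAlgebra.mapRingHom G (algebraMap E M)
      (MonoidAlgebra.mapRingHom G (algebraMap K E) a) =
      MonoidAlgebra.mapRingHom G (algebraMap K M) a := by
    ext g
    simp only [MonoidAlgebra.coeff_mapRingHom]
    exact (IsScalarTower.algebraMap_apply K E M _).symm
  rw [h3, mul_add, mul_one, add_comm, ← mul_assoc] at h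
  exact h

end

/-! ### All algebraic coefficient fields -/

/-- the field of algebraic numbers -/
noncomputable def algNum : Subfield ℂ := (algebraicClosure ℚ ℂ).toSubfield

lemma mem_algNum {x : ℂ} : x ∈ algNum ↔ IsAlgebraic ℚ x := mem_algebraicClosure_iff

lemma algNum_star : ∀ x ∈ algNum, star x ∈ algNum := by
  intro x hx
  rw [mem_algNum] at hx ⊢
  exact hx.algHom ((starRingEnd ℂ).toRatAlgHom)

theorem jacobson_descend {G : Type*} [Group G]
    (h : Ideal.jacobson (⊥ : Ideal (MonoidAlgebra algNum G)) = ⊥)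
    (F : Type*) [Field F] [CharZero F] [Algebra.IsAlgebraic ℚ F] :
    Ideal.jacobson (⊥ : Ideal (MonoidAlgebra F G)) = ⊥ := by
  let σ : F →ₐ[ℚ] ℂ := IsAlgClosed.lift
  have hσ : ∀ x, σ x ∈ algNum := fun x =>
    mem_algNum.mpr ((Algebra.IsAlgebraic.isAlgebraic (R := ℚ) x).algHom σ)
  let τ : F →+* algNum := (σ : F →+* ℂ).codRestrict algNum hσ
  let _ : Algebra F algNum := τ.toAlgebra
  have : Algebra.IsAlgebraic F algNum := by
    have : Algebra.IsAlgebraic ℚ algNum := by
      constructor
      intro x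
      have hx : IsAlgebraic ℚ (x : ℂ) := mem_algNum.mp x.2
      exact (isAlgebraic_algHom_iff ((algNum.subtype).toRatAlgHom)
        Subtype.val_injective).mp hx
    exact Algebra.IsAlgebraic.tower_top (K := ℚ) F
  rw [eq_bot_iff]
  intro a ha
  have h1 := mem_jacobson_of_algebraic (M := algNum) ha
  rw [h, Ideal.mem_bot] at h1
  have : a = 0 := by
    ext g
    have h2 := congrArg (fun c : MonoidAlgebra algNum G => c.coeff g) h1
    simp only [MonoidAlgebra.coeff_mapRingHom, MonoidAlgebra.coeff_zero, Finsupp.coe_zero,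
      Pi.zero_apply] at h2
    exact (map_eq_zero τ).mp h2
  rw [this]
  exact Ideal.zero_mem _

end Pool.Agent.H379R3.CS
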