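import Pool.Agent.H379R3.CStarAlg

/-!
# From conjugation-stable subfields of `ℂ` to all fields of characteristic zero
-/

set_option autoImplicit false

namespace Pool.Agent.H379R3.CS

open Polynomial Cardinal

section

variable {G : Type*} [Group G]

/-- restriction of the coefficient field -/
lemma mem_jacobson_of_map {K F : Type*} [Field K] [Field F] [Algebra K F] {a : MonoidAlgebra K G}
    (ha : MonoidAlgebra.mapRingHom G (algebraMap K F) a ∈
      Ideal.jacobson (⊥ : Ideal (MonoidAlgebra F G))) :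
    a ∈ Ideal.jacobson (⊥ : Ideal (MonoidAlgebra K G)) := by
  obtain ⟨φ, hφ⟩ : ∃ φ : Module.Dual K F, φ 1 ≠ 0 := by
    by_contra hcon
    push Not at hcon
    exact one_ne_zero ((Module.forall_dual_apply_eq_zero_iff K _).mp hcon)
  let p : F →+ K := ((φ 1)⁻¹ • φ).toAddMonoidHom
  have hpv : ∀ c, p c = (φ 1)⁻¹ * φ c := fun c => rfl
  have hp : ∀ (c : F) (d : K), p (c * algebraMap K F d) = p c * d := by
    intro c d
    rw [hpv, hpv, mul_comm c, ← Algebra.smul_def, map_smul, smul_eq_mul]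
    ring
  have hp1 : p 1 = 1 := by rw [hpv, inv_mul_cancel₀ hφ]
  have key : ∀ (z : MonoidAlgebra F G) (w : MonoidAlgebra K G),
      MonoidAlgebra.map p (z * MonoidAlgebra.mapRingHom G (algebraMap K F) w) =
        MonoidAlgebra.map p z * w := by
    intro z w
    induction z using MonoidAlgebra.induction_linear with
    | zero => rw [zero_mul, MonoidAlgebra.map_zero, zero_mul]
    | add z z' hz hz' => rw [add_mul, MonoidAlgebra.map_add, hz, hz', MonoidAlgebra.map_add, add_mul]
    | single g c =>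
      induction w using MonoidAlgebra.induction_linear with
      | zero => rw [map_zero, mul_zero, MonoidAlgebra.map_zero, mul_zero]
      | add w w' hw hw' => rw [map_add, mul_add, MonoidAlgebra.map_add, hw, hw', mul_add]
      | single h d =>
        rw [MonoidAlgebra.mapRingHom_single, MonoidAlgebra.single_mul_single,
          MonoidAlgebra.map_single, MonoidAlgebra.map_single, MonoidAlgebra.single_mul_single, hp]
  rw [Ideal.mem_jacobson_iff]
  intro y
  obtain ⟨z, hz⟩ := jac_left_inv ha (MonoidAlgebra.mapRingHom G (algebraMap K F) y)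
  rw [← map_mul, ← map_one (MonoidAlgebra.mapRingHom G (algebraMap K F)), ← map_add] at hz
  have h2 := congrArg (MonoidAlgebra.map p) hz
  rw [key, map_one] at h2
  have h3 : MonoidAlgebra.map p (1 : MonoidAlgebra F G) = 1 := by
    rw [MonoidAlgebra.one_def, MonoidAlgebra.map_single, hp1]
    rfl
  rw [h3] at h2
  refine ⟨MonoidAlgebra.map p z, ?_⟩
  rw [Ideal.mem_bot, sub_eq_zero, mul_assoc, ← h2, mul_add, mul_one, add_comm]

end

lemma adjoin_hom {k K R ι : Type*} [Field k] [Field K] [Field R] [Algebra k K] [Algebra k R]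
    {x : ι → K} {y : ι → R} (hx : AlgebraicIndependent k x) (hy : AlgebraicIndependent k y) :
    Nonempty (IntermediateField.adjoin k (Set.range x) →+* R) :=
  ⟨(algebraMap (IntermediateField.adjoin k (Set.range y)) R).comp
    ((hx.aevalEquivField.symm.trans hy.aevalEquivField).toRingEquiv.toRingHom)⟩

lemma embed_aux {K₀ K : Type*} [Field K₀] [Field K] [Algebra K₀ K] [Algebra.IsAlgebraic K₀ K]
    (ρ : K₀ →+* ℝ) :
    ∃ (M : Subfield ℂ) (τ : K →+* M), (∀ x ∈ M, star x ∈ M) ∧
      ∀ x : M, ∃ p : K[X], p ≠ 0 ∧ p.eval₂ τ x = 0 := by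
  let ρC : K₀ →+* ℂ := (algebraMap ℝ ℂ).comp ρ
  let _ : Algebra K₀ ℂ := ρC.toAlgebra
  let σ : K →ₐ[K₀] ℂ := IsAlgClosed.lift
  let M : Subfield ℂ := (algebraicClosure K₀ ℂ).toSubfield
  have hM : ∀ x, x ∈ M ↔ IsAlgebraic K₀ x := fun x => mem_algebraicClosure_iff
  have hσ : ∀ x, σ x ∈ M := fun x =>
    (hM _).mpr ((Algebra.IsAlgebraic.isAlgebraic (R := K₀) x).algHom σ)
  let τ : K →+* M := (σ : K →+* ℂ).codRestrict M hσ
  let cj : ℂ →ₐ[K₀] ℂ :=
    { (starRingEnd ℂ) with
      commutes' := fun r => Complex.conj_ofReal (ρ r) }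
  refine ⟨M, τ, ?_, ?_⟩
  · intro x hx
    rw [hM] at hx ⊢
    exact hx.algHom cj
  · intro x
    obtain ⟨p, hp, hpx⟩ := (hM _).mp x.2
    refine ⟨p.map (algebraMap K₀ K), (Polynomial.map_ne_zero_iff (algebraMap K₀ K).injective).mpr hp, ?_⟩
    apply Subtype.val_injective
    rw [Polynomial.eval₂_map]
    change M.subtype (eval₂ (τ.comp (algebraMap K₀ K)) x p) = 0
    rw [Polynomial.hom_eval₂]
    rw [Polynomial.aeval_def] at hpx
    rw [← hpx]
    congr 1
    ext r
    exact σ.commutes r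

/-- every countable field of characteristic zero embeds in a conjugation-stable subfield of `ℂ`
that is algebraic over it -/
lemma exists_embedding (K : Type*) [Field K] [CharZero K] (hK : #K ≤ ℵ₀) :
    ∃ (M : Subfield ℂ) (τ : K →+* M), (∀ x ∈ M, star x ∈ M) ∧
      ∀ x : M, ∃ p : K[X], p ≠ 0 ∧ p.eval₂ τ x = 0 := by
  obtain ⟨s, hs⟩ := exists_isTranscendenceBasis ℚ K
  obtain ⟨t, ht⟩ := exists_isTranscendenceBasis ℚ ℝ
  have ht1 : ¬ #t ≤ ℵ₀ := by
    intro h
    have h1 : #ℝ ≤ max #(Algebra.adjoin ℚ (Set.range ((↑) : t → ℝ))) ℵ₀ := by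
      have : Algebra.IsAlgebraic (Algebra.adjoin ℚ (Set.range ((↑) : t → ℝ))) ℝ := ht.isAlgebraic
      exact Algebra.IsAlgebraic.cardinalMk_le_max _ _
    have h2 : #(Algebra.adjoin ℚ (Set.range ((↑) : t → ℝ))) = #(MvPolynomial t ℚ) :=
      (Cardinal.mk_congr ht.1.aevalEquiv.toEquiv).symm
    have h3 : #(MvPolynomial t ℚ) ≤ ℵ₀ := by
      refine (MvPolynomial.cardinalMk_le_max).trans ?_
      simp [h]
    rw [h2, Cardinal.mk_real] at h1
    exact absurd (h1.trans (max_le h3 le_rfl)) (not_le.mpr Cardinal.aleph0_lt_continuum)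
  have hst : Nonempty (s ↪ t) := by
    rw [← Cardinal.lift_mk_le']
    have h1 : #s ≤ ℵ₀ := (Cardinal.mk_set_le s).trans hK
    exact (Cardinal.lift_le_aleph0.mpr h1).trans
      (Cardinal.aleph0_le_lift.mpr (le_of_lt (not_le.mp ht1)))
  obtain ⟨j⟩ := hst
  have hy : AlgebraicIndependent ℚ (((↑) : t → ℝ) ∘ j) := ht.1.comp j j.injective
  let K₀ := IntermediateField.adjoin ℚ (Set.range ((↑) : s → K))
  obtain ⟨ρ⟩ : Nonempty (K₀ →+* ℝ) := adjoin_hom hs.1 hy
  have halg : Algebra.IsAlgebraic K₀ K := hs.isAlgebraic_field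
  exact embed_aux ρ

theorem jacobson_all {G : Type*} [Group G]
    (H : ∀ M : Subfield ℂ, (∀ x ∈ M, star x ∈ M) →
      Ideal.jacobson (⊥ : Ideal (MonoidAlgebra M G)) = ⊥)
    (F : Type*) [Field F] [CharZero F] :
    Ideal.jacobson (⊥ : Ideal (MonoidAlgebra F G)) = ⊥ := by
  classical
  rw [eq_bot_iff]
  intro a ha
  let T : Set F := (a.coeff.support.image a.coeff : Finset F)
  let K : Subfield F := Subfield.closure T
  have hK : #K ≤ ℵ₀ := by
    refine (Subfield.cardinalMk_closure_le_max T).trans ?_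
    have : #T ≤ ℵ₀ := (Set.Finite.countable (Finset.finite_toSet _)).le_aleph0
    exact max_le this le_rfl
  have hmem : ∀ g ∈ a.coeff.support, a.coeff g ∈ K := fun g hg =>
    Subfield.subset_closure (by
      simp only [T, Finset.coe_image]
      exact ⟨g, hg, rfl⟩)
  obtain ⟨a', ha'⟩ : ∃ a' : MonoidAlgebra K G,
      MonoidAlgebra.mapRingHom G (algebraMap K F) a' = a := by
    refine ⟨∑ g ∈ a.coeff.support.attach, MonoidAlgebra.single (g : G) ⟨a.coeff g, hmem g g.2⟩, ?_⟩
    rw [map_sum]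
    simp only [MonoidAlgebra.mapRingHom_single]
    conv_rhs => rw [← MonoidAlgebra.sum_coeff_single a, Finsupp.sum]
    rw [← Finset.sum_attach a.coeff.support]
    rfl
  rw [← ha'] at ha
  have ha2 := mem_jacobson_of_map ha
  obtain ⟨M, τ, hM, hτ⟩ := exists_embedding K hK
  let _ : Algebra K M := τ.toAlgebra
  have : Algebra.IsAlgebraic K M := ⟨fun x => by
    obtain ⟨p, hp, hpx⟩ := hτ x
    exact ⟨p, hp, hpx⟩⟩
  have h1 := mem_jacobson_of_algebraic (M := M) ha2
  rw [H M hM, Ideal.mem_bot] at h1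
  have h0 : a' = 0 := by
    ext g
    have h2 := congrArg (fun c : MonoidAlgebra M G => c.coeff g) h1
    simp only [MonoidAlgebra.coeff_mapRingHom, MonoidAlgebra.coeff_zero, Finsupp.coe_zero,
      Pi.zero_apply] at h2
    rw [(map_eq_zero τ).mp h2]
    rfl
  rw [← ha', h0, map_zero]
  exact Ideal.zero_mem _

end Pool.Agent.H379R3.CS
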