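import Pool.Agent.H379R3.CStarAll

/-!
# Local and residual closure
-/

set_option autoImplicit false

namespace Pool.Agent.H379R3.CS

universe u v

/-- surjective ring homomorphisms map the Jacobson radical into the Jacobson radical -/
lemma jac_map {R S : Type*} [Ring R] [Ring S] (f : R →+* S) (hf : Function.Surjective f) {b : R}
    (hb : b ∈ Ideal.jacobson (⊥ : Ideal R)) : f b ∈ Ideal.jacobson (⊥ : Ideal S) := by
  rw [Ideal.mem_jacobson_iff]
  intro y'
  obtain ⟨y, rfl⟩ := hf y'
  obtain ⟨z, hz⟩ := jac_left_inv hb y
  refine ⟨f z, ?_⟩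
  rw [Ideal.mem_bot, sub_eq_zero, mul_assoc, ← map_one f, ← hz]
  simp only [map_mul, map_add, map_one, mul_add, mul_one]
  rw [add_comm]

section

variable {G : Type*} [Group G] {F : Type*} [Field F]

/-- extension of the group, `F[H] → F[G]` -/
noncomputable def extG (F : Type*) [Field F] (H : Subgroup G) :
    MonoidAlgebra F H →+* MonoidAlgebra F G :=
  MonoidAlgebra.mapDomainRingHom F H.subtype

lemma extG_single (H : Subgroup G) (h : H) (c : F) :
    extG F H (MonoidAlgebra.single h c) = MonoidAlgebra.single (h : G) c := by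
  simp [extG]

open Classical in
/-- restriction of the support to a subgroup -/
noncomputable def resG (F : Type*) [Field F] (H : Subgroup G) :
    MonoidAlgebra F G →+ MonoidAlgebra F H where
  toFun z := MonoidAlgebra.ofCoeff (z.coeff.comapDomain Subtype.val Subtype.val_injective.injOn)
  map_zero' := by ext; simp
  map_add' x y := by ext; simp

lemma resG_single_mem (H : Subgroup G) (g : G) (hg : g ∈ H) (c : F) :
    resG F H (MonoidAlgebra.single g c) = MonoidAlgebra.single ⟨g, hg⟩ c := by
  classical
  ext x
  simp only [resG, AddMonoidHom.coe_mk, ZeroHom.coe_mk, Finsupp.comapDomain_apply,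
    MonoidAlgebra.coeff_single, Finsupp.single_apply]
  by_cases h : g = (x : G)
  · rw [if_pos h, if_pos (Subtype.ext h)]
  · rw [if_neg h, if_neg (fun h' => h (congrArg Subtype.val h'))]

lemma resG_single_notMem (H : Subgroup G) (g : G) (hg : g ∉ H) (c : F) :
    resG F H (MonoidAlgebra.single g c) = 0 := by
  classical
  ext x
  simp only [resG, AddMonoidHom.coe_mk, ZeroHom.coe_mk, Finsupp.comapDomain_apply,
    MonoidAlgebra.coeff_single, Finsupp.single_apply, MonoidAlgebra.coeff_zero, Finsupp.coe_zero,
    Pi.zero_apply]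
  rw [if_neg]
  rintro rfl
  exact hg x.2

lemma resG_mul (H : Subgroup G) (z : MonoidAlgebra F G) (w : MonoidAlgebra F H) :
    resG F H (z * extG F H w) = resG F H z * w := by
  induction z using MonoidAlgebra.induction_linear with
  | zero => rw [zero_mul, map_zero, zero_mul]
  | add z z' hz hz' => rw [add_mul, map_add, hz, hz', map_add, add_mul]
  | single g c =>
    induction w using MonoidAlgebra.induction_linear with
    | zero => rw [map_zero, mul_zero, map_zero, mul_zero]
    | add w w' hw hw' => rw [map_add, mul_add, map_add, hw, hw', mul_add]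
    | single h d =>
      rw [extG_single, MonoidAlgebra.single_mul_single]
      by_cases hg : g ∈ H
      · rw [resG_single_mem H g hg, resG_single_mem H _ (H.mul_mem hg h.2),
          MonoidAlgebra.single_mul_single]
        rfl
      · rw [resG_single_notMem H g hg, resG_single_notMem H _ ?_, zero_mul]
        intro h'
        exact hg ((H.mul_mem_cancel_right h.2).mp h')

lemma mem_jacobson_of_subgroup (H : Subgroup G) {a : MonoidAlgebra F H}
    (ha : extG F H a ∈ Ideal.jacobson (⊥ : Ideal (MonoidAlgebra F G))) :
    a ∈ Ideal.jacobson (⊥ : Ideal (MonoidAlgebra F H)) := by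
  rw [Ideal.mem_jacobson_iff]
  intro y
  obtain ⟨z, hz⟩ := jac_left_inv ha (extG F H y)
  rw [← map_mul, ← map_one (extG F H), ← map_add] at hz
  have h2 := congrArg (resG F H) hz
  rw [resG_mul, map_one] at h2
  have h3 : resG F H (1 : MonoidAlgebra F G) = 1 := by
    rw [MonoidAlgebra.one_def, resG_single_mem H 1 H.one_mem]
    rfl
  rw [h3] at h2
  refine ⟨resG F H z, ?_⟩
  rw [Ideal.mem_bot, sub_eq_zero, mul_assoc, ← h2, mul_add, mul_one, add_comm]

end

/-- The complex group algebra of `H` embeds as a star algebra in a unital C*-algebra without an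
infinite sequence of pairwise orthogonal nonzero projections. -/
def FewProjections (H : Type u) [Group H] : Prop :=
  ∃ (A : Type u) (_ : CStarAlgebra A) (π : MonoidAlgebra ℂ H →ₐ[ℂ] A), Function.Injective π ∧
    (∀ g : H, star (π (MonoidAlgebra.single g 1)) = π (MonoidAlgebra.single g⁻¹ 1)) ∧
    NoInfiniteProjections A

theorem jacobson_of_few (H : Type u) [Group H] (hH : FewProjections H)
    (F : Type v) [Field F] [CharZero F] :
    Ideal.jacobson (⊥ : Ideal (MonoidAlgebra F H)) = ⊥ := by
  obtain ⟨A, _, π, hinj, hstar, hA⟩ := hH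
  exact jacobson_all (fun M hM => jacobson_eq_bot M hM π hinj hstar hA) F

theorem few_of_reduced (H : Type u) [Group H] (h : NoInfiniteProjections (reducedCStar H)) :
    FewProjections H :=
  ⟨reducedCStar H, inferInstance, reg H, reg_injective, reg_star, h⟩

/-- **Local-residual form.** -/
theorem jacobson_local (G : Type u) [Group G]
    (hG : ∀ H : Subgroup G, H.FG → ∀ X : Finset H, ∃ (N : Subgroup H) (_ : N.Normal),
      Set.InjOn (fun x : H => (QuotientGroup.mk x : H ⧸ N)) X ∧ FewProjections (H ⧸ N))
    (F : Type v) [Field F] [CharZero F] :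
    Ideal.jacobson (⊥ : Ideal (MonoidAlgebra F G)) = ⊥ := by
  classical
  rw [eq_bot_iff]
  intro a ha
  let H : Subgroup G := Subgroup.closure (a.coeff.support : Set G)
  have hfg : H.FG := ⟨a.coeff.support, rfl⟩
  have hmem : ∀ g ∈ a.coeff.support, g ∈ H := fun g hg => Subgroup.subset_closure hg
  let b : MonoidAlgebra F H := resG F H a
  have hb : extG F H b = a := by
    have e1 : a = ∑ g ∈ a.coeff.support.attach, MonoidAlgebra.single (g : G) (a.coeff g) := by
      conv_lhs => rw [← MonoidAlgebra.sum_coeff_single a, Finsupp.sum]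
      rw [← Finset.sum_attach a.coeff.support]
    have e2 : b = ∑ g ∈ a.coeff.support.attach,
        MonoidAlgebra.single (⟨g, hmem g g.2⟩ : H) (a.coeff g) := by
      change resG F H a = _
      conv_lhs => rw [e1]
      rw [map_sum]
      exact Finset.sum_congr rfl fun g _ => resG_single_mem H _ (hmem g g.2) _
    rw [e2, map_sum]
    conv_rhs => rw [e1]
    exact Finset.sum_congr rfl fun g _ => extG_single H _ _
  have hbJ : b ∈ Ideal.jacobson (⊥ : Ideal (MonoidAlgebra F H)) :=
    mem_jacobson_of_subgroup H (by rw [hb]; exact ha)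
  obtain ⟨N, hN, hinj, hfew⟩ := hG H hfg b.coeff.support
  let q : MonoidAlgebra F H →+* MonoidAlgebra F (H ⧸ N) :=
    MonoidAlgebra.mapDomainRingHom F (QuotientGroup.mk' N)
  have hq : Function.Surjective q := by
    intro c
    induction c using MonoidAlgebra.induction_linear with
    | zero => exact ⟨0, map_zero q⟩
    | add c d hc hd =>
      obtain ⟨c', rfl⟩ := hc
      obtain ⟨d', rfl⟩ := hd
      exact ⟨c' + d', map_add q _ _⟩
    | single x c =>
      obtain ⟨h, rfl⟩ := QuotientGroup.mk'_surjective N x
      exact ⟨MonoidAlgebra.single h c, by simp [q]⟩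
  have h1 := jac_map q hq hbJ
  rw [jacobson_of_few _ hfew F, Ideal.mem_bot] at h1
  have h0 : b = 0 := by
    ext g
    rw [MonoidAlgebra.coeff_zero, Finsupp.coe_zero, Pi.zero_apply]
    by_contra hg
    have hg' : g ∈ b.coeff.support := Finsupp.mem_support_iff.mpr hg
    have h2 := congrArg (fun c : MonoidAlgebra F (H ⧸ N) => c.coeff (QuotientGroup.mk g)) h1
    have h3 : (q b).coeff (QuotientGroup.mk g) = b.coeff g := by
      change (Finsupp.mapDomain _ b.coeff) _ = _
      exact Finsupp.mapDomain_apply' (b.coeff.support : Set H) b.coeff (by simp) hinj hg'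
    simp only [MonoidAlgebra.coeff_zero, Finsupp.coe_zero, Pi.zero_apply] at h2
    rw [h3] at h2
    exact hg h2
  rw [← hb, h0, map_zero]
  exact Ideal.zero_mem _

end Pool.Agent.H379R3.CS
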