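import Mathlib

/-!
# Semisimplicity of group algebras and projections in group C*-algebras

If the complex group algebra of `G` embeds (as a star algebra) in a C*-algebra without an
infinite sequence of pairwise orthogonal nonzero projections, then the group algebra `F[G]` over
every conjugation-stable subfield `F` of `ℂ` (for instance `ℚ`) has zero Jacobson radical.
-/

set_option autoImplicit false

namespace Pool.Agent.H379R3.CS

open Polynomial Set

/-- A star ring has no infinite sequence of pairwise orthogonal nonzero projections. -/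
def NoInfiniteProjections (A : Type*) [Ring A] [StarRing A] : Prop :=
  ¬ ∃ p : ℕ → A, (∀ n, star (p n) = p n ∧ p n * p n = p n ∧ p n ≠ 0) ∧
    ∀ m n, m ≠ n → p m * p n = 0

/-! ### Sequences of intervals -/

lemma exists_nonzero_rat_btwn {a b : ℝ} (h : a < b) : ∃ q : ℚ, q ≠ 0 ∧ a < q ∧ (q : ℝ) < b := by
  obtain ⟨q, hq1, hq2⟩ := exists_rat_btwn h
  by_cases hq : q = 0
  · obtain ⟨r, hr1, hr2⟩ := exists_rat_btwn hq2
    refine ⟨r, ?_, hq1.trans hr1, hr2⟩
    rintro rfl
    subst hq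
    exact lt_irrefl _ hr1
  · exact ⟨q, hq, hq1, hq2⟩

lemma exists_intervals (K : Set ℝ) (hK : K.Infinite) (hq : ∀ q : ℚ, q ≠ 0 → (q : ℝ) ∉ K) :
    ∃ u v : ℕ → ℝ, (∀ n, u n ∉ K ∧ v n ∉ K) ∧ (∀ n, (Ioo (u n) (v n) ∩ K).Nonempty) ∧
      ∀ m n, m ≠ n → ∀ t, t ∈ Ioo (u m) (v m) → t ∉ Ioo (u n) (v n) := by
  obtain ⟨f⟩ : Nonempty (ℕ ↪ K) := ⟨hK.natEmbedding⟩
  let f' : ℕ → ℝ := fun n => (f n : ℝ)
  have hinj : Function.Injective f' := fun a b h => f.injective (Subtype.ext h)
  obtain ⟨g, hg⟩ := exists_increasing_or_nonincreasing_subseq (· < ·) f'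
  rcases hg with hg | hg
  · have hlt : ∀ n, f' (g n) < f' (g (n + 1)) := fun n => hg n (n + 1) (Nat.lt_succ_self n)
    choose q hq0 hq1 hq2 using fun n => exists_nonzero_rat_btwn (hlt n)
    have hmono : StrictMono (fun n => (q n : ℝ)) :=
      strictMono_nat_of_lt_succ fun n => (hq2 n).trans (hq1 (n + 1))
    refine ⟨fun n => q n, fun n => q (n + 1), fun n => ⟨hq _ (hq0 _), hq _ (hq0 _)⟩,
      fun n => ⟨f' (g (n + 1)), ⟨hq2 n, hq1 (n + 1)⟩, (f (g (n + 1))).2⟩, ?_⟩
    have key : ∀ m n, m < n → ∀ t : ℝ, t ∈ Ioo (q m : ℝ) (q (m + 1)) →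
        t ∉ Ioo (q n : ℝ) (q (n + 1)) := by
      intro m n hmn t ht ht'
      have : (q (m + 1) : ℝ) ≤ q n := hmono.monotone hmn
      exact absurd (ht.2.trans_le this) (not_lt.mpr ht'.1.le)
    intro m n hmn t ht ht'
    rcases lt_or_gt_of_ne hmn with h | h
    · exact key m n h t ht ht'
    · exact key n m h t ht' ht
  · have hlt : ∀ n, f' (g (n + 1)) < f' (g n) := fun n =>
      lt_of_le_of_ne (not_lt.mp (hg n (n + 1) (Nat.lt_succ_self n)))
        (fun h => absurd (g.injective (hinj h)) (by omega))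
    choose q hq0 hq1 hq2 using fun n => exists_nonzero_rat_btwn (hlt n)
    have hanti : StrictAnti (fun n => (q n : ℝ)) :=
      strictAnti_nat_of_succ_lt fun n => (hq2 (n + 1)).trans (hq1 n)
    refine ⟨fun n => q (n + 1), fun n => q n, fun n => ⟨hq _ (hq0 _), hq _ (hq0 _)⟩,
      fun n => ⟨f' (g (n + 1)), ⟨hq2 (n + 1), hq1 n⟩, (f (g (n + 1))).2⟩, ?_⟩
    have key : ∀ m n, m < n → ∀ t : ℝ, t ∈ Ioo (q (m + 1) : ℝ) (q m) →
        t ∉ Ioo (q (n + 1) : ℝ) (q n) := by
      intro m n hmn t ht ht'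
      have : (q n : ℝ) ≤ q (m + 1) := hanti.antitone hmn
      exact absurd (ht'.2.trans_le this) (not_lt.mpr ht.1.le)
    intro m n hmn t ht ht'
    rcases lt_or_gt_of_ne hmn with h | h
    · exact key m n h t ht ht'
    · exact key n m h t ht' ht

/-! ### Self-adjoint elements whose spectrum avoids the nonzero rationals -/

section CStar

variable {A : Type*} [CStarAlgebra A]

lemma continuousOn_indicator {K : Set ℝ} {u v : ℝ} (hu : u ∉ K) (hv : v ∉ K) :
    ContinuousOn (indicator (Ioo u v) (fun _ => (1 : ℝ))) K := by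
  intro t ht
  by_cases h : t ∈ Ioo u v
  · have : (indicator (Ioo u v) (fun _ => (1 : ℝ))) =ᶠ[nhds t] fun _ => (1 : ℝ) := by
      filter_upwards [isOpen_Ioo.mem_nhds h] with s hs
      simp [indicator_of_mem hs]
    exact (continuousAt_const.congr this.symm).continuousWithinAt
  · have ht' : t ∈ (Icc u v)ᶜ := by
      intro h'
      apply h
      refine ⟨lt_of_le_of_ne h'.1 ?_, lt_of_le_of_ne h'.2 ?_⟩
      · rintro rfl; exact hu ht
      · rintro rfl; exact hv ht
    have : (indicator (Ioo u v) (fun _ => (1 : ℝ))) =ᶠ[nhds t] fun _ => (0 : ℝ) := by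
      filter_upwards [isClosed_Icc.isOpen_compl.mem_nhds ht'] with s hs
      rw [indicator_of_notMem]
      intro hs'
      exact hs (Ioo_subset_Icc_self hs')
    exact (continuousAt_const.congr this.symm).continuousWithinAt

lemma spectrum_finite (hA : NoInfiniteProjections A) (x : A) (hx : IsSelfAdjoint x)
    (hq : ∀ q : ℚ, q ≠ 0 → (q : ℝ) ∉ spectrum ℝ x) : (spectrum ℝ x).Finite := by
  by_contra hK
  obtain ⟨u, v, huv, hne, hdis⟩ := exists_intervals (spectrum ℝ x) hK hq
  apply hA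
  let χ : ℕ → ℝ → ℝ := fun n => indicator (Ioo (u n) (v n)) (fun _ => (1 : ℝ))
  have hcont : ∀ n, ContinuousOn (χ n) (spectrum ℝ x) := fun n =>
    continuousOn_indicator (huv n).1 (huv n).2
  refine ⟨fun n => cfc (χ n) x, fun n => ⟨?_, ?_, ?_⟩, ?_⟩
  · exact (cfc_predicate (χ n) x : IsSelfAdjoint _)
  · rw [← cfc_mul (χ n) (χ n) x (hcont n) (hcont n)]
    congr 1
    funext t
    by_cases h : t ∈ Ioo (u n) (v n)
    · simp [χ, indicator_of_mem h]
    · simp [χ, indicator_of_notMem h]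
  · intro h0
    obtain ⟨t, ht, htK⟩ := hne n
    have h1 : (1 : ℝ) ∈ spectrum ℝ (cfc (χ n) x) := by
      rw [cfc_map_spectrum (χ n) x hx (hcont n)]
      exact ⟨t, htK, by simp [χ, indicator_of_mem ht]⟩
    change cfc (χ n) x = 0 at h0
    rw [h0] at h1
    have : Nontrivial A := by
      by_contra hA'
      rw [not_nontrivial_iff_subsingleton] at hA'
      rw [spectrum.of_subsingleton] at h1
      exact h1
    rw [spectrum.zero_eq] at h1
    exact one_ne_zero h1
  · intro m n hmn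
    rw [← cfc_mul (χ m) (χ n) x (hcont m) (hcont n)]
    have : (fun t => χ m t * χ n t) = fun _ => (0 : ℝ) := by
      funext t
      by_cases h : t ∈ Ioo (u m) (v m)
      · simp [χ, indicator_of_notMem (hdis m n hmn t h)]
      · simp [χ, indicator_of_notMem h]
    rw [this]
    exact cfc_zero ℝ x

lemma exists_poly (x : A) (hx : IsSelfAdjoint x) (hfin : (spectrum ℝ x).Finite) :
    ∃ P : ℝ[X], P ≠ 0 ∧ aeval x P = 0 := by
  classical
  refine ⟨∏ c ∈ hfin.toFinset, (X - C c), (monic_prod_of_monic _ _ fun c _ =>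
    monic_X_sub_C c).ne_zero, ?_⟩
  rw [← cfc_polynomial _ x hx, ← cfc_zero ℝ x]
  apply cfc_congr
  intro t ht
  simp only [Pi.zero_apply, eval_prod, eval_sub, eval_X, eval_C]
  exact Finset.prod_eq_zero (hfin.mem_toFinset.mpr ht) (sub_self t)

lemma selfAdjoint_eq_zero_of_pow (x : A) (hx : IsSelfAdjoint x) (m : ℕ) (h : x ^ m = 0) :
    x = 0 := by
  have h2 : x ^ 2 ^ m = 0 := by
    have : m ≤ 2 ^ m := Nat.lt_two_pow_self.le
    rw [← Nat.sub_add_cancel this, pow_add, h, mul_zero]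
  have h3 := hx.nnnorm_pow_two_pow m
  rw [h2, nnnorm_zero] at h3
  have h4 : ‖x‖₊ = 0 := by
    by_contra hne
    exact (pow_ne_zero _ hne) h3.symm
  exact nnnorm_eq_zero.mp h4

lemma isUnit_of_left_inv (x y : A) (hx : IsSelfAdjoint x) (h : y * x = 1) : IsUnit x := by
  have h2 : x * star y = 1 := by
    have := congrArg star h
    rwa [star_mul, hx.star_eq, star_one] at this
  have h3 : y = star y := by
    calc y = y * (x * star y) := by rw [h2, mul_one]
      _ = (y * x) * star y := by rw [mul_assoc]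
      _ = star y := by rw [h, one_mul]
  exact ⟨⟨x, y, by rw [h3]; exact h2, h⟩, rfl⟩

end CStar

/-! ### Elements of the Jacobson radical -/

lemma jac_left_inv {R : Type*} [Ring R] {b : R} (hb : b ∈ Ideal.jacobson (⊥ : Ideal R)) (y : R) :
    ∃ z, z * (1 + y * b) = 1 := by
  obtain ⟨z, hz⟩ := Ideal.mem_jacobson_iff.mp hb y
  rw [Ideal.mem_bot, sub_eq_zero] at hz
  refine ⟨z, ?_⟩
  rw [mul_add, mul_one, ← mul_assoc, add_comm]
  exact hz

lemma nilpotent_of_aeval {K R : Type*} [Field K] [Ring R] [Algebra K R] {b : R}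
    (hb : b ∈ Ideal.jacobson (⊥ : Ideal R)) (f : K[X]) (hf : f ≠ 0) (h : aeval b f = 0) :
    ∃ m : ℕ, b ^ m = 0 := by
  obtain ⟨h', hfh, hnd⟩ := exists_eq_pow_rootMultiplicity_mul_and_not_dvd f hf 0
  set m := rootMultiplicity 0 f
  rw [C_0, sub_zero] at hfh hnd
  have h0 : h'.coeff 0 ≠ 0 := fun h0 => hnd (X_dvd_iff.mpr h0)
  obtain ⟨k, hk⟩ : X ∣ h' - C (h'.coeff 0) := by
    rw [X_dvd_iff]; simp
  have hk' : h' = C (h'.coeff 0) + k * X := by rw [mul_comm, ← hk]; ring
  set c := h'.coeff 0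
  obtain ⟨z, hz⟩ := jac_left_inv hb (c⁻¹ • aeval b k)
  refine ⟨m, ?_⟩
  have e1 : aeval b h' = c • (1 + (c⁻¹ • aeval b k) * b) := by
    rw [hk', map_add, map_mul, aeval_C, aeval_X, smul_add, smul_mul_assoc, smul_smul,
      mul_inv_cancel₀ h0, one_smul, Algebra.algebraMap_eq_smul_one]
  have e2 : aeval b h' * b ^ m = 0 := by
    rw [hfh, mul_comm, map_mul, map_pow, aeval_X] at h
    exact h
  rw [e1, smul_mul_assoc] at e2
  have e3 : (1 + (c⁻¹ • aeval b k) * b) * b ^ m = 0 := by
    have := congrArg (c⁻¹ • ·) e2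
    simpa [smul_smul, inv_mul_cancel₀ h0] using this
  calc b ^ m = (z * (1 + (c⁻¹ • aeval b k) * b)) * b ^ m := by rw [hz, one_mul]
    _ = 0 := by rw [mul_assoc, e3, mul_zero]

/-! ### The group algebra -/

section Group

variable {G : Type*} [Group G] {A : Type*} [CStarAlgebra A]

/-- coefficient extension `F[G] → ℂ[G]` -/
noncomputable def iota (F : Subfield ℂ) (G : Type*) [Group G] :
    MonoidAlgebra F G →+* MonoidAlgebra ℂ G :=
  MonoidAlgebra.mapRingHom G F.subtype

lemma iota_coeff (F : Subfield ℂ) (a : MonoidAlgebra F G) (g : G) :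
    (iota F G a).coeff g = ((a.coeff g : F) : ℂ) := by
  simp [iota]

lemma iota_injective (F : Subfield ℂ) : Function.Injective (iota F G) := by
  intro a b h
  ext g
  have := congrArg (fun c : MonoidAlgebra ℂ G => c.coeff g) h
  simpa [iota_coeff] using this

lemma iota_single (F : Subfield ℂ) (g : G) (c : F) :
    iota F G (MonoidAlgebra.single g c) = MonoidAlgebra.single g (c : ℂ) := by
  simp [iota]

lemma exists_star (F : Subfield ℂ) (hF : ∀ x ∈ F, star x ∈ F)
    (π : MonoidAlgebra ℂ G →ₐ[ℂ] A)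
    (hu : ∀ g : G, star (π (MonoidAlgebra.single g 1)) = π (MonoidAlgebra.single g⁻¹ 1))
    (a : MonoidAlgebra F G) : ∃ a' : MonoidAlgebra F G, π (iota F G a') = star (π (iota F G a)) := by
  induction a using MonoidAlgebra.induction_linear with
  | zero => exact ⟨0, by simp⟩
  | add a b ha hb =>
    obtain ⟨a', ha'⟩ := ha
    obtain ⟨b', hb'⟩ := hb
    refine ⟨a' + b', ?_⟩
    rw [map_add, map_add, ha', hb', ← star_add, ← map_add, ← map_add]
  | single g c =>
    refine ⟨MonoidAlgebra.single g⁻¹ ⟨star (c : ℂ), hF _ c.2⟩, ?_⟩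
    have e : ∀ (h : G) (d : ℂ), π (MonoidAlgebra.single h d) = d • π (MonoidAlgebra.single h 1) := by
      intro h d
      rw [← map_smul]
      congr 1
      simp
    rw [iota_single, iota_single, e, e g, star_smul, hu]

/-- a complex polynomial relation of an element of `F[G]` gives one over `F` -/
lemma descend (F : Subfield ℂ) (b : MonoidAlgebra F G) (P : ℂ[X]) (hP : P ≠ 0)
    (h : aeval (iota F G b) P = 0) : ∃ f : F[X], f ≠ 0 ∧ aeval b f = 0 := by
  obtain ⟨k₀, hk₀⟩ : ∃ k, P.coeff k ≠ 0 := by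
    by_contra hcon
    push_neg at hcon
    exact hP (Polynomial.ext fun k => by rw [hcon k, coeff_zero])
  obtain ⟨φ, hφ⟩ : ∃ φ : Module.Dual F ℂ, φ (P.coeff k₀) ≠ 0 := by
    by_contra hcon
    push_neg at hcon
    exact hk₀ ((Module.forall_dual_apply_eq_zero_iff F _).mp hcon)
  refine ⟨∑ k ∈ Finset.range (P.natDegree + 1), monomial k (φ (P.coeff k)), ?_, ?_⟩
  · intro h0
    have h1 := congrArg (fun q : F[X] => q.coeff k₀) h0
    simp only [finsetSum_coeff, coeff_monomial, coeff_zero] at h1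
    rw [Finset.sum_ite_eq' (Finset.range (P.natDegree + 1)) k₀] at h1
    have hmem : k₀ ∈ Finset.range (P.natDegree + 1) :=
      Finset.mem_range.mpr (Nat.lt_succ_of_le (le_natDegree_of_ne_zero hk₀))
    rw [if_pos hmem] at h1
    exact hφ h1
  · ext g
    rw [map_sum]
    simp only [aeval_monomial]
    have h2 : ∀ k, ((iota F G b) ^ k).coeff g = (((b ^ k).coeff g : F) : ℂ) := by
      intro k
      rw [← map_pow, iota_coeff]
    have h3 : ∑ k ∈ Finset.range (P.natDegree + 1), P.coeff k * (((b ^ k).coeff g : F) : ℂ) = 0 := by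
      rw [aeval_eq_sum_range] at h
      have h4 := congrArg (fun c : MonoidAlgebra ℂ G => c.coeff g) h
      simp only [MonoidAlgebra.coeff_sum, Finsupp.coe_finset_sum, Finset.sum_apply,
        MonoidAlgebra.coeff_smul_apply, h2, smul_eq_mul, MonoidAlgebra.coeff_zero,
        Finsupp.coe_zero, Pi.zero_apply] at h4
      exact h4
    have h5 := congrArg φ h3
    rw [map_sum, map_zero] at h5
    rw [MonoidAlgebra.coeff_sum, Finsupp.coe_finset_sum, Finset.sum_apply]
    have h6 : ∀ k, ((algebraMap F (MonoidAlgebra F G)) (φ (P.coeff k)) * b ^ k).coeff g =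
        φ (P.coeff k * (((b ^ k).coeff g : F) : ℂ)) := by
      intro k
      rw [← Algebra.smul_def, MonoidAlgebra.coeff_smul_apply, smul_eq_mul, mul_comm (P.coeff k)]
      have : (((b ^ k).coeff g : F) : ℂ) * P.coeff k = ((b ^ k).coeff g : F) • P.coeff k := rfl
      rw [this, map_smul, smul_eq_mul, mul_comm]
    simp only [h6]
    rw [h5]
    simp

/-- **Main theorem, abstract form.** -/
theorem jacobson_eq_bot (F : Subfield ℂ) (hF : ∀ x ∈ F, star x ∈ F)
    (π : MonoidAlgebra ℂ G →ₐ[ℂ] A) (hinj : Function.Injective π)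
    (hu : ∀ g : G, star (π (MonoidAlgebra.single g 1)) = π (MonoidAlgebra.single g⁻¹ 1))
    (hA : NoInfiniteProjections A) :
    Ideal.jacobson (⊥ : Ideal (MonoidAlgebra F G)) = ⊥ := by
  rw [eq_bot_iff]
  intro a ha
  obtain ⟨a', ha'⟩ := exists_star F hF π hu a
  set b := a' * a with hb
  have hbJ : b ∈ Ideal.jacobson (⊥ : Ideal (MonoidAlgebra F G)) :=
    Ideal.mul_mem_left _ _ ha
  have hπb : π (iota F G b) = star (π (iota F G a)) * π (iota F G a) := by
    rw [hb, map_mul, map_mul, ha']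
  have hsa : IsSelfAdjoint (π (iota F G b)) := by
    rw [hπb]; exact IsSelfAdjoint.star_mul_self _
  have hq : ∀ q : ℚ, q ≠ 0 → (q : ℝ) ∉ spectrum ℝ (π (iota F G b)) := by
    intro q hq0 hmem
    rw [spectrum.mem_iff] at hmem
    apply hmem
    have hq0' : (q : F) ≠ 0 := by exact_mod_cast hq0
    obtain ⟨z, hz⟩ := jac_left_inv hbJ (-(MonoidAlgebra.single 1 ((q : F)⁻¹)))
    have e1 : MonoidAlgebra.single (1 : G) ((q : F)⁻¹) * MonoidAlgebra.single 1 (q : F) = 1 := by
      rw [MonoidAlgebra.single_mul_single, one_mul, inv_mul_cancel₀ hq0']; rfl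
    have e2 : (z * MonoidAlgebra.single 1 ((q : F)⁻¹)) * (MonoidAlgebra.single 1 (q : F) - b) = 1 := by
      rw [mul_assoc, mul_sub, e1]
      rw [neg_mul, ← sub_eq_add_neg] at hz
      exact hz
    have e3 : π (iota F G (MonoidAlgebra.single 1 (q : F))) = algebraMap ℝ A (q : ℝ) := by
      rw [iota_single]
      have : (MonoidAlgebra.single (1 : G) (((q : F)) : ℂ) : MonoidAlgebra ℂ G) =
          algebraMap ℂ (MonoidAlgebra ℂ G) (q : ℂ) := by
        rw [MonoidAlgebra.coe_algebraMap]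
        simp
      rw [this, AlgHom.commutes, IsScalarTower.algebraMap_apply ℝ ℂ A]
      simp
    have e4 := congrArg (fun c => π (iota F G c)) e2
    simp only [map_mul, map_sub, map_one] at e4
    rw [e3] at e4
    refine isUnit_of_left_inv _ _ ?_ e4
    exact (IsSelfAdjoint.algebraMap A (IsSelfAdjoint.all (q : ℝ))).sub hsa
  have hfin := spectrum_finite hA _ hsa hq
  obtain ⟨P, hP, hPb⟩ := exists_poly _ hsa hfin
  have hPC : aeval (iota F G b) (P.map (algebraMap ℝ ℂ)) = 0 := by
    apply hinj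
    rw [map_zero, ← Polynomial.aeval_algHom_apply, Polynomial.aeval_map_algebraMap]
    exact hPb
  obtain ⟨f, hf, hfb⟩ := descend F b (P.map (algebraMap ℝ ℂ))
    ((Polynomial.map_ne_zero_iff (algebraMap ℝ ℂ).injective).mpr hP) hPC
  obtain ⟨m, hm⟩ := nilpotent_of_aeval hbJ f hf hfb
  have hb0 : π (iota F G b) = 0 := by
    apply selfAdjoint_eq_zero_of_pow _ hsa m
    rw [← map_pow, ← map_pow, hm, map_zero, map_zero]
  rw [hπb, CStarRing.star_mul_self_eq_zero_iff] at hb0
  have : a = 0 := by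
    apply iota_injective F
    apply hinj
    rw [hb0, map_zero, map_zero]
  rw [this]
  exact Ideal.zero_mem _

end Group

end Pool.Agent.H379R3.CS
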