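import Pool.Agent.H379R3.CStarProj

/-!
# The left regular representation and the reduced group C*-algebra
-/

set_option autoImplicit false

namespace Pool.Agent.H379R3.CS

open scoped ENNReal

variable {G : Type*} [Group G]

/-- the Hilbert space `ℓ²(G)` -/
abbrev L2 (G : Type*) : Type _ := lp (fun _ : G => ℂ) 2

lemma memlp_shift (g : G) (f : L2 G) : Memℓp (fun x => (f : G → ℂ) (g⁻¹ * x)) 2 := by
  have hp : 0 < (2 : ℝ≥0∞).toReal := by norm_num
  rw [memℓp_gen_iff hp]
  have h := (memℓp_gen_iff hp).mp f.2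
  exact (Equiv.mulLeft g⁻¹).summable_iff (f := fun x => ‖(f : G → ℂ) x‖ ^ (2 : ℝ≥0∞).toReal) |>.mpr h

/-- translation of `ℓ²(G)`: `(shift g f) x = f (g⁻¹ x)` -/
noncomputable def shift (g : G) : L2 G →L[ℂ] L2 G :=
  LinearMap.mkContinuous
    { toFun := fun f => ⟨fun x => (f : G → ℂ) (g⁻¹ * x), memlp_shift g f⟩
      map_add' := fun _ _ => rfl
      map_smul' := fun _ _ => rfl } 1 (by
    intro f
    rw [one_mul]
    have hp : 0 < (2 : ℝ≥0∞).toReal := by norm_num
    rw [lp.norm_eq_tsum_rpow hp, lp.norm_eq_tsum_rpow hp]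
    apply le_of_eq
    congr 1
    exact (Equiv.mulLeft g⁻¹).tsum_eq (fun x => ‖(f : G → ℂ) x‖ ^ (2 : ℝ≥0∞).toReal))

lemma shift_apply (g : G) (f : L2 G) (x : G) : (shift g f : G → ℂ) x = (f : G → ℂ) (g⁻¹ * x) := rfl

lemma shift_one : shift (1 : G) = 1 := by
  ext f x
  rw [shift_apply]
  simp

lemma shift_mul (g h : G) : shift (g * h) = shift g * shift h := by
  ext f x
  rw [mul_apply_eq_comp, shift_apply, shift_apply, shift_apply]
  simp [mul_assoc]

lemma star_shift (g : G) : star (shift g) = shift g⁻¹ := by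
  rw [ContinuousLinearMap.star_eq_adjoint]
  symm
  rw [ContinuousLinearMap.eq_adjoint_iff]
  intro u v
  rw [lp.inner_eq_tsum, lp.inner_eq_tsum,
    ← (Equiv.mulLeft g).tsum_eq (fun x => inner ℂ ((u : G → ℂ) x) ((shift g v : G → ℂ) x))]
  congr 1
  funext x
  rw [Equiv.coe_mulLeft, shift_apply, shift_apply, inv_inv, inv_mul_cancel_left]

/-- the reduced group C*-algebra: the closed star subalgebra of the bounded operators on `ℓ²(G)`
generated by the translations -/
noncomputable def reducedCStar (G : Type*) [Group G] : StarSubalgebra ℂ (L2 G →L[ℂ] L2 G) :=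
  (StarAlgebra.adjoin ℂ (Set.range (shift : G → L2 G →L[ℂ] L2 G))).topologicalClosure

instance isClosed_reducedCStar : IsClosed (reducedCStar G : Set (L2 G →L[ℂ] L2 G)) :=
  StarSubalgebra.isClosed_topologicalClosure _

lemma shift_mem (g : G) : shift g ∈ reducedCStar G :=
  StarSubalgebra.le_topologicalClosure _ (StarAlgebra.subset_adjoin ℂ _ ⟨g, rfl⟩)

/-- the regular representation as a monoid homomorphism -/
noncomputable def regHom (G : Type*) [Group G] : G →* reducedCStar G where
  toFun g := ⟨shift g, shift_mem g⟩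
  map_one' := Subtype.ext shift_one
  map_mul' g h := Subtype.ext (shift_mul g h)

/-- the regular representation of the complex group algebra -/
noncomputable def reg (G : Type*) [Group G] : MonoidAlgebra ℂ G →ₐ[ℂ] reducedCStar G :=
  MonoidAlgebra.lift ℂ (reducedCStar G) G (regHom G)

lemma reg_single (g : G) (c : ℂ) :
    reg G (MonoidAlgebra.single g c) = c • (⟨shift g, shift_mem g⟩ : reducedCStar G) := by
  rw [reg, MonoidAlgebra.lift_single]
  rfl

lemma reg_star (g : G) :
    star (reg G (MonoidAlgebra.single g 1)) = reg G (MonoidAlgebra.single g⁻¹ 1) := by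
  rw [reg_single, reg_single, one_smul, one_smul]
  exact Subtype.ext (star_shift g)

open Classical in
lemma reg_delta (a : MonoidAlgebra ℂ G) (x : G) :
    (((reg G a : reducedCStar G) : L2 G →L[ℂ] L2 G) (lp.single 2 (1 : G) (1 : ℂ)) : G → ℂ) x =
      a.coeff x := by
  induction a using MonoidAlgebra.induction_linear with
  | zero => simp
  | add a b ha hb =>
    rw [map_add]
    change (((reg G a : reducedCStar G) : L2 G →L[ℂ] L2 G) (lp.single 2 (1 : G) (1 : ℂ)) : G → ℂ) x
      + (((reg G b : reducedCStar G) : L2 G →L[ℂ] L2 G) (lp.single 2 (1 : G) (1 : ℂ)) : G → ℂ) x = _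
    rw [ha, hb]
    rfl
  | single g c =>
    rw [reg_single]
    change c * (lp.single 2 (1 : G) (1 : ℂ) : G → ℂ) (g⁻¹ * x) = _
    rw [MonoidAlgebra.coeff_single, Finsupp.single_apply]
    by_cases h : g = x
    · subst h
      rw [inv_mul_cancel, lp.single_apply_self, mul_one, if_pos rfl]
    · rw [if_neg h, lp.single_apply_ne, mul_zero]
      intro h'
      exact h (inv_mul_eq_one.mp h')

lemma reg_injective : Function.Injective (reg G) := by
  classical
  intro a b h
  ext x
  rw [← reg_delta a x, ← reg_delta b x, h]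

/-- **Reduced group C*-algebra version.** -/
theorem jacobson_eq_bot_of_reduced (F : Subfield ℂ) (hF : ∀ x ∈ F, star x ∈ F)
    (hA : NoInfiniteProjections (reducedCStar G)) :
    Ideal.jacobson (⊥ : Ideal (MonoidAlgebra F G)) = ⊥ :=
  jacobson_eq_bot F hF (reg G) reg_injective reg_star hA

end Pool.Agent.H379R3.CS
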