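import Mathlib

/-! The explicit foliation form `W0`, the obstructed deformation `W1`, and the polynomial
identities they satisfy. -/

set_option autoImplicit false

namespace Pool.Agent.H379R3

open MvPolynomial

variable (K : Type*) [CommRing K]

/-- The form `x₀x₁x₂ g (dg/g - dx₀/x₀ - 2 dx₁/x₁ - 3 dx₂/x₂)` with `g = x₀⁶ + x₁⁶ + x₂⁶ + x₃⁶`. -/
noncomputable def W0 : Fin 4 → MvPolynomial (Fin 4) K :=
  ![X 1 * X 2 * (5 * X 0 ^ 6 - X 1 ^ 6 - X 2 ^ 6 - X 3 ^ 6),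
    X 0 * X 2 * (4 * X 1 ^ 6 - 2 * X 0 ^ 6 - 2 * X 2 ^ 6 - 2 * X 3 ^ 6),
    X 0 * X 1 * (3 * X 2 ^ 6 - 3 * X 0 ^ 6 - 3 * X 1 ^ 6 - 3 * X 3 ^ 6),
    6 * (X 0 * X 1 * X 2 * X 3 ^ 5)]

/-- The obstructed first order deformation. -/
noncomputable def W1 : Fin 4 → MvPolynomial (Fin 4) K :=
  ![X 0 * X 1 ^ 3 * X 2 ^ 4,
    - (X 0 ^ 2 * X 1 ^ 2 * X 2 ^ 4) + X 0 * X 2 * (X 0 ^ 6 + X 1 ^ 6 + X 2 ^ 6 + X 3 ^ 6),
    - (X 0 * X 1 * (X 0 ^ 6 + X 1 ^ 6 + X 2 ^ 6 + X 3 ^ 6)),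
    0]

variable {K}

/-- components of the exterior derivative -/
noncomputable def D (w : Fin 4 → MvPolynomial (Fin 4) K) (i j : Fin 4) : MvPolynomial (Fin 4) K :=
  pderiv i (w j) - pderiv j (w i)

/-- components of `w ∧ dw` -/
noncomputable def T (w : Fin 4 → MvPolynomial (Fin 4) K) (i j k : Fin 4) :
    MvPolynomial (Fin 4) K :=
  w i * D w j k + w j * D w k i + w k * D w i j

/-- the polarisation of `dw ∧ dw` -/
noncomputable def B (w t : Fin 4 → MvPolynomial (Fin 4) K) : MvPolynomial (Fin 4) K :=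
  D w 0 1 * D t 2 3 + D w 2 3 * D t 0 1 - D w 0 2 * D t 1 3 - D w 1 3 * D t 0 2
    + D w 0 3 * D t 1 2 + D w 1 2 * D t 0 3

/-- half of `dw ∧ dw` -/
noncomputable def Pf (w : Fin 4 → MvPolynomial (Fin 4) K) : MvPolynomial (Fin 4) K :=
  D w 0 1 * D w 2 3 - D w 0 2 * D w 1 3 + D w 0 3 * D w 1 2

theorem D_self (w : Fin 4 → MvPolynomial (Fin 4) K) (i : Fin 4) : D w i i = 0 := by
  simp [D]

theorem D_swap (w : Fin 4 → MvPolynomial (Fin 4) K) (i j : Fin 4) : D w i j = - D w j i := by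
  simp [D]

theorem D_add (w t : Fin 4 → MvPolynomial (Fin 4) K) (i j : Fin 4) :
    D (fun l => w l + t l) i j = D w i j + D t i j := by
  simp only [D, map_add]; ring

theorem D_C_mul (e : K) (w : Fin 4 → MvPolynomial (Fin 4) K) (i j : Fin 4) :
    D (fun l => C e * w l) i j = C e * D w i j := by
  simp only [D, pderiv_C_mul, MvPolynomial.smul_eq_C_mul]; ring

theorem pd_ofNat (i : Fin 4) (n : ℕ) [n.AtLeastTwo] :
    pderiv i (ofNat(n) : MvPolynomial (Fin 4) K) = 0 :=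
  (pderiv i).map_natCast n

theorem pderiv_ite (i : Fin 4) (p : Prop) [Decidable p] :
    pderiv i (if p then 1 else 0 : MvPolynomial (Fin 4) K) = 0 := by
  split_ifs <;> simp

theorem pderiv_pderiv_comm' (i j : Fin 4) (p : MvPolynomial (Fin 4) K) :
    pderiv i (pderiv j p) = pderiv j (pderiv i p) := by
  classical
  induction p using MvPolynomial.induction_on with
  | C a => simp
  | add p q hp hq => simp [hp, hq]
  | mul_X p k hp =>
    simp only [Derivation.leibniz, pderiv_X, smul_eq_mul, map_add, hp, Pi.single_apply,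
      pderiv_ite]
    ring

theorem two_Pf (w : Fin 4 → MvPolynomial (Fin 4) K) :
    2 * Pf w = pderiv 0 (T w 1 2 3) - pderiv 1 (T w 0 2 3) + pderiv 2 (T w 0 1 3)
      - pderiv 3 (T w 0 1 2) := by
  simp only [Pf, T, D, Derivation.leibniz, map_add, map_sub, smul_eq_mul]
  rw [pderiv_pderiv_comm' 1 0 (w 2), pderiv_pderiv_comm' 1 0 (w 3), pderiv_pderiv_comm' 2 0 (w 1),
    pderiv_pderiv_comm' 2 0 (w 3), pderiv_pderiv_comm' 3 0 (w 1), pderiv_pderiv_comm' 3 0 (w 2),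
    pderiv_pderiv_comm' 2 1 (w 0), pderiv_pderiv_comm' 2 1 (w 3), pderiv_pderiv_comm' 3 1 (w 0),
    pderiv_pderiv_comm' 3 1 (w 2), pderiv_pderiv_comm' 3 2 (w 0), pderiv_pderiv_comm' 3 2 (w 1)]
  ring


theorem DW0_01 : D (W0 K) 0 1 = X 2 * (11 * X 1 ^ 6 - 19 * X 0 ^ 6 - X 2 ^ 6 - X 3 ^ 6) := by
  simp [D, W0, pderiv_X, Derivation.leibniz_pow, pd_ofNat]
  ring

theorem DW0_02 : D (W0 K) 0 2 = X 1 * (10 * X 2 ^ 6 - 26 * X 0 ^ 6 - 2 * X 1 ^ 6 - 2 * X 3 ^ 6) := by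
  simp [D, W0, pderiv_X, Derivation.leibniz_pow, pd_ofNat]
  ring

theorem DW0_12 : D (W0 K) 1 2 = X 0 * (17 * X 2 ^ 6 - X 0 ^ 6 - 25 * X 1 ^ 6 - X 3 ^ 6) := by
  simp [D, W0, pderiv_X, Derivation.leibniz_pow, pd_ofNat]
  ring

theorem DW0_03 : D (W0 K) 0 3 = 12 * (X 1 * X 2 * X 3 ^ 5) := by
  simp [D, W0, pderiv_X, Derivation.leibniz_pow, pd_ofNat]
  ring

theorem DW0_13 : D (W0 K) 1 3 = 18 * (X 0 * X 2 * X 3 ^ 5) := by
  simp [D, W0, pderiv_X, Derivation.leibniz_pow, pd_ofNat]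
  ring

theorem DW0_23 : D (W0 K) 2 3 = 24 * (X 0 * X 1 * X 3 ^ 5) := by
  simp [D, W0, pderiv_X, Derivation.leibniz_pow, pd_ofNat]
  ring

theorem DW1_01 : D (W1 K) 0 1 = - (5 * (X 0 * X 1 ^ 2 * X 2 ^ 4)) +
    X 2 * (7 * X 0 ^ 6 + X 1 ^ 6 + X 2 ^ 6 + X 3 ^ 6) := by
  simp [D, W1, pderiv_X, Derivation.leibniz_pow, pd_ofNat]
  ring

theorem DW1_02 : D (W1 K) 0 2 = - (4 * (X 0 * X 1 ^ 3 * X 2 ^ 3)) -
    X 1 * (7 * X 0 ^ 6 + X 1 ^ 6 + X 2 ^ 6 + X 3 ^ 6) := by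
  simp [D, W1, pderiv_X, Derivation.leibniz_pow, pd_ofNat]
  ring

theorem DW1_12 : D (W1 K) 1 2 = 4 * (X 0 ^ 2 * X 1 ^ 2 * X 2 ^ 3) -
    X 0 * (2 * X 0 ^ 6 + 8 * X 1 ^ 6 + 8 * X 2 ^ 6 + 2 * X 3 ^ 6) := by
  simp [D, W1, pderiv_X, Derivation.leibniz_pow, pd_ofNat]
  ring

theorem DW1_03 : D (W1 K) 0 3 = 0 := by
  simp [D, W1, pderiv_X, Derivation.leibniz_pow, pd_ofNat]

theorem DW1_13 : D (W1 K) 1 3 = - (6 * (X 0 * X 2 * X 3 ^ 5)) := by
  simp [D, W1, pderiv_X, Derivation.leibniz_pow, pd_ofNat]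
  ring

theorem DW1_23 : D (W1 K) 2 3 = 6 * (X 0 * X 1 * X 3 ^ 5) := by
  simp [D, W1, pderiv_X, Derivation.leibniz_pow, pd_ofNat]
  ring

theorem Pf_W1 : Pf (W1 K) = - (54 * (X 0 ^ 2 * X 1 ^ 3 * X 2 ^ 4 * X 3 ^ 5)) := by
  rw [Pf, DW1_01, DW1_02, DW1_03, DW1_12, DW1_13, DW1_23]
  ring

theorem Pf_W0 : Pf (W0 K) = 0 := by
  rw [Pf, DW0_01, DW0_02, DW0_03, DW0_12, DW0_13, DW0_23]
  ring

theorem radial_W0 : ∑ i, X i * W0 K i = 0 := by
  simp [Fin.sum_univ_four, W0]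
  ring

theorem radial_W1 : ∑ i, X i * W1 K i = 0 := by
  simp [Fin.sum_univ_four, W1]
  ring

theorem T_W0 (i j k : Fin 4) : T (W0 K) i j k = 0 := by
  have h10 := D_swap (W0 K) 1 0
  have h20 := D_swap (W0 K) 2 0
  have h30 := D_swap (W0 K) 3 0
  have h21 := D_swap (W0 K) 2 1
  have h31 := D_swap (W0 K) 3 1
  have h32 := D_swap (W0 K) 3 2
  rw [DW0_01] at h10
  rw [DW0_02] at h20
  rw [DW0_03] at h30
  rw [DW0_12] at h21
  rw [DW0_13] at h31
  rw [DW0_23] at h32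
  fin_cases i <;> fin_cases j <;> fin_cases k <;>
    simp only [T, Fin.zero_eta, Fin.mk_one, Fin.reduceFinMk, D_self, h10, h20, h30, h21, h31, h32,
      DW0_01, DW0_02, DW0_03, DW0_12, DW0_13, DW0_23] <;>
    simp [W0] <;> ring

theorem T_cross (i j k : Fin 4) :
    W0 K i * D (W1 K) j k + W0 K j * D (W1 K) k i + W0 K k * D (W1 K) i j +
      (W1 K i * D (W0 K) j k + W1 K j * D (W0 K) k i + W1 K k * D (W0 K) i j) = 0 := by
  have h10 := D_swap (W0 K) 1 0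
  have h20 := D_swap (W0 K) 2 0
  have h30 := D_swap (W0 K) 3 0
  have h21 := D_swap (W0 K) 2 1
  have h31 := D_swap (W0 K) 3 1
  have h32 := D_swap (W0 K) 3 2
  have g10 := D_swap (W1 K) 1 0
  have g20 := D_swap (W1 K) 2 0
  have g30 := D_swap (W1 K) 3 0
  have g21 := D_swap (W1 K) 2 1
  have g31 := D_swap (W1 K) 3 1
  have g32 := D_swap (W1 K) 3 2
  rw [DW0_01] at h10
  rw [DW0_02] at h20
  rw [DW0_03] at h30
  rw [DW0_12] at h21
  rw [DW0_13] at h31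
  rw [DW0_23] at h32
  rw [DW1_01] at g10
  rw [DW1_02] at g20
  rw [DW1_03] at g30
  rw [DW1_12] at g21
  rw [DW1_13] at g31
  rw [DW1_23] at g32
  fin_cases i <;> fin_cases j <;> fin_cases k <;>
    simp only [Fin.zero_eta, Fin.mk_one, Fin.reduceFinMk, D_self, h10, h20, h30, h21, h31, h32,
      DW0_01, DW0_02, DW0_03, DW0_12, DW0_13, DW0_23, g10, g20, g30, g21, g31, g32,
      DW1_01, DW1_02, DW1_03, DW1_12, DW1_13, DW1_23] <;>
    simp [W0, W1] <;> ring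

/-- The family `W0 + e W1` is integrable to first order in `e`. -/
theorem T_family (e : K) (i j k : Fin 4) :
    T (fun l => W0 K l + C e * W1 K l) i j k = C (e ^ 2) * T (W1 K) i j k := by
  have h1 := T_W0 (K := K) i j k
  have h2 := T_cross (K := K) i j k
  have hD : ∀ a b, D (fun l => W0 K l + C e * W1 K l) a b = D (W0 K) a b + C e * D (W1 K) a b := by
    intro a b
    rw [D_add (W0 K) (fun l => C e * W1 K l), D_C_mul]
  simp only [T, hD] at h1 ⊢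
  rw [C_pow]
  linear_combination h1 + C e * h2

theorem Pf_add (w t : Fin 4 → MvPolynomial (Fin 4) K) :
    Pf (fun l => w l + t l) = Pf w + B w t + Pf t := by
  simp only [Pf, D_add, B]
  ring

theorem radial_family (e : K) : ∑ i, X i * (W0 K i + C e * W1 K i) = 0 := by
  have h1 := radial_W0 (K := K)
  have h2 := radial_W1 (K := K)
  have : ∑ i, X i * (W0 K i + C e * W1 K i) = ∑ i, X i * W0 K i + C e * ∑ i, X i * W1 K i := by
    rw [Finset.mul_sum, ← Finset.sum_add_distrib]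
    refine Finset.sum_congr rfl fun i _ => ?_
    ring
  rw [this, h1, h2]
  simp

/-! ### Coefficient extraction -/

/-- exponent vectors -/
noncomputable def E (a b c d : ℕ) : Fin 4 →₀ ℕ := Finsupp.equivFunOnFinite.symm ![a, b, c, d]

theorem E_le (a b c d a' b' c' d' : ℕ) :
    E a' b' c' d' ≤ E a b c d ↔ a' ≤ a ∧ b' ≤ b ∧ c' ≤ c ∧ d' ≤ d := by
  rw [← Finsupp.coe_le_coe, Pi.le_def]
  simp [E, Fin.forall_fin_succ]

theorem E_sub (a b c d a' b' c' d' : ℕ) :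
    E a b c d - E a' b' c' d' = E (a - a') (b - b') (c - c') (d - d') := by
  ext i
  fin_cases i <;> simp [E]

theorem E_add (a b c d a' b' c' d' : ℕ) :
    E a b c d + E a' b' c' d' = E (a + a') (b + b') (c + c') (d + d') := by
  ext i
  fin_cases i <;> simp [E]

theorem monomial_E (a b c d : ℕ) (r : K) :
    monomial (E a b c d) r = C r * (X 0 ^ a * X 1 ^ b * X 2 ^ c * X 3 ^ d) := by
  rw [monomial_eq, Finsupp.prod_fintype _ _ (by intro i; simp), Fin.prod_univ_four]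
  simp [E]

theorem coeff_E_monomial_mul (a b c d a' b' c' d' : ℕ) (r : K) (f : MvPolynomial (Fin 4) K) :
    coeff (E a b c d) (monomial (E a' b' c' d') r * f) =
      if a' ≤ a ∧ b' ≤ b ∧ c' ≤ c ∧ d' ≤ d then
        r * coeff (E (a - a') (b - b') (c - c') (d - d')) f else 0 := by
  rw [coeff_monomial_mul', E_sub]
  simp only [E_le]

theorem coeff_E_pderiv0 (a b c d : ℕ) (f : MvPolynomial (Fin 4) K) :
    coeff (E a b c d) (pderiv 0 f) = coeff (E (a + 1) b c d) f * (a + 1) := by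
  rw [coeff_pderiv]
  have : E a b c d + Finsupp.single 0 1 = E (a + 1) b c d := by
    ext i; fin_cases i <;> simp [E]
  rw [this]
  simp [E]

theorem coeff_E_pderiv1 (a b c d : ℕ) (f : MvPolynomial (Fin 4) K) :
    coeff (E a b c d) (pderiv 1 f) = coeff (E a (b + 1) c d) f * (b + 1) := by
  rw [coeff_pderiv]
  have : E a b c d + Finsupp.single 1 1 = E a (b + 1) c d := by
    ext i; fin_cases i <;> simp [E]
  rw [this]
  simp [E]

theorem coeff_E_pderiv2 (a b c d : ℕ) (f : MvPolynomial (Fin 4) K) :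
    coeff (E a b c d) (pderiv 2 f) = coeff (E a b (c + 1) d) f * (c + 1) := by
  rw [coeff_pderiv]
  have : E a b c d + Finsupp.single 2 1 = E a b (c + 1) d := by
    ext i; fin_cases i <;> simp [E]
  rw [this]
  simp [E]

theorem coeff_E_pderiv3 (a b c d : ℕ) (f : MvPolynomial (Fin 4) K) :
    coeff (E a b c d) (pderiv 3 f) = coeff (E a b c (d + 1)) f * (d + 1) := by
  rw [coeff_pderiv]
  have : E a b c d + Finsupp.single 3 1 = E a b c (d + 1) := by
    ext i; fin_cases i <;> simp [E]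
  rw [this]
  simp [E]

theorem DW0_01' : D (W0 K) 0 1 = monomial (E 0 6 1 0) 11 + monomial (E 6 0 1 0) (-19) +
    monomial (E 0 0 7 0) (-1) + monomial (E 0 0 1 6) (-1) := by
  rw [DW0_01]
  simp only [monomial_E, map_neg, map_ofNat, map_one]
  ring

theorem DW0_02' : D (W0 K) 0 2 = monomial (E 0 1 6 0) 10 + monomial (E 6 1 0 0) (-26) +
    monomial (E 0 7 0 0) (-2) + monomial (E 0 1 0 6) (-2) := by
  rw [DW0_02]
  simp only [monomial_E, map_neg, map_ofNat, map_one]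
  ring

theorem DW0_12' : D (W0 K) 1 2 = monomial (E 1 0 6 0) 17 + monomial (E 7 0 0 0) (-1) +
    monomial (E 1 6 0 0) (-25) + monomial (E 1 0 0 6) (-1) := by
  rw [DW0_12]
  simp only [monomial_E, map_neg, map_ofNat, map_one]
  ring

theorem DW0_03' : D (W0 K) 0 3 = monomial (E 0 1 1 5) 12 := by
  rw [DW0_03]
  simp only [monomial_E, map_ofNat]
  ring

theorem DW0_13' : D (W0 K) 1 3 = monomial (E 1 0 1 5) 18 := by
  rw [DW0_13]
  simp only [monomial_E, map_ofNat]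
  ring

theorem DW0_23' : D (W0 K) 2 3 = monomial (E 1 1 0 5) 24 := by
  rw [DW0_23]
  simp only [monomial_E, map_ofNat]
  ring

/-- The coefficient of `x₀² x₁³ x₂⁴ x₃⁵` in `dW0 ∧ dt` vanishes for every form `t`. -/
theorem coeff_B (t : Fin 4 → MvPolynomial (Fin 4) K) : coeff (E 2 3 4 5) (B (W0 K) t) = 0 := by
  simp only [B, DW0_01', DW0_02', DW0_03', DW0_12', DW0_13', DW0_23', add_mul, coeff_add,
    coeff_sub, coeff_E_monomial_mul]
  norm_num
  simp only [D, coeff_sub, coeff_E_pderiv0, coeff_E_pderiv1, coeff_E_pderiv2, coeff_E_pderiv3]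
  push_cast
  ring

theorem coeff_Pf_W1 : coeff (E 2 3 4 5) (Pf (W1 K)) = -54 := by
  have : Pf (W1 K) = monomial (E 2 3 4 5) (-54) := by
    rw [Pf_W1, monomial_E]
    simp only [map_neg, map_ofNat]
    ring
  rw [this, coeff_monomial, if_pos rfl]

end Pool.Agent.H379R3
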