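import Mathlib
import Pool.Agent.H379R3.Poly

/-! Krull dimension of the singular set and of the non-Kupka set of `W0`. -/

set_option autoImplicit false

namespace Pool.Agent.H379R3

open MvPolynomial Order

theorem ringKrullDim_quotient_le_of_primes {R : Type*} [CommRing R] (J : Ideal R)
    (n : WithBot ℕ∞) (h : ∀ p : Ideal R, p.IsPrime → J ≤ p → ringKrullDim (R ⧸ p) ≤ n) :
    ringKrullDim (R ⧸ J) ≤ n := by
  rw [ringKrullDim_quotient]
  refine iSup_le fun p => ?_
  set p0 : PrimeSpectrum R := (p.toFun 0).1 with hp0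
  have hJ : J ≤ p0.asIdeal := (p.toFun 0).2
  have h1 := h p0.asIdeal p0.2 hJ
  rw [ringKrullDim_quotient] at h1
  let q : LTSeries (PrimeSpectrum.zeroLocus (R := R) (p0.asIdeal : Set R)) :=
    { length := p.length
      toFun := fun i => ⟨(p.toFun i).1, by
        have : p.toFun 0 ≤ p.toFun i := p.strictMono.monotone (Fin.zero_le i)
        exact this⟩
      step := fun i => p.step i }
  have h2 : ((q.length : ℕ) : WithBot ℕ∞) ≤ _ := LTSeries.length_le_krullDim q
  exact h2.trans h1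

theorem ringKrullDim_le_of_integral {R S : Type*} [CommRing R] [CommRing S] (f : R →+* S)
    (hf : f.IsIntegral) : ringKrullDim S ≤ ringKrullDim R := by
  let _ : Algebra R S := f.toAlgebra
  refine krullDim_le_of_strictMono (PrimeSpectrum.comap f) ?_
  intro P Q hPQ
  have hle : P.asIdeal ≤ Q.asIdeal := hPQ.le
  have hne : ¬ Q.asIdeal ≤ P.asIdeal := fun h => hPQ.not_ge h
  obtain ⟨x, hx1, hx2⟩ := Set.not_subset.mp hne
  have := Ideal.comap_lt_comap_of_integral_mem_sdiff (R := R) hle ⟨hx1, hx2⟩ (hf x)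
  exact this

/-- If every variable is, up to sixth powers, a combination of `n` elements, then the dimension is
at most `n`. -/
theorem dim_le_of_pow_six (p : Ideal (MvPolynomial (Fin 4) ℂ)) (n : ℕ)
    (s : Fin n → MvPolynomial (Fin 4) ℂ ⧸ p)
    (h : ∀ j : Fin 4, ∃ b : Fin n → ℂ, (Ideal.Quotient.mk p (X j)) ^ 6 =
      ∑ k, algebraMap ℂ _ (b k) * s k ^ 6) :
    ringKrullDim (MvPolynomial (Fin 4) ℂ ⧸ p) ≤ n := by
  let f : MvPolynomial (Fin n) ℂ →ₐ[ℂ] (MvPolynomial (Fin 4) ℂ ⧸ p) := aeval s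
  have hint : f.toRingHom.IsIntegral := by
    intro z
    obtain ⟨q, rfl⟩ := Ideal.Quotient.mk_surjective z
    induction q using MvPolynomial.induction_on with
    | C a =>
      have : Ideal.Quotient.mk p (C a) = f.toRingHom (C a) := by
        simp only [AlgHom.toRingHom_eq_coe, RingHom.coe_coe, f, aeval_C]
        rfl
      rw [this]
      exact RingHom.isIntegralElem_map _
    | add q r hq hr =>
      rw [map_add]
      exact RingHom.IsIntegralElem.add _ hq hr
    | mul_X q j hq =>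
      rw [map_mul]
      refine RingHom.IsIntegralElem.mul _ hq ?_
      obtain ⟨b, hb⟩ := h j
      refine ⟨Polynomial.X ^ 6 - Polynomial.C (∑ k, C (b k) * X k ^ 6),
        Polynomial.monic_X_pow_sub_C _ (by norm_num), ?_⟩
      rw [Polynomial.eval₂_sub, Polynomial.eval₂_X_pow, Polynomial.eval₂_C, hb]
      simp only [AlgHom.toRingHom_eq_coe, RingHom.coe_coe, f, map_sum, map_mul,
        map_pow, aeval_X, aeval_C, sub_self]
  refine (ringKrullDim_le_of_integral _ hint).trans ?_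
  rw [MvPolynomial.ringKrullDim_of_isNoetherianRing, ringKrullDim_eq_zero_of_field]
  simp

section cases

theorem forall4 {P : Fin 4 → Prop} (h0 : P 0) (h1 : P 1) (h2 : P 2) (h3 : P 3) : ∀ j, P j := by
  intro j
  fin_cases j <;> assumption

variable {A : Type*} [CommRing A] [IsDomain A] [Algebra ℂ A]

theorem caseK (x : Fin 4 → A)
    (e0 : x 1 * x 2 * (5 * x 0 ^ 6 - x 1 ^ 6 - x 2 ^ 6 - x 3 ^ 6) = 0)
    (e1 : x 0 * x 2 * (4 * x 1 ^ 6 - 2 * x 0 ^ 6 - 2 * x 2 ^ 6 - 2 * x 3 ^ 6) = 0)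
    (e2 : x 0 * x 1 * (3 * x 2 ^ 6 - 3 * x 0 ^ 6 - 3 * x 1 ^ 6 - 3 * x 3 ^ 6) = 0)
    (d01 : x 2 * (11 * x 1 ^ 6 - 19 * x 0 ^ 6 - x 2 ^ 6 - x 3 ^ 6) = 0)
    (d02 : x 1 * (10 * x 2 ^ 6 - 26 * x 0 ^ 6 - 2 * x 1 ^ 6 - 2 * x 3 ^ 6) = 0)
    (d12 : x 0 * (17 * x 2 ^ 6 - x 0 ^ 6 - 25 * x 1 ^ 6 - x 3 ^ 6) = 0)
    (d03 : 12 * (x 1 * x 2 * x 3 ^ 5) = 0)
    (d13 : 18 * (x 0 * x 2 * x 3 ^ 5) = 0)
    (d23 : 24 * (x 0 * x 1 * x 3 ^ 5) = 0) :
    ∃ k : Fin 4, ∀ j : Fin 4, ∃ b : ℂ, x j ^ 6 = algebraMap ℂ A b * x k ^ 6 := by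
  have hch : CharZero A := charZero_of_injective_algebraMap (algebraMap ℂ A).injective
  have n12 : (12 : A) ≠ 0 := by norm_num
  have n18 : (18 : A) ≠ 0 := by norm_num
  have n24 : (24 : A) ≠ 0 := by norm_num
  by_cases h3 : x 3 = 0
  · by_cases h0 : x 0 = 0
    · by_cases h1 : x 1 = 0
      · refine ⟨2, forall4 ?_ ?_ ?_ ?_⟩
        · exact ⟨0, by simp [h0]⟩
        · exact ⟨0, by simp [h1]⟩
        · exact ⟨1, by simp⟩
        · exact ⟨0, by simp [h3]⟩
      · by_cases h2 : x 2 = 0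
        · refine ⟨1, forall4 ?_ ?_ ?_ ?_⟩
          · exact ⟨0, by simp [h0]⟩
          · exact ⟨1, by simp⟩
          · exact ⟨0, by simp [h2]⟩
          · exact ⟨0, by simp [h3]⟩
        · exfalso
          have a1 := (mul_eq_zero.1 e0).resolve_left (mul_ne_zero h1 h2)
          have a2 := (mul_eq_zero.1 d01).resolve_left h2
          simp only [h0, h3] at a1 a2
          have a3 : (12 : A) * x 1 ^ 6 = 0 := by linear_combination a2 - a1
          exact h1 (pow_eq_zero_iff (by norm_num) |>.1 ((mul_eq_zero.1 a3).resolve_left n12))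
    · by_cases h1 : x 1 = 0
      · by_cases h2 : x 2 = 0
        · refine ⟨0, forall4 ?_ ?_ ?_ ?_⟩
          · exact ⟨1, by simp⟩
          · exact ⟨0, by simp [h1]⟩
          · exact ⟨0, by simp [h2]⟩
          · exact ⟨0, by simp [h3]⟩
        · exfalso
          have a1 := (mul_eq_zero.1 e1).resolve_left (mul_ne_zero h0 h2)
          have a2 := (mul_eq_zero.1 d01).resolve_left h2
          simp only [h1, h3] at a1 a2
          have a3 : (36 : A) * x 0 ^ 6 = 0 := by linear_combination a1 - 2 * a2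
          exact h0 (pow_eq_zero_iff (by norm_num) |>.1
            ((mul_eq_zero.1 a3).resolve_left (by norm_num)))
      · by_cases h2 : x 2 = 0
        · exfalso
          have a1 := (mul_eq_zero.1 e2).resolve_left (mul_ne_zero h0 h1)
          have a2 := (mul_eq_zero.1 d02).resolve_left h1
          simp only [h2, h3] at a1 a2
          have a3 : (72 : A) * x 0 ^ 6 = 0 := by linear_combination 2 * a1 - 3 * a2
          exact h0 (pow_eq_zero_iff (by norm_num) |>.1
            ((mul_eq_zero.1 a3).resolve_left (by norm_num)))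
        · have a0 := (mul_eq_zero.1 e0).resolve_left (mul_ne_zero h1 h2)
          have a1 := (mul_eq_zero.1 e1).resolve_left (mul_ne_zero h0 h2)
          have a2 := (mul_eq_zero.1 e2).resolve_left (mul_ne_zero h0 h1)
          simp only [h3] at a0 a1 a2
          have b1 : (6 : A) * (x 1 ^ 6 - 2 * x 0 ^ 6) = 0 := by
            linear_combination a1 - 2 * a0
          have c1 : x 1 ^ 6 - 2 * x 0 ^ 6 = 0 := (mul_eq_zero.1 b1).resolve_left (by norm_num)
          refine ⟨0, forall4 ?_ ?_ ?_ ?_⟩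
          · exact ⟨1, by simp⟩
          · refine ⟨2, ?_⟩
            simp only [map_ofNat]
            linear_combination c1
          · refine ⟨3, ?_⟩
            simp only [map_ofNat]
            linear_combination -a0 - c1
          · exact ⟨0, by simp [h3]⟩
  · have h35 : x 3 ^ 5 ≠ 0 := pow_ne_zero _ h3
    have a12 : x 1 * x 2 = 0 :=
      (mul_eq_zero.1 ((mul_eq_zero.1 d03).resolve_left n12)).resolve_right h35
    have a02 : x 0 * x 2 = 0 :=
      (mul_eq_zero.1 ((mul_eq_zero.1 d13).resolve_left n18)).resolve_right h35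
    have a01 : x 0 * x 1 = 0 :=
      (mul_eq_zero.1 ((mul_eq_zero.1 d23).resolve_left n24)).resolve_right h35
    by_cases h0 : x 0 = 0
    · rcases mul_eq_zero.1 a12 with h1 | h2
      · by_cases h2 : x 2 = 0
        · refine ⟨3, forall4 ?_ ?_ ?_ ?_⟩
          · exact ⟨0, by simp [h0]⟩
          · exact ⟨0, by simp [h1]⟩
          · exact ⟨0, by simp [h2]⟩
          · exact ⟨1, by simp⟩
        · have a := (mul_eq_zero.1 d01).resolve_left h2
          simp only [h0, h1] at a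
          refine ⟨2, forall4 ?_ ?_ ?_ ?_⟩
          · exact ⟨0, by simp [h0]⟩
          · exact ⟨0, by simp [h1]⟩
          · exact ⟨1, by simp⟩
          · refine ⟨-1, ?_⟩
            simp only [map_neg, map_one]
            linear_combination -a
      · by_cases h1 : x 1 = 0
        · refine ⟨3, forall4 ?_ ?_ ?_ ?_⟩
          · exact ⟨0, by simp [h0]⟩
          · exact ⟨0, by simp [h1]⟩
          · exact ⟨0, by simp [h2]⟩
          · exact ⟨1, by simp⟩
        · have a := (mul_eq_zero.1 d02).resolve_left h1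
          simp only [h0, h2] at a
          have a' : (2 : A) * (x 1 ^ 6 + x 3 ^ 6) = 0 := by linear_combination -a
          have a'' := (mul_eq_zero.1 a').resolve_left (by norm_num)
          refine ⟨1, forall4 ?_ ?_ ?_ ?_⟩
          · exact ⟨0, by simp [h0]⟩
          · exact ⟨1, by simp⟩
          · exact ⟨0, by simp [h2]⟩
          · refine ⟨-1, ?_⟩
            simp only [map_neg, map_one]
            linear_combination a''
    · have h1 := (mul_eq_zero.1 a01).resolve_left h0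
      have h2 := (mul_eq_zero.1 a02).resolve_left h0
      have a := (mul_eq_zero.1 d12).resolve_left h0
      simp only [h1, h2] at a
      refine ⟨0, forall4 ?_ ?_ ?_ ?_⟩
      · exact ⟨1, by simp⟩
      · exact ⟨0, by simp [h1]⟩
      · exact ⟨0, by simp [h2]⟩
      · refine ⟨-1, ?_⟩
        simp only [map_neg, map_one]
        linear_combination -a

theorem caseS (x : Fin 4 → A)
    (e0 : x 1 * x 2 * (5 * x 0 ^ 6 - x 1 ^ 6 - x 2 ^ 6 - x 3 ^ 6) = 0)
    (e1 : x 0 * x 2 * (4 * x 1 ^ 6 - 2 * x 0 ^ 6 - 2 * x 2 ^ 6 - 2 * x 3 ^ 6) = 0)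
    (e2 : x 0 * x 1 * (3 * x 2 ^ 6 - 3 * x 0 ^ 6 - 3 * x 1 ^ 6 - 3 * x 3 ^ 6) = 0)
    (e3 : 6 * (x 0 * x 1 * x 2 * x 3 ^ 5) = 0) :
    ∃ k l : Fin 4, ∀ j : Fin 4, ∃ b c : ℂ,
      x j ^ 6 = algebraMap ℂ A b * x k ^ 6 + algebraMap ℂ A c * x l ^ 6 := by
  have hch : CharZero A := charZero_of_injective_algebraMap (algebraMap ℂ A).injective
  have e3' := (mul_eq_zero.1 e3).resolve_left (by norm_num)
  by_cases h0 : x 0 = 0
  · rcases mul_eq_zero.1 e0 with h | h
    · rcases mul_eq_zero.1 h with h1 | h2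
      · exact ⟨2, 3, forall4 ⟨0, 0, by simp [h0]⟩ ⟨0, 0, by simp [h1]⟩ ⟨1, 0, by simp⟩
          ⟨0, 1, by simp⟩⟩
      · exact ⟨1, 3, forall4 ⟨0, 0, by simp [h0]⟩ ⟨1, 0, by simp⟩ ⟨0, 0, by simp [h2]⟩
          ⟨0, 1, by simp⟩⟩
    · simp only [h0] at h
      refine ⟨1, 2, forall4 ⟨0, 0, by simp [h0]⟩ ⟨1, 0, by simp⟩ ⟨0, 1, by simp⟩ ⟨-1, -1, ?_⟩⟩
      simp only [map_neg, map_one]
      linear_combination -h
  · by_cases h1 : x 1 = 0
    · rcases mul_eq_zero.1 e1 with h | h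
      · have h2 := (mul_eq_zero.1 h).resolve_left h0
        exact ⟨0, 3, forall4 ⟨1, 0, by simp⟩ ⟨0, 0, by simp [h1]⟩ ⟨0, 0, by simp [h2]⟩
          ⟨0, 1, by simp⟩⟩
      · simp only [h1] at h
        have h' : (2 : A) * (x 0 ^ 6 + x 2 ^ 6 + x 3 ^ 6) = 0 := by linear_combination -h
        have h'' := (mul_eq_zero.1 h').resolve_left (by norm_num)
        refine ⟨0, 2, forall4 ⟨1, 0, by simp⟩ ⟨0, 0, by simp [h1]⟩ ⟨0, 1, by simp⟩ ⟨-1, -1, ?_⟩⟩
        simp only [map_neg, map_one]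
        linear_combination h''
    · by_cases h2 : x 2 = 0
      · have h := (mul_eq_zero.1 e2).resolve_left (mul_ne_zero h0 h1)
        simp only [h2] at h
        have h' : (3 : A) * (x 0 ^ 6 + x 1 ^ 6 + x 3 ^ 6) = 0 := by linear_combination -h
        have h'' := (mul_eq_zero.1 h').resolve_left (by norm_num)
        refine ⟨0, 1, forall4 ⟨1, 0, by simp⟩ ⟨0, 1, by simp⟩ ⟨0, 0, by simp [h2]⟩ ⟨-1, -1, ?_⟩⟩
        simp only [map_neg, map_one]
        linear_combination h''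
      · have h3 : x 3 = 0 := by
          have := (mul_eq_zero.1 e3').resolve_left (mul_ne_zero (mul_ne_zero h0 h1) h2)
          exact pow_eq_zero_iff (by norm_num) |>.1 this
        have h := (mul_eq_zero.1 e2).resolve_left (mul_ne_zero h0 h1)
        simp only [h3] at h
        have h' : (3 : A) * (x 2 ^ 6 - x 0 ^ 6 - x 1 ^ 6) = 0 := by linear_combination h
        have h'' := (mul_eq_zero.1 h').resolve_left (by norm_num)
        refine ⟨0, 1, forall4 ⟨1, 0, by simp⟩ ⟨0, 1, by simp⟩ ⟨1, 1, ?_⟩ ⟨0, 0, by simp [h3]⟩⟩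
        simp only [map_one]
        linear_combination h''

end cases

section app

variable (p : Ideal (MvPolynomial (Fin 4) ℂ)) [hp : p.IsPrime]

theorem dim_le_two (h : Ideal.span (Set.range (W0 ℂ)) ≤ p) :
    ringKrullDim (MvPolynomial (Fin 4) ℂ ⧸ p) ≤ 2 := by
  have hW : ∀ i, Ideal.Quotient.mk p (W0 ℂ i) = 0 := fun i =>
    Ideal.Quotient.eq_zero_iff_mem.2 (h (Ideal.subset_span ⟨i, rfl⟩))
  obtain ⟨k, l, hkl⟩ := caseS (fun j => Ideal.Quotient.mk p (X j))
    (by simpa [W0, map_ofNat] using hW 0) (by simpa [W0, map_ofNat] using hW 1)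
    (by simpa [W0, map_ofNat] using hW 2) (by simpa [W0, map_ofNat] using hW 3)
  refine dim_le_of_pow_six p 2 ![Ideal.Quotient.mk p (X k), Ideal.Quotient.mk p (X l)] ?_
  intro j
  obtain ⟨b, c, hbc⟩ := hkl j
  refine ⟨![b, c], ?_⟩
  rw [Fin.sum_univ_two]
  exact hbc

theorem dim_le_one (h : Ideal.span (Set.range (W0 ℂ) ∪
    Set.range (fun q : Fin 4 × Fin 4 => D (W0 ℂ) q.1 q.2)) ≤ p) :
    ringKrullDim (MvPolynomial (Fin 4) ℂ ⧸ p) ≤ 1 := by
  have hW : ∀ i, Ideal.Quotient.mk p (W0 ℂ i) = 0 := fun i =>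
    Ideal.Quotient.eq_zero_iff_mem.2 (h (Ideal.subset_span (Or.inl ⟨i, rfl⟩)))
  have hD : ∀ i j, Ideal.Quotient.mk p (D (W0 ℂ) i j) = 0 := fun i j =>
    Ideal.Quotient.eq_zero_iff_mem.2 (h (Ideal.subset_span (Or.inr ⟨(i, j), rfl⟩)))
  obtain ⟨k, hk⟩ := caseK (fun j => Ideal.Quotient.mk p (X j))
    (by simpa [W0, map_ofNat] using hW 0) (by simpa [W0, map_ofNat] using hW 1)
    (by simpa [W0, map_ofNat] using hW 2)
    (by simpa [DW0_01, map_ofNat] using hD 0 1) (by simpa [DW0_02, map_ofNat] using hD 0 2)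
    (by simpa [DW0_12, map_ofNat] using hD 1 2) (by simpa [DW0_03, map_ofNat] using hD 0 3)
    (by simpa [DW0_13, map_ofNat] using hD 1 3) (by simpa [DW0_23, map_ofNat] using hD 2 3)
  refine dim_le_of_pow_six p 1 ![Ideal.Quotient.mk p (X k)] ?_
  intro j
  obtain ⟨b, hb⟩ := hk j
  refine ⟨![b], ?_⟩
  rw [Fin.sum_univ_one]
  exact hb

end app

end Pool.Agent.H379R3
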