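import Mathlib

/-! Regular local rings: quotients by elements of order one, domains, and the kernel of a
surjection between regular local rings. -/

set_option autoImplicit false

namespace Pool.Agent.H379R3

open IsLocalRing Module

section

variable {B : Type*} [CommRing B] [IsRegularLocalRing B]

theorem finrank_cotangent : (Module.finrank (ResidueField B) (CotangentSpace B) : WithBot ℕ∞) =
    ringKrullDim B := (IsRegularLocalRing.iff_finrank_cotangentSpace B).1 inferInstance

/-- generators of the maximal ideal from a basis of the cotangent space -/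
theorem span_of_basis {ι : Type*} (b : Basis ι (ResidueField B) (CotangentSpace B))
    (z : ι → maximalIdeal B) (hz : ∀ i, (maximalIdeal B).toCotangent (z i) = b i) :
    Ideal.span (Set.range fun i => (z i : B)) = maximalIdeal B := by
  have h1 : Submodule.span (ResidueField B) ((maximalIdeal B).toCotangent '' Set.range z) = ⊤ := by
    rw [← b.span_eq]
    congr 1
    ext v
    constructor
    · rintro ⟨_, ⟨i, rfl⟩, rfl⟩
      exact ⟨i, (hz i).symm⟩
    · rintro ⟨i, rfl⟩
      exact ⟨z i, ⟨i, rfl⟩, hz i⟩
  have h2 := CotangentSpace.span_image_eq_top_iff.1 h1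
  have h3 := congrArg (Submodule.map (maximalIdeal B).subtype) h2
  rw [Submodule.map_span, Submodule.map_top, Submodule.range_subtype, ← Set.range_comp] at h3
  exact h3

theorem exists_param_of_mem (t : B) (ht : t ∈ maximalIdeal B) (ht2 : t ∉ maximalIdeal B ^ 2) :
    ∃ (d : ℕ) (z : Fin d → B) (i₀ : Fin d), ringKrullDim B = d ∧
      Ideal.span (Set.range z) = maximalIdeal B ∧ z i₀ = t := by
  classical
  let v : CotangentSpace B := (maximalIdeal B).toCotangent ⟨t, ht⟩
  have hv : v ≠ 0 := by
    intro h
    exact ht2 ((Ideal.toCotangent_eq_zero _ _).1 h)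
  have hli : LinearIndepOn (ResidueField B) id ({v} : Set (CotangentSpace B)) := by
    exact .singleton hv
  let b := Basis.extend hli
  have hmem : v ∈ hli.extend (Set.subset_univ _) := hli.subset_extend _ rfl
  let w : hli.extend (Set.subset_univ _) := ⟨v, hmem⟩
  have hbw : b w = v := Basis.extend_apply_self hli w
  choose z hz using fun i => Ideal.toCotangent_surjective (maximalIdeal B) (b i)
  have hfin : Fintype (hli.extend (Set.subset_univ _)) := by
    have := Module.Finite.finite_basis b
    exact Fintype.ofFinite _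
  have hcard : Fintype.card (hli.extend (Set.subset_univ _)) =
      Module.finrank (ResidueField B) (CotangentSpace B) := (Module.finrank_eq_card_basis b).symm
  let e := Fintype.equivFin (hli.extend (Set.subset_univ _))
  let z' : hli.extend (Set.subset_univ _) → maximalIdeal B := Function.update z w ⟨t, ht⟩
  have hz' : ∀ i, (maximalIdeal B).toCotangent (z' i) = b i := by
    intro i
    by_cases hi : i = w
    · subst hi
      simp only [z', Function.update_self]
      exact hbw.symm
    · simp only [z', Function.update_of_ne hi]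
      exact hz i
  refine ⟨_, fun i => (z' (e.symm i) : B), e w, ?_, ?_, ?_⟩
  · rw [hcard]
    exact finrank_cotangent.symm
  · have h1 := span_of_basis b z' hz'
    have h2 : (Set.range fun i => (z' (e.symm i) : B)) = Set.range fun i => (z' i : B) := by
      ext x
      constructor
      · rintro ⟨i, rfl⟩
        exact ⟨e.symm i, rfl⟩
      · rintro ⟨i, rfl⟩
        exact ⟨e i, by simp⟩
    rw [h2]
    exact h1
  · simp [z']

/-- The dimension of a regular local ring is a natural number. -/
theorem exists_dim_eq : ∃ d : ℕ, ringKrullDim B = d :=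
  ⟨_, finrank_cotangent.symm⟩

/-- The quotient of a regular local ring by an element of order one is regular, of dimension
one less. -/
theorem regular_quotient (t : B) (ht : t ∈ maximalIdeal B) (ht2 : t ∉ maximalIdeal B ^ 2) (d : ℕ)
    (hd : ringKrullDim B = (d + 1 : ℕ)) :
    IsRegularLocalRing (B ⧸ Ideal.span {t}) ∧ ringKrullDim (B ⧸ Ideal.span {t}) = d := by
  classical
  obtain ⟨d', z, i₀, hd', hz, hi⟩ := exists_param_of_mem t ht ht2
  have hdd : d' = d + 1 := by
    rw [hd] at hd'
    exact_mod_cast hd'.symm
  subst hdd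
  have hne : Ideal.span {t} ≠ ⊤ := by
    intro h
    have : Ideal.span {t} ≤ maximalIdeal B := by
      rw [Ideal.span_singleton_le_iff_mem]; exact ht
    rw [h] at this
    exact (maximalIdeal.isMaximal B).ne_top (top_le_iff.1 this)
  have : Nontrivial (B ⧸ Ideal.span {t}) := Ideal.Quotient.nontrivial_iff.2 hne
  have hloc : IsLocalRing (B ⧸ Ideal.span {t}) :=
    IsLocalRing.of_surjective' (Ideal.Quotient.mk _) Ideal.Quotient.mk_surjective
  have hmax : maximalIdeal (B ⧸ Ideal.span {t}) =
      Ideal.span ((fun i => Ideal.Quotient.mk (Ideal.span {t}) (z i)) '' {i | i ≠ i₀}) := by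
    have h1 : (maximalIdeal B).map (Ideal.Quotient.mk (Ideal.span {t})) =
        maximalIdeal (B ⧸ Ideal.span {t}) := by
      have := IsLocalRing.eq_maximalIdeal
        (Ideal.map_eq_top_or_isMaximal_of_surjective (Ideal.Quotient.mk (Ideal.span {t}))
          Ideal.Quotient.mk_surjective (maximalIdeal.isMaximal B) |>.resolve_left ?_)
      · exact this
      · intro h
        have h2 := congrArg (Ideal.comap (Ideal.Quotient.mk (Ideal.span {t}))) h
        rw [Ideal.comap_map_of_surjective _ Ideal.Quotient.mk_surjective, Ideal.comap_top,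
          ← RingHom.ker_eq_comap_bot, Ideal.mk_ker] at h2
        have h3 : maximalIdeal B ⊔ Ideal.span {t} = maximalIdeal B := by
          rw [sup_eq_left, Ideal.span_singleton_le_iff_mem]; exact ht
        rw [h3] at h2
        exact (maximalIdeal.isMaximal B).ne_top h2
    rw [← h1, ← hz, Ideal.map_span]
    apply le_antisymm
    · rw [Ideal.span_le]
      rintro _ ⟨_, ⟨i, rfl⟩, rfl⟩
      by_cases h : i = i₀
      · subst h
        rw [hi]
        have : Ideal.Quotient.mk (Ideal.span {t}) t = 0 :=
          Ideal.Quotient.eq_zero_iff_mem.2 (Ideal.mem_span_singleton_self t)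
        rw [this]
        exact Ideal.zero_mem _
      · exact Ideal.subset_span ⟨i, h, rfl⟩
    · apply Ideal.span_mono
      rintro _ ⟨i, _, rfl⟩
      exact ⟨z i, ⟨i, rfl⟩, rfl⟩
  have hrank : (maximalIdeal (B ⧸ Ideal.span {t})).spanFinrank ≤ d := by
    rw [hmax]
    refine (Submodule.spanFinrank_span_le_ncard_of_finite (Set.toFinite _)).trans ?_
    refine (Set.ncard_image_le (Set.toFinite _)).trans ?_
    have : ({i | i ≠ i₀} : Set (Fin (d + 1))) = ((Finset.univ.erase i₀ : Finset (Fin (d+1))) :
        Set (Fin (d+1))) := by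
      ext i; simp
    rw [this, Set.ncard_coe_finset, Finset.card_erase_of_mem (Finset.mem_univ _)]
    simp
  have hdim : ((d : ℕ) : WithBot ℕ∞) ≤ ringKrullDim (B ⧸ Ideal.span {t}) := by
    have h1 := ringKrullDim_le_ringKrullDim_quotient_add_card (R := B) {t} (by
      intro x hx
      simp only [Finset.coe_singleton, Set.mem_singleton_iff] at hx
      subst hx
      rw [SetLike.mem_coe, IsLocalRing.ringJacobson_eq_maximalIdeal]
      exact ht)
    rw [hd, Finset.coe_singleton, Finset.card_singleton] at h1
    have h2 : ((d : ℕ) : WithBot ℕ∞) + 1 ≤ ringKrullDim (B ⧸ Ideal.span {t}) + 1 := by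
      exact_mod_cast h1
    exact ENat.WithBot.add_le_add_one_right_iff.1 h2
  have : IsNoetherianRing (B ⧸ Ideal.span {t}) := inferInstance
  have hreg : IsRegularLocalRing (B ⧸ Ideal.span {t}) := by
    apply IsRegularLocalRing.of_spanFinrank_maximalIdeal_le
    exact le_trans (by exact_mod_cast hrank) hdim
  refine ⟨hreg, le_antisymm ?_ hdim⟩
  rw [← (isRegularLocalRing_iff _).1 hreg]
  exact_mod_cast hrank

end

theorem dim_zero_maximalIdeal_eq_bot {B : Type*} [CommRing B] [IsRegularLocalRing B]
    (h : ringKrullDim B = (0 : ℕ)) : maximalIdeal B = ⊥ := by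
  have h1 := (isRegularLocalRing_iff B).1 inferInstance
  rw [h] at h1
  have h2 : (maximalIdeal B).spanFinrank = 0 := by exact_mod_cast h1
  exact (Submodule.spanFinrank_eq_zero_iff_eq_bot (maximalIdeal B).fg_of_isNoetherianRing).1 h2

/-- A regular local ring is a domain. -/
theorem isDomain_aux (d : ℕ) : ∀ (B : Type*) [CommRing B] [IsRegularLocalRing B],
    ringKrullDim B = (d : ℕ) → IsDomain B := by
  induction d with
  | zero =>
    intro B _ _ h
    have h1 := dim_zero_maximalIdeal_eq_bot h
    have h2 : IsField B := isField_iff_maximalIdeal_eq.2 h1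
    exact h2.isDomain
  | succ d ih =>
    intro B _ _ h
    classical
    set m := maximalIdeal B with hm
    have hmb : m ≠ ⊥ := by
      intro h0
      have h2 : IsField B := isField_iff_maximalIdeal_eq.2 h0
      have := ringKrullDim_eq_zero_of_isField h2
      rw [h] at this
      have h3 : d + 1 = 0 := by exact_mod_cast this
      omega
    have hmin : ∀ p ∈ minimalPrimes B, ¬ (m ≤ p) := by
      intro p hp hmp
      have hpp : p.IsPrime := hp.1.1
      have hpm : p = m := le_antisymm (IsLocalRing.le_maximalIdeal hpp.ne_top) hmp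
      have h1 : p.height = 0 := by
        rw [Ideal.height_eq_zero_iff]
        exact hp
      have h2 := IsLocalRing.maximalIdeal_height_eq_ringKrullDim (R := B)
      rw [← hm, ← hpm, h1, h] at h2
      have h3 : (0 : ℕ) = d + 1 := by exact_mod_cast h2
      omega
    have hsq : ¬ (m ≤ m ^ 2) := by
      intro hle
      apply hmb
      apply Submodule.eq_bot_of_le_smul_of_le_jacobson_bot m m m.fg_of_isNoetherianRing
      · rw [smul_eq_mul, ← pow_two]; exact hle
      · exact IsLocalRing.maximalIdeal_le_jacobson _
    have hfin : (minimalPrimes B).Finite := minimalPrimes.finite_of_isNoetherianRing B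
    have hnot : ¬ ((m : Set B) ⊆ ⋃ i ∈ insert (m ^ 2) (minimalPrimes B), (i : Set B)) := by
      intro hsub
      have := (Ideal.subset_union_prime_finite (s := insert (m ^ 2) (minimalPrimes B))
        (f := fun i => i) (hfin.insert _) (m ^ 2) (m ^ 2) (by
          intro i hi h1 _
          rcases hi with rfl | hi
          · exact absurd rfl h1
          · exact hi.1.1)).1 hsub
      obtain ⟨i, hi, hmi⟩ := this
      rcases hi with rfl | hi
      · exact hsq hmi
      · exact hmin i hi hmi
    obtain ⟨t, htm, ht⟩ := Set.not_subset.1 hnot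
    simp only [Set.mem_iUnion, not_exists] at ht
    have ht2 : t ∉ m ^ 2 := fun h' => ht _ (Set.mem_insert _ _) h'
    have htp : ∀ p ∈ minimalPrimes B, t ∉ p := fun p hp h' => ht p (Set.mem_insert_of_mem _ hp) h'
    obtain ⟨hreg, hdim⟩ := regular_quotient t htm ht2 d h
    have hdom := ih (B ⧸ Ideal.span {t}) hdim
    have hprime : (Ideal.span {t}).IsPrime := (Ideal.Quotient.isDomain_iff_prime _).1 hdom
    obtain ⟨p, hp, hpt⟩ := Ideal.exists_minimalPrimes_le (I := ⊥) (J := Ideal.span {t}) bot_le
    have hpp : p.IsPrime := hp.1.1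
    have hpbot : p = ⊥ := by
      apply Submodule.eq_bot_of_le_smul_of_le_jacobson_bot m p p.fg_of_isNoetherianRing
      · intro y hy
        obtain ⟨z, hz⟩ := Ideal.mem_span_singleton'.1 (hpt hy)
        have hzp : z ∈ p := by
          have : z * t ∈ p := by rw [hz]; exact hy
          exact (hpp.mem_or_mem this).resolve_right (htp p hp)
        rw [← hz, mul_comm, smul_eq_mul]
        exact Ideal.mul_mem_mul htm hzp
      · exact IsLocalRing.maximalIdeal_le_jacobson _
    rw [hpbot] at hpp
    exact IsDomain.of_bot_isPrime B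

theorem isDomain (B : Type*) [CommRing B] [IsRegularLocalRing B] : IsDomain B := by
  obtain ⟨d, hd⟩ := exists_dim_eq (B := B)
  exact isDomain_aux d B hd

theorem map_mk_maximalIdeal {B : Type*} [CommRing B] [IsLocalRing B] (K : Ideal B)
    [IsLocalRing (B ⧸ K)] :
    (maximalIdeal B).map (Ideal.Quotient.mk K) = maximalIdeal (B ⧸ K) := by
  have hne : K ≠ ⊤ := Ideal.Quotient.nontrivial_iff.1 inferInstance
  have hK : K ≤ maximalIdeal B := IsLocalRing.le_maximalIdeal hne
  refine IsLocalRing.eq_maximalIdeal
    (Ideal.map_eq_top_or_isMaximal_of_surjective (Ideal.Quotient.mk K)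
      Ideal.Quotient.mk_surjective (maximalIdeal.isMaximal B) |>.resolve_left ?_)
  intro h
  have h2 := congrArg (Ideal.comap (Ideal.Quotient.mk K)) h
  rw [Ideal.comap_map_of_surjective _ Ideal.Quotient.mk_surjective, Ideal.comap_top,
    ← RingHom.ker_eq_comap_bot, Ideal.mk_ker] at h2
  have h3 : maximalIdeal B ⊔ K = maximalIdeal B := by
    rw [sup_eq_left]; exact hK
  rw [h3] at h2
  exact (maximalIdeal.isMaximal B).ne_top h2

theorem eq_bot_of_le_sq {B : Type*} [CommRing B] [IsRegularLocalRing B] (K : Ideal B)
    [IsRegularLocalRing (B ⧸ K)] (hK : K ≤ maximalIdeal B ^ 2) : K = ⊥ := by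
  classical
  have hdom := isDomain B
  set m := maximalIdeal B with hm
  -- the embedding dimensions agree
  have hle : m.spanFinrank ≤ (maximalIdeal (B ⧸ K)).spanFinrank := by
    have hfg : (maximalIdeal (B ⧸ K)).FG := Ideal.fg_of_isNoetherianRing _
    choose r hr using fun x : B ⧸ K => Ideal.Quotient.mk_surjective x
    set s := (maximalIdeal (B ⧸ K)).generators with hs
    have hsfin : s.Finite := Submodule.FG.finite_generators hfg
    have hspan : Ideal.span s = maximalIdeal (B ⧸ K) := Submodule.span_generators _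
    have hmap : (Ideal.span (r '' s)).map (Ideal.Quotient.mk K) = maximalIdeal (B ⧸ K) := by
      rw [Ideal.map_span, ← Set.image_comp]
      have : (Ideal.Quotient.mk K) ∘ r = id := by
        funext x; exact hr x
      rw [this, Set.image_id, hspan]
    have hmle : m ≤ Ideal.span (r '' s) ⊔ m • m := by
      intro x hx
      have h1 : Ideal.Quotient.mk K x ∈ (Ideal.span (r '' s)).map (Ideal.Quotient.mk K) := by
        rw [hmap, ← map_mk_maximalIdeal]
        exact Ideal.mem_map_of_mem _ hx
      obtain ⟨y, hy, hyx⟩ := (Ideal.mem_map_iff_of_surjective _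
        Ideal.Quotient.mk_surjective).1 h1
      have h2 : x - y ∈ K := Ideal.Quotient.eq.1 hyx.symm
      have h3 : x = y + (x - y) := by ring
      rw [h3]
      refine Ideal.add_mem _ (Ideal.mem_sup_left hy) (Ideal.mem_sup_right ?_)
      rw [smul_eq_mul, ← pow_two]
      exact hK h2
    have hmle2 : m ≤ Ideal.span (r '' s) :=
      Submodule.le_of_le_smul_of_le_jacobson_bot m.fg_of_isNoetherianRing
        (IsLocalRing.maximalIdeal_le_jacobson _) hmle
    have hle2 : Ideal.span (r '' s) ≤ m := by
      rw [Ideal.span_le]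
      rintro _ ⟨x, hx, rfl⟩
      have h1 : Ideal.Quotient.mk K (r x) ∈ maximalIdeal (B ⧸ K) := by
        rw [hr, ← hspan]
        exact Ideal.subset_span hx
      by_contra h2
      have h3 : IsUnit (r x) := by
        by_contra h4
        exact h2 ((IsLocalRing.mem_maximalIdeal _).2 h4)
      exact (IsLocalRing.mem_maximalIdeal _).1 h1 (h3.map _)
    have heq : m = Ideal.span (r '' s) := le_antisymm hmle2 hle2
    rw [heq]
    refine (Submodule.spanFinrank_span_le_ncard_of_finite (hsfin.image _)).trans ?_
    refine (Set.ncard_image_le hsfin).trans ?_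
    rw [Submodule.FG.generators_ncard hfg]
  by_contra hne
  obtain ⟨x, hxK, hx0⟩ := Submodule.exists_mem_ne_zero_of_ne_bot hne
  have h1 := ringKrullDim_succ_le_of_surjective (Ideal.Quotient.mk K)
    Ideal.Quotient.mk_surjective (r := x) (mem_nonZeroDivisors_of_ne_zero hx0)
    (Ideal.Quotient.eq_zero_iff_mem.2 hxK)
  rw [← (isRegularLocalRing_iff (B ⧸ K)).1 inferInstance,
    ← (isRegularLocalRing_iff B).1 inferInstance] at h1
  have h2 : (maximalIdeal (B ⧸ K)).spanFinrank + 1 ≤ m.spanFinrank := by exact_mod_cast h1
  omega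

/-- If `K` is an ideal of a regular local ring `B` such that `B ⧸ K` is regular, then
`K ∩ m² ≤ m K`. -/
theorem inf_sq_le_aux (d : ℕ) : ∀ (B : Type*) [CommRing B] [IsRegularLocalRing B] (K : Ideal B)
    [IsRegularLocalRing (B ⧸ K)], ringKrullDim B = (d : ℕ) →
    K ⊓ maximalIdeal B ^ 2 ≤ maximalIdeal B * K := by
  induction d with
  | zero =>
    intro B _ _ K _ h
    rw [dim_zero_maximalIdeal_eq_bot h]
    intro x hx
    have : x ∈ (⊥ : Ideal B) ^ 2 := hx.2
    rw [pow_two, Ideal.bot_mul] at this
    rw [Ideal.bot_mul]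
    exact this
  | succ d ih =>
    intro B _ _ K _ h
    by_cases hK : K ≤ maximalIdeal B ^ 2
    · rw [eq_bot_of_le_sq K hK]
      simp
    · obtain ⟨f, hfK, hf2⟩ := Set.not_subset.1 hK
      have hne : K ≠ ⊤ := Ideal.Quotient.nontrivial_iff.1 inferInstance
      have hKm : K ≤ maximalIdeal B := IsLocalRing.le_maximalIdeal hne
      obtain ⟨hreg, hdim⟩ := regular_quotient f (hKm hfK) hf2 d h
      have hfle : Ideal.span {f} ≤ K := by
        rw [Ideal.span_singleton_le_iff_mem]; exact hfK
      have e := DoubleQuot.quotQuotEquivQuotOfLE hfle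
      have hreg2 : IsRegularLocalRing ((B ⧸ Ideal.span {f}) ⧸
          K.map (Ideal.Quotient.mk (Ideal.span {f}))) :=
        IsRegularLocalRing.of_ringEquiv e.symm
      have h1 := ih (B ⧸ Ideal.span {f}) (K.map (Ideal.Quotient.mk (Ideal.span {f}))) hdim
      rw [← map_mk_maximalIdeal, ← Ideal.map_pow, ← Ideal.map_mul] at h1
      intro q hq
      have h2 : Ideal.Quotient.mk (Ideal.span {f}) q ∈
          (maximalIdeal B * K).map (Ideal.Quotient.mk (Ideal.span {f})) :=
        h1 ⟨Ideal.mem_map_of_mem _ hq.1, Ideal.mem_map_of_mem _ hq.2⟩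
      obtain ⟨y, hy, hyq⟩ := (Ideal.mem_map_iff_of_surjective _
        Ideal.Quotient.mk_surjective).1 h2
      have h3 : q - y ∈ Ideal.span {f} := Ideal.Quotient.eq.1 hyq.symm
      obtain ⟨g, hg⟩ := Ideal.mem_span_singleton'.1 h3
      have hgm : g ∈ maximalIdeal B := by
        by_contra hgm
        have hu : IsUnit g := by
          by_contra h4
          exact hgm ((IsLocalRing.mem_maximalIdeal _).2 h4)
        have h5 : g * f ∈ maximalIdeal B ^ 2 := by
          rw [hg]
          refine Ideal.sub_mem _ hq.2 ?_
          have : maximalIdeal B * K ≤ maximalIdeal B ^ 2 := by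
            rw [pow_two]; exact Ideal.mul_mono_right hKm
          exact this hy
        exact hf2 ((Ideal.unit_mul_mem_iff_mem _ hu).1 h5)
      have h6 : q = y + g * f := by rw [hg]; ring
      rw [h6]
      exact Ideal.add_mem _ hy (Ideal.mul_mem_mul hgm hfK)

theorem inf_sq_le {B : Type*} [CommRing B] [IsRegularLocalRing B] (K : Ideal B)
    [IsRegularLocalRing (B ⧸ K)] :
    K ⊓ maximalIdeal B ^ 2 ≤ maximalIdeal B * K := by
  obtain ⟨d, hd⟩ := exists_dim_eq (B := B)
  exact inf_sq_le_aux d B K hd

end Pool.Agent.H379R3
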