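import Mathlib
import Pool.Agent.H379R3.Reg

/-! A second order obstruction shows that a local ring of an affine scheme is not regular. -/

set_option autoImplicit false

namespace Pool.Agent.H379R3

open IsLocalRing MvPolynomial

theorem not_regular {σ : Type*} [Finite σ] (I : Ideal (MvPolynomial σ ℂ)) (c : σ → ℂ)
    (ψ : MvPolynomial σ ℂ →+* PowerSeries ℂ)
    (hψ : ∀ f, PowerSeries.constantCoeff (ψ f) = MvPolynomial.eval c f)
    (hv : ∀ f ∈ I, (PowerSeries.X : PowerSeries ℂ) ^ 2 ∣ ψ f)
    (q : MvPolynomial σ ℂ) (hq : q ∈ I) (hq2 : q ∈ (RingHom.ker (MvPolynomial.eval c)) ^ 2)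
    (hq3 : ¬ (PowerSeries.X : PowerSeries ℂ) ^ 3 ∣ ψ q)
    (P : Ideal (MvPolynomial σ ℂ ⧸ I)) [hPp : P.IsPrime]
    (hP : P = Ideal.map (Ideal.Quotient.mk I) (RingHom.ker (MvPolynomial.eval c))) :
    ringKrullDim (Localization.AtPrime P) ≠
      ((Module.finrank (IsLocalRing.ResidueField (Localization.AtPrime P))
        (IsLocalRing.CotangentSpace (Localization.AtPrime P)) : ℕ) : WithBot ℕ∞) := by
  intro hdim
  set M : Ideal (MvPolynomial σ ℂ) := RingHom.ker (MvPolynomial.eval c) with hM
  have hIM : I ≤ M := by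
    intro f hf
    have h1 := hv f hf
    have h2 : PowerSeries.constantCoeff (ψ f) = 0 := by
      obtain ⟨g, hg⟩ := h1
      rw [hg]
      simp
    rw [hψ] at h2
    exact h2
  have hMprime : M.IsPrime := RingHom.ker_isPrime _
  have hcomap : M = P.comap (Ideal.Quotient.mk I) := by
    rw [hP, Ideal.comap_map_of_surjective _ Ideal.Quotient.mk_surjective,
      ← RingHom.ker_eq_comap_bot, Ideal.mk_ker, sup_eq_left.2 hIM]
  -- the surjection of local rings
  let φ : Localization.AtPrime M →+* Localization.AtPrime P :=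
    Localization.localRingHom M P (Ideal.Quotient.mk I) hcomap
  have hφalg : ∀ f, φ (algebraMap _ _ f) = algebraMap _ _ (Ideal.Quotient.mk I f) := fun f =>
    Localization.localRingHom_to_map M P (Ideal.Quotient.mk I) hcomap f
  have hφs : Function.Surjective φ := by
    intro z
    obtain ⟨a, b, hab⟩ := IsLocalization.exists_mk'_eq P.primeCompl z
    obtain ⟨a', ha'⟩ := Ideal.Quotient.mk_surjective a
    obtain ⟨b', hb'⟩ := Ideal.Quotient.mk_surjective (b : MvPolynomial σ ℂ ⧸ I)
    have hb'' : b' ∈ M.primeCompl := by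
      intro h
      rw [SetLike.mem_coe, hcomap, Ideal.mem_comap, hb'] at h
      exact b.2 h
    refine ⟨IsLocalization.mk' _ a' (⟨b', hb''⟩ : M.primeCompl), ?_⟩
    have hmk := Localization.localRingHom_mk' M P (Ideal.Quotient.mk I) hcomap a' ⟨b', hb''⟩
    refine hmk.trans ?_
    rw [← hab]
    rw [IsLocalization.mk'_eq_iff_eq]
    simp only [ha', hb']
  -- regularity
  have hnoeth : IsNoetherianRing (Localization.AtPrime P) :=
    IsLocalization.isNoetherianRing P.primeCompl _ inferInstance
  have hregA : IsRegularLocalRing (Localization.AtPrime P) :=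
    (IsRegularLocalRing.iff_finrank_cotangentSpace _).2 hdim.symm
  have hregS : IsRegularLocalRing (Localization.AtPrime M) := inferInstance
  have hregQ : IsRegularLocalRing (Localization.AtPrime M ⧸ RingHom.ker φ) := by
    let e : (Localization.AtPrime M ⧸ RingHom.ker φ) ≃+* Localization.AtPrime P :=
      RingHom.quotientKerEquivOfSurjective hφs
    exact IsRegularLocalRing.of_ringEquiv (R := Localization.AtPrime P) e.symm
  have hmain := inf_sq_le (RingHom.ker φ)
  -- the arc
  have hunit : ∀ y : M.primeCompl, IsUnit (ψ y) := by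
    intro y
    rw [PowerSeries.isUnit_iff_constantCoeff, hψ]
    have : (y : MvPolynomial σ ℂ) ∉ M := y.2
    rw [isUnit_iff_ne_zero]
    exact this
  let vh : Localization.AtPrime M →+* PowerSeries ℂ := IsLocalization.lift hunit
  have hvh : ∀ f, vh (algebraMap _ _ f) = ψ f := fun f => IsLocalization.lift_eq hunit f
  have h1 : ∀ z ∈ RingHom.ker φ, (PowerSeries.X : PowerSeries ℂ) ^ 2 ∣ vh z := by
    intro z hz
    obtain ⟨a, b, hab⟩ := IsLocalization.exists_mk'_eq M.primeCompl z
    have hspec := IsLocalization.mk'_spec (Localization.AtPrime M) a b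
    rw [hab] at hspec
    have h2 : φ (algebraMap _ _ a) = 0 := by
      rw [← hspec, map_mul, (RingHom.mem_ker).1 hz, zero_mul]
    rw [hφalg] at h2
    obtain ⟨w, hw⟩ := (IsLocalization.map_eq_zero_iff P.primeCompl _ _).1 h2
    obtain ⟨w', hw'⟩ := Ideal.Quotient.mk_surjective (w : MvPolynomial σ ℂ ⧸ I)
    have hw'' : w' ∈ M.primeCompl := by
      intro h
      rw [SetLike.mem_coe, hcomap, Ideal.mem_comap, hw'] at h
      exact w.2 h
    have h3 : w' * a ∈ I := by
      rw [← Ideal.Quotient.eq_zero_iff_mem, map_mul, hw', hw]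
    have h4 := hv _ h3
    rw [map_mul] at h4
    have h5 : (PowerSeries.X : PowerSeries ℂ) ^ 2 ∣ ψ a :=
      ((hunit ⟨w', hw''⟩).dvd_mul_left).1 h4
    have h6 := congrArg vh hspec
    rw [map_mul, hvh, hvh] at h6
    rw [← h6] at h5
    exact ((hunit b).dvd_mul_right).1 h5
  have h2 : ∀ z ∈ maximalIdeal (Localization.AtPrime M), (PowerSeries.X : PowerSeries ℂ) ∣ vh z := by
    intro z hz
    rw [← Localization.AtPrime.map_eq_maximalIdeal] at hz
    have h3 : Ideal.map (algebraMap (MvPolynomial σ ℂ) (Localization.AtPrime M)) M ≤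
        Ideal.comap vh (Ideal.span {PowerSeries.X}) := by
      rw [Ideal.map_le_iff_le_comap]
      intro f hf
      rw [Ideal.mem_comap, Ideal.mem_comap, hvh, Ideal.mem_span_singleton,
        PowerSeries.X_dvd_iff, hψ]
      exact hf
    exact Ideal.mem_span_singleton.1 (h3 hz)
  have h3 : maximalIdeal (Localization.AtPrime M) * RingHom.ker φ ≤
      Ideal.comap vh (Ideal.span {PowerSeries.X ^ 3}) := by
    rw [Ideal.mul_le]
    intro r hr s hs
    rw [Ideal.mem_comap, map_mul, Ideal.mem_span_singleton]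
    have : (PowerSeries.X : PowerSeries ℂ) ^ 3 = PowerSeries.X * PowerSeries.X ^ 2 := by ring
    rw [this]
    exact mul_dvd_mul (h2 r hr) (h1 s hs)
  have h4 : algebraMap (MvPolynomial σ ℂ) (Localization.AtPrime M) q ∈
      RingHom.ker φ ⊓ maximalIdeal (Localization.AtPrime M) ^ 2 := by
    constructor
    · rw [SetLike.mem_coe, RingHom.mem_ker, hφalg, Ideal.Quotient.eq_zero_iff_mem.2 hq, map_zero]
    · rw [← Localization.AtPrime.map_eq_maximalIdeal, ← Ideal.map_pow]
      exact Ideal.mem_map_of_mem _ hq2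
  have h5 := h3 (hmain h4)
  rw [Ideal.mem_comap, hvh, Ideal.mem_span_singleton] at h5
  exact hq3 h5

end Pool.Agent.H379R3
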