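import Mathlib

/-!
Graded modules over a standard graded polynomial ring, given by their component maps, and
syzygy-type recursions.
-/

open MvPolynomial

universe u

noncomputable section

namespace H379R3

/-- A graded module over `K[x_v : v ∈ σ]`, given by component maps. -/
structure GMod (K : Type u) [Field K] (σ : Type) where
  carrier : Type u
  [acg : AddCommGroup carrier]
  [mod : Module (MvPolynomial σ K) carrier]
  comp : ℤ → carrier →+ carrier
  comp_comp : ∀ d e u, comp d (comp e u) = if d = e then comp e u else 0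
  exists_sum : ∀ u, ∃ s : Finset ℤ, ∑ d ∈ s, comp d u = u
  comp_X : ∀ d v u, comp (d + 1) ((X v : MvPolynomial σ K) • u) =
    (X v : MvPolynomial σ K) • comp d u
  comp_C : ∀ d a u, comp d ((C a : MvPolynomial σ K) • u) = (C a : MvPolynomial σ K) • comp d u

attribute [instance] GMod.acg GMod.mod

variable {K : Type u} [Field K] {σ : Type}

namespace GMod

variable (N : GMod K σ)

lemma comp_self {d : ℤ} {u : N.carrier} : N.comp d (N.comp d u) = N.comp d u := by
  rw [N.comp_comp, if_pos rfl]

lemma comp_of_ne {d e : ℤ} (h : d ≠ e) {u : N.carrier} (hu : N.comp e u = u) :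
    N.comp d u = 0 := by
  rw [← hu, N.comp_comp, if_neg h]

lemma comp_monomial (d : ℤ) (μ : σ →₀ ℕ) (a : K) (u : N.carrier) :
    N.comp (d + μ.degree) ((monomial μ a : MvPolynomial σ K) • u) =
      (monomial μ a : MvPolynomial σ K) • N.comp d u := by
  induction μ using Finsupp.induction_linear generalizing d a u with
  | zero =>
    simp only [map_zero, Nat.cast_zero, add_zero]
    exact N.comp_C d a u
  | add μ ν h1 h2 =>
    have e : (monomial (μ + ν) a : MvPolynomial σ K) = monomial μ a * monomial ν 1 := by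
      rw [monomial_mul, mul_one]
    rw [e, mul_smul, mul_smul, map_add, Nat.cast_add, add_comm (μ.degree : ℤ), ← add_assoc,
      h1, h2]
  | single v k =>
    induction k generalizing d a u with
    | zero =>
      simp only [Finsupp.single_zero, map_zero, Nat.cast_zero, add_zero]
      exact N.comp_C d a u
    | succ k ih =>
      have e : (monomial (Finsupp.single v (k + 1)) a : MvPolynomial σ K) =
          monomial (Finsupp.single v k) a * X v := by
        rw [X, monomial_mul, mul_one, ← Finsupp.single_add]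
      have e2 : (d : ℤ) + ((Finsupp.single v (k + 1)).degree : ℕ) =
          (d + 1) + ((Finsupp.single v k).degree : ℕ) := by
        rw [Finsupp.degree_single, Finsupp.degree_single]; push_cast; ring
      rw [e2, e, mul_smul, mul_smul, ih, N.comp_X]

/-- The component of degree `k` (an integer) of a polynomial. -/
noncomputable def pc (k : ℤ) : MvPolynomial σ K →ₗ[K] MvPolynomial σ K :=
  if 0 ≤ k then homogeneousComponent k.toNat else 0

lemma coeff_pc (k : ℤ) (p : MvPolynomial σ K) (μ : σ →₀ ℕ) :
    coeff μ (pc k p) = if (μ.degree : ℤ) = k then coeff μ p else 0 := by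
  unfold pc
  split_ifs with h h2 h2
  · rw [coeff_homogeneousComponent, if_pos (by omega)]
  · rw [coeff_homogeneousComponent, if_neg (by omega)]
  · omega
  · simp

lemma pc_monomial (k : ℤ) (μ : σ →₀ ℕ) (a : K) :
    pc k (monomial μ a : MvPolynomial σ K) = if (μ.degree : ℤ) = k then monomial μ a else 0 := by
  classical
  ext ν
  rw [coeff_pc]
  split_ifs with h1 h2 h2
  · rfl
  · rw [coeff_monomial, if_neg, coeff_zero]
    rintro rfl; exact h2 h1
  · rw [coeff_monomial, if_neg]
    rintro rfl; exact h1 h2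
  · simp

lemma pc_pc (k l : ℤ) (p : MvPolynomial σ K) : pc k (pc l p) = if k = l then pc l p else 0 := by
  ext μ
  rw [coeff_pc]
  split_ifs with h1 h2 h2
  · rfl
  · rw [coeff_pc, if_neg (by omega), coeff_zero]
  · rw [coeff_pc, if_neg (by omega)]
  · simp

lemma pc_X_mul (k : ℤ) (v : σ) (p : MvPolynomial σ K) : pc (k + 1) (X v * p) = X v * pc k p := by
  classical
  ext μ
  rw [coeff_pc, coeff_X_mul', coeff_X_mul', coeff_pc]
  by_cases hv : v ∈ μ.support
  · rw [if_pos hv, if_pos hv]
    have h : (μ - Finsupp.single v 1).degree + 1 = μ.degree := by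
      have h1 : μ - Finsupp.single v 1 + Finsupp.single v 1 = μ := by
        apply tsub_add_cancel_of_le
        rw [Finsupp.single_le_iff]
        exact Nat.one_le_iff_ne_zero.mpr (Finsupp.mem_support_iff.mp hv)
      conv_rhs => rw [← h1]
      rw [map_add, Finsupp.degree_single]
    by_cases h2 : (μ.degree : ℤ) = k + 1
    · rw [if_pos h2, if_pos (by omega)]
    · rw [if_neg h2, if_neg (by omega)]
  · rw [if_neg hv, if_neg hv, ite_self]

lemma pc_C_mul (k : ℤ) (a : K) (p : MvPolynomial σ K) : pc k (C a * p) = C a * pc k p := by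
  ext μ
  rw [coeff_pc, coeff_C_mul, coeff_C_mul, coeff_pc]
  split_ifs <;> simp

lemma sum_pc (p : MvPolynomial σ K) (e : ℤ) : ∃ s : Finset ℤ, ∀ t : Finset ℤ, s ⊆ t →
    ∑ d ∈ t, pc (d - e) p = p := by
  classical
  refine ⟨(p.support.image fun μ => (μ.degree : ℤ) + e), fun t ht => ?_⟩
  ext μ
  rw [coeff_sum]
  simp only [coeff_pc]
  by_cases h : μ ∈ p.support
  · have h1 : (μ.degree : ℤ) + e ∈ t := ht (Finset.mem_image_of_mem _ h)
    rw [Finset.sum_eq_single_of_mem _ h1]
    · rw [if_pos (by ring)]
    · intro b _ hb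
      rw [if_neg]
      intro h2; apply hb; omega
  · rw [notMem_support_iff] at h
    simp [h]

lemma constantCoeff_pc (k : ℤ) (hk : k ≠ 0) (p : MvPolynomial σ K) :
    constantCoeff (pc k p) = 0 := by
  rw [constantCoeff_eq, coeff_pc, if_neg]
  simpa using fun h => hk h.symm

lemma comp_smul (d e : ℤ) (p : MvPolynomial σ K) (b : N.carrier) (hb : N.comp e b = b) :
    N.comp d (p • b) = pc (d - e) p • b := by
  classical
  induction p using MvPolynomial.induction_on' with
  | monomial μ a =>
    rw [pc_monomial]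
    have h := N.comp_monomial e μ a b
    rw [hb] at h
    by_cases h1 : (μ.degree : ℤ) = d - e
    · rw [if_pos h1]
      have : d = e + μ.degree := by omega
      rw [this]; exact h
    · rw [if_neg h1, zero_smul]
      exact N.comp_of_ne (by omega) h
  | add p q hp hq => rw [add_smul, map_add, hp, hq, map_add, add_smul]

/-- graded maps -/
def Gr {N N' : GMod K σ} (f : N.carrier →ₗ[MvPolynomial σ K] N'.carrier) : Prop :=
  ∀ d u, f (N.comp d u) = N'.comp d (f u)

/-- The free module on a basis with given degrees. -/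
@[reducible] def free (ι : Type) [Fintype ι] (deg : ι → ℤ) : GMod K σ where
  carrier := ι → MvPolynomial σ K
  comp d :=
    { toFun := fun f t => pc (d - deg t) (f t)
      map_zero' := by ext1 t; simp
      map_add' := fun f g => by ext1 t; simp }
  comp_comp d e f := by
    ext1 t
    change pc (d - deg t) (pc (e - deg t) (f t)) = _
    rw [pc_pc]
    split_ifs with h1 h2 h2
    · rfl
    · exfalso; omega
    · exfalso; omega
    · rfl
  exists_sum f := by
    classical
    choose s hs using fun t => sum_pc (f t) (deg t)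
    refine ⟨Finset.univ.biUnion s, ?_⟩
    ext1 t
    rw [Finset.sum_apply]
    exact hs t _ (Finset.subset_biUnion_of_mem s (Finset.mem_univ t))
  comp_X d v f := by
    ext1 t
    change pc (d + 1 - deg t) (X v * f t) = X v * pc (d - deg t) (f t)
    rw [← pc_X_mul]; congr 2; ring
  comp_C d a f := by
    ext1 t
    exact pc_C_mul _ a (f t)

lemma free_comp_apply {ι : Type} [Fintype ι] (deg : ι → ℤ) (d : ℤ) (f : ι → MvPolynomial σ K)
    (t : ι) : (free (K := K) (σ := σ) ι deg).comp d f t = pc (d - deg t) (f t) := rfl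

/-- submodules closed under components -/
@[reducible] def sub (S : Submodule (MvPolynomial σ K) N.carrier)
    (hS : ∀ d, ∀ u ∈ S, N.comp d u ∈ S) : GMod K σ where
  carrier := S
  comp d :=
    { toFun := fun u => ⟨N.comp d u, hS d u u.2⟩
      map_zero' := by ext; simp
      map_add' := fun f g => by ext; simp }
  comp_comp d e u := by
    ext
    change N.comp d (N.comp e u) = _
    rw [N.comp_comp]
    split_ifs <;> rfl
  exists_sum u := by
    obtain ⟨s, hs⟩ := N.exists_sum u
    refine ⟨s, ?_⟩
    ext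
    rw [AddSubmonoidClass.coe_finsetSum]
    exact hs
  comp_X d v u := by
    ext; exact N.comp_X d v u
  comp_C d a u := by
    ext; exact N.comp_C d a u

variable {N} in
lemma sub_gr (S : Submodule (MvPolynomial σ K) N.carrier) (hS) :
    Gr (N := N.sub S hS) (N' := N) S.subtype := fun _ _ => rfl

lemma ker_closed {N N' : GMod K σ} (f : N.carrier →ₗ[MvPolynomial σ K] N'.carrier) (hf : Gr f) :
    ∀ d, ∀ u ∈ LinearMap.ker f, N.comp d u ∈ LinearMap.ker f := by
  intro d u hu
  rw [LinearMap.mem_ker] at hu ⊢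
  rw [hf, hu, map_zero]

/-- the kernel -/
@[reducible] def ker {N N' : GMod K σ} (f : N.carrier →ₗ[MvPolynomial σ K] N'.carrier)
    (hf : Gr f) : GMod K σ := N.sub (LinearMap.ker f) (ker_closed f hf)

/-- the submodule `x_v N` -/
def xs (v : σ) : Submodule (MvPolynomial σ K) N.carrier :=
  LinearMap.range (LinearMap.lsmul (MvPolynomial σ K) N.carrier (X v))

lemma mem_xs {v : σ} {u : N.carrier} : u ∈ N.xs v ↔ ∃ w, (X v : MvPolynomial σ K) • w = u := Iff.rfl

lemma xs_closed (v : σ) : ∀ d, ∀ u ∈ N.xs v, N.comp d u ∈ N.xs v := by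
  rintro d _ ⟨w, rfl⟩
  refine ⟨N.comp (d - 1) w, ?_⟩
  change (X v : MvPolynomial σ K) • N.comp (d - 1) w = N.comp d ((X v : MvPolynomial σ K) • w)
  rw [← N.comp_X, sub_add_cancel]

/-- the quotient `N / x_v N` -/
@[reducible] def quot (v : σ) : GMod K σ where
  carrier := N.carrier ⧸ N.xs v
  comp d := QuotientAddGroup.map _ _ (N.comp d) (fun u hu => N.xs_closed v d u hu)
  comp_comp d e u := by
    obtain ⟨u, rfl⟩ := Submodule.Quotient.mk_surjective _ u
    change Submodule.Quotient.mk (N.comp d (N.comp e u)) = _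
    rw [N.comp_comp]
    split_ifs <;> rfl
  exists_sum u := by
    obtain ⟨u, rfl⟩ := Submodule.Quotient.mk_surjective _ u
    obtain ⟨s, hs⟩ := N.exists_sum u
    refine ⟨s, ?_⟩
    conv_rhs => rw [← hs]
    change ∑ d ∈ s, (N.xs v).mkQ (N.comp d u) = (N.xs v).mkQ (∑ d ∈ s, N.comp d u)
    rw [map_sum]
  comp_X d w u := by
    obtain ⟨u, rfl⟩ := Submodule.Quotient.mk_surjective _ u
    change Submodule.Quotient.mk (N.comp (d + 1) ((X w : MvPolynomial σ K) • u)) = _
    rw [N.comp_X]; rfl
  comp_C d a u := by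
    obtain ⟨u, rfl⟩ := Submodule.Quotient.mk_surjective _ u
    change Submodule.Quotient.mk (N.comp d ((C a : MvPolynomial σ K) • u)) = _
    rw [N.comp_C]; rfl

/-- the quotient map -/
def mkq (v : σ) : N.carrier →ₗ[MvPolynomial σ K] (N.quot v).carrier := (N.xs v).mkQ

lemma mkq_surj (v : σ) : Function.Surjective (N.mkq v) := Submodule.mkQ_surjective _

lemma mkq_gr (v : σ) : Gr (N.mkq v) := fun _ _ => rfl

lemma mkq_eq_zero {v : σ} {u : N.carrier} :
    N.mkq v u = 0 ↔ ∃ w, (X v : MvPolynomial σ K) • w = u := by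
  change Submodule.Quotient.mk u = (0 : N.carrier ⧸ N.xs v) ↔ _
  rw [Submodule.Quotient.mk_eq_zero]; rfl

/-- the map induced on quotients -/
def quotMap {N N' : GMod K σ} (f : N.carrier →ₗ[MvPolynomial σ K] N'.carrier) (v : σ) :
    (N.quot v).carrier →ₗ[MvPolynomial σ K] (N'.quot v).carrier :=
  Submodule.mapQ (N.xs v) (N'.xs v) f (by
    rintro _ ⟨w, rfl⟩
    refine ⟨f w, ?_⟩
    change (X v : MvPolynomial σ K) • f w = f ((X v : MvPolynomial σ K) • w)
    rw [map_smul])

lemma quotMap_mkq {N N' : GMod K σ} (f : N.carrier →ₗ[MvPolynomial σ K] N'.carrier) (v : σ)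
    (u : N.carrier) : quotMap f v (N.mkq v u) = N'.mkq v (f u) := rfl

lemma quotMap_gr {N N' : GMod K σ} (f : N.carrier →ₗ[MvPolynomial σ K] N'.carrier) (hf : Gr f)
    (v : σ) : Gr (quotMap f v) := by
  intro d u
  obtain ⟨u, rfl⟩ := N.mkq_surj v u
  rw [← N.mkq_gr v, quotMap_mkq, hf, N'.mkq_gr v, quotMap_mkq]

/-- A homogeneous lift. -/
lemma exists_lift {N N' : GMod K σ} (f : N.carrier →ₗ[MvPolynomial σ K] N'.carrier) (hf : Gr f)
    (hs : Function.Surjective f) {d : ℤ} {u : N'.carrier} (hu : N'.comp d u = u) :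
    ∃ w, f w = u ∧ N.comp d w = w := by
  obtain ⟨w, rfl⟩ := hs u
  exact ⟨N.comp d w, by rw [hf, hu], N.comp_self⟩

/-- `n` steps of a resolution by modules of the class `𝓒` -/
def Res (𝓒 : ℤ → GMod K σ → Prop) : ℕ → GMod K σ → ℤ → Prop
  | 0, _, _ => True
  | k + 1, N, r => ∃ (F Z : GMod K σ) (i : Z.carrier →ₗ[MvPolynomial σ K] F.carrier)
      (π : F.carrier →ₗ[MvPolynomial σ K] N.carrier), 𝓒 r F ∧ Gr i ∧ Gr π ∧
      Function.Injective i ∧ Function.Surjective π ∧ LinearMap.range i = LinearMap.ker π ∧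
      Res 𝓒 k Z (r + 1)

end GMod

end H379R3
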