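import Pool.Agent.H379R3.RgA

/-!
The lower bound: a module with a resolution by free modules generated in degrees `≤ r + i`
has no degree `r + 1` class in `Ext^1(K, -)`.
-/

open MvPolynomial

universe u

noncomputable section

namespace H379R3

variable {K : Type u} [Field K] {σ : Type}

namespace GMod

/-- the class of modules on which the variables of the list form a regular sequence, and which
are generated in degree `≤ r` modulo these (in degree `r + 1`). -/
def Fr : List σ → ℤ → GMod K σ → Prop
  | [], r, F => ∀ u, F.comp (r + 1) u = 0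
  | v :: s, r, F => (∀ u : F.carrier, (X v : MvPolynomial σ K) • u = 0 → u = 0) ∧ Fr s r (F.quot v)

lemma res_quot (v : σ) (s : List σ) : ∀ (k : ℕ) (N : GMod K σ) (r : ℤ),
    Res (Fr (v :: s)) k N r → (∀ u : N.carrier, (X v : MvPolynomial σ K) • u = 0 → u = 0) →
    Res (Fr s) k (N.quot v) r := by
  intro k
  induction k with
  | zero => intro _ _ _ _; trivial
  | succ k ih =>
    rintro N r ⟨F, Z, i, π, hF, hi, hπ, hii, hπs, hex, hZ⟩ hN
    have hZX : ∀ u : Z.carrier, (X v : MvPolynomial σ K) • u = 0 → u = 0 := by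
      intro u hu
      apply hii
      rw [map_zero]
      apply hF.1
      rw [← map_smul, hu, map_zero]
    refine ⟨F.quot v, Z.quot v, quotMap i v, quotMap π v, hF.2, quotMap_gr i hi v,
      quotMap_gr π hπ v, ?_, ?_, ?_, ih Z (r + 1) hZ hZX⟩
    · rw [injective_iff_map_eq_zero]
      intro z hz
      obtain ⟨z, rfl⟩ := Z.mkq_surj v z
      rw [quotMap_mkq, mkq_eq_zero] at hz
      obtain ⟨f, hf⟩ := hz
      have h1 : π f = 0 := by
        apply hN
        rw [← map_smul, hf]
        have : i z ∈ LinearMap.ker π := hex ▸ ⟨z, rfl⟩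
        exact this
      have h2 : f ∈ LinearMap.range i := hex.symm ▸ h1
      obtain ⟨z', rfl⟩ := h2
      rw [mkq_eq_zero]
      refine ⟨z', hii ?_⟩
      rw [map_smul]; exact hf
    · intro n
      obtain ⟨n, rfl⟩ := N.mkq_surj v n
      obtain ⟨f, rfl⟩ := hπs n
      exact ⟨F.mkq v f, rfl⟩
    · ext f
      obtain ⟨f, rfl⟩ := F.mkq_surj v f
      rw [LinearMap.mem_ker, quotMap_mkq, mkq_eq_zero]
      constructor
      · rintro ⟨z, hz⟩
        obtain ⟨z, rfl⟩ := Z.mkq_surj v z
        rw [quotMap_mkq, ← sub_eq_zero, ← map_sub, mkq_eq_zero] at hz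
        obtain ⟨w, hw⟩ := hz
        refine ⟨- π w, ?_⟩
        have h1 : π (i z) = 0 := by
          have : i z ∈ LinearMap.ker π := hex ▸ ⟨z, rfl⟩
          exact this
        have h2 := congrArg π hw
        rw [map_smul, map_sub, h1, zero_sub] at h2
        rw [smul_neg, h2, neg_neg]
      · rintro ⟨n, hn⟩
        obtain ⟨w, rfl⟩ := hπs n
        have h1 : f - (X v : MvPolynomial σ K) • w ∈ LinearMap.ker π := by
          rw [LinearMap.mem_ker, map_sub, map_smul, hn, sub_self]
        rw [← hex] at h1
        obtain ⟨z, hz⟩ := h1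
        refine ⟨Z.mkq v z, ?_⟩
        rw [quotMap_mkq, ← sub_eq_zero, ← map_sub, mkq_eq_zero, hz]
        exact ⟨-w, by rw [smul_neg]; abel⟩

theorem ext_one : ∀ (s : List σ) (N : GMod K σ) (r : ℤ), Res (Fr s) s.length N r →
    ∀ m : σ → N.carrier, (∀ v ∈ s, N.comp (r + 1) (m v) = m v) →
    (∀ v ∈ s, ∀ w ∈ s, (X v : MvPolynomial σ K) • m w = (X w : MvPolynomial σ K) • m v) →
    ∃ u, ∀ v ∈ s, m v = (X v : MvPolynomial σ K) • u := by
  intro s
  induction s with
  | nil => intro N r _ m _ _; exact ⟨0, by simp⟩
  | cons v s ih =>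
    rintro N r ⟨F, Z, i, π, hF, hi, hπ, hii, hπs, hex, hZ⟩ m hm hc
    have hπi : ∀ z, π (i z) = 0 := by
      intro z
      have : i z ∈ LinearMap.ker π := hex ▸ ⟨z, rfl⟩
      exact this
    have hker : ∀ f, π f = 0 → ∃ z, i z = f := by
      intro f hf
      have : f ∈ LinearMap.range i := hex.symm ▸ hf
      exact this
    choose! f hf hfd using fun w (hw : w ∈ v :: s) => exists_lift π hπ hπs (hm w hw)
    have hv : v ∈ v :: s := List.mem_cons_self
    cases s with
    | nil =>
      have h1 : (F.quot v).comp (r + 1) (F.mkq v (f v)) = 0 := hF.2 _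
      rw [← F.mkq_gr v, hfd v hv, mkq_eq_zero] at h1
      obtain ⟨g, hg⟩ := h1
      refine ⟨π g, ?_⟩
      intro w hw
      rw [List.mem_singleton] at hw
      subst hw
      rw [← map_smul, hg, hf w hv]
    | cons w0 s =>
      have hs : ∀ w ∈ w0 :: s, w ∈ v :: w0 :: s := fun w hw => List.mem_cons_of_mem _ hw
      have hy : ∀ w ∈ w0 :: s, ∃ z, i z = (X w : MvPolynomial σ K) • f v -
          (X v : MvPolynomial σ K) • f w := by
        intro w hw
        apply hker
        rw [map_sub, map_smul, map_smul, hf v hv, hf w (hs w hw), hc v hv w (hs w hw), sub_self]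
      choose! z hz using hy
      have hzd : ∀ w ∈ w0 :: s, Z.comp (r + 1 + 1) (z w) = z w := by
        intro w hw
        apply hii
        rw [hi, hz w hw, map_sub, F.comp_X, F.comp_X, hfd v hv, hfd w (hs w hw)]
      have hF1 : ∀ u : F.carrier, (X v : MvPolynomial σ K) • u = 0 → u = 0 := hF.1
      have hZX : ∀ u : Z.carrier, (X v : MvPolynomial σ K) • u = 0 → u = 0 := by
        intro u hu
        apply hii
        rw [map_zero]
        apply hF1
        rw [← map_smul, hu, map_zero]
      have hR := res_quot v (w0 :: s) _ Z (r + 1) hZ hZX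
      obtain ⟨u, hu⟩ := ih (Z.quot v) (r + 1) hR (fun w => Z.mkq v (z w))
        (by
          intro w hw
          change (Z.quot v).comp (r + 1 + 1) (Z.mkq v (z w)) = Z.mkq v (z w)
          rw [← Z.mkq_gr v, hzd w hw])
        (by
          intro w hw w' hw'
          change (X w : MvPolynomial σ K) • Z.mkq v (z w') =
            (X w' : MvPolynomial σ K) • Z.mkq v (z w)
          rw [← map_smul, ← map_smul, ← sub_eq_zero, ← map_sub, mkq_eq_zero]
          obtain ⟨q, hq⟩ := hker ((X w : MvPolynomial σ K) • f w' -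
            (X w' : MvPolynomial σ K) • f w) (by
              rw [map_sub, map_smul, map_smul, hf w (hs w hw), hf w' (hs w' hw'),
                hc w (hs w hw) w' (hs w' hw'), sub_self])
          refine ⟨-q, hii ?_⟩
          rw [map_smul, map_neg, map_sub, map_smul, map_smul, hz w hw, hz w' hw', hq]
          simp only [smul_sub, smul_neg, smul_smul]
          rw [mul_comm (X w') (X w), mul_comm (X v) (X w), mul_comm (X v) (X w')]
          abel)
      obtain ⟨u', rfl⟩ := Z.mkq_surj v u
      have hq : ∀ w ∈ w0 :: s, ∃ q : Z.carrier, (X v : MvPolynomial σ K) • q =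
          z w - (X w : MvPolynomial σ K) • u' := by
        intro w hw
        have h1 := hu w hw
        rw [← map_smul, ← sub_eq_zero, ← map_sub, mkq_eq_zero] at h1
        exact h1
      choose! q hq using hq
      have key : ∀ w ∈ w0 :: s, (X w : MvPolynomial σ K) • (f v - i u') =
          (X v : MvPolynomial σ K) • (f w + i (q w)) := by
        intro w hw
        have h1 := congrArg i (hq w hw)
        rw [map_smul, map_sub, map_smul, hz w hw] at h1
        rw [smul_sub, smul_add, h1]
        abel
      have h0 := key w0 List.mem_cons_self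
      have hF2 : ∀ u : (F.quot v).carrier, (X w0 : MvPolynomial σ K) • u = 0 → u = 0 := hF.2.1
      have h1 : F.mkq v (f v - i u') = 0 := by
        apply hF2
        rw [← map_smul, mkq_eq_zero]
        exact ⟨_, h0.symm⟩
      rw [mkq_eq_zero] at h1
      obtain ⟨g, hg⟩ := h1
      refine ⟨π g, ?_⟩
      intro w hw
      rw [List.mem_cons] at hw
      rcases hw with rfl | hw
      · rw [← map_smul, hg, map_sub, hf w hv, hπi, sub_zero]
      · have h2 := key w hw
        rw [← hg, smul_comm] at h2
        have h3 : (X w : MvPolynomial σ K) • g - (f w + i (q w)) = 0 := by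
          apply hF1
          rw [smul_sub, h2, sub_self]
        rw [sub_eq_zero] at h3
        rw [← map_smul, h3, map_add, hf w (hs w hw), hπi, add_zero]

end GMod

end H379R3
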