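import Pool.Agent.H379R3.RgB

/-!
Free modules are in the class `Fr`; closure properties of modules with linear-type resolutions.
-/

open MvPolynomial

universe u

noncomputable section

namespace H379R3

variable {K : Type u} [Field K] {σ : Type}

namespace GMod

/-- set the variables in `L` to zero -/
def kill (L : List σ) : MvPolynomial σ K →ₐ[K] MvPolynomial σ K :=
  open Classical in aeval (fun w => if w ∈ L then 0 else X w)

open Classical in
lemma coeff_kill (L : List σ) (p : MvPolynomial σ K) (μ : σ →₀ ℕ) :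
    coeff μ (kill L p) = if ∀ w ∈ L, μ w = 0 then coeff μ p else 0 := by
  induction p using MvPolynomial.induction_on' with
  | add p q hp hq => rw [map_add, coeff_add, hp, hq, coeff_add]; split_ifs <;> simp
  | monomial ν a =>
    have h1 : kill L (monomial ν a : MvPolynomial σ K) =
        if ∀ w ∈ L, ν w = 0 then monomial ν a else 0 := by
      rw [kill, aeval_monomial]
      split_ifs with h
      · rw [monomial_eq, algebraMap_eq]
        congr 1
        apply Finset.prod_congr rfl
        intro w hw
        change (if w ∈ L then (0 : MvPolynomial σ K) else X w) ^ ν w = _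
        rw [if_neg]
        intro h2
        exact (Finsupp.mem_support_iff.mp hw) (h w h2)
      · push Not at h
        obtain ⟨w, hw, hw2⟩ := h
        rw [Finsupp.prod, Finset.prod_eq_zero (Finsupp.mem_support_iff.mpr hw2), mul_zero]
        change (if w ∈ L then (0 : MvPolynomial σ K) else X w) ^ ν w = _
        rw [if_pos hw, zero_pow hw2]
    rw [h1]
    by_cases h2 : ν = μ
    · subst h2
      split_ifs <;> simp
    · have h3 : coeff μ (monomial ν a : MvPolynomial σ K) = 0 := by
        rw [coeff_monomial, if_neg h2]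
      rw [h3, ite_self]
      split_ifs
      · exact h3
      · simp

lemma kill_X_mul (L : List σ) (v : σ) (hv : v ∉ L) (p : MvPolynomial σ K) :
    kill L (X v * p) = X v * kill L p := by
  classical
  rw [map_mul]
  congr 1
  rw [kill, aeval_X, if_neg hv]

lemma kill_kill (L : List σ) (p : MvPolynomial σ K) : kill L (kill L p) = kill L p := by
  classical
  ext μ
  rw [coeff_kill, coeff_kill]
  split_ifs <;> rfl

lemma kill_nil (p : MvPolynomial σ K) : kill [] p = p := by
  classical
  ext μ
  rw [coeff_kill, if_pos (by simp)]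

lemma kill_cons_eq_zero (L : List σ) (v : σ) (p : MvPolynomial σ K) :
    kill (v :: L) p = 0 ↔ ∃ h, kill L p = X v * h := by
  classical
  constructor
  · intro h0
    have h1 : (X v : MvPolynomial σ K) ∣ kill L p := by
      rw [X_dvd_iff_modMonomial_eq_zero]
      ext μ
      rw [coeff_zero]
      by_cases hμ : Finsupp.single v 1 ≤ μ
      · rw [coeff_modMonomial_of_le _ hμ]
      · rw [coeff_modMonomial_of_not_le _ hμ]
        have hv : μ v = 0 := by
          rw [Finsupp.single_le_iff] at hμ
          omega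
        have h2 := congrArg (coeff μ) h0
        rw [coeff_kill, coeff_zero] at h2
        rw [coeff_kill]
        split_ifs with h3
        · rw [if_pos] at h2
          · exact h2
          · intro w hw
            rw [List.mem_cons] at hw
            rcases hw with rfl | hw
            · exact hv
            · exact h3 w hw
        · rfl
    exact h1
  · rintro ⟨h, hh⟩
    ext μ
    rw [coeff_kill, coeff_zero]
    split_ifs with h3
    · have h4 := congrArg (coeff μ) hh
      rw [coeff_kill, if_pos (fun w hw => h3 w (List.mem_cons_of_mem _ hw)), coeff_X_mul',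
        if_neg] at h4
      · exact h4
      · rw [Finsupp.mem_support_iff, not_not]
        exact h3 v List.mem_cons_self
    · rfl

/-- Data identifying `G` with the quotient of a free module by the variables in `L`. -/
structure Killed (L : List σ) {ι : Type} [Fintype ι] (deg : ι → ℤ) (G : GMod K σ)
    (ρ : (free (K := K) (σ := σ) ι deg).carrier →ₗ[MvPolynomial σ K] G.carrier) : Prop where
  gr : Gr ρ
  surj : Function.Surjective ρ
  ker : ∀ f : (free (K := K) (σ := σ) ι deg).carrier, ρ f = 0 ↔ ∀ t, kill L (f t) = 0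

lemma Killed.inj {L : List σ} {ι : Type} [Fintype ι] {deg : ι → ℤ} {G : GMod K σ}
    {ρ : (free (K := K) (σ := σ) ι deg).carrier →ₗ[MvPolynomial σ K] G.carrier}
    (h : Killed L deg G ρ) (v : σ) (hv : v ∉ L) (u : G.carrier)
    (hu : (X v : MvPolynomial σ K) • u = 0) : u = 0 := by
  obtain ⟨f, rfl⟩ := h.surj u
  rw [← map_smul] at hu
  refine (h.ker f).mpr fun t => ?_
  have h1 : kill L (X v * f t) = 0 := (h.ker ((X v : MvPolynomial σ K) • f)).mp hu t
  rw [kill_X_mul L v hv] at h1
  exact (mul_eq_zero.mp h1).resolve_left (X_ne_zero v)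

lemma Killed.quot {L : List σ} {ι : Type} [Fintype ι] {deg : ι → ℤ} {G : GMod K σ}
    {ρ : (free (K := K) (σ := σ) ι deg).carrier →ₗ[MvPolynomial σ K] G.carrier}
    (h : Killed L deg G ρ) (v : σ) (hv : v ∉ L) :
    Killed (v :: L) deg (G.quot v) ((G.mkq v).comp ρ) where
  gr d u := by
    change G.mkq v (ρ _) = _
    rw [h.gr, G.mkq_gr]; rfl
  surj := (G.mkq_surj v).comp h.surj
  ker f := by
    change G.mkq v (ρ f) = 0 ↔ _
    rw [mkq_eq_zero]
    constructor
    · rintro ⟨w, hw⟩
      obtain ⟨g, rfl⟩ := h.surj w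
      intro t
      rw [kill_cons_eq_zero]
      have h1 : ρ (f - (X v : MvPolynomial σ K) • g) = 0 := by
        rw [map_sub, map_smul, hw, sub_self]
      have h2 : kill L (f t - X v * g t) = 0 :=
        (h.ker (f - (X v : MvPolynomial σ K) • g)).mp h1 t
      rw [map_sub, kill_X_mul L v hv, sub_eq_zero] at h2
      exact ⟨_, h2⟩
    · intro h0
      choose g0 hg0 using fun t => (kill_cons_eq_zero L v (f t)).mp (h0 t)
      obtain ⟨g, hg⟩ : ∃ g : (free (K := K) (σ := σ) ι deg).carrier,
        ∀ t, kill L (f t) = X v * g t := ⟨g0, hg0⟩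
      refine ⟨ρ g, ?_⟩
      have e0 : ρ (f - (X v : MvPolynomial σ K) • g) = 0 → (X v : MvPolynomial σ K) • ρ g = ρ f := by
        intro h5
        rw [map_sub, map_smul, sub_eq_zero] at h5
        exact h5.symm
      have e2 : ∀ t, kill L (f t - X v * g t) = 0 := by
        intro t
        have h1 : kill L (kill L (f t)) = kill L (X v * g t) := by rw [hg]
        rw [kill_kill] at h1
        rw [map_sub, h1, sub_self]
      have e3 := h.ker (f - (X v : MvPolynomial σ K) • g)
      exact e0 (e3.mpr e2)

lemma Killed.fr : ∀ (s L : List σ) {ι : Type} [Fintype ι] {deg : ι → ℤ} {G : GMod K σ}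
    {ρ : (free (K := K) (σ := σ) ι deg).carrier →ₗ[MvPolynomial σ K] G.carrier} {r : ℤ}
    (_ : Killed L deg G ρ) (_ : ∀ t, deg t ≤ r) (_ : ∀ v ∈ s, v ∉ L) (_ : s.Nodup)
    (_ : ∀ v, v ∈ s ∨ v ∈ L), Fr s r G := by
  classical
  intro s
  induction s with
  | nil =>
    intro L ι _ deg G ρ r h hdeg _ _ hall u
    obtain ⟨f, rfl⟩ := h.surj u
    rw [← h.gr]
    refine (h.ker _).mpr fun t => ?_
    rw [free_comp_apply]
    ext μ
    rw [coeff_kill, coeff_zero]
    split_ifs with h1
    · have h2 : μ = 0 := by
        ext v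
        simpa using h1 v ((hall v).resolve_left (by simp))
      subst h2
      rw [coeff_pc, if_neg]
      have := hdeg t
      simp only [map_zero, Nat.cast_zero]
      omega
    · rfl
  | cons v s ih =>
    intro L ι _ deg G ρ r h hdeg hd hn hall
    have hvL : v ∉ L := hd v List.mem_cons_self
    refine ⟨h.inj v hvL, ?_⟩
    apply ih (v :: L) (h.quot v hvL) hdeg
    · intro w hw hw2
      rw [List.mem_cons] at hw2
      rcases hw2 with rfl | hw2
      · exact (List.nodup_cons.mp hn).1 hw
      · exact hd w (List.mem_cons_of_mem _ hw) hw2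
    · exact (List.nodup_cons.mp hn).2
    · intro w
      rcases hall w with hw | hw
      · rw [List.mem_cons] at hw
        rcases hw with rfl | hw
        · exact Or.inr List.mem_cons_self
        · exact Or.inl hw
      · exact Or.inr (List.mem_cons_of_mem _ hw)

lemma killed_nil {ι : Type} [Fintype ι] (deg : ι → ℤ) :
    Killed [] deg (free (K := K) (σ := σ) ι deg) LinearMap.id where
  gr _ _ := rfl
  surj u := ⟨u, rfl⟩
  ker f := by
    simp only [kill_nil]
    exact funext_iff

/-- free modules generated in degrees `≤ r` -/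
def FreeLE (r : ℤ) (F : GMod K σ) : Prop :=
  ∃ (ι : Type) (_ : Fintype ι) (deg : ι → ℤ), (∀ t, deg t ≤ r) ∧ F = free ι deg

lemma FreeLE.fr {r : ℤ} {F : GMod K σ} (h : FreeLE r F) (s : List σ) (hs : s.Nodup)
    (hall : ∀ v, v ∈ s) : Fr s r F := by
  obtain ⟨ι, _, deg, hdeg, rfl⟩ := h
  exact Killed.fr s [] (killed_nil deg) hdeg (by simp) hs (fun v => Or.inl (hall v))

lemma Res.mono_class {𝓒 𝓓 : ℤ → GMod K σ → Prop} (h : ∀ r F, 𝓒 r F → 𝓓 r F) :
    ∀ (k : ℕ) (N : GMod K σ) (r : ℤ), Res 𝓒 k N r → Res 𝓓 k N r := by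
  intro k
  induction k with
  | zero => intro _ _ _; trivial
  | succ k ih =>
    rintro N r ⟨F, Z, i, π, hF, hi, hπ, hii, hπs, hex, hZ⟩
    exact ⟨F, Z, i, π, h r F hF, hi, hπ, hii, hπs, hex, ih _ _ hZ⟩

/-- `n` steps of a resolution by free modules, the `i`-th generated in degrees `≤ r + i` -/
def U (k : ℕ) (N : GMod K σ) (r : ℤ) : Prop := Res FreeLE k N r

theorem U_ext_one (s : List σ) (hs : s.Nodup) (hall : ∀ v, v ∈ s) (N : GMod K σ) (r : ℤ)
    (hU : U s.length N r) (m : σ → N.carrier) (hm : ∀ v, N.comp (r + 1) (m v) = m v)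
    (hc : ∀ v w, (X v : MvPolynomial σ K) • m w = (X w : MvPolynomial σ K) • m v) :
    ∃ u, ∀ v, m v = (X v : MvPolynomial σ K) • u := by
  obtain ⟨u, hu⟩ := ext_one s N r (Res.mono_class (fun r F h => h.fr s hs hall) _ _ _ hU) m
    (fun v _ => hm v) (fun v _ w _ => hc v w)
  exact ⟨u, fun v => hu v (hall v)⟩

lemma U.iso {k : ℕ} {N N' : GMod K σ} {r : ℤ} (h : U k N r)
    (e : N.carrier ≃ₗ[MvPolynomial σ K] N'.carrier) (he : Gr (e : N.carrier →ₗ[_] N'.carrier)) :
    U k N' r := by
  cases k with
  | zero => trivial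
  | succ k =>
    obtain ⟨F, Z, i, π, hF, hi, hπ, hii, hπs, hex, hZ⟩ := h
    refine ⟨F, Z, i, (e : N.carrier →ₗ[_] N'.carrier).comp π, hF, hi, ?_, hii,
      e.surjective.comp hπs, ?_, hZ⟩
    · intro d u
      rw [LinearMap.comp_apply, hπ, he, LinearMap.comp_apply]
    · rw [hex, LinearMap.ker_comp]
      simp

lemma U.succ_iff {k : ℕ} {N : GMod K σ} {r : ℤ} :
    U (k + 1) N r ↔ ∃ (ι : Type) (_ : Fintype ι) (deg : ι → ℤ)
      (π : (free (K := K) (σ := σ) ι deg).carrier →ₗ[MvPolynomial σ K] N.carrier) (hπ : Gr π),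
      (∀ t, deg t ≤ r) ∧ Function.Surjective π ∧ U k (ker π hπ) (r + 1) := by
  constructor
  · rintro ⟨F, Z, i, π, ⟨ι, _, deg, hdeg, rfl⟩, hi, hπ, hii, hπs, hex, hZ⟩
    refine ⟨ι, _, deg, π, hπ, hdeg, hπs, ?_⟩
    have e1 : Z.carrier ≃ₗ[MvPolynomial σ K] LinearMap.ker π :=
      (LinearEquiv.ofInjective i hii).trans (LinearEquiv.ofEq _ _ hex)
    refine U.iso hZ ((LinearEquiv.ofInjective i hii).trans (LinearEquiv.ofEq _ _ hex)) ?_
    intro d u
    exact Subtype.ext (hi d u)
  · rintro ⟨ι, _, deg, π, hπ, hdeg, hπs, hZ⟩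
    exact ⟨free ι deg, ker π hπ, (LinearMap.ker π).subtype, π, ⟨ι, _, deg, hdeg, rfl⟩,
      sub_gr _ _, hπ, Subtype.val_injective, hπs, Submodule.range_subtype _, hZ⟩

lemma U.pred : ∀ {k : ℕ} {N : GMod K σ} {r : ℤ}, U (k + 1) N r → U k N r := by
  intro k
  induction k with
  | zero => intro _ _ _; trivial
  | succ k ih =>
    rintro N r ⟨F, Z, i, π, hF, hi, hπ, hii, hπs, hex, hZ⟩
    exact ⟨F, Z, i, π, hF, hi, hπ, hii, hπs, hex, ih hZ⟩

lemma U.mono : ∀ {k : ℕ} {N : GMod K σ} {r r' : ℤ}, r ≤ r' → U k N r → U k N r' := by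
  intro k
  induction k with
  | zero => intro _ _ _ _ _; trivial
  | succ k ih =>
    rintro N r r' hr ⟨F, Z, i, π, ⟨ι, _, deg, hdeg, rfl⟩, hi, hπ, hii, hπs, hex, hZ⟩
    exact ⟨_, Z, i, π, ⟨ι, _, deg, fun t => (hdeg t).trans hr, rfl⟩, hi, hπ, hii, hπs, hex,
      ih (by omega) hZ⟩

/-- a map from a free module -/
def lin {ι : Type} [Fintype ι] (deg : ι → ℤ) {N : GMod K σ} (b : ι → N.carrier) :
    (free (K := K) (σ := σ) ι deg).carrier →ₗ[MvPolynomial σ K] N.carrier where
  toFun f := ∑ t, f t • b t
  map_add' f g := by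
    rw [← Finset.sum_add_distrib]
    exact Finset.sum_congr rfl fun t _ => add_smul _ _ _
  map_smul' p f := by
    rw [RingHom.id_apply, Finset.smul_sum]
    exact Finset.sum_congr rfl fun t _ => mul_smul _ _ _

lemma lin_apply {ι : Type} [Fintype ι] (deg : ι → ℤ) {N : GMod K σ} (b : ι → N.carrier)
    (f : ι → MvPolynomial σ K) : lin deg b f = ∑ t, f t • b t := rfl

lemma lin_gr {ι : Type} [Fintype ι] (deg : ι → ℤ) {N : GMod K σ} (b : ι → N.carrier)
    (hb : ∀ t, N.comp (deg t) (b t) = b t) : Gr (lin deg b) := by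
  intro d f
  have e1 : N.comp d (lin deg b f) = ∑ t, N.comp d (f t • b t) := map_sum (N.comp d) _ _
  rw [e1]
  exact Finset.sum_congr rfl fun t _ => (N.comp_smul d (deg t) (f t) (b t) (hb t)).symm

lemma lin_single {ι : Type} [Fintype ι] [DecidableEq ι] (deg : ι → ℤ) {N : GMod K σ} (b : ι → N.carrier) (t : ι) :
    lin deg b (Pi.single t 1) = b t := by
  rw [lin_apply, Finset.sum_eq_single t]
  · rw [Pi.single_eq_same, one_smul]
  · intro s _ hs
    rw [Pi.single_eq_of_ne hs, zero_smul]
  · simp

lemma free_comp_single {ι : Type} [Fintype ι] [DecidableEq ι] (deg : ι → ℤ) (t : ι) :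
    (free (K := K) (σ := σ) ι deg).comp (deg t) (Pi.single t 1) = Pi.single t 1 := by
  classical
  ext1 s
  rw [free_comp_apply]
  by_cases h : s = t
  · subst h
    rw [Pi.single_eq_same, sub_self]
    ext μ
    rw [coeff_pc, coeff_one]
    by_cases h2 : (0 : σ →₀ ℕ) = μ
    · subst h2; simp
    · rw [if_neg h2]; simp
  · rw [Pi.single_eq_of_ne h, map_zero]

lemma eq_lin {ι : Type} [Fintype ι] [DecidableEq ι] (deg : ι → ℤ) {N : GMod K σ}
    (π : (free (K := K) (σ := σ) ι deg).carrier →ₗ[MvPolynomial σ K] N.carrier)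
    (f : ι → MvPolynomial σ K) : π f = ∑ t, f t • π (Pi.single t 1) := by
  conv_lhs => rw [pi_eq_sum_univ' f]
  rw [map_sum]
  refine Finset.sum_congr rfl fun t _ => ?_
  rw [map_smul]

/-- short exact sequences, with graded maps -/
structure Short {A B C : GMod K σ} (j : A.carrier →ₗ[MvPolynomial σ K] B.carrier)
    (q : B.carrier →ₗ[MvPolynomial σ K] C.carrier) : Prop where
  jgr : Gr j
  qgr : Gr q
  inj : Function.Injective j
  surj : Function.Surjective q
  exact : ∀ b, q b = 0 ↔ ∃ a, j a = b

theorem U.horseshoe : ∀ {k : ℕ} {A B C : GMod K σ} {r : ℤ}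
    {j : A.carrier →ₗ[MvPolynomial σ K] B.carrier}
    {q : B.carrier →ₗ[MvPolynomial σ K] C.carrier}
    (_ : Short j q) (_ : U k A r) (_ : U k C r), U k B r := by
  classical
  intro k
  induction k with
  | zero => intros; trivial
  | succ k ih =>
    intro A B C r j q h hA hC
    obtain ⟨ι, _, deg, π, hπ, hdeg, hs, hZ⟩ := U.succ_iff.mp hA
    obtain ⟨κ, _, deg', π', hπ', hdeg', hs', hZ'⟩ := U.succ_iff.mp hC
    choose b hb hbd using fun t => exists_lift q h.qgr h.surj
      (u := π' (Pi.single t 1)) (d := deg' t) (by rw [← hπ', free_comp_single])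
    have hqb : ∀ f : κ → MvPolynomial σ K, q (lin deg' b f) = π' f := by
      intro f
      rw [lin_apply, map_sum, eq_lin]
      exact Finset.sum_congr rfl fun t _ => by rw [map_smul, hb]
    let τ : (free (K := K) (σ := σ) (ι ⊕ κ) (Sum.elim deg deg')).carrier →ₗ[MvPolynomial σ K]
        B.carrier :=
      { toFun := fun f => j (π (fun t => f (Sum.inl t))) + lin deg' b (fun t => f (Sum.inr t))
        map_add' := fun f g => by
          have e1 : (fun t => (f + g) (Sum.inl t)) =
            (fun t => f (Sum.inl t)) + (fun t => g (Sum.inl t)) := rfl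
          have e2 : (fun t => (f + g) (Sum.inr t)) =
            (fun t => f (Sum.inr t)) + (fun t => g (Sum.inr t)) := rfl
          rw [e1, e2]
          have e3 := map_add π (fun t => f (Sum.inl t)) (fun t => g (Sum.inl t))
          have e4 := map_add (lin deg' b) (fun t => f (Sum.inr t)) (fun t => g (Sum.inr t))
          erw [e3, e4, map_add]
          abel
        map_smul' := fun p f => by
          have e1 : (fun t => (p • f) (Sum.inl t)) = p • (fun t => f (Sum.inl t)) := rfl
          have e2 : (fun t => (p • f) (Sum.inr t)) = p • (fun t => f (Sum.inr t)) := rfl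
          rw [e1, e2]
          have e3 := map_smul π p (fun t => f (Sum.inl t))
          have e4 := map_smul (lin deg' b) p (fun t => f (Sum.inr t))
          erw [e3, e4, map_smul]
          rw [RingHom.id_apply, smul_add] }
    have hτ : ∀ f, τ f = j (π (fun t => f (Sum.inl t))) + lin deg' b (fun t => f (Sum.inr t)) :=
      fun f => rfl
    have hτg : Gr τ := by
      intro d f
      rw [hτ, hτ, map_add, ← h.jgr, ← hπ, ← lin_gr deg' b hbd]
      rfl
    rw [U.succ_iff]
    refine ⟨ι ⊕ κ, inferInstance, Sum.elim deg deg', τ, hτg, ?_, ?_, ?_⟩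
    · rintro (t | t)
      · exact hdeg t
      · exact hdeg' t
    · intro u
      obtain ⟨f', hf'⟩ := hs' (q u)
      obtain ⟨a, ha⟩ := (h.exact (u - lin deg' b f')).mp (by
        rw [map_sub, hqb, hf', sub_self])
      obtain ⟨f, hf⟩ := hs a
      refine ⟨Sum.elim f f', ?_⟩
      rw [hτ]
      have e1 : (fun t => (Sum.elim f f' : ι ⊕ κ → MvPolynomial σ K) (Sum.inl t)) = f := rfl
      have e2 : (fun t => (Sum.elim f f' : ι ⊕ κ → MvPolynomial σ K) (Sum.inr t)) = f' := rfl
      rw [e1, e2, hf, ha]; abel
    · -- the kernel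
      let j' : (ker π hπ).carrier →ₗ[MvPolynomial σ K] (ker τ hτg).carrier :=
        { toFun := fun z => ⟨Sum.elim z.1 0, by
            rw [LinearMap.mem_ker, hτ]
            have e1 : (fun t => (Sum.elim z.1 0 : ι ⊕ κ → MvPolynomial σ K) (Sum.inl t)) = z.1 :=
              rfl
            have e2 : (fun t => (Sum.elim z.1 0 : ι ⊕ κ → MvPolynomial σ K) (Sum.inr t)) = 0 :=
              rfl
            have e3 : π z.1 = 0 := z.2
            rw [e1, e2, e3, map_zero, zero_add]
            exact map_zero _⟩
          map_add' := fun z w => by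
            apply Subtype.ext
            funext t
            rcases t with t | t
            · rfl
            · exact (add_zero _).symm
          map_smul' := fun p w => by
            apply Subtype.ext
            funext t
            rcases t with t | t
            · rfl
            · exact (mul_zero _).symm }
      let q' : (ker τ hτg).carrier →ₗ[MvPolynomial σ K] (ker π' hπ').carrier :=
        { toFun := fun z => ⟨fun t => z.1 (Sum.inr t), by
            have e3 : τ z.1 = 0 := z.2
            rw [LinearMap.mem_ker, ← hqb]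
            rw [hτ] at e3
            have e4 := congrArg q e3
            rw [map_add, map_zero, (h.exact (j _)).mpr ⟨_, rfl⟩, zero_add] at e4
            exact e4⟩
          map_add' := fun z w => rfl
          map_smul' := fun p w => rfl }
      refine ih (j := j') (q := q') ⟨?_, ?_, ?_, ?_, ?_⟩ hZ hZ'
      · intro d z
        apply Subtype.ext
        funext t
        rcases t with t | t
        · rfl
        · change (0 : MvPolynomial σ K) = pc _ (0 : MvPolynomial σ K)
          rw [map_zero]
      · intro d z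
        rfl
      · intro z w hzw
        apply Subtype.ext
        funext t
        exact congrFun (congrArg Subtype.val hzw) (Sum.inl t)
      · intro w
        have h1 : q (lin deg' b w.1) = 0 := by
          rw [hqb]; exact w.2
        obtain ⟨a, ha⟩ := (h.exact _).mp h1
        obtain ⟨f, hf⟩ := hs a
        refine ⟨⟨Sum.elim (-f) w.1, ?_⟩, ?_⟩
        · rw [LinearMap.mem_ker, hτ]
          have e1 : (fun t => (Sum.elim (-f) w.1 : ι ⊕ κ → MvPolynomial σ K) (Sum.inl t)) = -f :=
            rfl
          have e2 : (fun t => (Sum.elim (-f) w.1 : ι ⊕ κ → MvPolynomial σ K) (Sum.inr t)) = w.1 :=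
            rfl
          have e3 : π (-f) = - π f := map_neg π f
          rw [e1, e2, e3, hf, map_neg, ha]
          abel
        · exact Subtype.ext rfl
      · intro z
        constructor
        · intro hz
          have hz2 : ∀ t, z.1 (Sum.inr t) = 0 := fun t => congrFun (congrArg Subtype.val hz) t
          have e3 : τ z.1 = 0 := z.2
          rw [hτ] at e3
          have e4 : (fun t => z.1 (Sum.inr t)) = 0 := funext hz2
          have e5 : lin deg' b (0 : κ → MvPolynomial σ K) = 0 := map_zero _
          rw [e4, e5, add_zero] at e3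
          have e6 : π (fun t => z.1 (Sum.inl t)) = 0 := h.inj (by rw [e3, map_zero])
          refine ⟨⟨fun t => z.1 (Sum.inl t), e6⟩, ?_⟩
          apply Subtype.ext
          funext t
          rcases t with t | t
          · rfl
          · exact (hz2 t).symm
        · rintro ⟨a, rfl⟩
          apply Subtype.ext
          rfl

end GMod

end H379R3
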