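import Pool.Agent.H379R3.RgC

/-!
More closure properties: cokernels, shifts, quotients by nonzerodivisors, products.
-/

open MvPolynomial

universe u

noncomputable section

namespace H379R3

variable {K : Type u} [Field K] {σ : Type}

namespace GMod

theorem U.coker {k : ℕ} {A B C : GMod K σ} {r : ℤ}
    {j : A.carrier →ₗ[MvPolynomial σ K] B.carrier}
    {q : B.carrier →ₗ[MvPolynomial σ K] C.carrier}
    (h : Short j q) (hB : U (k + 1) B r) (hA : U k A (r + 1)) : U (k + 1) C r := by
  obtain ⟨ι, _, deg, π, hπ, hdeg, hs, hZ⟩ := U.succ_iff.mp hB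
  have hq : Gr (q.comp π) := by
    intro d u
    rw [LinearMap.comp_apply, hπ, h.qgr]; rfl
  rw [U.succ_iff]
  refine ⟨ι, inferInstance, deg, q.comp π, hq, hdeg, h.surj.comp hs, ?_⟩
  have hmem : ∀ z : (ker (q.comp π) hq).carrier, π z.1 ∈ LinearMap.range j := by
    intro z
    exact (h.exact _).mp z.2
  let j' : (ker π hπ).carrier →ₗ[MvPolynomial σ K] (ker (q.comp π) hq).carrier :=
    { toFun := fun z => ⟨z.1, by
        rw [LinearMap.mem_ker, LinearMap.comp_apply]
        have e3 : π z.1 = 0 := z.2
        rw [e3, map_zero]⟩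
      map_add' := fun z w => rfl
      map_smul' := fun p w => rfl }
  let q' : (ker (q.comp π) hq).carrier →ₗ[MvPolynomial σ K] A.carrier :=
    (LinearEquiv.ofInjective j h.inj).symm.toLinearMap.comp
      (LinearMap.codRestrict (LinearMap.range j) (π.comp (Submodule.subtype _)) hmem)
  have hq' : ∀ z, j (q' z) = π z.1 := by
    intro z
    have h1 := (LinearEquiv.ofInjective j h.inj).apply_symm_apply
      (LinearMap.codRestrict (LinearMap.range j) (π.comp (Submodule.subtype _)) hmem z)
    exact congrArg Subtype.val h1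
  refine U.horseshoe (j := j') (q := q') ⟨?_, ?_, ?_, ?_, ?_⟩ hZ hA
  · intro d z; rfl
  · intro d z
    apply h.inj
    rw [hq', h.jgr, hq', ← hπ]
    rfl
  · intro z w hzw
    have h1 : (j' z).1 = (j' w).1 := by rw [hzw]
    exact Subtype.ext h1
  · intro a
    obtain ⟨f, hf⟩ := hs (j a)
    refine ⟨⟨f, ?_⟩, ?_⟩
    · rw [LinearMap.mem_ker, LinearMap.comp_apply, hf]
      exact (h.exact _).mpr ⟨a, rfl⟩
    · apply h.inj
      rw [hq', hf]
  · intro z
    constructor
    · intro hz
      have h1 := hq' z
      rw [hz, map_zero] at h1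
      exact ⟨⟨z.1, h1.symm⟩, rfl⟩
    · rintro ⟨a, rfl⟩
      apply h.inj
      rw [hq', map_zero]
      exact a.2

/-- the shift `N(-1)` -/
@[reducible] def shift (N : GMod K σ) : GMod K σ where
  carrier := N.carrier
  comp d := N.comp (d - 1)
  comp_comp d e u := by
    rw [N.comp_comp]
    split_ifs with h1 h2 h2
    · rfl
    · omega
    · omega
    · rfl
  exists_sum u := by
    obtain ⟨s, hs⟩ := N.exists_sum u
    refine ⟨s.map (addRightEmbedding 1), ?_⟩
    rw [Finset.sum_map]
    simpa using hs
  comp_X d v u := by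
    rw [← N.comp_X]
    congr 2; ring
  comp_C d a u := N.comp_C _ a u

lemma U.shift : ∀ {k : ℕ} {N : GMod K σ} {r : ℤ}, U k N r → U k N.shift (r + 1) := by
  intro k
  induction k with
  | zero => intros; trivial
  | succ k ih =>
    rintro N r ⟨F, Z, i, π, ⟨ι, _, deg, hdeg, rfl⟩, hi, hπ, hii, hπs, hex, hZ⟩
    let i' : Z.shift.carrier →ₗ[MvPolynomial σ K]
        (GMod.free (K := K) (σ := σ) ι (fun t => deg t + 1)).carrier :=
      { toFun := fun z => i z
        map_add' := fun a b => map_add i a b
        map_smul' := fun p a => map_smul i p a }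
    let π' : (GMod.free (K := K) (σ := σ) ι (fun t => deg t + 1)).carrier →ₗ[MvPolynomial σ K]
        N.shift.carrier :=
      { toFun := fun z => π z
        map_add' := fun a b => map_add π a b
        map_smul' := fun p a => map_smul π p a }
    refine ⟨GMod.free ι (fun t => deg t + 1), Z.shift, i', π',
      ⟨ι, _, _, fun t => by have := hdeg t; omega, rfl⟩, ?_, ?_, hii, hπs, ?_, ih hZ⟩
    rotate_left 2
    · ext f
      have h1 : f ∈ LinearMap.range i ↔ f ∈ LinearMap.ker π := by rw [hex]
      exact h1
    · intro d z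
      have h1 := hi (d - 1) z
      refine h1.trans ?_
      funext t
      change pc (d - 1 - deg t) (i z t) = pc (d - (deg t + 1)) (i z t)
      congr 2; ring
    · intro d f
      have h1 := hπ (d - 1) f
      refine Eq.trans ?_ h1
      congr 1
      funext t
      change pc (d - (deg t + 1)) (f t) = pc (d - 1 - deg t) (f t)
      congr 2; ring

lemma U.quot {k : ℕ} {N : GMod K σ} {r : ℤ} (h : U (k + 1) N r) (v : σ)
    (hv : ∀ u : N.carrier, (X v : MvPolynomial σ K) • u = 0 → u = 0) : U (k + 1) (N.quot v) r := by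
  refine U.coker (A := N.shift) (B := N) (j := LinearMap.lsmul (MvPolynomial σ K) N.carrier (X v))
    (q := N.mkq v) ⟨?_, N.mkq_gr v, ?_, N.mkq_surj v, ?_⟩ h h.pred.shift
  · intro d u
    change (X v : MvPolynomial σ K) • N.comp (d - 1) u = N.comp d ((X v : MvPolynomial σ K) • u)
    rw [← N.comp_X, sub_add_cancel]
  · rw [injective_iff_map_eq_zero]
    exact hv
  · intro b
    exact N.mkq_eq_zero

lemma U.subsingleton : ∀ {k : ℕ} {N : GMod K σ} {r : ℤ} (_ : Subsingleton N.carrier), U k N r := by
  intro k
  induction k with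
  | zero => intros; trivial
  | succ k ih =>
    intro N r hN
    rw [U.succ_iff]
    refine ⟨Empty, inferInstance, fun _ => 0, 0, ?_, fun t => t.elim, ?_, ih ?_⟩
    · intro d u
      change (0 : N.carrier) = N.comp d 0
      rw [map_zero]
    · intro u; exact ⟨0, Subsingleton.elim _ _⟩
    · have h1 : Subsingleton (Empty → MvPolynomial σ K) := inferInstance
      exact ⟨fun a b => Subtype.ext (Subsingleton.elim (α := Empty → MvPolynomial σ K) _ _)⟩

lemma U.free {k : ℕ} {ι : Type} [Fintype ι] {deg : ι → ℤ} {r : ℤ} (h : ∀ t, deg t ≤ r) :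
    U k (free (K := K) (σ := σ) ι deg) r := by
  cases k with
  | zero => trivial
  | succ k =>
    rw [U.succ_iff]
    refine ⟨ι, inferInstance, deg, LinearMap.id, fun _ _ => rfl, h, fun u => ⟨u, rfl⟩, ?_⟩
    apply U.subsingleton
    exact ⟨fun a b => Subtype.ext ((a.2 : (a.1 : ι → MvPolynomial σ K) = 0).trans
      (b.2 : (b.1 : ι → MvPolynomial σ K) = 0).symm)⟩

lemma exists_killed (L : List σ) (hL : L.Nodup) : ∃ (G : GMod K σ)
    (ρ : (GMod.free (K := K) (σ := σ) Unit (fun _ => 0)).carrier →ₗ[MvPolynomial σ K] G.carrier),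
    Killed L (fun _ => 0) G ρ ∧ ∀ k, U k G 0 := by
  induction L with
  | nil => exact ⟨_, _, killed_nil _, fun k => U.free (fun _ => le_rfl)⟩
  | cons v L ih =>
    obtain ⟨G, ρ, h, hU⟩ := ih (List.nodup_cons.mp hL).2
    have hv := (List.nodup_cons.mp hL).1
    exact ⟨G.quot v, _, h.quot v hv, fun k => ((hU (k + 1)).quot v (h.inj v hv)).pred⟩

lemma Killed.U {L : List σ} (hL : L.Nodup) {G : GMod K σ}
    {ρ : (GMod.free (K := K) (σ := σ) Unit (fun _ => 0)).carrier →ₗ[MvPolynomial σ K] G.carrier}
    (h : Killed L (fun _ => 0) G ρ) (k : ℕ) : U k G 0 := by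
  obtain ⟨G', ρ', h', hU⟩ := exists_killed (K := K) L hL
  have hk : LinearMap.ker ρ' = LinearMap.ker ρ := by
    ext f
    rw [LinearMap.mem_ker, LinearMap.mem_ker, h.ker, h'.ker]
  let e : G'.carrier ≃ₗ[MvPolynomial σ K] G.carrier :=
    ((ρ'.quotKerEquivOfSurjective h'.surj).symm.trans
      (Submodule.quotEquivOfEq _ _ hk)).trans (ρ.quotKerEquivOfSurjective h.surj)
  have he : ∀ f, e (ρ' f) = ρ f := by
    intro f
    have h1 : (ρ'.quotKerEquivOfSurjective h'.surj).symm (ρ' f) = Submodule.Quotient.mk f := by
      rw [LinearEquiv.symm_apply_eq]; rfl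
    change (ρ.quotKerEquivOfSurjective h.surj) ((Submodule.quotEquivOfEq _ _ hk)
      ((ρ'.quotKerEquivOfSurjective h'.surj).symm (ρ' f))) = _
    rw [h1]; rfl
  refine (hU k).iso e ?_
  intro d u
  obtain ⟨f, rfl⟩ := h'.surj u
  change e (G'.comp d (ρ' f)) = G.comp d (e (ρ' f))
  rw [← h'.gr, he, he, h.gr]

/-- finite products -/
@[reducible] def pi {ι : Type} [Fintype ι] (G : ι → GMod K σ) : GMod K σ where
  carrier := ∀ i, (G i).carrier
  comp d :=
    { toFun := fun f i => (G i).comp d (f i)
      map_zero' := by funext i; simp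
      map_add' := fun f g => by funext i; simp }
  comp_comp d e f := by
    funext i
    change (G i).comp d ((G i).comp e (f i)) = _
    rw [(G i).comp_comp]
    split_ifs <;> rfl
  exists_sum f := by
    classical
    choose s hs using fun i => (G i).exists_sum (f i)
    refine ⟨Finset.univ.biUnion s, ?_⟩
    funext i
    rw [Finset.sum_apply]
    change ∑ d ∈ Finset.univ.biUnion s, (G i).comp d (f i) = f i
    conv_rhs => rw [← hs i]
    symm
    apply Finset.sum_subset (Finset.subset_biUnion_of_mem s (Finset.mem_univ i))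
    intro d _ hd
    rw [← hs i, map_sum]
    apply Finset.sum_eq_zero
    intro e he
    rw [(G i).comp_comp, if_neg]
    rintro rfl; exact hd he
  comp_X d v f := by
    funext i
    exact (G i).comp_X d v (f i)
  comp_C d a f := by
    funext i
    exact (G i).comp_C d a (f i)

lemma U.pi {k : ℕ} {r : ℤ} : ∀ {n : ℕ} (G : Fin n → GMod K σ), (∀ i, U k (G i) r) →
    U k (pi G) r := by
  intro n
  induction n with
  | zero =>
    intro G _
    apply U.subsingleton
    exact ⟨fun a b => funext fun i => i.elim0⟩
  | succ n ih =>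
    intro G hG
    let j : (G 0).carrier →ₗ[MvPolynomial σ K] (GMod.pi G).carrier :=
      { toFun := fun u => Fin.cons u (fun _ => 0)
        map_add' := fun a b => by
          funext i
          refine Fin.cases ?_ (fun i => ?_) i
          · rfl
          · exact (add_zero _).symm
        map_smul' := fun p a => by
          funext i
          refine Fin.cases ?_ (fun i => ?_) i
          · rfl
          · exact (smul_zero (A := (G i.succ).carrier) p).symm }
    let q : (GMod.pi G).carrier →ₗ[MvPolynomial σ K] (GMod.pi (fun i => G (Fin.succ i))).carrier :=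
      { toFun := fun f i => f i.succ
        map_add' := fun a b => rfl
        map_smul' := fun p a => rfl }
    refine U.horseshoe (j := j) (q := q) ⟨?_, fun _ _ => rfl, ?_, ?_, ?_⟩ (hG 0)
      (ih (fun i => G (Fin.succ i)) (fun i => hG i.succ))
    · intro d u
      funext i
      refine Fin.cases ?_ (fun i => ?_) i
      · rfl
      · exact (map_zero ((G i.succ).comp d)).symm
    · intro a b hab
      exact congrFun hab 0
    · intro f
      exact ⟨Fin.cons 0 f, rfl⟩
    · intro b
      constructor
      · intro hb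
        refine ⟨b 0, ?_⟩
        funext i
        refine Fin.cases ?_ (fun i => ?_) i
        · rfl
        · exact (congrFun hb i).symm
      · rintro ⟨a, rfl⟩; rfl

end GMod

end H379R3
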