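import Mathlib

/-!
Graded OI- and FI-modules over `P = (X^1)^{⊗ c}`, `P_n = K[x_{i,j} : i ∈ [c], j ∈ [n]]`, and
Castelnuovo-Mumford regularity through minimal graded free resolutions.

The objects of OI and FI are the sets `[n]`, modelled by `Fin n`; morphisms of OI are the strictly
increasing maps `Fin m ↪o Fin n`, morphisms of FI are the injections `Fin m ↪ Fin n`.
-/

open MvPolynomial

universe u

namespace H379R3.OIReg

/-- `p` is homogeneous of the integer degree `e` (so `p = 0` if `e < 0`). -/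
def IsHomogOfDeg {σ : Type} {K : Type u} [Field K] (p : MvPolynomial σ K) (e : ℤ) : Prop :=
  ∀ μ ∈ p.support, (μ.degree : ℤ) = e

/-- `gr` makes `M` a `ℤ`-graded module over the standard graded polynomial ring
`K[x_v : v ∈ σ]`. -/
structure IsGradedModule {σ : Type} {K : Type u} [Field K] {M : Type u} [AddCommGroup M]
    [Module (MvPolynomial σ K) M] (gr : ℤ → AddSubgroup M) : Prop where
  /-- `M` is the direct sum of the `gr d` -/
  isInternal : DirectSum.IsInternal gr
  smul_mem : ∀ (e : ℕ) (d : ℤ) (p : MvPolynomial σ K) (u : M),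
    p.IsHomogeneous e → u ∈ gr d → p • u ∈ gr (e + d)

/-- A minimal graded free resolution
`⋯ → F_2 → F_1 → F_0 → M → 0` of the graded module `(M, gr)` over `S = K[x_v : v ∈ σ]`:
`F_i = S^{rank i}` with basis elements `e_t` of degree `deg i t`, i.e.
`F_i = ⨁_t S(-deg i t)`; the maps preserve degrees, the sequence is exact, and the entries of the
matrices of the maps `F_{i+1} → F_i` have zero constant coefficient. -/
structure MinimalResolution {σ : Type} {K : Type u} [Field K] {M : Type u} [AddCommGroup M]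
    [Module (MvPolynomial σ K) M] (gr : ℤ → AddSubgroup M) where
  rank : ℕ → ℕ
  deg : ∀ i, Fin (rank i) → ℤ
  /-- the augmentation `F_0 → M` -/
  aug : (Fin (rank 0) → MvPolynomial σ K) →ₗ[MvPolynomial σ K] M
  /-- the differential `F_{i+1} → F_i` -/
  d : ∀ i, (Fin (rank (i + 1)) → MvPolynomial σ K) →ₗ[MvPolynomial σ K]
    (Fin (rank i) → MvPolynomial σ K)
  aug_mem : ∀ t, aug (Pi.single t 1) ∈ gr (deg 0 t)
  d_homog : ∀ i s t, IsHomogOfDeg (d i (Pi.single s 1) t) (deg (i + 1) s - deg i t)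
  aug_surjective : Function.Surjective aug
  exact_zero : LinearMap.range (d 0) = LinearMap.ker aug
  exact_succ : ∀ i, LinearMap.range (d (i + 1)) = LinearMap.ker (d i)
  minimal : ∀ i s t, constantCoeff (d i (Pi.single s 1) t) = 0

/-- The graded Betti number `β_{i,j}`: the number of basis elements of degree `j` of `F_i`. -/
def MinimalResolution.betti {σ : Type} {K : Type u} [Field K] {M : Type u} [AddCommGroup M]
    [Module (MvPolynomial σ K) M] {gr : ℤ → AddSubgroup M} (F : MinimalResolution (σ := σ)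
    (K := K) gr) (i : ℕ) (j : ℤ) : ℕ :=
  Fintype.card {t : Fin (F.rank i) // F.deg i t = j}

/-- `reg M = r`: the maximum of the `j - i` with `β_{i,j} ≠ 0` is `r`. -/
def IsRegularity {σ : Type} {K : Type u} [Field K] {M : Type u} [AddCommGroup M]
    [Module (MvPolynomial σ K) M] (gr : ℤ → AddSubgroup M) (r : ℤ) : Prop :=
  ∃ F : MinimalResolution (σ := σ) (K := K) gr,
    IsGreatest {x : ℤ | ∃ (i : ℕ) (j : ℤ), F.betti i j ≠ 0 ∧ x = j - i} r

/-- `P_n = K[x_{i,j} : i ∈ [c], j ∈ [n]]`. -/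
abbrev PolyAlg (K : Type u) [Field K] (c n : ℕ) : Type u := MvPolynomial (Fin c × Fin n) K

/-- The `K`-algebra map `P(ε) : P_m → P_n`, `x_{i,j} ↦ x_{i,ε(j)}`. -/
noncomputable def PolyAlg.map (K : Type u) [Field K] (c : ℕ) {m n : ℕ} (ε : Fin m → Fin n) :
    PolyAlg K c m →ₐ[K] PolyAlg K c n :=
  rename (Prod.map id ε)

/-- A graded OI-module over `P`. -/
structure GradedOIModule (K : Type u) [Field K] (c : ℕ) where
  /-- the value at `[n]` -/
  obj : ℕ → Type u
  [addCommGroup : ∀ n, AddCommGroup (obj n)]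
  [module : ∀ n, Module (PolyAlg K c n) (obj n)]
  /-- the graded pieces -/
  gr : ∀ n, ℤ → AddSubgroup (obj n)
  isGraded : ∀ n, IsGradedModule (σ := Fin c × Fin n) (K := K) (gr n)
  /-- the structure map of a strictly increasing map -/
  map : ∀ {m n : ℕ}, (Fin m ↪o Fin n) → obj m →+ obj n
  map_mem : ∀ {m n : ℕ} (ε : Fin m ↪o Fin n) (d : ℤ) (u : obj m), u ∈ gr m d → map ε u ∈ gr n d
  map_id : ∀ (n : ℕ) (u : obj n), map (RelEmbedding.refl (fun x1 x2 : Fin n => x1 ≤ x2)) u = u
  map_comp : ∀ {l m n : ℕ} (ε : Fin l ↪o Fin m) (δ : Fin m ↪o Fin n) (u : obj l),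
    map (ε.trans δ) u = map δ (map ε u)
  map_smul : ∀ {m n : ℕ} (ε : Fin m ↪o Fin n) (p : PolyAlg K c m) (u : obj m),
    map ε (p • u) = PolyAlg.map K c ε p • map ε u

/-- A graded FI-module over `P`. -/
structure GradedFIModule (K : Type u) [Field K] (c : ℕ) where
  /-- the value at `[n]` -/
  obj : ℕ → Type u
  [addCommGroup : ∀ n, AddCommGroup (obj n)]
  [module : ∀ n, Module (PolyAlg K c n) (obj n)]
  /-- the graded pieces -/
  gr : ∀ n, ℤ → AddSubgroup (obj n)
  isGraded : ∀ n, IsGradedModule (σ := Fin c × Fin n) (K := K) (gr n)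
  /-- the structure map of an injection -/
  map : ∀ {m n : ℕ}, (Fin m ↪ Fin n) → obj m →+ obj n
  map_mem : ∀ {m n : ℕ} (ε : Fin m ↪ Fin n) (d : ℤ) (u : obj m), u ∈ gr m d → map ε u ∈ gr n d
  map_id : ∀ (n : ℕ) (u : obj n), map (Function.Embedding.refl (Fin n)) u = u
  map_comp : ∀ {l m n : ℕ} (ε : Fin l ↪ Fin m) (δ : Fin m ↪ Fin n) (u : obj l),
    map (ε.trans δ) u = map δ (map ε u)
  map_smul : ∀ {m n : ℕ} (ε : Fin m ↪ Fin n) (p : PolyAlg K c m) (u : obj m),
    map ε (p • u) = PolyAlg.map K c ε p • map ε u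

attribute [instance] GradedOIModule.addCommGroup GradedOIModule.module
  GradedFIModule.addCommGroup GradedFIModule.module

variable {K : Type u} [Field K] {c : ℕ}

/-- Finite generation: there are finitely many homogeneous `q_k ∈ M_{w_k}` such that for every `n`
the `P_n`-module `M_n` is generated by all `M(ε)(q_k)`, `ε : [w_k] → [n]`. -/
def GradedOIModule.FinGen (M : GradedOIModule K c) : Prop :=
  ∃ (r : ℕ) (w : Fin r → ℕ) (q : ∀ k, M.obj (w k)), (∀ k, ∃ d, q k ∈ M.gr (w k) d) ∧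
    ∀ n, Submodule.span (PolyAlg K c n)
      {u : M.obj n | ∃ (k : Fin r) (ε : Fin (w k) ↪o Fin n), u = M.map ε (q k)} = ⊤

/-- Finite generation: there are finitely many homogeneous `q_k ∈ M_{w_k}` such that for every `n`
the `P_n`-module `M_n` is generated by all `M(ε)(q_k)`, `ε : [w_k] → [n]`. -/
def GradedFIModule.FinGen (M : GradedFIModule K c) : Prop :=
  ∃ (r : ℕ) (w : Fin r → ℕ) (q : ∀ k, M.obj (w k)), (∀ k, ∃ d, q k ∈ M.gr (w k) d) ∧
    ∀ n, Submodule.span (PolyAlg K c n)
      {u : M.obj n | ∃ (k : Fin r) (ε : Fin (w k) ↪ Fin n), u = M.map ε (q k)} = ⊤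

/-- `reg M_n = r` -/
def GradedOIModule.HasReg (M : GradedOIModule K c) (n : ℕ) (r : ℤ) : Prop :=
  IsRegularity (σ := Fin c × Fin n) (K := K) (M.gr n) r

/-- `reg M_n = r` -/
def GradedFIModule.HasReg (M : GradedFIModule K c) (n : ℕ) (r : ℤ) : Prop :=
  IsRegularity (σ := Fin c × Fin n) (K := K) (M.gr n) r

/-- The regularity relation `reg n = r` is eventually linear: for some integers `a`, `b` we have
`reg n = a n + b` for all large `n`. -/
def EventuallyLinear (reg : ℕ → ℤ → Prop) : Prop :=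
  ∃ a b : ℤ, ∃ n₀ : ℕ, ∀ n : ℕ, n₀ ≤ n → reg n (a * (n : ℤ) + b)

end H379R3.OIReg
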