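import Pool.Agent.H379R3.RgD

/-!
Minimal towers: the generator degrees of a minimal graded free resolution are bounded by those
of any graded free resolution.
-/

open MvPolynomial

universe u

noncomputable section

namespace H379R3

variable {K : Type u} [Field K] {σ : Type}

namespace GMod

/-- a minimal graded free resolution, with its syzygy modules -/
structure Tower (K : Type u) [Field K] (σ : Type) where
  rank : ℕ → ℕ
  deg : ∀ i, Fin (rank i) → ℤ
  Z : ℕ → GMod K σ
  π : ∀ i, (GMod.free (K := K) (σ := σ) (Fin (rank i)) (deg i)).carrier →ₗ[MvPolynomial σ K]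
    (Z i).carrier
  ι : ∀ i, (Z (i + 1)).carrier →ₗ[MvPolynomial σ K]
    (GMod.free (K := K) (σ := σ) (Fin (rank i)) (deg i)).carrier
  πgr : ∀ i, Gr (π i)
  ιgr : ∀ i, Gr (ι i)
  πsurj : ∀ i, Function.Surjective (π i)
  ιinj : ∀ i, Function.Injective (ι i)
  exact : ∀ i f, π i f = 0 ↔ ∃ z, ι i z = f
  minimal : ∀ i z s, constantCoeff (ι i z s) = 0

lemma Tower.U (T : Tower K σ) (r : ℤ) (h : ∀ i t, T.deg i t ≤ r + i) :
    ∀ (k i : ℕ), U k (T.Z i) (r + i) := by
  intro k
  induction k with
  | zero => intro _; trivial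
  | succ k ih =>
    intro i
    have h1 := ih (i + 1)
    refine ⟨_, T.Z (i + 1), T.ι i, T.π i, ⟨_, inferInstance, T.deg i, h i, rfl⟩, T.ιgr i,
      T.πgr i, T.ιinj i, T.πsurj i, ?_, ?_⟩
    · ext f
      exact (T.exact i f).symm
    · have : r + (i : ℤ) + 1 = r + ((i + 1 : ℕ) : ℤ) := by push_cast; ring
      rw [this]; exact h1

lemma exists_sum_X [Fintype σ] (p : MvPolynomial σ K) (hp : constantCoeff p = 0) :
    ∃ h : σ → MvPolynomial σ K, ∑ v, X v * h v = p := by
  have h1 : p ∈ Ideal.span (X '' (Set.univ : Set σ)) := by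
    rw [mem_ideal_span_X_image]
    intro m hm
    by_contra hcon
    push Not at hcon
    have h2 : m = 0 := by
      ext v
      exact hcon v (Set.mem_univ v)
    subst h2
    rw [mem_support_iff] at hm
    exact hm hp
  rw [Set.image_univ, Ideal.mem_span_range_iff_exists_fun] at h1
  obtain ⟨c, hc⟩ := h1
  exact ⟨c, by rw [← hc]; exact Finset.sum_congr rfl fun v _ => mul_comm _ _⟩

lemma comp_neg_free {ι : Type} [Fintype ι] {deg : ι → ℤ} {d D : ℤ} (hD : ∀ t, D ≤ deg t)
    (hd : d < D) (f : (GMod.free (K := K) (σ := σ) ι deg).carrier) :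
    (GMod.free (K := K) (σ := σ) ι deg).comp d f = 0 := by
  funext t
  rw [free_comp_apply]
  have := hD t
  ext μ
  rw [coeff_pc, if_neg (by omega)]
  rfl

/-- homogeneous vectors with zero constant coefficients -/
lemma exists_sum_X' [Fintype σ] {ι : Type} [Fintype ι] {deg : ι → ℤ} {d : ℤ}
    (f : (GMod.free (K := K) (σ := σ) ι deg).carrier)
    (hf : (GMod.free (K := K) (σ := σ) ι deg).comp d f = f)
    (h0 : ∀ t, constantCoeff (f t) = 0) :
    ∃ h : σ → (GMod.free (K := K) (σ := σ) ι deg).carrier,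
      (∀ v, (GMod.free (K := K) (σ := σ) ι deg).comp (d - 1) (h v) = h v) ∧
      ∑ v, (X v : MvPolynomial σ K) • h v = f := by
  choose h hh using fun t => exists_sum_X (f t) (h0 t)
  refine ⟨fun v => (GMod.free (K := K) (σ := σ) ι deg).comp (d - 1) (fun t => h t v),
    fun v => comp_self _, ?_⟩
  have e1 : ∑ v, (X v : MvPolynomial σ K) •
      (fun t => h t v : (GMod.free (K := K) (σ := σ) ι deg).carrier) = f := by
    funext t
    rw [Finset.sum_apply]
    exact hh t
  have e2 := congrArg ((GMod.free (K := K) (σ := σ) ι deg).comp d) e1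
  rw [hf, map_sum] at e2
  rw [← e2]
  apply Finset.sum_congr rfl
  intro v _
  rw [← comp_X, sub_add_cancel]

lemma constantCoeff_lin {ι κ : Type} [Fintype ι] [Fintype κ] (deg : ι → ℤ) (e : κ → ℤ)
    (b : ι → (GMod.free (K := K) (σ := σ) κ e).carrier) (f : ι → MvPolynomial σ K)
    (h0 : ∀ t, constantCoeff (f t) = 0) (s : κ) :
    constantCoeff (lin deg b f s) = 0 := by
  have e1 : lin deg b f s = ∑ t, f t * b t s := by
    rw [lin_apply, Finset.sum_apply]; rfl
  rw [e1, map_sum]
  apply Finset.sum_eq_zero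
  intro t _
  rw [map_mul, h0, zero_mul]

theorem retract_core [Fintype σ] {ι κ : Type} [Fintype ι] [Fintype κ] {deg : ι → ℤ} {e : κ → ℤ}
    {N N' : GMod K σ}
    (π : (GMod.free (K := K) (σ := σ) ι deg).carrier →ₗ[MvPolynomial σ K] N.carrier)
    (hπ : Gr π) (hs : Function.Surjective π)
    (hmin : ∀ f, π f = 0 → ∀ t, constantCoeff (f t) = 0)
    (π' : (GMod.free (K := K) (σ := σ) κ e).carrier →ₗ[MvPolynomial σ K] N'.carrier)
    (hπ' : Gr π') (hs' : Function.Surjective π')
    (a : N.carrier →ₗ[MvPolynomial σ K] N'.carrier)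
    (b : N'.carrier →ₗ[MvPolynomial σ K] N.carrier) (ha : Gr a) (hb : Gr b)
    (hab : Function.Bijective (fun u => b (a u))) :
    ∃ (χ : (GMod.free (K := K) (σ := σ) ι deg).carrier →ₗ[MvPolynomial σ K]
        (GMod.free (K := K) (σ := σ) κ e).carrier)
      (ψ : (GMod.free (K := K) (σ := σ) κ e).carrier →ₗ[MvPolynomial σ K]
        (GMod.free (K := K) (σ := σ) ι deg).carrier),
      Gr χ ∧ Gr ψ ∧ (∀ f, π' (χ f) = a (π f)) ∧ (∀ g, π (ψ g) = b (π' g)) ∧
      (∀ g : (GMod.free (K := K) (σ := σ) κ e).carrier, (∀ s, constantCoeff (g s) = 0) →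
        ∀ t, constantCoeff (ψ g t) = 0) ∧
      Function.Bijective (fun f => ψ (χ f)) := by
  classical
  choose g hg hgd using fun t => exists_lift π' hπ' hs'
      (u := a (π (Pi.single t 1))) (d := deg t) (by rw [← ha, ← hπ, free_comp_single])
  choose f hf hfd using fun t => exists_lift π hπ hs
      (u := b (π' (Pi.single t 1))) (d := e t) (by rw [← hb, ← hπ', free_comp_single])
  have h1 : ∀ u, π' (lin deg g u) = a (π u) := by
    intro u
    rw [lin_apply, map_sum, eq_lin deg π u, map_sum]
    exact Finset.sum_congr rfl fun t _ => by rw [map_smul, hg, map_smul]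
  have h2 : ∀ u, π (lin e f u) = b (π' u) := by
    intro u
    rw [lin_apply, map_sum, eq_lin e π' u, map_sum]
    exact Finset.sum_congr rfl fun t _ => by rw [map_smul, hf, map_smul]
  have g1 : Gr (lin deg g) := lin_gr deg g hgd
  have g2 : Gr (lin e f) := lin_gr e f hfd
  refine ⟨lin deg g, lin e f, g1, g2, h1, h2, ?_, ?_⟩
  · intro u hu t
    exact constantCoeff_lin e deg f u hu t
  · let θ : (GMod.free (K := K) (σ := σ) ι deg).carrier →ₗ[MvPolynomial σ K]
        (GMod.free (K := K) (σ := σ) ι deg).carrier := (lin e f).comp (lin deg g)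
    have hθ : ∀ u, π (θ u) = b (a (π u)) := by
      intro u
      change π (lin e f (lin deg g u)) = _
      rw [h2, h1]
    have hθg : Gr θ := by
      intro d u
      change lin e f (lin deg g _) = _
      rw [g1, g2]; rfl
    -- lower bound of the degrees
    obtain ⟨D, hD⟩ : ∃ D : ℤ, ∀ t, D ≤ deg t := by
      obtain ⟨D, hD⟩ := (Set.finite_range deg).bddBelow
      exact ⟨D, fun t => hD ⟨t, rfl⟩⟩
    have key : ∀ n : ℕ, ∀ d : ℤ, d < D + n → ∀ u : (GMod.free (K := K) (σ := σ) ι deg).carrier,
        (GMod.free (K := K) (σ := σ) ι deg).comp d u = u → ∃ w, θ w = u := by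
      intro n
      induction n with
      | zero =>
        intro d hd u hu
        refine ⟨0, ?_⟩
        rw [map_zero, ← hu, comp_neg_free hD (by simpa using hd)]
      | succ n ih =>
        intro d hd u hu
        obtain ⟨n0, hn0⟩ := hab.2 (π u)
        obtain ⟨f0, rfl⟩ := hs n0
        have hn1 : b (a (π ((GMod.free (K := K) (σ := σ) ι deg).comp d f0))) = π u := by
          rw [hπ, ha, hb]
          change N.comp d ((fun u => b (a u)) (π f0)) = _
          rw [hn0, ← hπ, hu]
        set f1 := (GMod.free (K := K) (σ := σ) ι deg).comp d f0 with hf1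
        have hf1d : (GMod.free (K := K) (σ := σ) ι deg).comp d f1 = f1 := comp_self _
        have hk : π (u - θ f1) = 0 := by
          rw [map_sub, hθ, hn1, sub_self]
        have hc := hmin _ hk
        have hd2 : (GMod.free (K := K) (σ := σ) ι deg).comp d (u - θ f1) = u - θ f1 := by
          rw [map_sub, hu, ← hθg, hf1d]
        obtain ⟨h, hh, hsum⟩ := exists_sum_X' _ hd2 hc
        choose w hw using fun v => ih (d - 1) (by push_cast at hd; omega) (h v) (hh v)
        refine ⟨f1 + ∑ v, (X v : MvPolynomial σ K) • w v, ?_⟩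
        rw [map_add, map_sum]
        have e1 : ∑ v, θ ((X v : MvPolynomial σ K) • w v) = u - θ f1 := by
          rw [← hsum]
          exact Finset.sum_congr rfl fun v _ => by rw [map_smul, hw]
        rw [e1]; abel
    have hsurj : Function.Surjective θ := by
      intro u
      obtain ⟨s, hs0⟩ := (GMod.free (K := K) (σ := σ) ι deg).exists_sum u
      choose w hw using fun d : ℤ => key ((d - D + 1).toNat) d (by omega)
        ((GMod.free (K := K) (σ := σ) ι deg).comp d u) (comp_self _)
      refine ⟨∑ d ∈ s, w d, ?_⟩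
      rw [map_sum]
      conv_rhs => rw [← hs0]
      exact Finset.sum_congr rfl fun d _ => hw d
    have hinj : Function.Injective θ := by
      have hfin : Module.Finite (MvPolynomial σ K) (ι → MvPolynomial σ K) := inferInstance
      exact OrzechProperty.injective_of_surjective_endomorphism
        (R := MvPolynomial σ K) (M := ι → MvPolynomial σ K) θ hsurj
    exact ⟨hinj, hsurj⟩

theorem Tower.retract [Fintype σ] (T : Tower K σ) : ∀ (k i : ℕ) (N' : GMod K σ) (r : ℤ)
    (a : (T.Z i).carrier →ₗ[MvPolynomial σ K] N'.carrier)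
    (b : N'.carrier →ₗ[MvPolynomial σ K] (T.Z i).carrier) (_ : Gr a) (_ : Gr b)
    (_ : Function.Bijective (fun u => b (a u))) (_ : GMod.U (k + 1) N' r)
    (m : ℕ) (_ : m = i + k) (t : Fin (T.rank m)), T.deg m t ≤ r + k := by
  classical
  intro k
  induction k with
  | zero =>
    intro i N' r a b ha hb hab hU m hm t
    rw [add_zero] at hm
    subst hm
    obtain ⟨κ, _, e, π', hπ', hdeg, hs', hZ⟩ := U.succ_iff.mp hU
    obtain ⟨χ, ψ, hχ, hψ, h1, h2, h3, hbij⟩ := retract_core (T.π m) (T.πgr m) (T.πsurj m)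
      (by
        intro f hf t
        obtain ⟨z, rfl⟩ := (T.exact m f).mp hf
        exact T.minimal m z t) π' hπ' hs' a b ha hb hab
    rw [Nat.cast_zero, add_zero]
    by_contra hcon
    push Not at hcon
    obtain ⟨f, hf⟩ := hbij.2 (Pi.single t 1)
    have hf1 : ψ (χ ((GMod.free (K := K) (σ := σ) _ (T.deg m)).comp (T.deg m t) f)) =
        Pi.single t 1 := by
      rw [hχ, hψ]
      change (GMod.free (K := K) (σ := σ) _ (T.deg m)).comp (T.deg m t)
        ((fun f => ψ (χ f)) f) = _
      rw [hf, free_comp_single]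
    have h4 := h3 (χ ((GMod.free (K := K) (σ := σ) _ (T.deg m)).comp (T.deg m t) f)) (by
      intro s
      rw [hχ, free_comp_apply]
      apply constantCoeff_pc
      have := hdeg s
      omega) t
    rw [hf1, Pi.single_eq_same, map_one] at h4
    exact one_ne_zero h4
  | succ k ih =>
    intro i N' r a b ha hb hab hU m hm t
    obtain ⟨κ, _, e, π', hπ', hdeg, hs', hZ⟩ := U.succ_iff.mp hU
    obtain ⟨χ, ψ, hχ, hψ, h1, h2, h3, hbij⟩ := retract_core (T.π i) (T.πgr i) (T.πsurj i)
      (by
        intro f hf t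
        obtain ⟨z, rfl⟩ := (T.exact i f).mp hf
        exact T.minimal i z t) π' hπ' hs' a b ha hb hab
    have hmem : ∀ w : (ker π' hπ').carrier, ψ w.1 ∈ LinearMap.range (T.ι i) := by
      intro w
      have h5 : T.π i (ψ w.1) = 0 := by
        have h6 : π' w.1 = 0 := w.2
        rw [h2, h6, map_zero]
      exact (T.exact i _).mp h5
    have hπι : ∀ z, T.π i (T.ι i z) = 0 := fun z => (T.exact i _).mpr ⟨z, rfl⟩
    let a' : (T.Z (i + 1)).carrier →ₗ[MvPolynomial σ K] (ker π' hπ').carrier :=
      LinearMap.codRestrict (LinearMap.ker π') (χ.comp (T.ι i)) (by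
        intro z
        rw [LinearMap.mem_ker, LinearMap.comp_apply, h1, hπι, map_zero])
    let b' : (ker π' hπ').carrier →ₗ[MvPolynomial σ K] (T.Z (i + 1)).carrier :=
      (LinearEquiv.ofInjective (T.ι i) (T.ιinj i)).symm.toLinearMap.comp
        (LinearMap.codRestrict (LinearMap.range (T.ι i)) (ψ.comp (Submodule.subtype _)) hmem)
    have hb' : ∀ w, T.ι i (b' w) = ψ w.1 := by
      intro w
      have h7 := (LinearEquiv.ofInjective (T.ι i) (T.ιinj i)).apply_symm_apply
        (LinearMap.codRestrict (LinearMap.range (T.ι i)) (ψ.comp (Submodule.subtype _)) hmem w)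
      exact congrArg Subtype.val h7
    have hab' : ∀ z, T.ι i (b' (a' z)) = ψ (χ (T.ι i z)) := fun z => hb' _
    have h8 := ih (i + 1) (ker π' hπ') (r + 1) a' b' ?_ ?_ ⟨?_, ?_⟩ hZ m (by omega) t
    · push_cast at h8 ⊢; omega
    · intro d z
      apply Subtype.ext
      change χ (T.ι i ((T.Z (i + 1)).comp d z)) = _
      rw [T.ιgr, hχ]; rfl
    · intro d w
      apply T.ιinj i
      rw [hb', T.ιgr, hb', ← hψ]
      rfl
    · intro z z' hz
      have h9 := congrArg (T.ι i) hz
      change T.ι i (b' (a' z)) = T.ι i (b' (a' z')) at h9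
      rw [hab', hab'] at h9
      exact T.ιinj i (hbij.1 h9)
    · intro z
      obtain ⟨f, hf⟩ := hbij.2 (T.ι i z)
      have h10 : b (a (T.π i f)) = 0 := by
        rw [← h1, ← h2]
        change T.π i ((fun f => ψ (χ f)) f) = 0
        rw [hf, hπι]
      have h11 : T.π i f = 0 := by
        apply hab.1
        change b (a (T.π i f)) = b (a 0)
        rw [h10, map_zero, map_zero]
      obtain ⟨z0, rfl⟩ := (T.exact i f).mp h11
      refine ⟨z0, T.ιinj i ?_⟩
      change T.ι i (b' (a' z0)) = _
      rw [hab']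
      exact hf

theorem Tower.deg_le [Fintype σ] (T : Tower K σ) (r : ℤ) (hU : ∀ k, GMod.U k (T.Z 0) r) (i : ℕ)
    (t : Fin (T.rank i)) : T.deg i t ≤ r + i :=
  T.retract i 0 (T.Z 0) r LinearMap.id LinearMap.id (fun _ _ => rfl) (fun _ _ => rfl)
    Function.bijective_id (hU (i + 1)) i (by omega) t

end GMod

end H379R3
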