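import Pool.Agent.H379R3.RgDefs
import Pool.Agent.H379R3.RgE

/-!
Link between minimal graded free resolutions and towers.
-/

open MvPolynomial

universe u

noncomputable section

namespace H379R3

open OIReg

variable {K : Type u} [Field K] {σ : Type}

namespace GMod

/-- the graded pieces -/
def piece (N : GMod K σ) (d : ℤ) : AddSubgroup N.carrier where
  carrier := {u | N.comp d u = u}
  add_mem' := by
    intro a b ha hb
    change N.comp d (a + b) = a + b
    rw [map_add, ha, hb]
  zero_mem' := map_zero _
  neg_mem' := by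
    intro a ha
    change N.comp d (-a) = -a
    rw [map_neg, ha]

lemma mem_piece {N : GMod K σ} {d : ℤ} {u : N.carrier} : u ∈ N.piece d ↔ N.comp d u = u := Iff.rfl

lemma comp_smul_homog (N : GMod K σ) (e : ℕ) (d : ℤ) (p : MvPolynomial σ K) (u : N.carrier)
    (hp : p.IsHomogeneous e) (hu : N.comp d u = u) : N.comp (e + d) (p • u) = p • u := by
  rw [N.comp_smul _ d p u hu]
  congr 1
  ext μ
  rw [coeff_pc]
  split_ifs with h
  · rfl
  · by_contra hcon
    apply h
    have := hp (fun h2 => hcon h2.symm)
    rw [Finsupp.degree_eq_weight_one] at *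
    simp only [Pi.one_def] at *
    rw [← this]
    ring

theorem isGradedModule (N : GMod K σ) : IsGradedModule (σ := σ) (K := K) N.piece where
  isInternal := by
    have hc : ∀ (x : DirectSum ℤ fun d => N.piece d) (d : ℤ),
        N.comp d (DirectSum.coeAddMonoidHom N.piece x) = x d := by
      intro x d
      induction x using DirectSum.induction_on with
      | zero => simp
      | of e u =>
        rw [DirectSum.coeAddMonoidHom_of]
        by_cases h : d = e
        · subst h
          rw [DirectSum.of_eq_same]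
          exact u.2
        · rw [DirectSum.of_eq_of_ne _ _ _ h]
          exact N.comp_of_ne h u.2
      | add x y hx hy => rw [map_add, map_add, hx, hy]; rfl
    constructor
    · rw [injective_iff_map_eq_zero]
      intro x hx
      ext d
      rw [← hc, hx, map_zero]; rfl
    · intro u
      obtain ⟨s, hs⟩ := N.exists_sum u
      refine ⟨∑ d ∈ s, DirectSum.of (fun d => N.piece d) d ⟨N.comp d u, N.comp_self⟩, ?_⟩
      rw [map_sum]
      simp only [DirectSum.coeAddMonoidHom_of]
      exact hs
  smul_mem e d p u hp hu := N.comp_smul_homog e d p u hp hu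

lemma IsHomogOfDeg.pc_eq {p : MvPolynomial σ K} {e : ℤ} (h : IsHomogOfDeg p e) : pc e p = p := by
  ext μ
  rw [coeff_pc]
  split_ifs with h1
  · rfl
  · by_contra hcon
    exact h1 (h μ (by rw [mem_support_iff]; exact fun h2 => hcon h2.symm))

section tower

variable {N : GMod K σ} (F : MinimalResolution (σ := σ) (K := K) N.piece)

/-- the free module `F_i` -/
@[reducible] def Pm (i : ℕ) : GMod K σ := GMod.free (K := K) (σ := σ) (Fin (F.rank i)) (F.deg i)

lemma aug_gr : Gr (N := Pm F 0) (N' := N) F.aug := by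
  have h1 : F.aug = lin (F.deg 0) (N := N) (fun t => F.aug (Pi.single t 1)) := by
    refine LinearMap.ext fun f => ?_
    rw [lin_apply]
    exact eq_lin (F.deg 0) (N := N) F.aug f
  have h2 := lin_gr (F.deg 0) (N := N) (fun t => F.aug (Pi.single t 1)) F.aug_mem
  rw [h1]
  exact h2

lemma d_gr (i : ℕ) : Gr (N := Pm F (i + 1)) (N' := Pm F i) (F.d i) := by
  have h1 : F.d i = lin (F.deg (i + 1)) (N := Pm F i) (fun t => F.d i (Pi.single t 1)) := by
    refine LinearMap.ext fun f => ?_
    rw [lin_apply]
    exact eq_lin (F.deg (i + 1)) (N := Pm F i) (F.d i) f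
  have h2 := lin_gr (F.deg (i + 1)) (N := Pm F i) (fun t => F.d i (Pi.single t 1)) (by
    intro s
    funext t
    exact IsHomogOfDeg.pc_eq (F.d_homog i s t))
  rw [h1]
  exact h2

lemma range_closed (i : ℕ) : ∀ d, ∀ u ∈ LinearMap.range (F.d i), (Pm F i).comp d u ∈
    LinearMap.range (F.d i) := by
  rintro d _ ⟨w, rfl⟩
  exact ⟨(Pm F (i + 1)).comp d w, d_gr F i d w⟩

/-- the syzygy module `range d_i ⊆ F_i` -/
@[reducible] def Sz (i : ℕ) : GMod K σ := (Pm F i).sub (LinearMap.range (F.d i)) (range_closed F i)

/-- the modules of the tower -/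
def TZ : ℕ → GMod K σ
  | 0 => N
  | i + 1 => Sz F i

/-- the maps of the tower -/
def Tπ : ∀ i, (Pm F i).carrier →ₗ[MvPolynomial σ K] (TZ F i).carrier
  | 0 => F.aug
  | i + 1 => LinearMap.rangeRestrict (F.d i)

/-- the tower of a minimal graded free resolution -/
def tower : Tower K σ where
  rank := F.rank
  deg := F.deg
  Z := TZ F
  π := Tπ F
  ι i := (LinearMap.range (F.d i)).subtype
  πgr i := by
    cases i with
    | zero => exact aug_gr F
    | succ i =>
      intro d u
      exact Subtype.ext (d_gr F i d u)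
  ιgr i := fun _ _ => rfl
  πsurj i := by
    cases i with
    | zero => exact F.aug_surjective
    | succ i => exact LinearMap.surjective_rangeRestrict _
  ιinj i := Subtype.val_injective
  exact i f := by
    have h0 : (∃ z : LinearMap.range (F.d i), (LinearMap.range (F.d i)).subtype z = f) ↔
        f ∈ LinearMap.range (F.d i) := by
      constructor
      · rintro ⟨z, rfl⟩; exact z.2
      · intro h; exact ⟨⟨f, h⟩, rfl⟩
    refine Iff.trans ?_ h0.symm
    cases i with
    | zero =>
      rw [F.exact_zero]; rfl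
    | succ i =>
      rw [F.exact_succ]
      constructor
      · intro h; exact congrArg Subtype.val h
      · intro h; exact Subtype.ext h
  minimal i z s := by
    obtain ⟨w, hw⟩ := z.2
    have h1 : (z.1 : Fin (F.rank i) → MvPolynomial σ K) = F.d i w := hw.symm
    change constantCoeff (z.1 s) = 0
    rw [h1]
    have h2 : F.d i w = ∑ t, w t • F.d i (Pi.single t 1) :=
      eq_lin (F.deg (i + 1)) (N := Pm F i) (F.d i) w
    rw [h2, Finset.sum_apply, map_sum]
    apply Finset.sum_eq_zero
    intro t _
    rw [Pi.smul_apply, smul_eq_mul, map_mul, F.minimal, mul_zero]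

end tower

/-- If all `U k N r` hold then `reg N ≤ r`. -/
theorem reg_le [Fintype σ] {N : GMod K σ} {r r' : ℤ} (hU : ∀ k, U k N r)
    (h : IsRegularity (σ := σ) (K := K) N.piece r') : r' ≤ r := by
  obtain ⟨F, ⟨i, j, hb, rfl⟩, -⟩ := h
  have h1 : Nonempty {t : Fin (F.rank i) // F.deg i t = j} := by
    rw [← Fintype.card_pos_iff]
    exact Nat.pos_of_ne_zero hb
  obtain ⟨t, ht⟩ := h1
  have h2 := (tower F).deg_le r hU i t
  change F.deg i t ≤ r + i at h2
  rw [ht] at h2
  omega

/-- If `reg N ≤ r` then all `U k N r` hold. -/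
theorem U_of_reg {N : GMod K σ} {r r' : ℤ} (hr : r' ≤ r)
    (h : IsRegularity (σ := σ) (K := K) N.piece r') (k : ℕ) : U k N r := by
  obtain ⟨F, -, hub⟩ := h
  have h1 : ∀ i t, (tower F).deg i t ≤ r + i := by
    intro i t
    have h2 : F.deg i t - i ≤ r' := by
      apply hub
      refine ⟨i, F.deg i t, ?_, rfl⟩
      have h3 : 0 < F.betti i (F.deg i t) := by
        unfold MinimalResolution.betti
        rw [Fintype.card_pos_iff]
        exact ⟨⟨t, rfl⟩⟩
      omega
    change F.deg i t ≤ r + i
    omega
  have h4 := (tower F).U r h1 k 0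
  rw [Nat.cast_zero, add_zero] at h4
  exact h4

/-- A nonzero graded module vanishing in degrees `< r` has regularity at least `r`. -/
theorem le_reg {N : GMod K σ} {r r' : ℤ} (hN : ∀ d < r, ∀ u, N.comp d u = 0)
    (hne : Nontrivial N.carrier) (h : IsRegularity (σ := σ) (K := K) N.piece r') : r ≤ r' := by
  obtain ⟨F, -, hub⟩ := h
  have h1 : ∃ t : Fin (F.rank 0), F.aug (Pi.single t 1) ≠ 0 := by
    by_contra hcon
    push Not at hcon
    obtain ⟨u, hu⟩ := exists_ne (0 : N.carrier)
    obtain ⟨f, rfl⟩ := F.aug_surjective u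
    apply hu
    have h2 : F.aug f = ∑ t, f t • F.aug (Pi.single t 1) :=
      eq_lin (F.deg 0) (N := N) F.aug f
    rw [h2]
    exact Finset.sum_eq_zero fun t _ => by rw [hcon, smul_zero]
  obtain ⟨t, ht⟩ := h1
  have h3 : r ≤ F.deg 0 t := by
    by_contra hcon
    push Not at hcon
    apply ht
    have h4 : N.comp (F.deg 0 t) (F.aug (Pi.single t 1)) = F.aug (Pi.single t 1) := F.aug_mem t
    rw [← h4, hN _ hcon]
  have h5 : F.deg 0 t - (0 : ℕ) ≤ r' := by
    apply hub
    refine ⟨0, F.deg 0 t, ?_, rfl⟩
    have h3 : 0 < F.betti 0 (F.deg 0 t) := by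
      unfold MinimalResolution.betti
      rw [Fintype.card_pos_iff]
      exact ⟨⟨t, rfl⟩⟩
    omega
  push_cast at h5
  omega

end GMod

end H379R3
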