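import Pool.Agent.H379R3.RgF

/-!
The module attached to a matrix `B`: generators `ν_i` (degree 0), `e_j` (degree 1), relations
`x_v e_j = 0` for `v ≠ (i0, j)`, `x_{(i0,j)} ν_i = B i j e_j`, `x_v ν_i = 0` for the other `v`.
It is realised inside `K^n × K[X]^n` by `ν_i = (δ_i, (B i j)_j)`, `e_j = (0, X δ_j)`.
-/

open MvPolynomial

universe u

noncomputable section

namespace H379R3

open OIReg

variable {K : Type u} [Field K] {σ : Type}

namespace GMod

section ev

variable [DecidableEq σ]

/-- evaluation at `x_v = X`, all other variables zero -/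
def ev (v : σ) : MvPolynomial σ K →ₐ[K] Polynomial K :=
  aeval (fun w => if w = v then Polynomial.X else 0)

lemma ev_X (v w : σ) : ev (K := K) v (X w) = if w = v then Polynomial.X else 0 := by
  rw [ev, aeval_X]

lemma coeff_ev (v : σ) (p : MvPolynomial σ K) (k : ℕ) :
    (ev v p).coeff k = coeff (Finsupp.single v k) p := by
  induction p using MvPolynomial.induction_on' with
  | add p q hp hq => rw [map_add, Polynomial.coeff_add, hp, hq, coeff_add]
  | monomial μ a =>
    rw [ev, aeval_monomial, coeff_monomial]
    by_cases h : ∀ w, w ≠ v → μ w = 0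
    · have h1 : (μ.prod fun i k => (if i = v then Polynomial.X else (0 : Polynomial K)) ^ k) =
          Polynomial.X ^ (μ v) := by
        rw [Finsupp.prod]
        by_cases hv : μ v = 0
        · have : μ = 0 := by
            ext w
            by_cases hw : w = v
            · subst hw; exact hv
            · exact h w hw
          subst this
          simp
        · have h2 : μ.support = {v} := by
            ext w
            rw [Finsupp.mem_support_iff, Finset.mem_singleton]
            constructor
            · intro h3; by_contra h4; exact h3 (h w h4)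
            · rintro rfl; exact hv
          rw [h2, Finset.prod_singleton, if_pos rfl]
      rw [h1, Polynomial.algebraMap_apply, Algebra.algebraMap_self, RingHom.id_apply,
        Polynomial.coeff_C_mul, Polynomial.coeff_X_pow]
      by_cases h3 : k = μ v
      · rw [if_pos h3, if_pos, mul_one]
        ext w
        by_cases hw : v = w
        · subst hw; rw [Finsupp.single_eq_same, h3]
        · rw [Finsupp.single_eq_of_ne (Ne.symm hw)]
          exact h w (Ne.symm hw)
      · rw [if_neg h3, if_neg, mul_zero]
        rintro rfl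
        apply h3
        rw [Finsupp.single_eq_same]
    · push Not at h
      obtain ⟨w, hw, hw2⟩ := h
      rw [Finsupp.prod, Finset.prod_eq_zero (Finsupp.mem_support_iff.mpr hw2), mul_zero,
        Polynomial.coeff_zero, if_neg]
      · rintro rfl
        apply hw2
        rw [Finsupp.single_eq_of_ne hw]
      · rw [if_neg hw, zero_pow hw2]

lemma coeff_zero_ev (v : σ) (p : MvPolynomial σ K) : (ev v p).coeff 0 = constantCoeff p := by
  rw [coeff_ev, Finsupp.single_zero]; rfl

/-- degree components of univariate polynomials -/
def pcomp (d : ℤ) : Polynomial K →+ Polynomial K where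
  toFun f := if 0 ≤ d then Polynomial.monomial d.toNat (f.coeff d.toNat) else 0
  map_zero' := by simp
  map_add' f g := by split_ifs <;> simp

lemma coeff_pcomp (d : ℤ) (f : Polynomial K) (k : ℕ) :
    (pcomp d f).coeff k = if (k : ℤ) = d then f.coeff k else 0 := by
  change (if 0 ≤ d then Polynomial.monomial d.toNat (f.coeff d.toNat) else 0 :
    Polynomial K).coeff k = _
  split_ifs with h1 h2 h2
  · rw [Polynomial.coeff_monomial, if_pos (by omega)]
    congr 1; omega
  · rw [Polynomial.coeff_monomial, if_neg (by omega)]
  · omega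
  · simp

/-- `K[x_v]`, with the other variables acting by zero -/
def GX (v : σ) : GMod K σ where
  carrier := Polynomial K
  mod := Module.compHom (Polynomial K) (ev (K := K) v).toRingHom
  comp := pcomp
  comp_comp d e f := by
    ext k
    rw [coeff_pcomp, coeff_pcomp]
    by_cases h1 : d = e
    · subst h1
      rw [if_pos rfl, coeff_pcomp]
      split_ifs <;> rfl
    · rw [if_neg h1, Polynomial.coeff_zero]
      split_ifs with h2 h3
      · omega
      · rfl
      · rfl
  exists_sum f := by
    refine ⟨f.support.image (fun k : ℕ => (k : ℤ)), ?_⟩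
    ext k
    rw [Polynomial.finset_sum_coeff]
    simp only [coeff_pcomp]
    rw [Finset.sum_ite_eq]
    split_ifs with h
    · rfl
    · symm
      rw [← Polynomial.notMem_support_iff]
      intro h2
      exact h (Finset.mem_image_of_mem _ h2)
  comp_X d w f := by
    change pcomp (d + 1) (ev v (X w) * f) = ev v (X w) * pcomp d f
    rw [ev_X]
    split_ifs with h
    · ext k
      rw [coeff_pcomp]
      cases k with
      | zero => simp
      | succ k =>
        rw [Polynomial.coeff_X_mul, Polynomial.coeff_X_mul, coeff_pcomp]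
        push_cast
        by_cases h2 : (k : ℤ) = d
        · rw [if_pos h2, if_pos (by omega)]
        · rw [if_neg h2, if_neg (by omega)]
    · rw [zero_mul, zero_mul, map_zero]
  comp_C d a f := by
    change pcomp d (ev v (C a) * f) = ev v (C a) * pcomp d f
    have : ev v (C a : MvPolynomial σ K) = Polynomial.C a := by
      rw [ev, aeval_C]; rfl
    rw [this]
    ext k
    rw [coeff_pcomp, Polynomial.coeff_C_mul, Polynomial.coeff_C_mul, coeff_pcomp]
    split_ifs <;> simp

end ev

/-- `K`, with all variables acting by zero -/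
def GK : GMod K σ where
  carrier := K
  mod := Module.compHom K (constantCoeff (σ := σ) (R := K))
  comp d := if d = 0 then AddMonoidHom.id K else 0
  comp_comp d e f := by
    by_cases h : d = 0
    · by_cases h2 : e = 0
      · subst h; subst h2; simp
      · subst h; rw [if_neg h2, if_neg (Ne.symm h2)]; simp
    · by_cases h2 : e = 0
      · subst h2; simp [h]
      · rw [if_neg h, if_neg h2]; simp
  exists_sum f := ⟨{0}, by simp⟩
  comp_X d v f := by
    change (if d + 1 = 0 then AddMonoidHom.id K else 0) (constantCoeff (X v) * f) =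
      constantCoeff (X v : MvPolynomial σ K) * _
    rw [constantCoeff_X, zero_mul, zero_mul, map_zero]
  comp_C d a f := by
    change (if d = 0 then AddMonoidHom.id K else 0) (constantCoeff (C a : MvPolynomial σ K) * f) =
      constantCoeff (C a : MvPolynomial σ K) * _
    split_ifs <;> simp

/-- binary products -/
@[reducible] def prod (A B : GMod K σ) : GMod K σ where
  carrier := A.carrier × B.carrier
  comp d := (A.comp d).prodMap (B.comp d)
  comp_comp d e u := by
    refine Prod.ext ?_ ?_
    · change A.comp d (A.comp e u.1) = _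
      rw [A.comp_comp]
      split_ifs <;> rfl
    · change B.comp d (B.comp e u.2) = _
      rw [B.comp_comp]
      split_ifs <;> rfl
  exists_sum u := by
    classical
    obtain ⟨s, hs⟩ := A.exists_sum u.1
    obtain ⟨t, ht⟩ := B.exists_sum u.2
    refine ⟨s ∪ t, Prod.ext ?_ ?_⟩
    · rw [Prod.fst_sum]
      change ∑ d ∈ s ∪ t, A.comp d u.1 = u.1
      conv_rhs => rw [← hs]
      symm
      apply Finset.sum_subset Finset.subset_union_left
      intro d _ hd
      rw [← hs, map_sum]
      apply Finset.sum_eq_zero
      intro e he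
      rw [A.comp_comp, if_neg]
      rintro rfl; exact hd he
    · rw [Prod.snd_sum]
      change ∑ d ∈ s ∪ t, B.comp d u.2 = u.2
      conv_rhs => rw [← ht]
      symm
      apply Finset.sum_subset Finset.subset_union_right
      intro d _ hd
      rw [← ht, map_sum]
      apply Finset.sum_eq_zero
      intro e he
      rw [B.comp_comp, if_neg]
      rintro rfl; exact hd he
  comp_X d v u := Prod.ext (A.comp_X d v u.1) (B.comp_X d v u.2)
  comp_C d a u := Prod.ext (A.comp_C d a u.1) (B.comp_C d a u.2)

section MM

variable {c n : ℕ} (i0 : Fin c) (B : Fin n → Fin n → K)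

/-- the ambient module -/
@[reducible] def amb (K : Type u) [Field K] {c : ℕ} (n : ℕ) (i0 : Fin c) :
    GMod K (Fin c × Fin n) :=
  prod (pi (fun _ : Fin n => GK)) (pi (fun j : Fin n => GX (i0, j)))

/-- the `K^n`-part -/
def fa (u : (amb K n i0).carrier) : Fin n → K := u.1

/-- the `K[X]^n`-part -/
def fg (u : (amb K n i0).carrier) : Fin n → Polynomial K := u.2

lemma amb_ext {u v : (amb K n i0).carrier} (h1 : fa i0 u = fa i0 v) (h2 : fg i0 u = fg i0 v) :
    u = v := Prod.ext h1 h2

lemma fa_add (u v : (amb K n i0).carrier) : fa i0 (u + v) = fa i0 u + fa i0 v := rfl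
lemma fg_add (u v : (amb K n i0).carrier) : fg i0 (u + v) = fg i0 u + fg i0 v := rfl
lemma fa_zero : fa i0 (0 : (amb K n i0).carrier) = 0 := rfl
lemma fg_zero : fg i0 (0 : (amb K n i0).carrier) = 0 := rfl
lemma fa_smul (p : MvPolynomial (Fin c × Fin n) K) (u : (amb K n i0).carrier) (i : Fin n) :
    fa i0 (p • u) i = constantCoeff p * fa i0 u i := rfl
lemma fg_smul (p : MvPolynomial (Fin c × Fin n) K) (u : (amb K n i0).carrier) (j : Fin n) :
    fg i0 (p • u) j = ev (i0, j) p * fg i0 u j := rfl
lemma fa_comp (d : ℤ) (u : (amb K n i0).carrier) (i : Fin n) :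
    fa i0 ((amb K n i0).comp d u) i = if d = 0 then fa i0 u i else 0 := by
  change (if d = 0 then AddMonoidHom.id K else 0) (fa i0 u i) = _
  split_ifs <;> rfl
lemma fg_comp (d : ℤ) (u : (amb K n i0).carrier) (j : Fin n) :
    fg i0 ((amb K n i0).comp d u) j = pcomp d (fg i0 u j) := rfl

/-- the submodule -/
def Msub : Submodule (MvPolynomial (Fin c × Fin n) K) (amb K n i0).carrier where
  carrier := {u | ∀ j, (fg i0 u j).coeff 0 = ∑ i, fa i0 u i * B i j}
  add_mem' := by
    intro a b ha hb j
    rw [fg_add, fa_add, Pi.add_apply, Polynomial.coeff_add, ha, hb, ← Finset.sum_add_distrib]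
    exact Finset.sum_congr rfl fun i _ => (add_mul _ _ _).symm
  zero_mem' := by
    intro j
    rw [fg_zero, fa_zero]
    simp
  smul_mem' := by
    intro p a ha j
    rw [fg_smul, Polynomial.mul_coeff_zero, coeff_zero_ev, ha, Finset.mul_sum]
    exact Finset.sum_congr rfl fun i _ => by rw [fa_smul, mul_assoc]

lemma mem_Msub {u : (amb K n i0).carrier} :
    u ∈ Msub i0 B ↔ ∀ j, (fg i0 u j).coeff 0 = ∑ i, fa i0 u i * B i j := Iff.rfl

lemma Msub_closed : ∀ d, ∀ u ∈ Msub i0 B, (amb K n i0).comp d u ∈ Msub i0 B := by
  intro d u hu j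
  rw [fg_comp, coeff_pcomp]
  have e1 : ∑ i, fa i0 ((amb K n i0).comp d u) i * B i j =
      ∑ i, (if d = 0 then fa i0 u i else 0) * B i j :=
    Finset.sum_congr rfl fun i _ => by rw [fa_comp]
  rw [e1]
  by_cases h : d = 0
  · subst h
    simpa using hu j
  · rw [if_neg (by push_cast; omega)]
    simp [h]

/-- the graded module attached to `B` -/
@[reducible] def MM : GMod K (Fin c × Fin n) := (amb K n i0).sub (Msub i0 B) (Msub_closed i0 B)

/-- `K[x_v]` has a linear resolution -/
theorem GX_U (k : ℕ) (v : Fin c × Fin n) : U k (GX (K := K) v) 0 := by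
  classical
  have hL : ((Finset.univ.filter (fun w : Fin c × Fin n => w ≠ v)).toList).Nodup :=
    Finset.nodup_toList _
  let ρ : (GMod.free (K := K) (σ := Fin c × Fin n) Unit (fun _ => 0)).carrier
      →ₗ[MvPolynomial (Fin c × Fin n) K] (GX (K := K) v).carrier :=
    { toFun := fun f => ev v (f ())
      map_add' := fun f g => map_add (ev v) (f ()) (g ())
      map_smul' := fun p f => map_mul (ev v) p (f ()) }
  refine Killed.U hL (G := GX v) (ρ := ρ) ⟨?_, ?_, ?_⟩ k
  · intro d f
    change ev v (pc (d - 0) (f ())) = pcomp d (ev v (f ()))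
    ext k
    rw [coeff_ev, coeff_pc, coeff_pcomp, coeff_ev, Finsupp.degree_single, sub_zero]
  · intro f
    have hev : ∀ f : Polynomial K, ev v (Polynomial.aeval (X v) f) = f := by
      intro f
      rw [← Polynomial.aeval_algHom_apply, ev_X, if_pos rfl, Polynomial.aeval_X_left_apply]
    exact ⟨fun _ => Polynomial.aeval (X v) (f : Polynomial K), hev f⟩
  · intro f
    change ev v (f ()) = 0 ↔ _
    constructor
    · intro h t
      ext μ
      rw [coeff_kill, coeff_zero]
      split_ifs with h2
      · have h3 : μ = Finsupp.single v (μ v) := by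
          ext w
          by_cases hw : w = v
          · subst hw; rw [Finsupp.single_eq_same]
          · rw [Finsupp.single_eq_of_ne hw]
            exact h2 w (by simp [hw])
        rw [h3, ← coeff_ev]
        change (ev v (f ())).coeff _ = 0
        rw [h, Polynomial.coeff_zero]
      · rfl
    · intro h
      ext k
      have h2 := congrArg (coeff (Finsupp.single v k)) (h ())
      rw [coeff_kill, if_pos, coeff_zero] at h2
      · rw [coeff_ev, h2, Polynomial.coeff_zero]
      · intro w hw
        rw [Finset.mem_toList, Finset.mem_filter] at hw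
        rw [Finsupp.single_eq_of_ne hw.2]

/-- the nonsingular case: `M ≅ ∏ K[x_j]` -/
theorem MM_U (hB : Function.Bijective (fun (a : Fin n → K) (j : Fin n) => ∑ i, a i * B i j))
    (k : ℕ) : U k (MM i0 B) 0 := by
  classical
  have h1 : ∀ v : Fin c × Fin n, U k (GX (K := K) v) 0 := fun v => GX_U k v
  have h2 := U.pi (k := k) (r := 0) (fun j : Fin n => GX (K := K) (i0, j)) (fun j => h1 (i0, j))
  let φ : (MM i0 B).carrier →ₗ[MvPolynomial (Fin c × Fin n) K]
      (pi (fun j : Fin n => GX (K := K) (i0, j))).carrier :=
    { toFun := fun u => u.1.2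
      map_add' := fun _ _ => rfl
      map_smul' := fun _ _ => rfl }
  have hφ : Function.Bijective φ := by
    constructor
    · intro u v huv
      have huv' : fg i0 u.1 = fg i0 v.1 := huv
      apply Subtype.ext
      refine amb_ext i0 ?_ huv'
      apply hB.1
      funext j
      have e1 := u.2 j
      have e2 := v.2 j
      rw [huv'] at e1
      exact e1.symm.trans e2
    · intro g
      let g' : Fin n → Polynomial K := g
      obtain ⟨a, ha⟩ := hB.2 (fun j => (g' j).coeff 0)
      let w : (amb K n i0).carrier := (a, g)
      have hw : w ∈ Msub i0 B := by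
        intro j
        exact (congrFun ha j).symm
      exact ⟨⟨w, hw⟩, rfl⟩
  refine h2.iso (LinearEquiv.ofBijective φ hφ).symm ?_
  intro d g
  apply hφ.1
  have e1 : ∀ g, φ ((LinearEquiv.ofBijective φ hφ).symm g) = g :=
    fun g => (LinearEquiv.ofBijective φ hφ).apply_symm_apply g
  have e2 : ∀ u, φ ((MM i0 B).comp d u) = (pi (fun j : Fin n => GX (K := K) (i0, j))).comp d
    (φ u) := fun u => rfl
  change φ ((LinearEquiv.ofBijective φ hφ).symm _) =
    φ ((MM i0 B).comp d ((LinearEquiv.ofBijective φ hφ).symm g))
  rw [e1, e2, e1]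

/-- the singular case -/
theorem MM_not_U (hB : ¬ Function.Surjective (fun (a : Fin n → K) (j : Fin n) => ∑ i, a i * B i j)) :
    ¬ U (Fintype.card (Fin c × Fin n)) (MM i0 B) 0 := by
  classical
  intro hU
  apply hB
  intro b
  let e : Fin c × Fin n → (MM i0 B).carrier := fun v =>
    ⟨((0, fun j => if v = (i0, j) then Polynomial.C (b j) * Polynomial.X else 0) :
      (Fin n → K) × (Fin n → Polynomial K)), by
      intro j
      change Polynomial.coeff (if v = (i0, j) then Polynomial.C (b j) * Polynomial.X else 0) 0 =
        ∑ i, (0 : K) * B i j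
      split_ifs <;> simp⟩
  have he : ∀ v j, fg i0 (e v).1 j =
    if v = (i0, j) then Polynomial.C (b j) * Polynomial.X else 0 := fun v j => rfl
  have hea : ∀ v, fa i0 (e v).1 = 0 := fun v => rfl
  obtain ⟨u, hu⟩ := U_ext_one (Finset.univ.toList : List (Fin c × Fin n)) (Finset.nodup_toList _)
    (by simp) (MM i0 B) 0 (by rw [Finset.length_toList]; exact hU) e
    (by
      intro v
      apply Subtype.ext
      refine amb_ext i0 ?_ ?_
      · funext i
        change fa i0 ((amb K n i0).comp (0 + 1) (e v).1) i = _
        rw [fa_comp, hea]; simp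
      · funext j
        change fg i0 ((amb K n i0).comp (0 + 1) (e v).1) j = _
        rw [fg_comp, he]
        split_ifs
        · ext k
          rw [coeff_pcomp, Polynomial.coeff_C_mul, Polynomial.coeff_X]
          by_cases hk : 1 = k
          · subst hk; simp
          · rw [if_neg hk]; simp
        · rw [map_zero])
    (by
      intro v w
      apply Subtype.ext
      refine amb_ext i0 ?_ ?_
      · funext i
        change fa i0 ((X v : MvPolynomial (Fin c × Fin n) K) • (e w).1) i =
          fa i0 ((X w : MvPolynomial (Fin c × Fin n) K) • (e v).1) i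
        rw [fa_smul, fa_smul, hea, hea]; simp
      · funext j
        change fg i0 ((X v : MvPolynomial (Fin c × Fin n) K) • (e w).1) j =
          fg i0 ((X w : MvPolynomial (Fin c × Fin n) K) • (e v).1) j
        rw [fg_smul, fg_smul, he, he, ev_X, ev_X]
        by_cases h1 : v = (i0, j)
        · by_cases h2 : w = (i0, j)
          · rw [if_pos h1, if_pos h1, if_pos h2, if_pos h2]
          · rw [if_pos h1, if_pos h1, if_neg h2, if_neg h2, mul_zero, zero_mul]
        · by_cases h2 : w = (i0, j)
          · rw [if_neg h1, if_neg h1, if_pos h2, if_pos h2, mul_zero, zero_mul]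
          · rw [if_neg h1, if_neg h1, if_neg h2, if_neg h2])
  refine ⟨fa i0 u.1, ?_⟩
  funext j
  have h1 : fg i0 (e (i0, j)).1 j =
      fg i0 ((X (i0, j) : MvPolynomial (Fin c × Fin n) K) • u.1) j := by
    rw [hu (i0, j)]; rfl
  rw [he, if_pos rfl, fg_smul, ev_X, if_pos rfl] at h1
  have h2 := congrArg (fun f : Polynomial K => f.coeff 1) h1
  simp only [Polynomial.coeff_C_mul, Polynomial.coeff_X_one, mul_one] at h2
  rw [show (1 : ℕ) = 0 + 1 from rfl, Polynomial.coeff_X_mul] at h2
  rw [h2]
  exact (u.2 j).symm

end MM

end GMod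

end H379R3
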