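import Pool.Agent.H379R3.RgG

/-!
The OI- and FI-modules attached to a compatible family of matrices.
-/

open MvPolynomial

universe u

noncomputable section

namespace H379R3

open OIReg

namespace GMod

section

variable {K : Type u} [Field K] {c : ℕ} (i0 : Fin c) (B : ∀ n, Fin n → Fin n → K)

/-- the value at `[n]` -/
@[reducible] def OM (n : ℕ) : GMod K (Fin c × Fin n) := MM i0 (B n)

/-- coordinates -/
def faH {n : ℕ} (i : Fin n) : (OM i0 B n).carrier →+ K where
  toFun u := fa i0 u.1 i
  map_zero' := rfl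
  map_add' _ _ := rfl

/-- coordinates -/
def fgH {n : ℕ} (j : Fin n) : (OM i0 B n).carrier →+ Polynomial K where
  toFun u := fg i0 u.1 j
  map_zero' := rfl
  map_add' _ _ := rfl

lemma OM_ext {n : ℕ} {u v : (OM i0 B n).carrier} (h1 : ∀ i, faH i0 B i u = faH i0 B i v)
    (h2 : ∀ j, fgH i0 B j u = fgH i0 B j v) : u = v :=
  Subtype.ext (amb_ext i0 (funext h1) (funext h2))

lemma fgH_coeff {n : ℕ} (u : (OM i0 B n).carrier) (j : Fin n) :
    (fgH i0 B j u).coeff 0 = ∑ i, faH i0 B i u * B n i j := u.2 j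

lemma faH_smul {n : ℕ} (p : PolyAlg K c n) (u : (OM i0 B n).carrier) (i : Fin n) :
    faH i0 B i (p • u) = constantCoeff p * faH i0 B i u := rfl

lemma fgH_smul {n : ℕ} (p : PolyAlg K c n) (u : (OM i0 B n).carrier) (j : Fin n) :
    fgH i0 B j (p • u) = ev (i0, j) p * fgH i0 B j u := rfl

lemma faH_comp {n : ℕ} (d : ℤ) (u : (OM i0 B n).carrier) (i : Fin n) :
    faH i0 B i ((OM i0 B n).comp d u) = if d = 0 then faH i0 B i u else 0 :=
  fa_comp i0 d u.1 i

lemma fgH_comp {n : ℕ} (d : ℤ) (u : (OM i0 B n).carrier) (j : Fin n) :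
    fgH i0 B j ((OM i0 B n).comp d u) = pcomp d (fgH i0 B j u) := rfl

/-- constructor -/
def mkM {n : ℕ} (a : Fin n → K) (g : Fin n → Polynomial K)
    (h : ∀ j, (g j).coeff 0 = ∑ i, a i * B n i j) : (OM i0 B n).carrier :=
  ⟨((a, g) : (Fin n → K) × (Fin n → Polynomial K)), h⟩

lemma faH_mk {n : ℕ} (a : Fin n → K) (g : Fin n → Polynomial K) (h) (i : Fin n) :
    faH i0 B i (mkM i0 B a g h) = a i := rfl

lemma fgH_mk {n : ℕ} (a : Fin n → K) (g : Fin n → Polynomial K) (h) (j : Fin n) :
    fgH i0 B j (mkM i0 B a g h) = g j := rfl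

lemma sum_extend {m n : ℕ} (ε : Fin m → Fin n) (hε : Function.Injective ε) (a : Fin m → K)
    (b : Fin n → K) : ∑ i, Function.extend ε a 0 i * b i = ∑ i, a i * b (ε i) := by
  symm
  apply Fintype.sum_of_injective ε hε
  · intro i hi
    rw [Function.extend_apply' _ _ _ hi, Pi.zero_apply, zero_mul]
  · intro i
    rw [hε.extend_apply]

/-- maps preserving the matrices -/
structure Compat {m n : ℕ} (ε : Fin m → Fin n) : Prop where
  inj : Function.Injective ε
  eq : ∀ i j, B n (ε i) (ε j) = B m i j

/-- the structure maps -/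
def mmap {m n : ℕ} (ε : Fin m → Fin n) (hε : Compat B ε) :
    (OM i0 B m).carrier →+ (OM i0 B n).carrier where
  toFun u := mkM i0 B (Function.extend ε (fun i => faH i0 B i u) 0)
    (Function.extend ε (fun j => fgH i0 B j u)
      (fun j => Polynomial.C (∑ i, faH i0 B i u * B n (ε i) j))) (by
      intro j
      rw [sum_extend ε hε.inj]
      by_cases hj : ∃ j', ε j' = j
      · obtain ⟨j', rfl⟩ := hj
        rw [hε.inj.extend_apply, fgH_coeff]
        exact Finset.sum_congr rfl fun i _ => by rw [hε.eq]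
      · rw [Function.extend_apply' _ _ _ hj, Polynomial.coeff_C_zero])
  map_zero' := by
    apply OM_ext
    · intro i
      rw [faH_mk]
      by_cases hi : ∃ i', ε i' = i
      · obtain ⟨i', rfl⟩ := hi
        rw [hε.inj.extend_apply, map_zero, map_zero]
      · rw [Function.extend_apply' _ _ _ hi]; simp
    · intro i
      rw [fgH_mk]
      by_cases hi : ∃ i', ε i' = i
      · obtain ⟨i', rfl⟩ := hi
        rw [hε.inj.extend_apply, map_zero, map_zero]
      · rw [Function.extend_apply' _ _ _ hi]; simp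
  map_add' u v := by
    apply OM_ext
    · intro i
      rw [map_add, faH_mk, faH_mk, faH_mk]
      by_cases hi : ∃ i', ε i' = i
      · obtain ⟨i', rfl⟩ := hi
        rw [hε.inj.extend_apply, hε.inj.extend_apply, hε.inj.extend_apply, map_add]
      · rw [Function.extend_apply' _ _ _ hi, Function.extend_apply' _ _ _ hi,
          Function.extend_apply' _ _ _ hi]; simp
    · intro i
      rw [map_add, fgH_mk, fgH_mk, fgH_mk]
      by_cases hi : ∃ i', ε i' = i
      · obtain ⟨i', rfl⟩ := hi
        rw [hε.inj.extend_apply, hε.inj.extend_apply, hε.inj.extend_apply, map_add]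
      · rw [Function.extend_apply' _ _ _ hi, Function.extend_apply' _ _ _ hi,
          Function.extend_apply' _ _ _ hi, ← Polynomial.C_add, ← Finset.sum_add_distrib]
        congr 1
        exact Finset.sum_congr rfl fun i _ => by rw [map_add, add_mul]

lemma faH_mmap {m n : ℕ} (ε : Fin m → Fin n) (hε : Compat B ε) (u : (OM i0 B m).carrier)
    (i : Fin n) : faH i0 B i (mmap i0 B ε hε u) = Function.extend ε (fun i => faH i0 B i u) 0 i :=
  rfl

lemma fgH_mmap {m n : ℕ} (ε : Fin m → Fin n) (hε : Compat B ε) (u : (OM i0 B m).carrier)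
    (j : Fin n) : fgH i0 B j (mmap i0 B ε hε u) = Function.extend ε (fun j => fgH i0 B j u)
      (fun j => Polynomial.C (∑ i, faH i0 B i u * B n (ε i) j)) j :=
  rfl

lemma mmap_smul {m n : ℕ} (ε : Fin m → Fin n) (hε : Compat B ε) (p : PolyAlg K c m)
    (u : (OM i0 B m).carrier) :
    mmap i0 B ε hε (p • u) = PolyAlg.map K c ε p • mmap i0 B ε hε u := by
  have hcc : constantCoeff (PolyAlg.map K c ε p) = constantCoeff p := constantCoeff_rename _ _
  apply OM_ext
  · intro i
    rw [faH_smul, faH_mmap, faH_mmap, hcc]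
    by_cases hi : ∃ i', ε i' = i
    · obtain ⟨i', rfl⟩ := hi
      rw [hε.inj.extend_apply, hε.inj.extend_apply, faH_smul]
    · rw [Function.extend_apply' _ _ _ hi, Function.extend_apply' _ _ _ hi]; simp
  · intro j
    rw [fgH_smul, fgH_mmap, fgH_mmap]
    by_cases hj : ∃ j', ε j' = j
    · obtain ⟨j', rfl⟩ := hj
      rw [hε.inj.extend_apply, hε.inj.extend_apply, fgH_smul]
      congr 1
      rw [PolyAlg.map, ev, ev, aeval_rename]
      congr 2
      funext w
      obtain ⟨w1, w2⟩ := w
      change (if (w1, w2) = (i0, j') then Polynomial.X else (0 : Polynomial K)) =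
        if (w1, ε w2) = (i0, ε j') then Polynomial.X else 0
      by_cases h : w1 = i0 ∧ w2 = j'
      · obtain ⟨rfl, rfl⟩ := h; simp
      · rw [if_neg, if_neg]
        · intro h2
          rw [Prod.mk.injEq] at h2
          exact h ⟨h2.1, hε.inj h2.2⟩
        · intro h2
          rw [Prod.mk.injEq] at h2
          exact h h2
    · rw [Function.extend_apply' _ _ _ hj, Function.extend_apply' _ _ _ hj]
      have h1 : ev (i0, j) (PolyAlg.map K c ε p) = Polynomial.C (constantCoeff p) := by
        rw [PolyAlg.map, ev, aeval_rename]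
        have h2 : ((fun w : Fin c × Fin n => if w = (i0, j) then Polynomial.X else
            (0 : Polynomial K)) ∘ Prod.map id ε) = fun _ => 0 := by
          funext w
          obtain ⟨w1, w2⟩ := w
          change (if (w1, ε w2) = (i0, j) then Polynomial.X else (0 : Polynomial K)) = 0
          rw [if_neg]
          intro h3
          rw [Prod.mk.injEq] at h3
          exact hj ⟨w2, h3.2⟩
        rw [h2, aeval_zero']
        rfl
      rw [h1, ← Polynomial.C_mul, Finset.mul_sum]
      congr 1
      exact Finset.sum_congr rfl fun i _ => by rw [faH_smul, mul_assoc]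

lemma mmap_comp {m n : ℕ} (ε : Fin m → Fin n) (hε : Compat B ε) (d : ℤ)
    (u : (OM i0 B m).carrier) :
    (OM i0 B n).comp d (mmap i0 B ε hε u) = mmap i0 B ε hε ((OM i0 B m).comp d u) := by
  apply OM_ext
  · intro i
    rw [faH_comp, faH_mmap, faH_mmap]
    by_cases hi : ∃ i', ε i' = i
    · obtain ⟨i', rfl⟩ := hi
      rw [hε.inj.extend_apply, hε.inj.extend_apply, faH_comp]
    · rw [Function.extend_apply' _ _ _ hi, Function.extend_apply' _ _ _ hi]; simp
  · intro j
    rw [fgH_comp, fgH_mmap, fgH_mmap]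
    by_cases hj : ∃ j', ε j' = j
    · obtain ⟨j', rfl⟩ := hj
      rw [hε.inj.extend_apply, hε.inj.extend_apply, fgH_comp]
    · rw [Function.extend_apply' _ _ _ hj, Function.extend_apply' _ _ _ hj]
      have e1 : ∑ i, faH i0 B i ((OM i0 B m).comp d u) * B n (ε i) j =
          ∑ i, (if d = 0 then faH i0 B i u else 0) * B n (ε i) j :=
        Finset.sum_congr rfl fun i _ => by rw [faH_comp]
      rw [e1]
      ext k
      rw [coeff_pcomp, Polynomial.coeff_C, Polynomial.coeff_C]
      by_cases hk : k = 0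
      · subst hk
        by_cases hd : d = 0
        · subst hd; simp
        · rw [if_neg (by push_cast; omega)]
          simp [hd]
      · simp [hk]

lemma mmap_id {n : ℕ} (ε : Fin n → Fin n) (hε : Compat B ε) (h : ∀ i, ε i = i)
    (u : (OM i0 B n).carrier) : mmap i0 B ε hε u = u := by
  apply OM_ext
  · intro i
    rw [faH_mmap]
    conv_lhs => rw [← h i]
    rw [hε.inj.extend_apply]
  · intro i
    rw [fgH_mmap]
    conv_lhs => rw [← h i]
    rw [hε.inj.extend_apply]

lemma mmap_trans {l m n : ℕ} (ε : Fin l → Fin m) (hε : Compat B ε) (δ : Fin m → Fin n)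
    (hδ : Compat B δ) (τ : Fin l → Fin n) (hτ : Compat B τ) (h : ∀ i, τ i = δ (ε i))
    (u : (OM i0 B l).carrier) : mmap i0 B τ hτ u = mmap i0 B δ hδ (mmap i0 B ε hε u) := by
  apply OM_ext
  · intro i
    rw [faH_mmap, faH_mmap]
    by_cases hi : ∃ i', δ i' = i
    · obtain ⟨i', rfl⟩ := hi
      rw [hδ.inj.extend_apply, faH_mmap]
      by_cases hi : ∃ i'', ε i'' = i'
      · obtain ⟨i'', rfl⟩ := hi
        rw [hε.inj.extend_apply, ← h, hτ.inj.extend_apply]
      · rw [Function.extend_apply' _ _ _ hi, Function.extend_apply']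
        · rfl
        · rintro ⟨a, ha⟩
          rw [h] at ha
          exact hi ⟨a, hδ.inj ha⟩
    · rw [Function.extend_apply' _ _ _ hi, Function.extend_apply']
      rintro ⟨a, ha⟩
      rw [h] at ha
      exact hi ⟨_, ha⟩
  · intro j
    rw [fgH_mmap, fgH_mmap]
    by_cases hj : ∃ i', δ i' = j
    · obtain ⟨j', rfl⟩ := hj
      rw [hδ.inj.extend_apply, fgH_mmap]
      by_cases hj : ∃ i'', ε i'' = j'
      · obtain ⟨j'', rfl⟩ := hj
        rw [hε.inj.extend_apply, ← h, hτ.inj.extend_apply]
      · rw [Function.extend_apply' _ _ _ hj, Function.extend_apply']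
        · congr 1
          exact Finset.sum_congr rfl fun i _ => by rw [h, hδ.eq]
        · rintro ⟨a, ha⟩
          rw [h] at ha
          exact hj ⟨a, hδ.inj ha⟩
    · rw [Function.extend_apply' _ _ _ hj, Function.extend_apply']
      · congr 1
        have h1 := sum_extend ε hε.inj (fun i => faH i0 B i u) (fun i => B n (δ i) j)
        refine Eq.trans ?_ h1.symm
        exact Finset.sum_congr rfl fun i _ => by rw [h]
      · rintro ⟨a, ha⟩
        rw [h] at ha
        exact hj ⟨_, ha⟩

/-- the generator `ν` -/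
def nu : (OM i0 B 1).carrier := mkM i0 B (fun _ => 1) (fun j => Polynomial.C (B 1 0 j)) (by
  intro j; simp)

/-- the generator `e` -/
def ee : (OM i0 B 1).carrier := mkM i0 B (fun _ => 0) (fun _ => Polynomial.X) (by
  intro j; simp)

lemma nu_mem : (OM i0 B 1).comp 0 (nu i0 B) = nu i0 B := by
  apply OM_ext
  · intro i
    rw [faH_comp, if_pos rfl]
  · intro j
    rw [fgH_comp, nu, fgH_mk]
    ext k
    rw [coeff_pcomp, Polynomial.coeff_C]
    by_cases hk : k = 0
    · subst hk; simp
    · simp [hk]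

lemma ee_mem : (OM i0 B 1).comp 1 (ee i0 B) = ee i0 B := by
  apply OM_ext
  · intro i
    rw [faH_comp, ee, faH_mk]; simp
  · intro j
    rw [fgH_comp, ee, fgH_mk]
    ext k
    rw [coeff_pcomp, Polynomial.coeff_X]
    by_cases hk : 1 = k
    · subst hk; simp
    · simp [hk]

/-- every element is a combination of the images of `ν` and `e` -/
lemma gen {n : ℕ} (pt : Fin n → (Fin 1 → Fin n)) (hpt : ∀ i, Compat B (pt i))
    (hpt2 : ∀ i x, pt i x = i) (S : Submodule (PolyAlg K c n) (OM i0 B n).carrier)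
    (h1 : ∀ i, mmap i0 B (pt i) (hpt i) (nu i0 B) ∈ S)
    (h2 : ∀ i, mmap i0 B (pt i) (hpt i) (ee i0 B) ∈ S) : S = ⊤ := by
  classical
  rw [eq_top_iff]
  intro u _
  have hx : ∀ {α : Type u} (g : Fin 1 → α) (e' : Fin n → α) (i : Fin n),
      Function.extend (pt i) g e' i = g 0 := by
    intro α g e' i
    have := (hpt i).inj.extend_apply g e' 0
    rw [hpt2] at this
    exact this
  have hnu1 : ∀ i k, faH i0 B k (mmap i0 B (pt i) (hpt i) (nu i0 B)) =
      if i = k then 1 else 0 := by
    intro i k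
    rw [faH_mmap]
    by_cases h : i = k
    · subst h
      rw [if_pos rfl, hx]
      rfl
    · rw [if_neg h, Function.extend_apply']
      · rfl
      · rintro ⟨a, ha⟩
        rw [hpt2] at ha; exact h ha
  have hnu2 : ∀ i k, fgH i0 B k (mmap i0 B (pt i) (hpt i) (nu i0 B)) =
      Polynomial.C (B n i k) := by
    intro i k
    rw [fgH_mmap]
    by_cases h : i = k
    · subst h
      rw [hx]
      change Polynomial.C (B 1 0 0) = _
      rw [← (hpt i).eq 0 0, hpt2]
    · rw [Function.extend_apply']
      · congr 1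
        rw [Fin.sum_univ_one, hpt2]
        change 1 * _ = _
        rw [one_mul]
      · rintro ⟨a, ha⟩
        rw [hpt2] at ha; exact h ha
  have hee1 : ∀ i k, faH i0 B k (mmap i0 B (pt i) (hpt i) (ee i0 B)) = 0 := by
    intro i k
    rw [faH_mmap]
    by_cases h : i = k
    · subst h
      rw [hx]
      rfl
    · rw [Function.extend_apply']
      · rfl
      · rintro ⟨a, ha⟩
        rw [hpt2] at ha; exact h ha
  have hee2 : ∀ i k, fgH i0 B k (mmap i0 B (pt i) (hpt i) (ee i0 B)) =
      if i = k then Polynomial.X else 0 := by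
    intro i k
    rw [fgH_mmap]
    by_cases h : i = k
    · subst h
      rw [if_pos rfl, hx]
      rfl
    · rw [if_neg h, Function.extend_apply']
      · rw [Fin.sum_univ_one]
        change Polynomial.C (0 * _) = 0
        rw [zero_mul, Polynomial.C_0]
      · rintro ⟨a, ha⟩
        rw [hpt2] at ha; exact h ha
  have hu : u = ∑ i, ((C (faH i0 B i u) : PolyAlg K c n) • mmap i0 B (pt i) (hpt i) (nu i0 B) +
      (Polynomial.aeval (X (i0, i)) (fgH i0 B i u).divX : PolyAlg K c n) •
        mmap i0 B (pt i) (hpt i) (ee i0 B)) := by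
    apply OM_ext
    · intro k
      rw [map_sum]
      have e0 : ∀ i ∈ Finset.univ, faH i0 B k
          ((C (faH i0 B i u) : PolyAlg K c n) • mmap i0 B (pt i) (hpt i) (nu i0 B) +
          (Polynomial.aeval (X (i0, i)) (fgH i0 B i u).divX : PolyAlg K c n) •
          mmap i0 B (pt i) (hpt i) (ee i0 B)) = if i = k then faH i0 B i u else 0 := by
        intro i _
        rw [map_add, faH_smul, faH_smul, hnu1, hee1, mul_zero, add_zero, constantCoeff_C]
        split_ifs <;> simp
      rw [Finset.sum_congr rfl e0]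
      simp
    · intro k
      rw [map_sum]
      have e0 : ∀ i ∈ Finset.univ, fgH i0 B k
          ((C (faH i0 B i u) : PolyAlg K c n) • mmap i0 B (pt i) (hpt i) (nu i0 B) +
          (Polynomial.aeval (X (i0, i)) (fgH i0 B i u).divX : PolyAlg K c n) •
          mmap i0 B (pt i) (hpt i) (ee i0 B)) =
          ev (i0, k) (C (faH i0 B i u) : PolyAlg K c n) * Polynomial.C (B n i k) +
          ev (i0, k) (Polynomial.aeval (X (i0, i)) (fgH i0 B i u).divX :
          PolyAlg K c n) * (if i = k then Polynomial.X else 0) := by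
        intro i _
        rw [map_add, fgH_smul, fgH_smul, hnu2, hee2]
      rw [Finset.sum_congr rfl e0, Finset.sum_add_distrib]
      have e1 : ∑ i, ev (i0, k) (C (faH i0 B i u) : PolyAlg K c n) * Polynomial.C (B n i k) =
          Polynomial.C ((fgH i0 B k u).coeff 0) := by
        rw [fgH_coeff, map_sum]
        refine Finset.sum_congr rfl fun i _ => ?_
        rw [map_mul]
        congr 1
        rw [ev, aeval_C]; rfl
      have e2 : ∑ i, ev (i0, k) (Polynomial.aeval (X (i0, i)) (fgH i0 B i u).divX :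
          PolyAlg K c n) * (if i = k then Polynomial.X else 0) =
          (fgH i0 B k u).divX * Polynomial.X := by
        rw [Finset.sum_eq_single k]
        · rw [if_pos rfl, ← Polynomial.aeval_algHom_apply, ev_X, if_pos rfl,
            Polynomial.aeval_X_left_apply]
        · intro i _ hi
          rw [if_neg hi, mul_zero]
        · simp
      rw [e1, e2, add_comm, Polynomial.divX_mul_X_add]
  rw [hu]
  exact S.sum_mem fun i _ => S.add_mem (S.smul_mem _ (h1 i)) (S.smul_mem _ (h2 i))

/-- the OI-module attached to an OI-compatible family of matrices -/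
def oiMod (hB : ∀ {m n : ℕ} (ε : Fin m ↪o Fin n), Compat B ε) : GradedOIModule K c where
  obj n := (OM i0 B n).carrier
  gr n := (OM i0 B n).piece
  isGraded n := (OM i0 B n).isGradedModule
  map ε := mmap i0 B ε (hB ε)
  map_mem ε d u hu := by
    rw [mem_piece] at hu ⊢
    rw [mmap_comp, hu]
  map_id n u := mmap_id i0 B _ _ (fun _ => rfl) u
  map_comp ε δ u := mmap_trans i0 B ε (hB ε) δ (hB δ) (ε.trans δ) (hB _) (fun _ => rfl) u
  map_smul ε p u := mmap_smul i0 B ε _ p u

/-- the FI-module attached to an FI-compatible family of matrices -/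
def fiMod (hB : ∀ {m n : ℕ} (ε : Fin m ↪ Fin n), Compat B ε) : GradedFIModule K c where
  obj n := (OM i0 B n).carrier
  gr n := (OM i0 B n).piece
  isGraded n := (OM i0 B n).isGradedModule
  map ε := mmap i0 B ε (hB ε)
  map_mem ε d u hu := by
    rw [mem_piece] at hu ⊢
    rw [mmap_comp, hu]
  map_id n u := mmap_id i0 B _ _ (fun _ => rfl) u
  map_comp ε δ u := mmap_trans i0 B ε (hB ε) δ (hB δ) (ε.trans δ) (hB _) (fun _ => rfl) u
  map_smul ε p u := mmap_smul i0 B ε _ p u

/-- the map `[1] → [n]` with value `i` -/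
def pt {n : ℕ} (i : Fin n) : Fin 1 ↪o Fin n where
  toFun _ := i
  inj' a b _ := Subsingleton.elim a b
  map_rel_iff' {a b} := by
    have : a = b := Subsingleton.elim a b
    subst this; simp

/-- the two generators -/
def gens (k : Fin 2) : (OM i0 B 1).carrier := if k = 0 then nu i0 B else ee i0 B

theorem oiMod_finGen (hB : ∀ {m n : ℕ} (ε : Fin m ↪o Fin n), Compat B ε) :
    (oiMod i0 B hB).FinGen := by
  refine ⟨2, fun _ => 1, gens i0 B, ?_, ?_⟩
  · intro k
    have hk : k = 0 ∨ k = 1 := by omega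
    rcases hk with rfl | rfl
    · exact ⟨0, nu_mem i0 B⟩
    · exact ⟨1, ee_mem i0 B⟩
  · intro n
    have h1 : ∀ (k : Fin 2) (i : Fin n), (oiMod i0 B hB).map (pt i) (gens i0 B k) ∈
        Submodule.span (PolyAlg K c n) {u : (oiMod i0 B hB).obj n | ∃ (k : Fin 2)
          (ε : Fin 1 ↪o Fin n), u = (oiMod i0 B hB).map ε (gens i0 B k)} :=
      fun k i => Submodule.subset_span ⟨k, pt i, rfl⟩
    exact gen i0 B (fun i => pt i) (fun i => hB (pt i)) (fun i x => rfl) _ (h1 0) (h1 1)

theorem fiMod_finGen (hB : ∀ {m n : ℕ} (ε : Fin m ↪ Fin n), Compat B ε) :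
    (fiMod i0 B hB).FinGen := by
  refine ⟨2, fun _ => 1, gens i0 B, ?_, ?_⟩
  · intro k
    have hk : k = 0 ∨ k = 1 := by omega
    rcases hk with rfl | rfl
    · exact ⟨0, nu_mem i0 B⟩
    · exact ⟨1, ee_mem i0 B⟩
  · intro n
    have h1 : ∀ (k : Fin 2) (i : Fin n),
        (fiMod i0 B hB).map (pt i).toEmbedding (gens i0 B k) ∈
        Submodule.span (PolyAlg K c n) {u : (fiMod i0 B hB).obj n | ∃ (k : Fin 2)
          (ε : Fin 1 ↪ Fin n), u = (fiMod i0 B hB).map ε (gens i0 B k)} :=
      fun k i => Submodule.subset_span ⟨k, (pt i).toEmbedding, rfl⟩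
    exact gen i0 B (fun i => (pt i).toEmbedding) (fun i => hB (pt i).toEmbedding)
      (fun i x => rfl) _ (h1 0) (h1 1)

end

end GMod

end H379R3
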