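import Pool.Agent.H379R3.RgH

/-!
The matrices: `sgn (j - i)` (for OI), and `1 + δ_{ij}` (for FI, in characteristic `p`).
-/

open MvPolynomial

universe u

noncomputable section

namespace H379R3

open OIReg

namespace GMod

section

variable {K : Type u} [Field K] {c : ℕ}

/-- the pairing `a ↦ (∑ i, a i B i j)_j` as a linear map -/
def pairing {n : ℕ} (B : Fin n → Fin n → K) : (Fin n → K) →ₗ[K] (Fin n → K) where
  toFun a j := ∑ i, a i * B i j
  map_add' a b := by
    funext j
    rw [Pi.add_apply, ← Finset.sum_add_distrib]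
    exact Finset.sum_congr rfl fun i _ => add_mul _ _ _
  map_smul' r a := by
    funext j
    rw [Pi.smul_apply, smul_eq_mul, RingHom.id_apply, Finset.mul_sum]
    exact Finset.sum_congr rfl fun i _ => mul_assoc _ _ _

lemma bij_of_inj {n : ℕ} (B : Fin n → Fin n → K)
    (h : ∀ a : Fin n → K, (∀ j, ∑ i, a i * B i j = 0) → a = 0) :
    Function.Bijective (fun (a : Fin n → K) (j : Fin n) => ∑ i, a i * B i j) := by
  have h1 : Function.Injective (pairing B) := by
    rw [injective_iff_map_eq_zero]
    intro a ha
    exact h a (fun j => congrFun ha j)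
  exact ⟨h1, LinearMap.injective_iff_surjective.mp h1⟩

lemma not_surj {n : ℕ} (B : Fin n → Fin n → K) (a : Fin n → K) (ha : a ≠ 0)
    (h : ∀ j, ∑ i, a i * B i j = 0) :
    ¬ Function.Surjective (fun (a : Fin n → K) (j : Fin n) => ∑ i, a i * B i j) := by
  intro hs
  have h1 : Function.Surjective (pairing B) := hs
  have h2 := LinearMap.injective_iff_surjective.mpr h1
  apply ha
  apply h2
  rw [map_zero]
  funext j
  exact h j

/-- regularity zero in the nonsingular case -/
theorem hasReg_iff {n : ℕ} (i0 : Fin c) (B : Fin n → Fin n → K) (hn : 0 < n)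
    (hB : Function.Bijective (fun (a : Fin n → K) (j : Fin n) => ∑ i, a i * B i j)) (r : ℤ)
    (h : IsRegularity (σ := Fin c × Fin n) (K := K) (MM i0 B).piece r) : r = 0 := by
  apply le_antisymm
  · exact reg_le (MM_U i0 B hB) h
  · refine le_reg ?_ ?_ h
    · intro d hd u
      apply Subtype.ext
      refine amb_ext i0 ?_ ?_
      · funext i
        change fa i0 ((amb K n i0).comp d u.1) i = _
        rw [fa_comp, if_neg (by omega)]; rfl
      · funext j
        change fg i0 ((amb K n i0).comp d u.1) j = _
        rw [fg_comp]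
        ext k
        rw [coeff_pcomp, if_neg (by omega)]
        rfl
    · let e : (MM i0 B).carrier :=
        ⟨((0, fun j => Polynomial.X) : (Fin n → K) × (Fin n → Polynomial K)), by
          intro j
          change Polynomial.coeff Polynomial.X 0 = ∑ i, (0 : K) * B i j
          simp⟩
      refine ⟨⟨e, 0, ?_⟩⟩
      intro h
      have h1 : fg i0 e.1 ⟨0, hn⟩ = fg i0 (0 : (amb K n i0).carrier) ⟨0, hn⟩ := by rw [h]; rfl
      rw [fg_zero] at h1
      change (Polynomial.X : Polynomial K) = 0 at h1
      exact Polynomial.X_ne_zero h1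

/-- positive regularity in the singular case -/
theorem one_le_reg {n : ℕ} (i0 : Fin c) (B : Fin n → Fin n → K)
    (hB : ¬ Function.Surjective (fun (a : Fin n → K) (j : Fin n) => ∑ i, a i * B i j)) (r : ℤ)
    (h : IsRegularity (σ := Fin c × Fin n) (K := K) (MM i0 B).piece r) : 1 ≤ r := by
  by_contra hr
  exact MM_not_U i0 B hB (U_of_reg (by omega) h _)

/-- the skew matrix -/
def skew (K : Type u) [Field K] (n : ℕ) (i j : Fin n) : K :=
  if i < j then 1 else if j < i then -1 else 0

lemma skew_compat {m n : ℕ} (ε : Fin m ↪o Fin n) : Compat (skew K) ε where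
  inj := ε.injective
  eq i j := by
    unfold skew
    simp only [ε.lt_iff_lt]

/-- difference of consecutive columns -/
lemma skew_succ {n : ℕ} (a : Fin n → K) (j : ℕ) (hj : j + 1 < n) :
    (∑ i, a i * skew K n i ⟨j + 1, hj⟩) - ∑ i, a i * skew K n i ⟨j, by omega⟩ =
      a ⟨j, by omega⟩ + a ⟨j + 1, hj⟩ := by
  rw [← Finset.sum_sub_distrib]
  have h1 : ∀ i ∈ (Finset.univ : Finset (Fin n)), a i * skew K n i ⟨j + 1, hj⟩ -
      a i * skew K n i ⟨j, by omega⟩ =
      (if i = ⟨j, by omega⟩ then a i else 0) + (if i = ⟨j + 1, hj⟩ then a i else 0) := by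
    intro i _
    unfold skew
    have e1 : (i < (⟨j + 1, hj⟩ : Fin n)) ↔ i.1 < j + 1 := Iff.rfl
    have e2 : ((⟨j + 1, hj⟩ : Fin n) < i) ↔ j + 1 < i.1 := Iff.rfl
    have e3 : (i < (⟨j, by omega⟩ : Fin n)) ↔ i.1 < j := Iff.rfl
    have e4 : ((⟨j, by omega⟩ : Fin n) < i) ↔ j < i.1 := Iff.rfl
    have e5 : i = (⟨j, by omega⟩ : Fin n) ↔ i.1 = j := by rw [Fin.ext_iff]
    have e6 : i = (⟨j + 1, hj⟩ : Fin n) ↔ i.1 = j + 1 := by rw [Fin.ext_iff]
    simp only [e1, e2, e3, e4, e5, e6]
    rcases lt_trichotomy i.1 j with h | h | h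
    · rw [if_pos (by omega), if_pos h, if_neg (by omega), if_neg (by omega)]; ring
    · rw [if_pos (by omega), if_neg (by omega), if_neg (by omega), if_pos h, if_neg (by omega)]
      ring
    · by_cases h2 : i.1 = j + 1
      · rw [if_neg (by omega), if_neg (by omega), if_neg (by omega), if_pos h, if_neg (by omega),
          if_pos h2]
        ring
      · rw [if_neg (by omega), if_pos (by omega), if_neg (by omega), if_pos h, if_neg (by omega),
          if_neg h2]
        ring
  rw [Finset.sum_congr rfl h1, Finset.sum_add_distrib]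
  simp

lemma skew_zero {n : ℕ} (a : Fin (n + 1) → K) :
    (∑ i, a i * skew K (n + 1) i 0) = - ∑ i : Fin n, a i.succ := by
  rw [Fin.sum_univ_succ]
  have h0 : skew K (n + 1) 0 0 = 0 := by simp [skew]
  rw [h0, mul_zero, zero_add, ← Finset.sum_neg_distrib]
  refine Finset.sum_congr rfl fun i _ => ?_
  have h1 : skew K (n + 1) i.succ 0 = -1 := by
    unfold skew
    rw [if_neg (by simp), if_pos (Fin.succ_pos i)]
  rw [h1]; ring

lemma alt_sum (n : ℕ) : ∑ i : Fin n, (-1 : K) ^ ((i : ℕ) + 1) = if Even n then 0 else -1 := by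
  induction n with
  | zero => simp
  | succ n ih =>
    rw [Fin.sum_univ_castSucc]
    simp only [Fin.val_castSucc, Fin.val_last]
    rw [ih]
    by_cases h : Even n
    · have h2 : ¬ Even (n + 1) := by rw [Nat.even_add_one]; exact not_not.mpr h
      rw [if_pos h, if_neg h2, zero_add, pow_succ, h.neg_one_pow]; ring
    · have h2 : Even (n + 1) := by rw [Nat.even_add_one]; exact h
      rw [if_neg h, if_pos h2, h2.neg_one_pow]; ring

lemma skew_even {n : ℕ} (hn : Even n) :
    Function.Bijective (fun (a : Fin n → K) (j : Fin n) => ∑ i, a i * skew K n i j) := by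
  apply bij_of_inj
  intro a ha
  cases n with
  | zero => funext i; exact i.elim0
  | succ n =>
    have h1 : ∀ j : ℕ, ∀ hj : j < n + 1, a ⟨j, hj⟩ = (-1) ^ j * a 0 := by
      intro j
      induction j with
      | zero => intro hj; simp
      | succ j ih =>
        intro hj
        have h2 := skew_succ a j hj
        rw [ha, ha, ih (by omega)] at h2
        rw [pow_succ]
        linear_combination -h2
    have h3 := skew_zero a
    rw [ha] at h3
    have h4 : ∑ i : Fin n, a i.succ = (∑ i : Fin n, (-1 : K) ^ ((i : ℕ) + 1)) * a 0 := by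
      rw [Finset.sum_mul]
      refine Finset.sum_congr rfl fun i _ => ?_
      exact h1 (i + 1) (by omega)
    have h5 : ¬ Even n := by
      intro h; rw [Nat.even_add_one] at hn; exact hn h
    rw [h4, alt_sum, if_neg h5] at h3
    have h6 : a 0 = 0 := by linear_combination -h3
    funext i
    have h7 := h1 i.1 i.2
    rw [h6, mul_zero] at h7
    exact h7

lemma skew_odd {n : ℕ} (hn : ¬ Even n) :
    ¬ Function.Surjective (fun (a : Fin n → K) (j : Fin n) => ∑ i, a i * skew K n i j) := by
  cases n with
  | zero => exact absurd Even.zero hn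
  | succ n =>
    have hn' : Even n := by
      by_contra h
      exact hn (by rw [Nat.even_add_one]; exact h)
    apply not_surj _ (fun i => (-1) ^ (i : ℕ))
    · intro h
      have := congrFun h 0
      simp at this
    · have h0 : ∑ i : Fin (n + 1), (-1 : K) ^ (i : ℕ) * skew K (n + 1) i 0 = 0 := by
        rw [skew_zero (fun i : Fin (n + 1) => (-1 : K) ^ (i : ℕ))]
        simp only [Fin.val_succ]
        rw [alt_sum, if_pos hn', neg_zero]
      have h1 : ∀ j : ℕ, ∀ hj : j < n + 1,
          ∑ i : Fin (n + 1), (-1 : K) ^ (i : ℕ) * skew K (n + 1) i ⟨j, hj⟩ = 0 := by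
        intro j
        induction j with
        | zero => intro hj; exact h0
        | succ j ih =>
          intro hj
          have h2 := skew_succ (fun i : Fin (n + 1) => (-1 : K) ^ (i : ℕ)) j hj
          rw [ih, sub_zero] at h2
          rw [h2, pow_succ]; ring
      intro j
      exact h1 j.1 j.2

/-- the matrix `1 + δ` -/
def symm (K : Type u) [Field K] (n : ℕ) (i j : Fin n) : K := if i = j then 2 else 1

lemma symm_compat {m n : ℕ} (ε : Fin m ↪ Fin n) : Compat (symm K) ε where
  inj := ε.injective
  eq i j := by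
    unfold symm
    simp only [ε.injective.eq_iff]

lemma symm_sum {n : ℕ} (a : Fin n → K) (j : Fin n) :
    ∑ i, a i * symm K n i j = (∑ i, a i) + a j := by
  have h1 : ∀ i ∈ (Finset.univ : Finset (Fin n)), a i * symm K n i j =
      a i + if i = j then a i else 0 := by
    intro i _
    unfold symm
    split_ifs <;> ring
  rw [Finset.sum_congr rfl h1, Finset.sum_add_distrib]
  simp

lemma symm_bij {n : ℕ} (hn : (n : K) + 1 ≠ 0) :
    Function.Bijective (fun (a : Fin n → K) (j : Fin n) => ∑ i, a i * symm K n i j) := by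
  apply bij_of_inj
  intro a ha
  have h1 : ∀ j, a j = - ∑ i, a i := by
    intro j
    have := ha j
    rw [symm_sum] at this
    linear_combination this
  have h2 : ∑ i, a i = 0 := by
    have h3 : ∑ i, a i = ∑ _i : Fin n, - ∑ i, a i := Finset.sum_congr rfl fun j _ => h1 j
    rw [Finset.sum_const, Finset.card_univ, Fintype.card_fin, nsmul_eq_mul] at h3
    have h4 : ((n : K) + 1) * ∑ i, a i = 0 := by linear_combination h3
    exact (mul_eq_zero.mp h4).resolve_left hn
  funext j
  rw [h1, h2, neg_zero]; rfl

lemma symm_not_surj {n : ℕ} (hn : (n : K) + 1 = 0) (hn0 : 0 < n) :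
    ¬ Function.Surjective (fun (a : Fin n → K) (j : Fin n) => ∑ i, a i * symm K n i j) := by
  apply not_surj _ (fun _ => 1)
  · intro h
    have := congrFun h ⟨0, hn0⟩
    exact one_ne_zero this
  · intro j
    rw [symm_sum]
    simpa using hn

end

end GMod

end H379R3
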