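import Pool.Agent.H379R3.RgI

/-!
Existence of minimal graded free resolutions, and exact values of the regularity.
-/

open MvPolynomial

universe u

noncomputable section

namespace H379R3

open OIReg

variable {K : Type u} [Field K] {σ : Type}

namespace GMod

/-- a homogeneous generating family of size `m` -/
def HasGen (N : GMod K σ) (m : ℕ) : Prop :=
  ∃ (deg : Fin m → ℤ) (b : Fin m → N.carrier), (∀ t, N.comp (deg t) (b t) = b t) ∧
    Submodule.span (MvPolynomial σ K) (Set.range b) = ⊤

lemma exists_hasGen (N : GMod K σ) [Module.Finite (MvPolynomial σ K) N.carrier] :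
    ∃ m, HasGen N m := by
  classical
  obtain ⟨S, hS⟩ := Module.Finite.fg_top (R := MvPolynomial σ K) (M := N.carrier)
  choose s hs using fun u : N.carrier => N.exists_sum u
  let T : Finset (ℤ × N.carrier) := S.biUnion fun u => (s u).image fun d => (d, N.comp d u)
  let e := T.equivFin
  refine ⟨T.card, fun t => (e.symm t).1.1, fun t => (e.symm t).1.2, ?_, ?_⟩
  · intro t
    have h1 := (e.symm t).2
    simp only [T, Finset.mem_biUnion, Finset.mem_image] at h1
    obtain ⟨u, _, d, _, hd⟩ := h1
    change N.comp (e.symm t).1.1 (e.symm t).1.2 = (e.symm t).1.2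
    rw [← hd]
    exact N.comp_self
  · rw [eq_top_iff, ← hS, Submodule.span_le]
    intro u hu
    rw [← hs u]
    apply Submodule.sum_mem
    intro d hd
    have h2 : (d, N.comp d u) ∈ T := by
      simp only [T, Finset.mem_biUnion, Finset.mem_image]
      exact ⟨u, hu, d, hd, rfl⟩
    apply Submodule.subset_span
    refine ⟨e ⟨_, h2⟩, ?_⟩
    change (e.symm (e ⟨_, h2⟩)).1.2 = _
    rw [Equiv.symm_apply_apply]

lemma pc_zero (p : MvPolynomial σ K) : pc 0 p = C (constantCoeff p) := by
  classical
  ext μ
  rw [coeff_pc, coeff_C]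
  by_cases h : (0 : σ →₀ ℕ) = μ
  · subst h; simp; rfl
  · rw [if_neg h, if_neg]
    intro h2
    apply h
    have h3 : μ.degree = 0 := by exact_mod_cast h2
    exact ((Finsupp.degree_eq_zero_iff μ).mp h3).symm

theorem exists_mincover (N : GMod K σ) [Module.Finite (MvPolynomial σ K) N.carrier] :
    ∃ (m : ℕ) (deg : Fin m → ℤ)
      (π : (GMod.free (K := K) (σ := σ) (Fin m) deg).carrier →ₗ[MvPolynomial σ K] N.carrier),
      Gr π ∧ Function.Surjective π ∧ ∀ f, π f = 0 → ∀ t, constantCoeff (f t) = 0 := by
  classical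
  have hex := exists_hasGen N
  obtain ⟨deg, b, hb, hspan⟩ := Nat.find_spec hex
  have hmin := fun m (hm : m < Nat.find hex) => Nat.find_min hex hm
  generalize Nat.find hex = m at deg b hb hspan hmin
  refine ⟨m, deg, lin deg b, lin_gr deg b hb, ?_, ?_⟩
  · intro u
    have h1 : u ∈ Submodule.span (MvPolynomial σ K) (Set.range b) := by rw [hspan]; trivial
    obtain ⟨c, hc⟩ := (Submodule.mem_span_range_iff_exists_fun _).mp h1
    exact ⟨c, hc⟩
  · intro f hf t0
    by_contra hcon
    cases m with
    | zero => exact t0.elim0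
    | succ m =>
      apply hmin m (Nat.lt_succ_self m)
      refine ⟨fun t => deg (t0.succAbove t), fun t => b (t0.succAbove t), fun t => hb _, ?_⟩
      rw [eq_top_iff, ← hspan, Submodule.span_le]
      rintro _ ⟨t, rfl⟩
      by_cases ht : t = t0
      · subst ht
        have h1 : lin deg b ((GMod.free (K := K) (σ := σ) (Fin (m + 1)) deg).comp (deg t) f) = 0 := by
          rw [lin_gr deg b hb, hf, map_zero]
        rw [lin_apply, Fin.sum_univ_succAbove _ t, free_comp_apply, sub_self, pc_zero] at h1
        have h2 : b t = (C (constantCoeff (f t))⁻¹ : MvPolynomial σ K) •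
            ((C (constantCoeff (f t)) : MvPolynomial σ K) • b t) := by
          rw [smul_smul, ← C_mul, inv_mul_cancel₀ hcon, C_1, one_smul]
        rw [h2]
        apply Submodule.smul_mem
        rw [eq_neg_of_add_eq_zero_left h1]
        apply Submodule.neg_mem
        apply Submodule.sum_mem
        intro i _
        apply Submodule.smul_mem
        exact Submodule.subset_span ⟨i, rfl⟩
      · obtain ⟨i, rfl⟩ := Fin.exists_succAbove_eq ht
        exact Submodule.subset_span ⟨i, rfl⟩

/-- a stage in the construction of a minimal resolution -/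
structure Stg (K : Type u) [Field K] (σ : Type) where
  m : ℕ
  deg : Fin m → ℤ
  Z : Submodule (MvPolynomial σ K) (GMod.free (K := K) (σ := σ) (Fin m) deg).carrier
  closed : ∀ d, ∀ u ∈ Z, (GMod.free (K := K) (σ := σ) (Fin m) deg).comp d u ∈ Z
  min : ∀ f ∈ Z, ∀ t, constantCoeff (f t) = 0

lemma exists_next [Finite σ] (s : Stg K σ) : ∃ (s' : Stg K σ)
    (d : (Fin s'.m → MvPolynomial σ K) →ₗ[MvPolynomial σ K] (Fin s.m → MvPolynomial σ K)),
    LinearMap.range d = s.Z ∧ LinearMap.ker d = s'.Z ∧
    (∀ i t, IsHomogOfDeg (d (Pi.single i 1) t) (s'.deg i - s.deg t)) := by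
  classical
  let N := (GMod.free (K := K) (σ := σ) (Fin s.m) s.deg).sub s.Z s.closed
  have hN : IsNoetherian (MvPolynomial σ K) (Fin s.m → MvPolynomial σ K) := inferInstance
  have hfin : Module.Finite (MvPolynomial σ K) N.carrier := by
    have h1 : s.Z.FG := hN.noetherian s.Z
    exact Module.Finite.iff_fg.mpr h1
  obtain ⟨m, deg, π, hπ, hs, hmin⟩ := exists_mincover N
  refine ⟨⟨m, deg, LinearMap.ker π, ker_closed π hπ, fun f hf => hmin f hf⟩,
    s.Z.subtype.comp π, ?_, ?_, ?_⟩
  · rw [LinearMap.range_comp, LinearMap.range_eq_top.mpr hs, Submodule.map_top,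
      Submodule.range_subtype]
  · ext f
    change (π f).1 = 0 ↔ π f = 0
    exact ⟨fun h => Subtype.ext h, fun h => by rw [h]; rfl⟩
  · intro i t μ hμ
    have h1 : (GMod.free (K := K) (σ := σ) (Fin s.m) s.deg).comp (deg i) (π (Pi.single i 1)).1 =
        (π (Pi.single i 1)).1 := by
      have h2 := hπ (deg i) (Pi.single i 1)
      rw [free_comp_single] at h2
      exact (congrArg Subtype.val h2).symm
    have h3 := congrFun h1 t
    rw [free_comp_apply] at h3
    have h4 := congrArg (coeff μ) h3
    rw [coeff_pc] at h4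
    rw [mem_support_iff] at hμ
    by_contra hcon
    rw [if_neg hcon] at h4
    exact hμ h4.symm

/-- the stages -/
def stg [Finite σ] (s0 : Stg K σ) : ℕ → Stg K σ
  | 0 => s0
  | i + 1 => Classical.choose (exists_next (stg s0 i))

lemma stg_spec [Finite σ] (s0 : Stg K σ) (i : ℕ) : ∃
    d : (Fin (stg s0 (i + 1)).m → MvPolynomial σ K) →ₗ[MvPolynomial σ K]
      (Fin (stg s0 i).m → MvPolynomial σ K),
    LinearMap.range d = (stg s0 i).Z ∧ LinearMap.ker d = (stg s0 (i + 1)).Z ∧
    (∀ j t, IsHomogOfDeg (d (Pi.single j 1) t) ((stg s0 (i + 1)).deg j - (stg s0 i).deg t)) :=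
  Classical.choose_spec (exists_next (stg s0 i))

/-- Minimal graded free resolutions exist. -/
theorem exists_minimalResolution [Finite σ] (N : GMod K σ)
    [Module.Finite (MvPolynomial σ K) N.carrier] :
    Nonempty (MinimalResolution (σ := σ) (K := K) N.piece) := by
  classical
  obtain ⟨m, deg, π, hπ, hs, hmin⟩ := exists_mincover N
  let s0 : Stg K σ := ⟨m, deg, LinearMap.ker π, ker_closed π hπ, fun f hf => hmin f hf⟩
  choose d hd1 hd2 hd3 using fun i => stg_spec s0 i
  have hπ1 : ∀ t : Fin m, N.comp (deg t) (π (Pi.single t 1)) = π (Pi.single t 1) := by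
    intro t
    rw [← hπ]
    exact congrArg π (free_comp_single deg t)
  refine ⟨⟨fun i => (stg s0 i).m, fun i => (stg s0 i).deg, π, d, ?_, hd3, hs, hd1 0, ?_, ?_⟩⟩
  · intro t
    exact hπ1 t
  · intro i
    rw [hd1 (i + 1), hd2 i]
  · intro i s t
    apply (stg s0 i).min
    rw [← hd1 i]
    exact ⟨_, rfl⟩

/-- Regularity exists as soon as it is bounded. -/
theorem exists_reg [Fintype σ] (N : GMod K σ) [Module.Finite (MvPolynomial σ K) N.carrier]
    [Nontrivial N.carrier] (r : ℤ) (hU : ∀ k, U k N r) :
    ∃ r', IsRegularity (σ := σ) (K := K) N.piece r' := by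
  obtain ⟨F⟩ := exists_minimalResolution N
  have hb : ∀ i t, F.deg i t ≤ r + i := fun i t => (tower F).deg_le r hU i t
  have hne : ∃ x : ℤ, ∃ (i : ℕ) (j : ℤ), F.betti i j ≠ 0 ∧ x = j - i := by
    have h1 : ∃ t : Fin (F.rank 0), F.aug (Pi.single t 1) ≠ 0 := by
      by_contra hcon
      push Not at hcon
      obtain ⟨u, hu⟩ := exists_ne (0 : N.carrier)
      obtain ⟨f, rfl⟩ := F.aug_surjective u
      apply hu
      have h2 : F.aug f = ∑ t, f t • F.aug (Pi.single t 1) :=
        eq_lin (F.deg 0) (N := N) F.aug f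
      rw [h2]
      exact Finset.sum_eq_zero fun t _ => by rw [hcon, smul_zero]
    obtain ⟨t, ht⟩ := h1
    refine ⟨_, 0, F.deg 0 t, ?_, rfl⟩
    have h3 : 0 < F.betti 0 (F.deg 0 t) := by
      unfold MinimalResolution.betti
      rw [Fintype.card_pos_iff]
      exact ⟨⟨t, rfl⟩⟩
    omega
  have hub : ∀ x : ℤ, (∃ (i : ℕ) (j : ℤ), F.betti i j ≠ 0 ∧ x = j - i) → x ≤ r := by
    rintro x ⟨i, j, hb', rfl⟩
    have h1 : Nonempty {t : Fin (F.rank i) // F.deg i t = j} := by
      rw [← Fintype.card_pos_iff]
      exact Nat.pos_of_ne_zero hb'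
    obtain ⟨t, ht⟩ := h1
    have := hb i t
    rw [ht] at this
    omega
  obtain ⟨r', h1, h2⟩ := Int.exists_greatest_of_bdd ⟨r, hub⟩ hne
  exact ⟨r', F, h1, fun x hx => h2 x hx⟩

section exact

variable {c n : ℕ} (i0 : Fin c) (B : Fin n → Fin n → K)

/-- the underlying polynomials -/
def gq (g : (pi (fun j : Fin n => (GX (K := K) (i0, j)).shift)).carrier) : Fin n → Polynomial K := g

lemma GK_U (k : ℕ) : U k (GK (K := K) (σ := Fin c × Fin n)) 0 := by
  classical
  have hL : ((Finset.univ : Finset (Fin c × Fin n)).toList).Nodup := Finset.nodup_toList _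
  let ρ : (GMod.free (K := K) (σ := Fin c × Fin n) Unit (fun _ => 0)).carrier
      →ₗ[MvPolynomial (Fin c × Fin n) K] (GK (K := K) (σ := Fin c × Fin n)).carrier :=
    { toFun := fun f => constantCoeff (R := K) (f ())
      map_add' := fun f g => map_add constantCoeff (f ()) (g ())
      map_smul' := fun p f => map_mul constantCoeff p (f ()) }
  refine Killed.U hL (G := GK) (ρ := ρ) ⟨?_, ?_, ?_⟩ k
  · intro d f
    change constantCoeff (pc (d - 0) (f ())) = (if d = 0 then AddMonoidHom.id K else 0)
      (constantCoeff (f ()))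
    rw [constantCoeff_eq, coeff_pc, sub_zero, map_zero, Nat.cast_zero]
    by_cases h : d = 0
    · subst h; simp
    · rw [if_neg (fun h2 => h h2.symm), if_neg h]; rfl
  · intro f
    refine ⟨fun _ => C (f : K), ?_⟩
    exact constantCoeff_C (R := K) (Fin c × Fin n) (f : K)
  · intro f
    change constantCoeff (f ()) = 0 ↔ _
    constructor
    · intro h t
      ext μ
      rw [coeff_kill, coeff_zero]
      split_ifs with h2
      · have h3 : μ = 0 := by
          ext w
          exact h2 w (by simp)
        rw [h3]; exact h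
      · rfl
    · intro h
      have h2 := congrArg (coeff 0) (h ())
      rw [coeff_kill, if_pos (by simp), coeff_zero] at h2
      exact h2

theorem MM_U_one (k : ℕ) : U k (MM i0 B) 1 := by
  have h1 : U k (pi (fun j : Fin n => (GX (K := K) (i0, j)).shift)) 1 :=
    U.pi _ (fun j => (GX_U k (i0, j)).shift)
  have h2 : U k (pi (fun _ : Fin n => GK (K := K) (σ := Fin c × Fin n))) 1 :=
    U.pi _ (fun j => (GK_U k).mono (by norm_num))
  let j : (pi (fun j : Fin n => (GX (K := K) (i0, j)).shift)).carrier
      →ₗ[MvPolynomial (Fin c × Fin n) K] (MM i0 B).carrier :=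
    { toFun := fun g => ⟨((0, fun j => Polynomial.X * gq i0 g j) :
        (Fin n → K) × (Fin n → Polynomial K)), by
          intro j
          change Polynomial.coeff (Polynomial.X * gq i0 g j) 0 = ∑ i, (0 : K) * B i j
          simp⟩
      map_add' := fun g g' => by
        apply Subtype.ext
        refine amb_ext i0 ?_ ?_
        · exact (add_zero (0 : Fin n → K)).symm
        · funext j
          exact mul_add (Polynomial.X : Polynomial K) (gq i0 g j) (gq i0 g' j)
      map_smul' := fun p g => by
        apply Subtype.ext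
        refine amb_ext i0 ?_ ?_
        · funext i
          exact (mul_zero (constantCoeff p)).symm
        · funext j
          exact mul_left_comm (Polynomial.X : Polynomial K) (ev (i0, j) p) (gq i0 g j) }
  let q : (MM i0 B).carrier →ₗ[MvPolynomial (Fin c × Fin n) K]
      (pi (fun _ : Fin n => GK (K := K) (σ := Fin c × Fin n))).carrier :=
    { toFun := fun u => u.1.1
      map_add' := fun _ _ => rfl
      map_smul' := fun _ _ => rfl }
  refine U.horseshoe (j := j) (q := q) ⟨?_, fun _ _ => rfl, ?_, ?_, ?_⟩ h1 h2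
  · intro d g
    apply Subtype.ext
    refine amb_ext i0 ?_ ?_
    · funext i
      change (0 : K) = fa i0 ((amb K n i0).comp d (j g).1) i
      rw [fa_comp]
      change (0 : K) = if d = 0 then 0 else 0
      simp
    · funext i
      change Polynomial.X * pcomp (d - 1) (gq i0 g i) =
        pcomp d (Polynomial.X * gq i0 g i)
      ext k
      rw [coeff_pcomp]
      cases k with
      | zero => simp
      | succ k =>
        rw [Polynomial.coeff_X_mul, Polynomial.coeff_X_mul, coeff_pcomp]
        push_cast
        by_cases h2 : (k : ℤ) = d - 1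
        · rw [if_pos h2, if_pos (by omega)]
        · rw [if_neg h2, if_neg (by omega)]
  · intro g g' hg
    funext i
    have h3 : fg i0 (j g).1 i = fg i0 (j g').1 i := by rw [hg]
    change Polynomial.X * gq i0 g i = Polynomial.X * gq i0 g' i at h3
    have h4 : gq i0 g i = gq i0 g' i := mul_left_cancel₀ Polynomial.X_ne_zero h3
    exact h4
  · intro a
    let a' : Fin n → K := a
    refine ⟨⟨((a', fun j => Polynomial.C (∑ i, a' i * B i j)) :
      (Fin n → K) × (Fin n → Polynomial K)), ?_⟩, rfl⟩
    intro j
    exact Polynomial.coeff_C_zero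
  · intro u
    constructor
    · intro hu
      have hu' : fa i0 u.1 = 0 := hu
      refine ⟨fun i => Polynomial.divX (fg i0 u.1 i), ?_⟩
      apply Subtype.ext
      refine amb_ext i0 ?_ ?_
      · exact hu'.symm
      · funext i
        change Polynomial.X * Polynomial.divX (fg i0 u.1 i) = fg i0 u.1 i
        have h3 := Polynomial.divX_mul_X_add (fg i0 u.1 i)
        rw [u.2 i, hu'] at h3
        simp only [Pi.zero_apply, zero_mul, Finset.sum_const_zero, Polynomial.C_0,
          add_zero] at h3
        rw [mul_comm]; exact h3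
    · rintro ⟨g, rfl⟩
      rfl

lemma MM_nontrivial (hn : 0 < n) : Nontrivial (MM i0 B).carrier := by
  let e : (MM i0 B).carrier :=
    ⟨((0, fun j => Polynomial.X) : (Fin n → K) × (Fin n → Polynomial K)), by
      intro j
      change Polynomial.coeff Polynomial.X 0 = ∑ i, (0 : K) * B i j
      simp⟩
  refine ⟨⟨e, 0, ?_⟩⟩
  intro h
  have h1 : fg i0 e.1 ⟨0, hn⟩ = fg i0 (0 : (amb K n i0).carrier) ⟨0, hn⟩ := by rw [h]; rfl
  rw [fg_zero] at h1
  change (Polynomial.X : Polynomial K) = 0 at h1
  exact Polynomial.X_ne_zero h1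

lemma MM_finite : Module.Finite (MvPolynomial (Fin c × Fin n) K) (MM i0 B).carrier := by
  classical
  have hX : ∀ v : Fin c × Fin n,
      Module.Finite (MvPolynomial (Fin c × Fin n) K) (GX (K := K) v).carrier := by
    intro v
    let ρ : MvPolynomial (Fin c × Fin n) K →ₗ[MvPolynomial (Fin c × Fin n) K]
        (GX (K := K) v).carrier :=
      { toFun := fun f => ev v f
        map_add' := fun f g => map_add (ev v) f g
        map_smul' := fun p f => map_mul (ev v) p f }
    apply Module.Finite.of_surjective ρ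
    intro f
    have hev : ∀ f : Polynomial K, ev v (Polynomial.aeval (X v) f) = f := by
      intro f
      rw [← Polynomial.aeval_algHom_apply, ev_X, if_pos rfl, Polynomial.aeval_X_left_apply]
    exact ⟨Polynomial.aeval (X v) (f : Polynomial K), hev f⟩
  have hK : Module.Finite (MvPolynomial (Fin c × Fin n) K)
      (GK (K := K) (σ := Fin c × Fin n)).carrier := by
    let ρ : MvPolynomial (Fin c × Fin n) K →ₗ[MvPolynomial (Fin c × Fin n) K]
        (GK (K := K) (σ := Fin c × Fin n)).carrier :=
      { toFun := fun f => constantCoeff (R := K) f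
        map_add' := fun f g => map_add constantCoeff f g
        map_smul' := fun p f => map_mul constantCoeff p f }
    apply Module.Finite.of_surjective ρ
    intro f
    exact ⟨C (f : K), constantCoeff_C (R := K) (Fin c × Fin n) (f : K)⟩
  have h1 : IsNoetherian (MvPolynomial (Fin c × Fin n) K) (amb K n i0).carrier := by
    have h2 : ∀ j : Fin n, IsNoetherian (MvPolynomial (Fin c × Fin n) K)
      (GX (K := K) (i0, j)).carrier := fun j => isNoetherian_of_isNoetherianRing_of_finite _ _
    have h3 : IsNoetherian (MvPolynomial (Fin c × Fin n) K)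
      (GK (K := K) (σ := Fin c × Fin n)).carrier := isNoetherian_of_isNoetherianRing_of_finite _ _
    infer_instance
  exact Module.Finite.iff_fg.mpr (h1.noetherian (Msub i0 B))

/-- Nonsingular case: `reg = 0`. -/
theorem reg_bij (hn : 0 < n)
    (hB : Function.Bijective (fun (a : Fin n → K) (j : Fin n) => ∑ i, a i * B i j)) (r : ℤ) :
    IsRegularity (σ := Fin c × Fin n) (K := K) (MM i0 B).piece r ↔ r = 0 := by
  constructor
  · exact hasReg_iff i0 B hn hB r
  · rintro rfl
    have h1 := MM_finite i0 B
    have h2 := MM_nontrivial i0 B hn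
    obtain ⟨r', hr'⟩ := exists_reg (MM i0 B) 0 (MM_U i0 B hB)
    have h3 := hasReg_iff i0 B hn hB r' hr'
    rw [h3] at hr'
    exact hr'

/-- Singular case: `reg = 1`. -/
theorem reg_sing (hn : 0 < n)
    (hB : ¬ Function.Surjective (fun (a : Fin n → K) (j : Fin n) => ∑ i, a i * B i j)) (r : ℤ) :
    IsRegularity (σ := Fin c × Fin n) (K := K) (MM i0 B).piece r ↔ r = 1 := by
  have key : ∀ r, IsRegularity (σ := Fin c × Fin n) (K := K) (MM i0 B).piece r → r = 1 :=
    fun r h => le_antisymm (reg_le (MM_U_one i0 B) h) (one_le_reg i0 B hB r h)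
  constructor
  · exact key r
  · rintro rfl
    have h1 := MM_finite i0 B
    have h2 := MM_nontrivial i0 B hn
    obtain ⟨r', hr'⟩ := exists_reg (MM i0 B) 1 (MM_U_one i0 B)
    have h3 := key r' hr'
    rw [h3] at hr'
    exact hr'

end exact

end GMod

end H379R3
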