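import Pool.Agent.H379R3.RgJ

/-!
Not eventually linear.
-/

open H379R3.OIReg

namespace H379R3

/-- A relation `reg n = r` given by a function with the values `0` and `1`, both taken for
arbitrarily large `n`, is not eventually linear. -/
theorem not_linear (reg : ℕ → ℤ → Prop) (f : ℕ → ℤ)
    (hreg : ∀ n : ℕ, 1 ≤ n → ∀ r : ℤ, reg n r ↔ r = f n) (h01 : ∀ n, f n = 0 ∨ f n = 1)
    (h0 : ∀ N, ∃ n, N ≤ n ∧ f n = 0) (h1 : ∀ N, ∃ n, N ≤ n ∧ f n = 1) :
    ¬ EventuallyLinear reg := by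
  rintro ⟨a, b, N, hN⟩
  have hlin : ∀ n, N + 1 ≤ n → a * (n : ℤ) + b = f n := by
    intro n hn
    exact (hreg n (by omega) _).mp (hN n (by omega))
  have ha : a = 0 := by
    have e1 := hlin (N + 1) le_rfl
    have e2 := hlin (N + 3) (by omega)
    push_cast at e1 e2
    have e3 : a * ((N : ℤ) + 3) + b - (a * ((N : ℤ) + 1) + b) = 2 * a := by ring
    rcases h01 (N + 1) with h | h <;> rcases h01 (N + 3) with h' | h' <;> omega
  subst ha
  obtain ⟨n0, hn0, hf0⟩ := h0 (N + 1)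
  obtain ⟨n1, hn1, hf1⟩ := h1 (N + 1)
  have e1 := hlin n0 hn0
  have e2 := hlin n1 hn1
  rw [hf0] at e1
  rw [hf1] at e2
  omega

end H379R3
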