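import Mathlib
import Pool.Agent.H379R3.Poly
import Pool.Agent.H379R3.Obs

/-! The scheme of foliations near the form `W0`. -/

set_option autoImplicit false

namespace Pool.Agent.H379R3

open MvPolynomial

section general

variable {K : Type*} [CommRing K]

theorem prod_map_X (s : Multiset (Fin 4)) :
    (s.map (fun j => (X j : MvPolynomial (Fin 4) K))).prod = monomial (Multiset.toFinsupp s) 1 := by
  induction s using Multiset.induction with
  | empty => simp
  | cons a s ih =>
    rw [Multiset.map_cons, Multiset.prod_cons, ih, ← Multiset.singleton_add, Multiset.toFinsupp_add,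
      Multiset.toFinsupp_singleton, X, monomial_mul, one_mul]

theorem sum_sym (k : ℕ) (P : MvPolynomial (Fin 4) K) (hP : P.IsHomogeneous k) :
    ∑ s : Sym (Fin 4) k, C (coeff (Multiset.toFinsupp (s : Multiset (Fin 4))) P) *
      ((s : Multiset (Fin 4)).map (fun j => X j)).prod = P := by
  classical
  ext m
  rw [coeff_sum]
  simp only [prod_map_X, coeff_C_mul, coeff_monomial, mul_ite, mul_one, mul_zero]
  by_cases hm : Multiset.card (Finsupp.toMultiset m) = k
  · obtain ⟨s0, hs0⟩ : ∃ s0 : Sym (Fin 4) k,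
        (s0 : Multiset (Fin 4)) = Finsupp.toMultiset m := ⟨⟨_, hm⟩, rfl⟩
    refine (Finset.sum_eq_single s0 ?_ ?_).trans ?_
    · intro s _ hs
      rw [if_neg]
      intro h
      apply hs
      apply Subtype.ext
      rw [Multiset.toFinsupp_eq_iff] at h
      exact h.trans hs0.symm
    · intro h
      exact absurd (Finset.mem_univ _) h
    · rw [hs0]
      simp
  · refine (Finset.sum_eq_zero ?_).trans ?_
    · intro s _
      rw [if_neg]
      intro h
      apply hm
      rw [Multiset.toFinsupp_eq_iff] at h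
      rw [← h]
      exact s.2
    · symm
      apply hP.coeff_eq_zero
      intro h
      apply hm
      rw [← h, Finsupp.card_toMultiset]
      rfl

theorem map_W0 {L : Type*} [CommRing L] (f : K →+* L) (i : Fin 4) : map f (W0 K i) = W0 L i := by
  fin_cases i <;> simp [W0]

theorem map_W1 {L : Type*} [CommRing L] (f : K →+* L) (i : Fin 4) : map f (W1 K i) = W1 L i := by
  fin_cases i <;> simp [W1]

theorem hom_W0 (i : Fin 4) : (W0 K i).IsHomogeneous 8 := by
  have hX : ∀ j : Fin 4, (X j : MvPolynomial (Fin 4) K).IsHomogeneous 1 := isHomogeneous_X K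
  have h6 : ∀ j : Fin 4, (X j ^ 6 : MvPolynomial (Fin 4) K).IsHomogeneous 6 := fun j => by
    simpa using (hX j).pow 6
  have hc : ∀ (n : ℕ) (j : Fin 4),
      ((n : MvPolynomial (Fin 4) K) * X j ^ 6).IsHomogeneous 6 := fun n j => by
    have := (isHomogeneous_C (Fin 4) (n : K)).mul (h6 j)
    rw [map_natCast, zero_add] at this
    exact this
  fin_cases i
  · have := ((hX 1).mul (hX 2)).mul ((((hc 5 0).sub (h6 1)).sub (h6 2)).sub (h6 3))
    simpa [W0] using this
  · have := ((hX 0).mul (hX 2)).mul ((((hc 4 1).sub (hc 2 0)).sub (hc 2 2)).sub (hc 2 3))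
    simpa [W0] using this
  · have := ((hX 0).mul (hX 1)).mul ((((hc 3 2).sub (hc 3 0)).sub (hc 3 1)).sub (hc 3 3))
    simpa [W0] using this
  · have := (isHomogeneous_C (Fin 4) ((6 : ℕ) : K)).mul
      ((((hX 0).mul (hX 1)).mul (hX 2)).mul ((hX 3).pow 5))
    rw [map_natCast] at this
    simpa [W0] using this

theorem hom_W1 (i : Fin 4) : (W1 K i).IsHomogeneous 8 := by
  have hX : ∀ j : Fin 4, (X j : MvPolynomial (Fin 4) K).IsHomogeneous 1 := isHomogeneous_X K
  have h6 : ∀ j : Fin 4, (X j ^ 6 : MvPolynomial (Fin 4) K).IsHomogeneous 6 := fun j => by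
    simpa using (hX j).pow 6
  have hg : (X 0 ^ 6 + X 1 ^ 6 + X 2 ^ 6 + X 3 ^ 6 : MvPolynomial (Fin 4) K).IsHomogeneous 6 :=
    (((h6 0).add (h6 1)).add (h6 2)).add (h6 3)
  fin_cases i
  · have := ((hX 0).mul ((hX 1).pow 3)).mul ((hX 2).pow 4)
    simpa [W1] using this
  · have := ((((hX 0).pow 2).mul ((hX 1).pow 2)).mul ((hX 2).pow 4)).neg.add
      (((hX 0).mul (hX 2)).mul hg)
    simpa [W1] using this
  · have := (((hX 0).mul (hX 1)).mul hg).neg
    simpa [W1] using this
  · simpa [W1] using isHomogeneous_zero (Fin 4) K 8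

theorem Pf_C_mul (e : K) (w : Fin 4 → MvPolynomial (Fin 4) K) :
    Pf (fun l => C e * w l) = C (e ^ 2) * Pf w := by
  simp only [Pf, D_C_mul, C_pow]
  ring

theorem map_D {L : Type*} [CommRing L] (f : K →+* L) (w : Fin 4 → MvPolynomial (Fin 4) K)
    (i j : Fin 4) : map f (D w i j) = D (fun l => map f (w l)) i j := by
  simp only [D, map_sub, pderiv_map]

theorem map_T {L : Type*} [CommRing L] (f : K →+* L) (w : Fin 4 → MvPolynomial (Fin 4) K)
    (i j k : Fin 4) : map f (T w i j k) = T (fun l => map f (w l)) i j k := by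
  simp only [T, map_add, map_mul, map_D]

theorem map_Pf {L : Type*} [CommRing L] (f : K →+* L) (w : Fin 4 → MvPolynomial (Fin 4) K) :
    map f (Pf w) = Pf (fun l => map f (w l)) := by
  simp only [Pf, map_add, map_sub, map_mul, map_D]

end general

/-- the index set of the coefficients -/
abbrev Sg : Type := Fin 4 × Sym (Fin 4) 8

/-- the generic form -/
noncomputable def G0 (i : Fin 4) : MvPolynomial (Fin 4) (MvPolynomial Sg ℂ) :=
  ∑ s : Sym (Fin 4) 8, C (X (i, s)) * ((s : Multiset (Fin 4)).map (fun j => X j)).prod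

theorem map_G0 {K : Type*} [CommRing K] (f : MvPolynomial Sg ℂ →+* K) (i : Fin 4) :
    map f (G0 i) =
      ∑ s : Sym (Fin 4) 8, C (f (X (i, s))) * ((s : Multiset (Fin 4)).map (fun j => X j)).prod := by
  simp only [G0, map_sum, map_mul, map_C, prod_map_X, map_monomial, map_one]

/-- the coefficient vector of `W0` -/
noncomputable def cc (p : Sg) : ℂ := coeff (Multiset.toFinsupp (p.2 : Multiset (Fin 4))) (W0 ℂ p.1)

/-- the coefficient vector of `W1` -/
noncomputable def vv (p : Sg) : ℂ := coeff (Multiset.toFinsupp (p.2 : Multiset (Fin 4))) (W1 ℂ p.1)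

theorem map_eval_G0 (i : Fin 4) : map (eval cc) (G0 i) = W0 ℂ i := by
  rw [map_G0]
  simp only [eval_X]
  exact sum_sym 8 (W0 ℂ i) (hom_W0 i)

/-- the arc `W0 + ε W1` -/
noncomputable def psi : MvPolynomial Sg ℂ →+* PowerSeries ℂ :=
  eval₂Hom PowerSeries.C (fun p => PowerSeries.C (cc p) + PowerSeries.X * PowerSeries.C (vv p))

theorem map_psi_G0 (i : Fin 4) :
    map psi (G0 i) = W0 (PowerSeries ℂ) i + C PowerSeries.X * W1 (PowerSeries ℂ) i := by
  rw [map_G0]
  have hhom : (W0 (PowerSeries ℂ) i + C PowerSeries.X * W1 (PowerSeries ℂ) i).IsHomogeneous 8 := by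
    have := (isHomogeneous_C (Fin 4) (PowerSeries.X : PowerSeries ℂ)).mul (hom_W1 i)
    rw [zero_add] at this
    exact (hom_W0 i).add this
  rw [← sum_sym 8 _ hhom]
  refine Finset.sum_congr rfl fun s _ => ?_
  congr 2
  rw [coeff_add, coeff_C_mul, ← map_W0 PowerSeries.C, ← map_W1 PowerSeries.C, coeff_map, coeff_map]
  simp [psi, cc, vv]

theorem constantCoeff_psi (f : MvPolynomial Sg ℂ) :
    PowerSeries.constantCoeff (psi f) = eval cc f := by
  have : (PowerSeries.constantCoeff).comp psi = eval cc := by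
    apply MvPolynomial.ringHom_ext
    · intro r; simp [psi]
    · intro p; simp [psi]
  exact congrArg (fun g => g f) this |> fun h => by simpa using h

/-- the ideal of the scheme of foliations -/
noncomputable def I0 : Ideal (MvPolynomial Sg ℂ) :=
  Ideal.span {r | (∃ m, r = coeff m (∑ i, X i * G0 i)) ∨ (∃ i j k m, r = coeff m (T G0 i j k))}

theorem X_sq_dvd_psi : ∀ f ∈ I0, (PowerSeries.X : PowerSeries ℂ) ^ 2 ∣ psi f := by
  have h : I0 ≤ Ideal.comap psi (Ideal.span {PowerSeries.X ^ 2}) := by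
    rw [I0, Ideal.span_le]
    rintro r (⟨m, rfl⟩ | ⟨i, j, k, m, rfl⟩)
    · rw [SetLike.mem_coe, Ideal.mem_comap, ← coeff_map]
      have : map psi (∑ i, X i * G0 i) = 0 := by
        rw [map_sum]
        simp only [map_mul, map_X, map_psi_G0]
        exact radial_family _
      rw [this, coeff_zero]
      exact Ideal.zero_mem _
    · rw [SetLike.mem_coe, Ideal.mem_comap, ← coeff_map, map_T]
      have : (fun l => map psi (G0 l)) =
          fun l => W0 (PowerSeries ℂ) l + C PowerSeries.X * W1 (PowerSeries ℂ) l := by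
        funext l; exact map_psi_G0 l
      rw [this, T_family, coeff_C_mul]
      exact Ideal.mul_mem_right _ _ (Ideal.mem_span_singleton_self _)
  intro f hf
  exact Ideal.mem_span_singleton.1 (h hf)

/-- the quadratic equation of the scheme that obstructs `W1` -/
noncomputable def qq : MvPolynomial Sg ℂ := coeff (E 2 3 4 5) (Pf G0)

theorem T_coeff_mem (i j k : Fin 4) (m : Fin 4 →₀ ℕ) : coeff m (T G0 i j k) ∈ I0 :=
  Ideal.subset_span (Or.inr ⟨i, j, k, m, rfl⟩)

theorem qq_mem : qq ∈ I0 := by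
  have h : 2 * qq ∈ I0 := by
    have h1 : 2 * qq = coeff (E 2 3 4 5) (2 * Pf G0) := by
      rw [qq, two_mul, two_mul, coeff_add]
    rw [h1, two_Pf, coeff_sub, coeff_add, coeff_sub, coeff_pderiv, coeff_pderiv, coeff_pderiv,
      coeff_pderiv]
    refine Ideal.sub_mem _ (Ideal.add_mem _ (Ideal.sub_mem _ ?_ ?_) ?_) ?_ <;>
      exact Ideal.mul_mem_right _ _ (T_coeff_mem _ _ _ _)
  have h2 : qq = C (1 / 2 : ℂ) * (2 * qq) := by
    have h3 : (2 : MvPolynomial Sg ℂ) = C (2 : ℂ) := (map_ofNat C 2).symm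
    rw [h3, ← mul_assoc, ← C_mul]
    norm_num
  rw [h2]
  exact Ideal.mul_mem_left _ _ h

theorem qq_mem_sq : qq ∈ (RingHom.ker (eval cc)) ^ 2 := by
  set M := RingHom.ker (eval cc) with hM
  have h0 : Pf G0 = Pf (fun l => W0 (MvPolynomial Sg ℂ) l + (G0 l - W0 (MvPolynomial Sg ℂ) l)) :=
    congrArg Pf (funext fun l => (add_sub_cancel _ _).symm)
  rw [qq, h0, Pf_add, coeff_add, coeff_add, Pf_W0, coeff_zero, coeff_B, zero_add, zero_add]
  have h1 : ∀ l, (G0 l - W0 (MvPolynomial Sg ℂ) l) ∈ Ideal.map C M := by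
    intro l
    rw [mem_map_C_iff]
    intro m
    rw [hM, RingHom.mem_ker, ← coeff_map, map_sub, map_eval_G0, map_W0, sub_self, coeff_zero]
  have hp : ∀ (i : Fin 4) (f : MvPolynomial (Fin 4) (MvPolynomial Sg ℂ)),
      f ∈ Ideal.map C M → pderiv i f ∈ Ideal.map C M := by
    intro i f hf
    rw [mem_map_C_iff] at hf ⊢
    intro m
    rw [coeff_pderiv]
    exact Ideal.mul_mem_right _ _ (hf _)
  have h2 : ∀ i j, D (fun l => G0 l - W0 (MvPolynomial Sg ℂ) l) i j ∈ Ideal.map C M := by
    intro i j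
    exact Ideal.sub_mem _ (hp _ _ (h1 _)) (hp _ _ (h1 _))
  have h3 : Pf (fun l => G0 l - W0 (MvPolynomial Sg ℂ) l) ∈ Ideal.map C (M ^ 2) := by
    rw [Ideal.map_pow, pow_two, Pf]
    refine Ideal.add_mem _ (Ideal.sub_mem _ ?_ ?_) ?_ <;>
      exact Ideal.mul_mem_mul (h2 _ _) (h2 _ _)
  exact (mem_map_C_iff.1 h3) _

theorem psi_qq : psi qq = PowerSeries.X ^ 2 * PowerSeries.C (-54) := by
  rw [qq, ← coeff_map, map_Pf]
  have : (fun l => map psi (G0 l)) =
      fun l => W0 (PowerSeries ℂ) l + C PowerSeries.X * W1 (PowerSeries ℂ) l := by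
    funext l; exact map_psi_G0 l
  rw [this, Pf_add (W0 (PowerSeries ℂ)) (fun l => C PowerSeries.X * W1 (PowerSeries ℂ) l),
    coeff_add, coeff_add, Pf_W0, coeff_zero, coeff_B, Pf_C_mul, coeff_C_mul, coeff_Pf_W1,
    zero_add, zero_add, map_neg, map_ofNat]

theorem not_dvd_psi_qq : ¬ (PowerSeries.X : PowerSeries ℂ) ^ 3 ∣ psi qq := by
  rw [psi_qq, PowerSeries.X_pow_dvd_iff]
  intro h
  have := h 2 (by norm_num)
  rw [PowerSeries.coeff_X_pow_mul'] at this
  simp at this

theorem I0_le : I0 ≤ RingHom.ker (eval cc) := by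
  intro f hf
  obtain ⟨g, hg⟩ := X_sq_dvd_psi f hf
  rw [RingHom.mem_ker, ← constantCoeff_psi, hg]
  simp

end Pool.Agent.H379R3
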