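import Mathlib

set_option autoImplicit false

/-!
General lemmas used for the symbolic depth function example (`S00019`).
-/

namespace H379R3.Sym

open Polynomial

/-- `r` is a nonzerodivisor modulo the ideal `K`. -/
def Reg {R : Type*} [CommRing R] (K : Ideal R) (r : R) : Prop := ∀ g, r * g ∈ K → g ∈ K

/-- everything outside `p` is a nonzerodivisor modulo `q`. -/
def Prim {R : Type*} [CommRing R] (q p : Ideal R) : Prop := ∀ a, a ∉ p → Reg q a

/-- `S` is the polynomial ring in the variable `v` over (the image of) `R`. -/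
def PolyOver {R S : Type*} [CommRing R] [CommRing S] (φ : R →+* S) (v : S) : Prop :=
  Function.Bijective (Polynomial.eval₂RingHom φ v)

section
variable {R S : Type*} [CommRing R] [CommRing S]

/-- Polynomial with a coefficient regular mod `q` is regular mod `q[X]`. -/
lemma reg_mapC {q : Ideal R} {r : R[X]} (n : ℕ) (h : Reg q (r.coeff n)) :
    Reg (q.map (C : R →+* R[X])) r := by
  intro g hg
  have h1 : (r.map (Ideal.Quotient.mk q)) ∈ nonZeroDivisors (R ⧸ q)[X] := by
    apply Polynomial.mem_nonzeroDivisors_of_coeff_mem n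
    rw [Polynomial.coeff_map, mem_nonZeroDivisors_iff_left]
    intro x hx
    obtain ⟨x, rfl⟩ := Ideal.Quotient.mk_surjective x
    rw [← map_mul, Ideal.Quotient.eq_zero_iff_mem] at hx
    rw [Ideal.Quotient.eq_zero_iff_mem]
    exact h x hx
  have h2 : (r.map (Ideal.Quotient.mk q)) * (g.map (Ideal.Quotient.mk q)) = 0 := by
    rw [← Polynomial.map_mul]
    ext i
    rw [Polynomial.coeff_map, Polynomial.coeff_zero, Ideal.Quotient.eq_zero_iff_mem]
    exact Ideal.mem_map_C_iff.1 hg i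
  have h3 := (mem_nonZeroDivisors_iff_left.1 h1) _ h2
  rw [Ideal.mem_map_C_iff]
  intro i
  rw [← Ideal.Quotient.eq_zero_iff_mem, ← Polynomial.coeff_map, h3, Polynomial.coeff_zero]

lemma prim_mapC {q p : Ideal R} (h : Prim q p) :
    Prim (q.map (C : R →+* R[X])) (p.map (C : R →+* R[X])) := by
  intro a ha
  rw [Ideal.mem_map_C_iff] at ha
  push Not at ha
  obtain ⟨n, hn⟩ := ha
  exact reg_mapC n (h _ hn)

lemma map_eq_of_bij {φ : R →+* S} {v : S} (h : PolyOver φ v) (q : Ideal R) (f : R[X]) :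
    eval₂RingHom φ v f ∈ q.map φ ↔ f ∈ q.map (C : R →+* R[X]) := by
  have h1 : q.map φ = (q.map (C : R →+* R[X])).map (eval₂RingHom φ v) := by
    rw [Ideal.map_map]
    congr 1
    ext x
    simp
  rw [h1, Ideal.mem_map_iff_of_surjective _ h.2]
  constructor
  · rintro ⟨x, hx, hxf⟩
    rwa [← h.1 hxf]
  · exact fun hf => ⟨f, hf, rfl⟩

lemma prim_polyOver {φ : R →+* S} {v : S} (h : PolyOver φ v) {q p : Ideal R} (hqp : Prim q p) :
    Prim (q.map φ) (p.map φ) := by
  intro a ha g hg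
  obtain ⟨a, rfl⟩ := h.2 a
  obtain ⟨g, rfl⟩ := h.2 g
  rw [map_eq_of_bij h] at ha ⊢
  rw [← map_mul, map_eq_of_bij h] at hg
  exact prim_mapC hqp a ha g hg

lemma reg_polyOver {φ : R →+* S} {v : S} (h : PolyOver φ v) (q : Ideal R) (c a : R)
    (hc : IsUnit c) : Reg (q.map φ) (φ c * v + φ a) := by
  intro g hg
  obtain ⟨g, rfl⟩ := h.2 g
  have e : φ c * v + φ a = eval₂RingHom φ v (C c * X + C a) := by simp
  rw [e, ← map_mul, map_eq_of_bij h] at hg
  rw [map_eq_of_bij h]
  refine reg_mapC 1 ?_ g hg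
  intro x hx
  have : (C c * X + C a : R[X]).coeff 1 = c := by simp
  rw [this] at hx
  exact (Ideal.unit_mul_mem_iff_mem q hc).1 hx

/-- Gluing lemma. -/
lemma glue {K1 K2 : Ideal R} {r1 r2 : R} (h1 : Reg K1 r1) (h2 : Reg K2 r1)
    (h3 : Reg (K1 ⊔ Ideal.span {r1}) r2) (h4 : Reg (K2 ⊔ Ideal.span {r1}) r2)
    (h5 : Reg (K1 ⊔ K2) r1) :
    Reg (K1 ⊓ K2) r1 ∧ Reg ((K1 ⊓ K2) ⊔ Ideal.span {r1}) r2 := by
  refine ⟨fun g hg => ⟨h1 g hg.1, h2 g hg.2⟩, fun c hc => ?_⟩
  have hc1 : c ∈ K1 ⊔ Ideal.span {r1} :=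
    h3 c ((sup_le_sup_right inf_le_left _ : (K1 ⊓ K2) ⊔ Ideal.span {r1} ≤ _) hc)
  have hc2 : c ∈ K2 ⊔ Ideal.span {r1} :=
    h4 c ((sup_le_sup_right inf_le_right _ : (K1 ⊓ K2) ⊔ Ideal.span {r1} ≤ _) hc)
  obtain ⟨a, ha, b, hb, hab⟩ := Submodule.mem_sup.1 hc1
  obtain ⟨a', ha', b', hb', hab'⟩ := Submodule.mem_sup.1 hc2
  obtain ⟨e1, rfl⟩ := Ideal.mem_span_singleton'.1 hb
  obtain ⟨e2, rfl⟩ := Ideal.mem_span_singleton'.1 hb'
  have h6 : r1 * (e1 - e2) ∈ K1 ⊔ K2 := by
    have : r1 * (e1 - e2) = a' - a := by linear_combination hab - hab'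
    rw [this]
    exact sub_mem (Ideal.mem_sup_right ha') (Ideal.mem_sup_left ha)
  obtain ⟨u, hu, w, hw, huw⟩ := Submodule.mem_sup.1 (h5 _ h6)
  rw [Submodule.mem_sup]
  refine ⟨c - (e1 - u) * r1, ⟨?_, ?_⟩, (e1 - u) * r1, Ideal.mem_span_singleton'.2 ⟨_, rfl⟩, by ring⟩
  · have : c - (e1 - u) * r1 = a + u * r1 := by linear_combination - hab
    rw [this]
    exact add_mem ha (Ideal.mul_mem_right _ _ hu)
  · have : c - (e1 - u) * r1 = a' - w * r1 := by linear_combination - hab' + huw * r1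
    rw [this]
    exact sub_mem ha' (Ideal.mul_mem_right _ _ hw)

/-- powers of an ideal generated by two elements -/
lemma pair_pow_le {a b : R} {N : ℕ} {K : Ideal R}
    (h : ∀ i j, i + j = N → a ^ i * b ^ j ∈ K) : (Ideal.span {a, b}) ^ N ≤ K := by
  rw [Ideal.span_insert, ← Ideal.add_eq_sup, add_pow, Ideal.sum_eq_sup]
  apply Finset.sup_le
  intro i hi
  refine Ideal.mul_le_left.trans ?_
  rw [Ideal.span_singleton_pow, Ideal.span_singleton_pow, Ideal.span_singleton_mul_span_singleton,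
    Ideal.span_singleton_le_iff_mem]
  exact h _ _ (by have := Finset.mem_range.1 hi; omega)

lemma pair_pow_mem {a b : R} {N i j : ℕ} (h : N ≤ i + j) : a ^ i * b ^ j ∈ (Ideal.span {a, b}) ^ N := by
  apply Ideal.pow_le_pow_right h
  rw [pow_add]
  exact Ideal.mul_mem_mul (Ideal.pow_mem_pow (Ideal.subset_span (by simp)) _)
    (Ideal.pow_mem_pow (Ideal.subset_span (by simp)) _)

/-- local criterion for primary ideals with a maximal-type radical -/
lemma prim_base {q p : Ideal R} (hp : p.IsMaximal) {N : ℕ} (hN : p ^ N ≤ q) : Prim q p := by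
  intro a ha g hg
  have h1 : Ideal.span {a} ⊔ p = ⊤ := by
    have h2 := hp.1.2 (Ideal.span {a} ⊔ p) (lt_of_le_of_ne le_sup_right (by
      intro h
      apply ha
      rw [h]
      exact Ideal.mem_sup_left (Ideal.mem_span_singleton_self a)))
    exact h2
  have h2 : Ideal.span {a} ⊔ p ^ N = ⊤ := by
    have := Ideal.sup_pow_eq_top (n := N) h1
    exact this
  have h3 : (1 : R) ∈ Ideal.span {a} ⊔ p ^ N := by rw [h2]; trivial
  obtain ⟨u, hu, w, hw, huw⟩ := Submodule.mem_sup.1 h3
  obtain ⟨c, rfl⟩ := Ideal.mem_span_singleton'.1 hu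
  have : g = c * (a * g) + w * g := by linear_combination - g * huw
  rw [this]
  exact add_mem (Ideal.mul_mem_left _ _ hg) (Ideal.mul_mem_right _ _ (hN hw))

lemma prim_prime {p : Ideal R} (h : Prim p p) (hne : p ≠ ⊤) : p.IsPrime := by
  refine ⟨hne, fun {a b} hab => ?_⟩
  by_cases ha : a ∈ p
  · exact Or.inl ha
  · exact Or.inr (h a ha b hab)

end

section depth
open RingTheory.Sequence
variable {S : Type*} [CommRing S]

/-- elementwise form of `IsSMulRegular (S ⧸ K) r`. -/
lemma isSMulRegular_quot_iff (K : Ideal S) (r : S) : IsSMulRegular (S ⧸ K) r ↔ Reg K r := by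
  rw [isSMulRegular_iff_right_eq_zero_of_smul]
  constructor
  · intro h g hg
    have := h (Ideal.Quotient.mk K g) (by
      rw [← Ideal.Quotient.mk_eq_mk, ← Submodule.Quotient.mk_smul, smul_eq_mul,
        Submodule.Quotient.mk_eq_zero]
      exact hg)
    exact Ideal.Quotient.eq_zero_iff_mem.1 this
  · intro h x hx
    obtain ⟨x, rfl⟩ := Ideal.Quotient.mk_surjective x
    rw [← Ideal.Quotient.mk_eq_mk, ← Submodule.Quotient.mk_smul, smul_eq_mul,
        Submodule.Quotient.mk_eq_zero] at hx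
    exact Ideal.Quotient.eq_zero_iff_mem.2 (h x hx)

/-- regularity of `r2` on `(S ⧸ K) / r1`. -/
lemma isSMulRegular_quotSMulTop_iff (K : Ideal S) (r1 r2 : S) :
    IsSMulRegular (QuotSMulTop r1 (S ⧸ K)) r2 ↔ Reg (K ⊔ Ideal.span {r1}) r2 := by
  have key : ∀ x : S, (Submodule.Quotient.mk (Ideal.Quotient.mk K x) : QuotSMulTop r1 (S ⧸ K)) = 0 ↔
      x ∈ K ⊔ Ideal.span {r1} := by
    intro x
    rw [Submodule.Quotient.mk_eq_zero, Submodule.mem_smul_pointwise_iff_exists]
    constructor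
    · rintro ⟨y, -, hy⟩
      obtain ⟨y, rfl⟩ := Ideal.Quotient.mk_surjective y
      rw [← Ideal.Quotient.mk_eq_mk, ← Submodule.Quotient.mk_smul, smul_eq_mul,
        ← Ideal.Quotient.mk_eq_mk, Submodule.Quotient.eq] at hy
      rw [Submodule.mem_sup]
      refine ⟨-(r1 * y - x), neg_mem hy, y * r1, Ideal.mem_span_singleton'.2 ⟨_, rfl⟩, by ring⟩
    · intro h
      obtain ⟨a, ha, b, hb, hab⟩ := Submodule.mem_sup.1 h
      obtain ⟨c, rfl⟩ := Ideal.mem_span_singleton'.1 hb
      refine ⟨Ideal.Quotient.mk K c, trivial, ?_⟩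
      rw [← Ideal.Quotient.mk_eq_mk, ← Submodule.Quotient.mk_smul, smul_eq_mul,
        ← Ideal.Quotient.mk_eq_mk, Submodule.Quotient.eq]
      have : r1 * c - x = -a := by linear_combination hab
      rw [this]
      exact neg_mem ha
  rw [isSMulRegular_iff_right_eq_zero_of_smul]
  constructor
  · intro h g hg
    have := h (Submodule.Quotient.mk (Ideal.Quotient.mk K g)) (by
      rw [← Submodule.Quotient.mk_smul]
      have := (key (r2 * g)).2 hg
      exact this)
    exact (key g).1 this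
  · intro h x hx
    obtain ⟨x, rfl⟩ := Submodule.Quotient.mk_surjective _ x
    obtain ⟨x, rfl⟩ := Ideal.Quotient.mk_surjective x
    rw [← Submodule.Quotient.mk_smul] at hx
    exact (key x).2 (h x ((key (r2 * x)).1 hx))

lemma le_two_seq {K : Ideal S} {rs : List S} (h : IsWeaklyRegular (S ⧸ K) rs)
    (hl : 2 ≤ rs.length) : ∃ r1 r2, r1 ∈ rs ∧ r2 ∈ rs ∧ Reg K r1 ∧ Reg (K ⊔ Ideal.span {r1}) r2 := by
  match rs, hl with
  | r1 :: r2 :: rest, _ =>
    rw [isWeaklyRegular_cons_iff, isWeaklyRegular_cons_iff] at h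
    exact ⟨r1, r2, by simp, by simp, (isSMulRegular_quot_iff K r1).1 h.1,
      (isSMulRegular_quotSMulTop_iff K r1 r2).1 h.2.1⟩

lemma two_seq {K m : Ideal S} (hm : m ≠ ⊤) (hK : K ≤ m) {r1 r2 : S} (h1m : r1 ∈ m) (h2m : r2 ∈ m)
    (h1 : Reg K r1) (h2 : Reg (K ⊔ Ideal.span {r1}) r2) : IsRegular (S ⧸ K) [r1, r2] := by
  refine ⟨?_, ?_⟩
  · rw [isWeaklyRegular_cons_iff, isWeaklyRegular_cons_iff]
    exact ⟨(isSMulRegular_quot_iff K r1).2 h1, (isSMulRegular_quotSMulTop_iff K r1 r2).2 h2,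
      IsWeaklyRegular.nil _ _⟩
  · intro h
    have h3 : (Ideal.Quotient.mk K 1) ∈ (Ideal.ofList [r1, r2] • (⊤ : Submodule S (S ⧸ K))) := by
      rw [← h]; trivial
    have h4 : (Ideal.ofList [r1, r2] • (⊤ : Submodule S (S ⧸ K))) ≤
        Submodule.map (Submodule.mkQ K) m := by
      rw [Submodule.smul_le]
      intro r hr n _
      obtain ⟨n, rfl⟩ := Ideal.Quotient.mk_surjective n
      refine ⟨r * n, ?_, rfl⟩
      refine Ideal.mul_mem_right _ _ ?_
      have : Ideal.ofList [r1, r2] ≤ m := by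
        rw [Ideal.ofList, Ideal.span_le]
        intro x hx
        simp only [List.mem_cons, List.not_mem_nil, or_false, Set.mem_ofPred_eq] at hx
        rcases hx with rfl | rfl
        · exact h1m
        · exact h2m
      exact this hr
    obtain ⟨y, hy, hy2⟩ := h4 h3
    have h5 : (1 : S) - y ∈ K := by
      have := (Submodule.Quotient.eq K).1 hy2
      have h6 := neg_mem this
      simpa using h6
    apply hm
    rw [Ideal.eq_top_iff_one]
    have : (1 : S) = (1 - y) + y := by ring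
    rw [this]
    exact add_mem (hK h5) hy

/-- lengths of regular sequences are bounded by the Krull dimension. -/
lemma length_le {S : Type*} [CommRing S] [IsNoetherianRing S] (rs : List S) :
    ∀ (M : Type*) [AddCommGroup M] [Module S M] [Module.Finite S M], IsRegular M rs →
      (rs.length : WithBot ℕ∞) ≤ Module.supportDim S M := by
  induction rs with
  | nil =>
    intro M _ _ _ h
    have : Nontrivial M := h.nontrivial
    have h1 := Module.supportDim_ne_bot_of_nontrivial S M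
    rcases hd : Module.supportDim S M with _ | d
    · exact absurd hd h1
    · simp only [List.length_nil]
      exact WithBot.coe_le_coe.2 zero_le
  | cons r rs ih =>
    intro M _ _ _ h
    rw [isRegular_cons_iff] at h
    have h1 := ih _ h.2
    have h2 := Module.supportDim_quotSMulTop_succ_le_of_notMem_minimalPrimes (R := S) (M := M)
      (x := r) (fun _ => h.1.notMem_of_mem_minimalPrimes)
    refine le_trans ?_ h2
    rw [List.length_cons, Nat.cast_add, Nat.cast_one]
    gcongr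

end depth

end H379R3.Sym
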