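import Mathlib
import Pool.Agent.H379R3.SymA

set_option autoImplicit false

namespace H379R3.Sym

open MvPolynomial

section
variable {k : Type*} [Field k]

lemma polyOver_aeval {n : ℕ} {A : Type*} [CommRing A] [Algebra k A] (σ : Fin n → A) (v : A)
    (h : Function.Bijective (aeval (Fin.cons v σ : Fin (n + 1) → A) :
      MvPolynomial (Fin (n + 1)) k →ₐ[k] A)) :
    PolyOver (aeval σ : MvPolynomial (Fin n) k →ₐ[k] A).toRingHom v := by
  have e : (Polynomial.eval₂RingHom (aeval σ : MvPolynomial (Fin n) k →ₐ[k] A).toRingHom v) =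
      (aeval (Fin.cons v σ : Fin (n + 1) → A) : MvPolynomial (Fin (n + 1)) k →ₐ[k] A).toRingHom.comp
        (finSuccEquiv k n).symm.toRingEquiv.toRingHom := by
    have h0 : ∀ p : MvPolynomial (Fin (n + 1)) k,
        (Polynomial.eval₂RingHom (aeval σ : MvPolynomial (Fin n) k →ₐ[k] A).toRingHom v)
          (finSuccEquiv k n p) = aeval (Fin.cons v σ : Fin (n + 1) → A) p := by
      intro p
      induction p using MvPolynomial.induction_on with
      | C a => simp [finSuccEquiv_apply]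
      | add p q hp hq => rw [map_add, map_add, map_add, hp, hq]
      | mul_X p i hp =>
        rw [map_mul, map_mul, map_mul, hp]
        congr 1
        refine Fin.cases ?_ (fun j => ?_) i
        · rw [finSuccEquiv_X_zero]; simp
        · rw [finSuccEquiv_X_succ]; simp
    refine RingHom.ext fun q => ?_
    have := h0 ((finSuccEquiv k n).symm q)
    rw [AlgEquiv.apply_symm_apply] at this
    rw [this]; rfl
  rw [PolyOver, e]
  exact h.comp (finSuccEquiv k n).symm.bijective

lemma bij_of_inv {A B : Type*} [CommRing A] [Algebra k A] [CommRing B] [Algebra k B]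
    (f : A →ₐ[k] B) (g : B →ₐ[k] A) (h1 : f.comp g = AlgHom.id k B)
    (h2 : g.comp f = AlgHom.id k A) : Function.Bijective f :=
  ⟨fun x y hxy => by
      have := congrArg g hxy
      have e : ∀ z, g (f z) = z := fun z => by
        have := DFunLike.congr_fun h2 z
        simpa using this
      rwa [e, e] at this,
    fun y => ⟨g y, by
      have := DFunLike.congr_fun h1 y
      simpa using this⟩⟩

lemma sub_C_mem {n : ℕ} (f : MvPolynomial (Fin n) k) :
    f - C (constantCoeff f) ∈ Ideal.span (Set.range (X : Fin n → MvPolynomial (Fin n) k)) := by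
  induction f using MvPolynomial.induction_on with
  | C a => simp
  | add p q hp hq =>
    have : p + q - C (constantCoeff (p + q)) =
      (p - C (constantCoeff p)) + (q - C (constantCoeff q)) := by
      rw [map_add, map_add]; ring
    rw [this]; exact add_mem hp hq
  | mul_X p i hp =>
    have : constantCoeff (p * X i) = 0 := by rw [map_mul, constantCoeff_X, mul_zero]
    rw [this, map_zero, sub_zero]
    exact Ideal.mul_mem_left _ _ (Ideal.subset_span ⟨i, rfl⟩)

/-- ideals of `k[X0,X1]` containing a power of `(X0,X1)`. -/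
lemma prim_two (q : Ideal (MvPolynomial (Fin 2) k)) (N : ℕ)
    (hN : (Ideal.span {X 0, X 1} : Ideal (MvPolynomial (Fin 2) k)) ^ N ≤ q) :
    Prim q (Ideal.span {X 0, X 1}) := by
  refine prim_base ?_ hN
  have hr : Set.range (X : Fin 2 → MvPolynomial (Fin 2) k) = {X 0, X 1} := by
    ext z
    constructor
    · rintro ⟨i, rfl⟩
      fin_cases i <;> simp
    · rintro (rfl | rfl)
      · exact ⟨0, rfl⟩
      · exact ⟨1, rfl⟩
  have : (Ideal.span {X 0, X 1} : Ideal (MvPolynomial (Fin 2) k)) =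
      RingHom.ker (constantCoeff : MvPolynomial (Fin 2) k →+* k) := by
    apply le_antisymm
    · rw [Ideal.span_le]
      rintro z (rfl | rfl) <;> simp [RingHom.mem_ker]
    · intro f hf
      have := sub_C_mem f
      rw [RingHom.mem_ker] at hf
      rw [hf, map_zero, sub_zero, hr] at this
      exact this
  rw [this]
  exact RingHom.ker_isMaximal_of_surjective _ (fun a => ⟨C a, constantCoeff_C _ a⟩)

abbrev R2 (k : Type*) [Field k] := MvPolynomial (Fin 2) k
abbrev R3 (k : Type*) [Field k] := MvPolynomial (Fin 3) k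
abbrev R4 (k : Type*) [Field k] := MvPolynomial (Fin 4) k

/-- A coordinate system of the polynomial ring. -/
def Coord (c0 c1 c2 c3 : R4 k) : Prop :=
  Function.Bijective (aeval (![c3, c0, c1, c2] : Fin 4 → R4 k) : R4 k →ₐ[k] R4 k)

lemma Coord.polyOver {c0 c1 c2 c3 : R4 k} (h : Coord c0 c1 c2 c3) :
    PolyOver (aeval ![c0, c1, c2] : R3 k →ₐ[k] R4 k).toRingHom c3 :=
  polyOver_aeval _ _ h

lemma coord3 : PolyOver (aeval ![X 0, X 1] : R2 k →ₐ[k] R3 k).toRingHom (X 2) := by
  apply polyOver_aeval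
  refine bij_of_inv _ (aeval (![X 1, X 2, X 0] : Fin 3 → R3 k)) ?_ ?_ <;>
  · apply MvPolynomial.algHom_ext
    intro i
    fin_cases i <;> simp

/-- the ring hom `k[X0,X1] → S` given by two elements -/
noncomputable def ev2 (c0 c1 : R4 k) : R2 k →+* R4 k :=
  ((aeval ![c0, c1] : R2 k →ₐ[k] R4 k) : R2 k →+* R4 k)

/-- the ring hom `k[X0,X1,X2] → S` given by three elements -/
noncomputable def ev3 (c0 c1 c2 : R4 k) : R3 k →+* R4 k :=
  ((aeval ![c0, c1, c2] : R3 k →ₐ[k] R4 k) : R3 k →+* R4 k)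

@[simp] lemma ev2_X0 (c0 c1 : R4 k) : ev2 c0 c1 (X 0) = c0 := by simp [ev2]
@[simp] lemma ev2_X1 (c0 c1 : R4 k) : ev2 c0 c1 (X 1) = c1 := by simp [ev2]
@[simp] lemma ev2_C (c0 c1 : R4 k) (a : k) : ev2 c0 c1 (C a) = C a := by
  simp [ev2, algebraMap_eq]
@[simp] lemma ev3_X0 (c0 c1 c2 : R4 k) : ev3 c0 c1 c2 (X 0) = c0 := by simp [ev3]
@[simp] lemma ev3_X1 (c0 c1 c2 : R4 k) : ev3 c0 c1 c2 (X 1) = c1 := by simp [ev3]
@[simp] lemma ev3_X2 (c0 c1 c2 : R4 k) : ev3 c0 c1 c2 (X 2) = c2 := by simp [ev3]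
@[simp] lemma ev3_C (c0 c1 c2 : R4 k) (a : k) : ev3 c0 c1 c2 (C a) = C a := by
  simp [ev3, algebraMap_eq]

lemma Coord.prim {c0 c1 c2 c3 : R4 k} (h : Coord c0 c1 c2 c3) (q : Ideal (R2 k)) (N : ℕ)
    (hN : (Ideal.span {X 0, X 1} : Ideal (R2 k)) ^ N ≤ q) :
    Prim (q.map (ev2 c0 c1)) (Ideal.span {c0, c1}) := by
  have h1 := prim_polyOver h.polyOver (prim_polyOver coord3 (prim_two q N hN))
  rw [Ideal.map_map, Ideal.map_map] at h1
  have e : (aeval ![c0, c1, c2] : R3 k →ₐ[k] R4 k).toRingHom.comp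
      (aeval ![X 0, X 1] : R2 k →ₐ[k] R3 k).toRingHom = ev2 c0 c1 := by
    apply MvPolynomial.ringHom_ext
    · intro r; simp [ev2]
    · intro i; fin_cases i <;> simp [ev2]
  rw [e, Ideal.map_span, Set.image_pair, ev2_X0, ev2_X1] at h1
  exact h1

lemma Coord.reg {c0 c1 c2 c3 : R4 k} (h : Coord c0 c1 c2 c3) (q : Ideal (R3 k)) (c a : R3 k)
    (hc : IsUnit c) : Reg (q.map (ev3 c0 c1 c2)) (ev3 c0 c1 c2 c * c3 + ev3 c0 c1 c2 a) :=
  reg_polyOver h.polyOver q c a hc

variable (s : k)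

lemma coordA : Coord (X 0 : R4 k) (X 1 + C s * X 2) (X 3) (X 2) := by
  refine bij_of_inv _ (aeval (![X 1, X 2 - C s * X 0, X 0, X 3] : Fin 4 → R4 k)) ?_ ?_ <;>
  · apply MvPolynomial.algHom_ext
    intro i
    fin_cases i <;> simp [algebraMap_eq]

lemma coordB : Coord (X 0 : R4 k) (X 1 + C s * X 2) (X 3 + X 2) (X 2) := by
  refine bij_of_inv _ (aeval (![X 1, X 2 - C s * X 0, X 0, X 3 - X 0] : Fin 4 → R4 k)) ?_ ?_ <;>
  · apply MvPolynomial.algHom_ext
    intro i
    fin_cases i <;> simp [algebraMap_eq]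

lemma coordC : Coord (X 1 : R4 k) (X 2) (X 3) (X 0) := by
  refine bij_of_inv _ (aeval (![X 0, X 1, X 2, X 3] : Fin 4 → R4 k)) ?_ ?_ <;>
  · apply MvPolynomial.algHom_ext
    intro i
    fin_cases i <;> simp

lemma coordD : Coord (X 0 : R4 k) (X 3) (X 2) (X 1) := by
  refine bij_of_inv _ (aeval (![X 1, X 0, X 3, X 2] : Fin 4 → R4 k)) ?_ ?_ <;>
  · apply MvPolynomial.algHom_ext
    intro i
    fin_cases i <;> simp

lemma coordE : Coord (X 0 : R4 k) (X 1) (X 2) (X 3) := by
  refine bij_of_inv _ (aeval (![X 1, X 2, X 3, X 0] : Fin 4 → R4 k)) ?_ ?_ <;>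
  · apply MvPolynomial.algHom_ext
    intro i
    fin_cases i <;> simp

end
end H379R3.Sym
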