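import Mathlib
import Pool.Agent.H379R3.SymB

set_option autoImplicit false

namespace H379R3.Sym

open MvPolynomial

section ring
variable {A : Type*} [CommRing A]

lemma mono_mem (y w : A) (n : ℕ) : ∀ i j, 4 * n + 2 ≤ i + j →
    y ^ i * w ^ j ∈ (Ideal.span {y ^ 3 - y * w ^ 2, w ^ 4}) ^ n := by
  induction n with
  | zero => intro i j _; rw [pow_zero, Ideal.one_eq_top]; trivial
  | succ n ih =>
    intro i
    induction i using Nat.strong_induction_on with
    | _ i hi =>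
      intro j hij
      rcases le_or_gt i 2 with h | h
      · obtain ⟨e, he⟩ : ∃ e, j = 4 * (n + 1) + e := ⟨j - 4 * (n + 1), by omega⟩
        rw [he, pow_add w, pow_mul w, ← mul_assoc]
        refine Ideal.mul_mem_right _ _ (Ideal.mul_mem_left _ _ ?_)
        exact Ideal.pow_mem_pow (Ideal.subset_span (by simp)) _
      · obtain ⟨e, rfl⟩ : ∃ e, i = e + 3 := ⟨i - 3, by omega⟩
        have e1 : y ^ (e + 3) * w ^ j =
            (y ^ 3 - y * w ^ 2) * (y ^ e * w ^ j) + y ^ (e + 1) * w ^ (j + 2) := by ring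
        rw [e1]
        refine add_mem ?_ (hi (e + 1) (by omega) (j + 2) (by omega))
        rw [pow_succ']
        exact Ideal.mul_mem_mul (Ideal.subset_span (by simp)) (ih _ _ (by omega))

lemma odd_mem (y w : A) (t : ℕ) :
    y ^ (4 * t + 1) ∈ (Ideal.span {y ^ 3 - y * w ^ 2, w ^ 4}) ^ t := by
  -- first the formal identity
  have key : ∀ m : ℕ, ∃ h ∈ (Ideal.span {y, w}) ^ (2 * m), y ^ (2 * m + 3) =
      y * w ^ (2 * m + 2) + (y ^ 3 - y * w ^ 2) * h := by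
    intro m
    induction m with
    | zero => exact ⟨1, by simp, by ring⟩
    | succ m ih =>
      obtain ⟨h, hh, he⟩ := ih
      refine ⟨w ^ (2 * m + 2) + y ^ 2 * h, add_mem ?_ ?_, ?_⟩
      · have := pair_pow_mem (a := y) (b := w) (N := 2 * (m + 1)) (i := 0) (j := 2 * m + 2) (by omega)
        simpa using this
      · have e : 2 * (m + 1) = 2 + 2 * m := by ring
        rw [e, pow_add]
        refine Ideal.mul_mem_mul (Ideal.pow_mem_pow (Ideal.subset_span (by simp)) _) hh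
      · have : y ^ (2 * (m + 1) + 3) = y ^ 2 * y ^ (2 * m + 3) := by ring
        rw [this, he]; ring
  rcases t with _ | t
  · rw [pow_zero, Ideal.one_eq_top]; trivial
  · obtain ⟨h, hh, he⟩ := key (2 * t + 1)
    have e1 : 4 * (t + 1) + 1 = 2 * (2 * t + 1) + 3 := by ring
    rw [e1, he]
    refine add_mem ?_ ?_
    · have e2 : y * w ^ (2 * (2 * t + 1) + 2) = y * (w ^ 4) ^ (t + 1) := by
        rw [← pow_mul]; ring_nf
      rw [e2]
      exact Ideal.mul_mem_left _ _ (Ideal.pow_mem_pow (Ideal.subset_span (by simp)) _)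
    · rw [pow_succ']
      refine Ideal.mul_mem_mul (Ideal.subset_span (by simp)) ?_
      have e3 : 2 * (2 * t + 1) = 4 * t + 2 := by ring
      rw [e3] at hh
      exact pair_pow_le (fun i j hij => mono_mem y w t i j hij.ge) hh

end ring

section
variable {k : Type*} [Field k] (s : k)

/-- `x` , `y`, `w`, `u` are the four variables; `G = y + s w`. -/
noncomputable def G : R4 k := X 1 + C s * X 2
noncomputable def Pa : Ideal (R4 k) := Ideal.span {X 0, G s}
noncomputable def J (k : Type*) [Field k] : Ideal (R4 k) :=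
  Ideal.span {X 1 ^ 3 - X 1 * X 2 ^ 2, X 2 ^ 4}
noncomputable def Pyw (k : Type*) [Field k] : Ideal (R4 k) := Ideal.span {X 1, X 2}
noncomputable def Pb (k : Type*) [Field k] : Ideal (R4 k) := Ideal.span {X 0, X 3}
noncomputable def J2 (k : Type*) [Field k] : Ideal (R2 k) :=
  Ideal.span {X 0 ^ 3 - X 0 * X 1 ^ 2, X 1 ^ 4}

lemma J_eq (n : ℕ) : J k ^ n = (J2 k ^ n).map (ev2 (X 1) (X 2)) := by
  rw [Ideal.map_pow, J2, Ideal.map_span, Set.image_pair]
  simp [J]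

lemma primA (n : ℕ) : Prim (Pa s ^ n) (Pa s) := by
  have := (coordA s).prim ((Ideal.span {X 0, X 1} : Ideal (R2 k)) ^ n) n le_rfl
  rw [Ideal.map_pow, Ideal.map_span, Set.image_pair, ev2_X0, ev2_X1] at this
  exact this

lemma primB (n : ℕ) : Prim (Pb k ^ n) (Pb k) := by
  have := coordD.prim ((Ideal.span {X 0, X 1} : Ideal (R2 k)) ^ n) n le_rfl
  rw [Ideal.map_pow, Ideal.map_span, Set.image_pair, ev2_X0, ev2_X1] at this
  exact this

lemma primJ (n : ℕ) : Prim (J k ^ n) (Pyw k) := by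
  rw [J_eq]
  refine coordC.prim _ (4 * n + 2) ?_
  exact pair_pow_le (fun i j hij => mono_mem _ _ n i j hij.ge)

lemma regE (m n : ℕ) : Reg (Pa s ^ m ⊔ J k ^ n) (X 3 + X 2 : R4 k) := by
  have := coordE.reg ((Ideal.span {X 0, X 1 + C s * X 2} : Ideal (R3 k)) ^ m ⊔
    (Ideal.span {X 1 ^ 3 - X 1 * X 2 ^ 2, X 2 ^ 4} : Ideal (R3 k)) ^ n) 1 (X 2) isUnit_one
  rw [Ideal.map_sup, Ideal.map_pow, Ideal.map_pow, Ideal.map_span, Ideal.map_span,
    Set.image_pair, Set.image_pair] at this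
  simpa [Pa, J, G] using this

lemma regA (m n : ℕ) : Reg (Pa s ^ m ⊔ Pb k ^ n) (X 3 + X 2 : R4 k) := by
  have := (coordA s).reg ((Ideal.span {X 0, X 1} : Ideal (R3 k)) ^ m ⊔
    (Ideal.span {X 0, X 2} : Ideal (R3 k)) ^ n) 1 (X 2) isUnit_one
  rw [Ideal.map_sup, Ideal.map_pow, Ideal.map_pow, Ideal.map_span, Ideal.map_span,
    Set.image_pair, Set.image_pair] at this
  rw [add_comm]
  simpa [Pa, Pb, G] using this

lemma regB (hs : s ≠ 0) (n : ℕ) : Reg (Pa s ^ n ⊔ Ideal.span {X 3 + X 2}) (X 0 + X 1 : R4 k) := by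
  have := (coordB s).reg ((Ideal.span {X 0, X 1} : Ideal (R3 k)) ^ n ⊔
    (Ideal.span {X 2} : Ideal (R3 k))) (-C s) (X 0 + X 1) ((IsUnit.mk0 s hs).map C).neg
  rw [Ideal.map_sup, Ideal.map_pow, Ideal.map_span, Ideal.map_span,
    Set.image_pair, Set.image_singleton] at this
  have e : ev3 (X 0) (X 1 + C s * X 2) (X 3 + X 2) (-C s : R3 k) * X 2 +
      ev3 (X 0) (X 1 + C s * X 2) (X 3 + X 2) (X 0 + X 1 : R3 k) = (X 0 + X 1 : R4 k) := by
    simp only [map_neg, map_add, ev3_C, ev3_X0, ev3_X1]; ring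
  rw [e] at this
  simpa [Pa, G] using this

lemma regC (n : ℕ) : Reg (J k ^ n ⊔ Ideal.span {X 3 + X 2}) (X 0 + X 1 : R4 k) := by
  have := coordC.reg ((Ideal.span {X 0 ^ 3 - X 0 * X 1 ^ 2, X 1 ^ 4} : Ideal (R3 k)) ^ n ⊔
    (Ideal.span {X 2 + X 1} : Ideal (R3 k))) 1 (X 0) isUnit_one
  rw [Ideal.map_sup, Ideal.map_pow, Ideal.map_span, Ideal.map_span,
    Set.image_pair, Set.image_singleton] at this
  simpa [J] using this

lemma regD (n : ℕ) : Reg (Pb k ^ n ⊔ Ideal.span {X 3 + X 2}) (X 0 + X 1 : R4 k) := by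
  have := coordD.reg ((Ideal.span {X 0, X 1} : Ideal (R3 k)) ^ n ⊔
    (Ideal.span {X 1 + X 2} : Ideal (R3 k))) 1 (X 0) isUnit_one
  rw [Ideal.map_sup, Ideal.map_pow, Ideal.map_span, Ideal.map_span,
    Set.image_pair, Set.image_singleton] at this
  rw [add_comm (X 0 : R4 k)]
  simpa [Pb] using this

/-- evaluation of polynomials at a point of `k^4`. -/
lemma not_mem_span_pair {a b r : R4 k} (p : Fin 4 → k) (ha : eval p a = 0) (hb : eval p b = 0)
    (hr : eval p r ≠ 0) : r ∉ Ideal.span {a, b} := by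
  intro h
  apply hr
  obtain ⟨c, d, rfl⟩ := Ideal.mem_span_pair.1 h
  simp [ha, hb]

lemma w_not_Pa : (X 2 : R4 k) ∉ Pa s := by
  apply not_mem_span_pair ![0, -s, 1, 0] <;> simp [G]
lemma u_not_Pa : (X 3 : R4 k) ∉ Pa s := by
  apply not_mem_span_pair ![0, 0, 0, 1] <;> simp [G]
lemma uw_not_Pa : (X 3 + X 2 : R4 k) ∉ Pa s := by
  apply not_mem_span_pair ![0, 0, 0, 1] <;> simp [G]
lemma uw_not_Pyw : (X 3 + X 2 : R4 k) ∉ Pyw k := by
  apply not_mem_span_pair ![0, 0, 0, 1] <;> simp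
lemma u_not_Pyw : (X 3 : R4 k) ∉ Pyw k := by
  apply not_mem_span_pair ![0, 0, 0, 1] <;> simp
lemma x_not_Pyw : (X 0 : R4 k) ∉ Pyw k := by
  apply not_mem_span_pair ![1, 0, 0, 0] <;> simp
lemma uw_not_Pb : (X 3 + X 2 : R4 k) ∉ Pb k := by
  apply not_mem_span_pair ![0, 0, 1, 0] <;> simp
lemma w_not_Pb : (X 2 : R4 k) ∉ Pb k := by
  apply not_mem_span_pair ![0, 0, 1, 0] <;> simp
lemma G_not_Pb : (G s : R4 k) ∉ Pb k := by
  apply not_mem_span_pair ![0, 1, 0, 0] <;> simp [G]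

lemma lemE {t : ℕ} (h : G s ^ (4 * t + 1) ∈ J k ^ t) :
    (Pa s ^ (5 * t) ⊓ J k ^ t) ⊔ Pb k ^ t = Pa s ^ (5 * t) ⊔ Pb k ^ t := by
  apply le_antisymm (sup_le_sup_right inf_le_left _)
  refine sup_le ?_ le_sup_right
  refine pair_pow_le (fun i j hij => ?_)
  rcases le_or_gt t i with hi | hi
  · apply Ideal.mem_sup_right
    apply Ideal.mul_mem_right
    exact Ideal.pow_le_pow_right hi (Ideal.pow_mem_pow (Ideal.subset_span (by simp)) _)
  · apply Ideal.mem_sup_left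
    refine ⟨pair_pow_mem hij.ge, ?_⟩
    obtain ⟨e, he⟩ : ∃ e, j = 4 * t + 1 + e := ⟨j - (4 * t + 1), by omega⟩
    rw [he, pow_add]
    exact Ideal.mul_mem_left _ _ (Ideal.mul_mem_right _ _ h)

/-- The symbolic powers. -/
noncomputable def Qs (t : ℕ) : Ideal (R4 k) := (Pa s ^ (5 * t) ⊓ J k ^ t) ⊓ Pb k ^ t

lemma deep (hs : s ≠ 0) {t : ℕ} (h : G s ^ (4 * t + 1) ∈ J k ^ t) :
    Reg (Qs s t) (X 3 + X 2 : R4 k) ∧
      Reg (Qs s t ⊔ Ideal.span {X 3 + X 2}) (X 0 + X 1 : R4 k) := by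
  have h1 := glue (primA s (5 * t) _ (uw_not_Pa s)) (primJ (k := k) t _ uw_not_Pyw)
    (regB s hs (5 * t)) (regC t) (regE s (5 * t) t)
  refine glue h1.1 (primB (k := k) t _ uw_not_Pb) h1.2 (regD t) ?_
  rw [lemE s h]
  exact regA s (5 * t) t

end
end H379R3.Sym
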