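import Mathlib
import Pool.Agent.H379R3.SymC

set_option autoImplicit false

namespace H379R3.Sym

open MvPolynomial

section
variable {k : Type*} [Field k] (s : k)

/-- elements with zero constant coefficient, tested on the variables -/
lemma mem_of_const {n : ℕ} {V : Ideal (MvPolynomial (Fin n) k)} (hV : ∀ i, X i ∈ V)
    {r : MvPolynomial (Fin n) k} (hr : constantCoeff r = 0) : r ∈ V := by
  have h := sub_C_mem r
  rw [hr, map_zero, sub_zero] at h
  refine (Ideal.span_le.2 ?_ : Ideal.span (Set.range X) ≤ V) h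
  rintro _ ⟨i, rfl⟩
  exact hV i

lemma Pa_prime : (Pa s).IsPrime := by
  refine prim_prime ?_ ?_
  · have := primA s 1
    rwa [pow_one] at this
  · intro h
    have := u_not_Pa s
    rw [h] at this; exact this trivial

lemma Pyw_prime : (Pyw k).IsPrime := by
  refine prim_prime ?_ ?_
  · have := (coordC (k := k)).prim (Ideal.span {X 0, X 1} : Ideal (R2 k)) 1 (by rw [pow_one])
    rw [Ideal.map_span, Set.image_pair, ev2_X0, ev2_X1] at this
    exact this
  · intro h
    have := u_not_Pyw (k := k)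
    rw [h] at this; exact this trivial

lemma Pb_prime : (Pb k).IsPrime := by
  refine prim_prime ?_ ?_
  · have := primB (k := k) 1
    rwa [pow_one] at this
  · intro h
    have := w_not_Pb (k := k)
    rw [h] at this; exact this trivial

/-- the retraction used to detect non-membership -/
noncomputable def psi : R4 k →ₐ[k] Polynomial (R2 k) :=
  aeval ![Polynomial.X, Polynomial.C (X 0), Polynomial.C (X 1), 0]

lemma psi_X0 : (psi (X 0) : Polynomial (R2 k)) = Polynomial.X := by simp [psi]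
lemma psi_X1 : (psi (X 1) : Polynomial (R2 k)) = Polynomial.C (X 0) := by simp [psi]
lemma psi_X2 : (psi (X 2) : Polynomial (R2 k)) = Polynomial.C (X 1) := by simp [psi]
lemma psi_X3 : (psi (X 3) : Polynomial (R2 k)) = 0 := by simp [psi]

lemma psi_ev2 (h : R2 k) : psi (ev2 (X 1) (X 2) h) = Polynomial.C h := by
  induction h using MvPolynomial.induction_on with
  | C a =>
    rw [ev2_C, psi, MvPolynomial.aeval_C]
    rfl
  | add p q hp hq => rw [map_add, map_add, map_add, hp, hq]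
  | mul_X p i hp =>
    have hi : psi (ev2 (X 1) (X 2) (X i : R2 k)) = Polynomial.C (X i) := by
      revert i
      rw [Fin.forall_fin_two]
      exact ⟨by rw [ev2_X0, psi_X1], by rw [ev2_X1, psi_X2]⟩
    rw [map_mul, map_mul, hp, map_mul, hi]

lemma not_mem_sup {t : ℕ} {h : R2 k} (hh : h ∉ J2 k ^ (t + 1)) :
    X 0 ^ t * ev2 (X 1) (X 2) h ∉ J k ^ (t + 1) ⊔ Pb k ^ (t + 1) := by
  intro hmem
  apply hh
  have h1 : psi (X 0 ^ t * ev2 (X 1) (X 2) h) ∈
      (J2 k ^ (t + 1)).map (Polynomial.C : R2 k →+* _) ⊔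
        Ideal.span {(Polynomial.X : Polynomial (R2 k)) ^ (t + 1)} := by
    have h2 : (J k ^ (t + 1) ⊔ Pb k ^ (t + 1)).map (psi : R4 k →ₐ[k] _).toRingHom ≤
        (J2 k ^ (t + 1)).map (Polynomial.C : R2 k →+* _) ⊔
        Ideal.span {(Polynomial.X : Polynomial (R2 k)) ^ (t + 1)} := by
      rw [Ideal.map_sup]
      apply sup_le_sup
      · rw [J_eq, Ideal.map_map]
        have : ((psi : R4 k →ₐ[k] _).toRingHom.comp (ev2 (X 1) (X 2))) =
            (Polynomial.C : R2 k →+* _) := RingHom.ext psi_ev2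
        rw [this]
      · rw [Ideal.map_pow, Pb, Ideal.map_span, Set.image_pair]
        have e1 : (psi : R4 k →ₐ[k] _).toRingHom (X 0) = Polynomial.X := by
          exact psi_X0
        have e2 : (psi : R4 k →ₐ[k] _).toRingHom (X 3) = 0 := by
          exact psi_X3
        rw [e1, e2, ← Ideal.span_singleton_pow]
        apply Ideal.pow_right_mono
        rw [Ideal.span_le]
        rintro z (rfl | rfl)
        · exact Ideal.mem_span_singleton_self _
        · exact Ideal.zero_mem _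
    exact h2 (Ideal.mem_map_of_mem _ hmem)
  rw [map_mul, map_pow, psi_ev2] at h1
  rw [psi_X0] at h1
  obtain ⟨a, ha, b, hb, hab⟩ := Submodule.mem_sup.1 h1
  obtain ⟨c, rfl⟩ := Ideal.mem_span_singleton'.1 hb
  have h3 := congrArg (fun p => Polynomial.coeff p t) hab
  simp only [Polynomial.coeff_add] at h3
  rw [Polynomial.coeff_mul_X_pow', if_neg (by omega), add_zero, Polynomial.coeff_mul_C,
    Polynomial.coeff_X_pow_self, one_mul] at h3
  rw [← h3]
  exact Ideal.mem_map_C_iff.1 ha t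

/-- the socle element -/
lemma exists_socle {t : ℕ} (h : (X 0 + C s * X 1 : R2 k) ^ (4 * (t + 1) + 1) ∉ J2 k ^ (t + 1)) :
    ∃ b : R2 k, (X 0 + C s * X 1) ^ (4 * (t + 1) + 1) * b ∉ J2 k ^ (t + 1) ∧
      X 0 * ((X 0 + C s * X 1) ^ (4 * (t + 1) + 1) * b) ∈ J2 k ^ (t + 1) ∧
      X 1 * ((X 0 + C s * X 1) ^ (4 * (t + 1) + 1) * b) ∈ J2 k ^ (t + 1) := by
  classical
  set g : R2 k := (X 0 + C s * X 1) ^ (4 * (t + 1) + 1) with hg
  have hex : ∃ n, ∀ b ∈ (Ideal.span {X 0, X 1} : Ideal (R2 k)) ^ n, g * b ∈ J2 k ^ (t + 1) :=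
    ⟨4 * (t + 1) + 2, fun b hb => Ideal.mul_mem_left _ _
      (pair_pow_le (fun i j hij => mono_mem _ _ (t + 1) i j hij.ge) hb)⟩
  have hn := Nat.find_spec hex
  have hmin := fun m => Nat.find_min hex (m := m)
  set n := Nat.find hex with hndef
  rcases hn0 : n with _ | m
  · exfalso
    apply h
    have := hn 1 (by rw [hn0, pow_zero, Ideal.one_eq_top]; trivial)
    rwa [mul_one] at this
  · have h1 := hmin m (by omega)
    push Not at h1
    obtain ⟨b, hb, hgb⟩ := h1
    refine ⟨b, hgb, ?_, ?_⟩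
    · have := hn (X 0 * b) (by
        rw [hn0, pow_succ']
        exact Ideal.mul_mem_mul (Ideal.subset_span (by simp)) hb)
      convert this using 1; ring
    · have := hn (X 1 * b) (by
        rw [hn0, pow_succ']
        exact Ideal.mul_mem_mul (Ideal.subset_span (by simp)) hb)
      convert this using 1; ring

lemma ev2_G : ev2 (X 1) (X 2) (X 0 + C s * X 1 : R2 k) = G s := by
  simp [G]

/-- If `G^(4t+1) ∉ J^t` there is no regular sequence of length two. -/
lemma shallow {t : ℕ} (h : (X 0 + C s * X 1 : R2 k) ^ (4 * (t + 1) + 1) ∉ J2 k ^ (t + 1))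
    {r1 r2 : R4 k} (hr1 : constantCoeff r1 = 0) (hr2 : constantCoeff r2 = 0)
    (h1 : Reg (Qs s (t + 1)) r1) (h2 : Reg (Qs s (t + 1) ⊔ Ideal.span {r1}) r2) : False := by
  obtain ⟨b, hb0, hb1, hb2⟩ := exists_socle s h
  set g2 : R2 k := (X 0 + C s * X 1) ^ (4 * (t + 1) + 1) * b with hg2
  set η : R4 k := X 0 ^ t * ev2 (X 1) (X 2) g2 with hη
  set Qa : Ideal (R4 k) := Pa s ^ (5 * (t + 1)) ⊓ J k ^ (t + 1) with hQa
  have hηPa : η ∈ Pa s ^ (5 * (t + 1)) := by
    rw [hη, hg2, map_mul, map_pow, ev2_G, ← mul_assoc]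
    exact Ideal.mul_mem_right _ _ (pair_pow_mem (by omega))
  have hV : ∀ r : R4 k, constantCoeff r = 0 → r * η ∈ Qa ⊔ Pb k ^ (t + 1) := by
    intro r hr
    have : r ∈ Submodule.comap (LinearMap.toSpanSingleton (R4 k) (R4 k) η)
        (Qa ⊔ Pb k ^ (t + 1)) := by
      refine mem_of_const (fun i => ?_) hr
      change X i * η ∈ Qa ⊔ Pb k ^ (t + 1)
      fin_cases i
      · apply Ideal.mem_sup_right
        have : (X 0 : R4 k) * η = X 0 ^ (t + 1) * ev2 (X 1) (X 2) g2 := by rw [hη]; ring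
        change (X 0 : R4 k) * η ∈ _
        rw [this]
        exact Ideal.mul_mem_right _ _ (Ideal.pow_mem_pow (Ideal.subset_span (by simp)) _)
      · apply Ideal.mem_sup_left
        refine ⟨Ideal.mul_mem_left _ _ hηPa, ?_⟩
        have : (X 1 : R4 k) * η = X 0 ^ t * ev2 (X 1) (X 2) (X 0 * g2) := by
          rw [hη, map_mul (ev2 (X 1) (X 2)) (X 0) g2, ev2_X0]; ring
        change (X 1 : R4 k) * η ∈ _
        rw [this, J_eq]
        exact Ideal.mul_mem_left _ _ (Ideal.mem_map_of_mem _ hb1)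
      · apply Ideal.mem_sup_left
        refine ⟨Ideal.mul_mem_left _ _ hηPa, ?_⟩
        have : (X 2 : R4 k) * η = X 0 ^ t * ev2 (X 1) (X 2) (X 1 * g2) := by
          rw [hη, map_mul (ev2 (X 1) (X 2)) (X 1) g2, ev2_X1]; ring
        change (X 2 : R4 k) * η ∈ _
        rw [this, J_eq]
        exact Ideal.mul_mem_left _ _ (Ideal.mem_map_of_mem _ hb2)
      · apply Ideal.mem_sup_right
        have : (X 3 : R4 k) * η = (X 3 * X 0 ^ t) * ev2 (X 1) (X 2) g2 := by rw [hη]; ring
        change (X 3 : R4 k) * η ∈ _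
        rw [this]
        refine Ideal.mul_mem_right _ _ ?_
        rw [pow_succ']
        exact Ideal.mul_mem_mul (Ideal.subset_span (by simp))
          (Ideal.pow_mem_pow (Ideal.subset_span (by simp)) _)
    exact this
  have hnot : η ∉ Qa ⊔ Pb k ^ (t + 1) := fun hm =>
    not_mem_sup hb0 ((sup_le_sup_right inf_le_right _ : Qa ⊔ Pb k ^ (t + 1) ≤ _) hm)
  apply hnot
  obtain ⟨a1, ha1, b1, hb1', he1⟩ := Submodule.mem_sup.1 (hV r1 hr1)
  obtain ⟨a2, ha2, b2, hb2', he2⟩ := Submodule.mem_sup.1 (hV r2 hr2)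
  have h3 : r2 * a1 ∈ Qs s (t + 1) ⊔ Ideal.span {r1} := by
    have e : r2 * a1 = (r2 * a1 - r1 * a2) + a2 * r1 := by ring
    rw [e]
    refine add_mem (Ideal.mem_sup_left ⟨?_, ?_⟩)
      (Ideal.mem_sup_right (Ideal.mem_span_singleton'.2 ⟨_, rfl⟩))
    · exact sub_mem (Ideal.mul_mem_left _ _ ha1) (Ideal.mul_mem_left _ _ ha2)
    · have e2 : r2 * a1 - r1 * a2 = r1 * b2 - r2 * b1 := by
        linear_combination r2 * he1 - r1 * he2
      rw [e2]
      exact sub_mem (Ideal.mul_mem_left _ _ hb2') (Ideal.mul_mem_left _ _ hb1')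
  obtain ⟨d, hd, c', hc', hdc⟩ := Submodule.mem_sup.1 (h2 _ h3)
  obtain ⟨c, rfl⟩ := Ideal.mem_span_singleton'.1 hc'
  -- `r1` is regular modulo `Qa` and modulo `Pb^(t+1)`
  have hPaP := Pa_prime s
  have hPywP := Pyw_prime (k := k)
  have hPbP := Pb_prime (k := k)
  have hra : ∀ z, r1 * z ∈ Qa → z ∈ Qa := by
    intro z hz
    have h4 : r1 * (X 3 ^ (t + 1) * z) ∈ Qs s (t + 1) := by
      have e : r1 * (X 3 ^ (t + 1) * z) = X 3 ^ (t + 1) * (r1 * z) := by ring
      rw [e]
      exact ⟨Ideal.mul_mem_left _ _ hz, Ideal.mul_mem_right _ _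
        (Ideal.pow_mem_pow (Ideal.subset_span (by simp)) _)⟩
    have h5 := (h1 _ h4).1
    exact ⟨primA s _ _ (fun hm => u_not_Pa s (hPaP.mem_of_pow_mem _ hm)) z h5.1,
      primJ _ _ (fun hm => u_not_Pyw (hPywP.mem_of_pow_mem _ hm)) z h5.2⟩
  have hrb : ∀ z, r1 * z ∈ Pb k ^ (t + 1) → z ∈ Pb k ^ (t + 1) := by
    intro z hz
    have h4 : r1 * ((G s ^ (5 * (t + 1)) * (X 2 ^ 4) ^ (t + 1)) * z) ∈ Qs s (t + 1) := by
      have e : r1 * ((G s ^ (5 * (t + 1)) * (X 2 ^ 4) ^ (t + 1)) * z) =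
        (G s ^ (5 * (t + 1)) * (X 2 ^ 4) ^ (t + 1)) * (r1 * z) := by ring
      refine ⟨⟨?_, ?_⟩, ?_⟩
      · rw [e]
        exact Ideal.mul_mem_right _ _ (Ideal.mul_mem_right _ _
          (Ideal.pow_mem_pow (Ideal.subset_span (by simp)) _))
      · rw [e]
        exact Ideal.mul_mem_right _ _ (Ideal.mul_mem_left _ _
          (Ideal.pow_mem_pow (Ideal.subset_span (by simp)) _))
      · rw [e]
        exact Ideal.mul_mem_left _ _ hz
    refine primB _ _ (fun hm => ?_) z (h1 _ h4).2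
    rcases hPbP.mem_or_mem hm with hm | hm
    · exact G_not_Pb s (hPbP.mem_of_pow_mem _ hm)
    · exact w_not_Pb (hPbP.mem_of_pow_mem _ (hPbP.mem_of_pow_mem _ hm))
  have hc : c ∈ Qa := by
    apply hra
    have e : r1 * c = a1 - d := by linear_combination hdc
    rw [e]
    exact sub_mem ha1 hd.1
  have hηc : η - c ∈ Pb k ^ (t + 1) := by
    apply hrb
    have e : r1 * (η - c) = b1 + d := by linear_combination -he1 - hdc
    rw [e]
    exact add_mem hb1' hd.2
  have : η = c + (η - c) := by ring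
  rw [this]
  exact add_mem (Ideal.mem_sup_left hc) (Ideal.mem_sup_right hηc)

end
end H379R3.Sym
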