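import Mathlib
import Pool.Agent.H379R3.SymD

set_option autoImplicit false

namespace H379R3.Sym

section trans

open Polynomial in
lemma poly_ne {c l : ℕ} (hc : 0 < c) (hcl : c < 9 ^ l) :
    (X ^ (9 ^ l + c) + (X + 1) ^ (9 ^ l + c) + (X + 2) ^ (9 ^ l + c) : (ZMod 3)[X]) ≠ 0 := by
  have h6 : (1 + 2 : ZMod 3) = 0 := by decide
  have h7 : (1 + 1 : ZMod 3) ≠ 0 := by decide
  have : Fact (Nat.Prime 3) := ⟨by norm_num⟩
  have h9 : (9 : ℕ) ^ l = 3 ^ (2 * l) := by rw [pow_mul]; norm_num
  have h1 : (X + 1 : (ZMod 3)[X]) ^ (9 ^ l) = X ^ (9 ^ l) + 1 := by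
    rw [h9, add_pow_char_pow, one_pow]
  have h2 : (X + 2 : (ZMod 3)[X]) ^ (9 ^ l) = X ^ (9 ^ l) + 2 := by
    rw [h9, add_pow_char_pow]
    congr 1
    have : (2 : (ZMod 3)[X]) = C 2 := (map_ofNat C 2).symm
    rw [this, ← map_pow]
    congr 1
    exact ZMod.pow_card_pow 2
  intro h
  have e : (X ^ (9 ^ l + c) + (X + 1) ^ (9 ^ l + c) + (X + 2) ^ (9 ^ l + c) : (ZMod 3)[X]) =
      (X ^ c + (X + 1) ^ c + (X + 2) ^ c) * X ^ (9 ^ l) + ((X + 1) ^ c + 2 * (X + 2) ^ c) := by
    rw [pow_add, pow_add, pow_add, h1, h2]; ring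
  rw [e] at h
  have hdeg : ((X + 1) ^ c + 2 * (X + 2) ^ c : (ZMod 3)[X]).natDegree ≤ c := by
    refine (natDegree_add_le _ _).trans (max_le ?_ ?_)
    · refine (natDegree_pow_le).trans ?_
      have : (X + 1 : (ZMod 3)[X]).natDegree ≤ 1 := by
        have : (X + 1 : (ZMod 3)[X]) = X + C 1 := by simp
        rw [this, natDegree_X_add_C]
      nlinarith
    · have h22 : (2 : (ZMod 3)[X]) = C 2 := (map_ofNat C 2).symm
      refine (natDegree_mul_le).trans ?_
      have h3 : ((2 : (ZMod 3)[X])).natDegree = 0 := by rw [h22, natDegree_C]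
      rw [h3, zero_add]
      refine (natDegree_pow_le).trans ?_
      have : (X + 2 : (ZMod 3)[X]).natDegree ≤ 1 := by
        rw [h22, natDegree_X_add_C]
      nlinarith
  have hzero : ((X + 1) ^ c + 2 * (X + 2) ^ c : (ZMod 3)[X]) = 0 := by
    ext j
    rcases lt_or_ge j (9 ^ l) with hj | hj
    · have := congrArg (fun p => coeff p j) h
      simp only [coeff_add, coeff_zero] at this
      rw [coeff_mul_X_pow', if_neg (by omega), zero_add] at this
      rw [coeff_add, coeff_zero]
      exact this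
    · rw [coeff_eq_zero_of_natDegree_lt (by omega), coeff_zero]
  have h5 := congrArg (eval (1 : ZMod 3)) hzero
  simp only [eval_add, eval_mul, eval_pow, eval_X, eval_one, eval_ofNat, eval_zero] at h5
  rw [h6, zero_pow hc.ne', mul_zero, add_zero] at h5
  exact h7 (pow_eq_zero_iff hc.ne' |>.1 h5)


end trans

section
open MvPolynomial
variable {k : Type*} [Field k] (s : k)

lemma G_mem [CharP k 3] (l t : ℕ) (h : 4 * t + 1 = 9 ^ l) : G s ^ (4 * t + 1) ∈ J k ^ t := by
  have h9 : (9 : ℕ) ^ l = 3 ^ (2 * l) := by rw [pow_mul]; norm_num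
  have : Fact (Nat.Prime 3) := ⟨by norm_num⟩
  have e : G s ^ (4 * t + 1) = X 1 ^ (4 * t + 1) + C s ^ (4 * t + 1) * X 2 * (X 2 ^ 4) ^ t := by
    rw [h, h9, G, add_pow_char_pow, mul_pow, ← h9, ← h, pow_succ (X 2) (4 * t), pow_mul (X 2) 4 t]
    ring
  rw [e]
  exact add_mem (odd_mem _ _ t)
    (Ideal.mul_mem_left _ _ (Ideal.pow_mem_pow (Ideal.subset_span (by simp)) _))

/-- evaluation on the line through the point `(i, 1)` -/
noncomputable def evl (i : k) : R2 k →ₐ[k] Polynomial k :=
  aeval ![Polynomial.C i * Polynomial.X, Polynomial.X]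

lemma evl_sum [CharP k 3] (b : R2 k) :
    (evl 0 b).coeff 1 + (evl 1 b).coeff 1 + (evl (2 : k) b).coeff 1 = 0 := by
  have h3 : (3 : k) = 0 := by
    have := CharP.cast_eq_zero k 3
    simpa using this
  induction b using MvPolynomial.induction_on' with
  | monomial m c =>
    have key : ∀ i : k, evl i (monomial m c) =
        Polynomial.C (c * i ^ (m 0)) * Polynomial.X ^ (m 0 + m 1) := by
      intro i
      rw [evl, aeval_monomial, Finsupp.prod_fintype _ _ (fun _ => pow_zero _), Fin.prod_univ_two]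
      simp only [Matrix.cons_val_zero, Matrix.cons_val_one, Polynomial.algebraMap_apply,
        Algebra.algebraMap_self, RingHom.id_apply, map_mul, map_pow]
      ring
    rw [key, key, key, Polynomial.coeff_C_mul_X_pow, Polynomial.coeff_C_mul_X_pow,
      Polynomial.coeff_C_mul_X_pow]
    by_cases h : 1 = m 0 + m 1
    · simp only [if_pos h]
      rcases (by omega : (m 0 = 0) ∨ (m 0 = 1)) with h0 | h0
      · rw [h0]; linear_combination c * h3
      · rw [h0]; linear_combination c * h3
    · simp only [if_neg h]; ring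
  | add p q hp hq =>
    rw [map_add, map_add, map_add, Polynomial.coeff_add, Polynomial.coeff_add,
      Polynomial.coeff_add]
    linear_combination hp + hq

lemma G_not_mem [CharP k 3] (t : ℕ)
    (h : s ^ (4 * t + 1) + (s + 1) ^ (4 * t + 1) + (s + 2) ^ (4 * t + 1) ≠ 0) :
    (X 0 + C s * X 1 : R2 k) ^ (4 * t + 1) ∉ J2 k ^ t := by
  have h3 : (3 : k) = 0 := by
    have := CharP.cast_eq_zero k 3
    simpa using this
  intro hmem
  have h1 : J2 k ^ t ≤ Ideal.span {X 0 ^ 3 - X 0 * X 1 ^ 2, X 1 ^ (4 * t)} := by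
    refine pair_pow_le (fun i j hij => ?_)
    rcases i with _ | i
    · have : j = t := by omega
      subst this
      rw [pow_zero, one_mul, ← pow_mul]
      exact Ideal.subset_span (by simp)
    · rw [pow_succ]
      exact Ideal.mul_mem_right _ _ (Ideal.mul_mem_left _ _ (Ideal.subset_span (by simp)))
  obtain ⟨a, b, hab⟩ := Ideal.mem_span_pair.1 (h1 hmem)
  have key : ∀ i : k, i ^ 3 - i = 0 → (evl i b).coeff 1 = (s + i) ^ (4 * t + 1) := by
    intro i hi
    have h2 := congrArg (fun p => (evl i p).coeff (4 * t + 1)) hab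
    simp only [map_add, map_mul, map_pow, map_sub] at h2
    have e0 : evl i (X 0) = Polynomial.C i * Polynomial.X := by simp [evl]
    have e1 : evl i (X 1) = Polynomial.X := by simp [evl]
    have eC : evl i (C s) = Polynomial.C s := by
      rw [evl, aeval_C]; rfl
    rw [e0, e1, eC] at h2
    have e2 : (Polynomial.C i * Polynomial.X) ^ 3 -
        Polynomial.C i * Polynomial.X * (Polynomial.X : Polynomial k) ^ 2 = 0 := by
      have : (Polynomial.C i * Polynomial.X) ^ 3 -
        Polynomial.C i * Polynomial.X * (Polynomial.X : Polynomial k) ^ 2 =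
          Polynomial.C (i ^ 3 - i) * Polynomial.X ^ 3 := by
        rw [map_sub, map_pow]; ring
      rw [this, hi, map_zero, zero_mul]
    have e3 : (Polynomial.C i * Polynomial.X + Polynomial.C s * Polynomial.X) ^ (4 * t + 1) =
        Polynomial.C ((s + i) ^ (4 * t + 1)) * (Polynomial.X : Polynomial k) ^ (4 * t + 1) := by
      rw [← add_mul, mul_pow, ← map_add, ← map_pow, add_comm i s]
    rw [e2, e3, mul_zero, zero_add, Polynomial.coeff_C_mul_X_pow, if_pos rfl,
      add_comm (4 * t) 1, Polynomial.coeff_mul_X_pow] at h2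
    rw [h2, add_comm 1 (4 * t)]
  apply h
  have := evl_sum b
  rw [key 0 (by ring), key 1 (by ring), key 2 (by linear_combination 2 * h3), add_zero] at this
  exact this

end

end H379R3.Sym
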