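import Mathlib
import Pool.Agent.H379R3.SymE

set_option autoImplicit false

namespace H379R3.Sym

open MvPolynomial

section
variable {k : Type*} [Field k] (s : k)

/-- The ideal. -/
noncomputable def Q : Ideal (R4 k) := (Pa s ^ 5 ⊓ J k) ⊓ Pb k

attribute [local instance] MvPolynomial.gradedAlgebra

lemma homog_closed {I : Ideal (R4 k)} (hI : I.IsHomogeneous (homogeneousSubmodule (Fin 4) k)) :
    ∀ p ∈ I, ∀ d : ℕ, homogeneousComponent d p ∈ I := by
  intro p hp d
  exact (mem_iff_homogeneousComponent_mem hI p).1 hp d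

lemma homog_pair {a b : R4 k} {m n : ℕ} (ha : a.IsHomogeneous m) (hb : b.IsHomogeneous n) :
    (Ideal.span {a, b}).IsHomogeneous (homogeneousSubmodule (Fin 4) k) := by
  apply Ideal.homogeneous_span
  rintro x (rfl | rfl)
  · exact ⟨m, ha⟩
  · exact ⟨n, hb⟩

lemma G_homog : (G s).IsHomogeneous 1 := by
  refine (isHomogeneous_X _ _).add ?_
  have := (isHomogeneous_C (Fin 4) s).mul (isHomogeneous_X k (2 : Fin 4))
  simpa using this

lemma Q_homog : ∀ p ∈ Q s, ∀ d : ℕ, homogeneousComponent d p ∈ Q s := by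
  apply homog_closed
  have h1 : (Pa s).IsHomogeneous (homogeneousSubmodule (Fin 4) k) :=
    homog_pair (isHomogeneous_X _ _) (G_homog s)
  have h2 : (Pb k).IsHomogeneous (homogeneousSubmodule (Fin 4) k) :=
    homog_pair (isHomogeneous_X _ _) (isHomogeneous_X _ _)
  have h3 : (J k).IsHomogeneous (homogeneousSubmodule (Fin 4) k) := by
    refine homog_pair (m := 3) (n := 4) ?_ ?_
    · refine IsHomogeneous.sub ?_ ?_
      · have := (isHomogeneous_X k (1 : Fin 4)).pow 3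
        simpa using this
      · have := (isHomogeneous_X k (1 : Fin 4)).mul ((isHomogeneous_X k (2 : Fin 4)).pow 2)
        simpa using this
    · have := (isHomogeneous_X k (2 : Fin 4)).pow 4
      simpa using this
  have h4 : (Pa s ^ 5).IsHomogeneous (homogeneousSubmodule (Fin 4) k) := by
    have e : Pa s ^ 5 = Pa s * (Pa s * (Pa s * (Pa s * Pa s))) := by ring
    rw [e]
    exact h1.mul (h1.mul (h1.mul (h1.mul h1)))
  exact (h4.inf h3).inf h2

lemma y_not_Pb : (X 1 : R4 k) ∉ Pb k := by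
  apply not_mem_span_pair ![0, 1, 0, 0] <;> simp

/-- every prime containing `Q` contains one of the three primes -/
lemma prime_ge {P : Ideal (R4 k)} (hP : P.IsPrime) (h : Q s ≤ P) :
    Pa s ≤ P ∨ Pyw k ≤ P ∨ Pb k ≤ P := by
  have h1 : Pa s ^ 5 * J k * Pb k ≤ P :=
    le_trans (le_inf (Ideal.mul_le_left.trans (le_inf Ideal.mul_le_left Ideal.mul_le_right))
      Ideal.mul_le_right) h
  rcases hP.mul_le.1 h1 with h2 | h2
  · rcases hP.mul_le.1 h2 with h3 | h3
    · exact Or.inl (hP.le_of_pow_le h3)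
    · right; left
      have hw : (X 2 : R4 k) ∈ P := hP.mem_of_pow_mem 4 (h3 (Ideal.subset_span (by simp)))
      have hy : (X 1 : R4 k) ∈ P := by
        apply hP.mem_of_pow_mem 3
        have h4 : (X 1 ^ 3 - X 1 * X 2 ^ 2 : R4 k) ∈ P := h3 (Ideal.subset_span (by simp))
        have e : (X 1 ^ 3 : R4 k) = (X 1 ^ 3 - X 1 * X 2 ^ 2) + (X 1 * X 2) * X 2 := by ring
        rw [e]
        exact add_mem h4 (Ideal.mul_mem_left _ _ hw)
      rw [Pyw, Ideal.span_le]
      rintro z (rfl | rfl)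
      · exact hy
      · exact hw
  · exact Or.inr (Or.inr h2)

lemma Q_le_Pa : Q s ≤ Pa s := (inf_le_left.trans inf_le_left).trans (Ideal.pow_le_self (by norm_num))
lemma Q_le_Pyw : Q s ≤ Pyw k := by
  refine (inf_le_left.trans inf_le_right).trans ?_
  rw [J, Ideal.span_le]
  rintro z (rfl | rfl)
  · have e : (X 1 ^ 3 - X 1 * X 2 ^ 2 : R4 k) = (X 1 ^ 2 - X 2 ^ 2) * X 1 := by ring
    rw [e]
    exact Ideal.mul_mem_left _ _ (Ideal.subset_span (by simp))
  · exact Ideal.pow_mem_of_mem _ (Ideal.subset_span (by simp)) _ (by norm_num)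
lemma Q_le_Pb : Q s ≤ Pb k := inf_le_right

lemma min_iff {P : Ideal (R4 k)} :
    P ∈ (Q s).minimalPrimes ↔ P = Pa s ∨ P = Pyw k ∨ P = Pb k := by
  have hx1 : (X 0 : R4 k) ∈ Pa s := Ideal.subset_span (by simp)
  have hx3 : (X 0 : R4 k) ∈ Pb k := Ideal.subset_span (by simp)
  have hu3 : (X 3 : R4 k) ∈ Pb k := Ideal.subset_span (by simp)
  have hw2 : (X 2 : R4 k) ∈ Pyw k := Ideal.subset_span (by simp)
  constructor
  · intro h
    have hP := h.1.1
    rcases prime_ge s hP h.1.2 with h1 | h1 | h1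
    · exact Or.inl (le_antisymm (h.2 ⟨Pa_prime s, Q_le_Pa s⟩ h1) h1)
    · exact Or.inr (Or.inl (le_antisymm (h.2 ⟨Pyw_prime, Q_le_Pyw s⟩ h1) h1))
    · exact Or.inr (Or.inr (le_antisymm (h.2 ⟨Pb_prime, Q_le_Pb s⟩ h1) h1))
  · rintro (rfl | rfl | rfl)
    · refine ⟨⟨Pa_prime s, Q_le_Pa s⟩, ?_⟩
      rintro P' ⟨hP', hQ⟩ hle
      rcases prime_ge s hP' hQ with h1 | h1 | h1
      · exact h1
      · exact absurd (hle (h1 hw2)) (w_not_Pa s)
      · exact absurd (hle (h1 hu3)) (u_not_Pa s)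
    · refine ⟨⟨Pyw_prime, Q_le_Pyw s⟩, ?_⟩
      rintro P' ⟨hP', hQ⟩ hle
      rcases prime_ge s hP' hQ with h1 | h1 | h1
      · exact absurd (hle (h1 hx1)) x_not_Pyw
      · exact h1
      · exact absurd (hle (h1 hx3)) x_not_Pyw
    · refine ⟨⟨Pb_prime, Q_le_Pb s⟩, ?_⟩
      rintro P' ⟨hP', hQ⟩ hle
      rcases prime_ge s hP' hQ with h1 | h1 | h1
      · exact absurd (hle (h1 (Ideal.subset_span (by simp) : G s ∈ Pa s))) (G_not_Pb s)
      · exact absurd (hle (h1 hw2)) w_not_Pb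
      · exact h1

/-- `Qs` are the symbolic powers of `Q`. -/
lemma symbolic (t : ℕ) (f : R4 k) : f ∈ Qs s t ↔
    ∃ σ : R4 k, (∀ P ∈ (Q s).minimalPrimes, σ ∉ P) ∧ σ * f ∈ Q s ^ t := by
  have hx1 : (X 0 : R4 k) ∈ Pa s := Ideal.subset_span (by simp)
  have hG1 : G s ∈ Pa s := Ideal.subset_span (by simp)
  have hx3 : (X 0 : R4 k) ∈ Pb k := Ideal.subset_span (by simp)
  have hu3 : (X 3 : R4 k) ∈ Pb k := Ideal.subset_span (by simp)
  have hw2 : (X 2 : R4 k) ∈ Pyw k := Ideal.subset_span (by simp)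
  have hw4 : (X 2 ^ 4 : R4 k) ∈ J k := Ideal.subset_span (by simp)
  constructor
  · intro hf
    rcases t with _ | t
    · refine ⟨1, fun P hP h1 => ?_, by rw [pow_zero, Ideal.one_eq_top]; trivial⟩
      exact hP.1.1.ne_top ((Ideal.eq_top_iff_one P).2 h1)
    have hprod : Pa s ^ (5 * (t + 1)) * J k ^ (t + 1) * Pb k ^ (t + 1) ≤ Q s ^ (t + 1) := by
      rw [pow_mul, ← mul_pow, ← mul_pow]
      apply Ideal.pow_right_mono
      exact le_inf (Ideal.mul_le_left.trans (le_inf Ideal.mul_le_left Ideal.mul_le_right))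
        Ideal.mul_le_right
    set σ1 : R4 k := (X 2 ^ 4) ^ (t + 1) * X 3 ^ (t + 1) with h1
    set σ2 : R4 k := X 0 ^ (5 * (t + 1)) * X 0 ^ (t + 1) with h2
    set σ3 : R4 k := G s ^ (5 * (t + 1)) * (X 2 ^ 4) ^ (t + 1) with h3
    have h1a : σ1 ∉ Pa s := by
      intro h
      rcases (Pa_prime s).mem_or_mem h with h | h
      · exact w_not_Pa s ((Pa_prime s).mem_of_pow_mem _ ((Pa_prime s).mem_of_pow_mem _ h))
      · exact u_not_Pa s ((Pa_prime s).mem_of_pow_mem _ h)
    have h2b : σ2 ∉ Pyw k := by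
      intro h
      rcases (Pyw_prime (k := k)).mem_or_mem h with h | h
      · exact x_not_Pyw ((Pyw_prime (k := k)).mem_of_pow_mem _ h)
      · exact x_not_Pyw ((Pyw_prime (k := k)).mem_of_pow_mem _ h)
    have h3c : σ3 ∉ Pb k := by
      intro h
      rcases (Pb_prime (k := k)).mem_or_mem h with h | h
      · exact G_not_Pb s ((Pb_prime (k := k)).mem_of_pow_mem _ h)
      · exact w_not_Pb ((Pb_prime (k := k)).mem_of_pow_mem _
          ((Pb_prime (k := k)).mem_of_pow_mem _ h))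
    have h1b : σ1 ∈ Pyw k := Ideal.mul_mem_right _ _ (Ideal.pow_mem_of_mem _
      (Ideal.pow_mem_of_mem _ hw2 4 (by norm_num)) _ (by omega))
    have h1c : σ1 ∈ Pb k := Ideal.mul_mem_left _ _ (Ideal.pow_mem_of_mem _ hu3 _ (by omega))
    have h2a : σ2 ∈ Pa s := Ideal.mul_mem_left _ _ (Ideal.pow_mem_of_mem _ hx1 _ (by omega))
    have h2c : σ2 ∈ Pb k := Ideal.mul_mem_left _ _ (Ideal.pow_mem_of_mem _ hx3 _ (by omega))
    have h3a : σ3 ∈ Pa s := Ideal.mul_mem_right _ _ (Ideal.pow_mem_of_mem _ hG1 _ (by omega))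
    have h3b : σ3 ∈ Pyw k := Ideal.mul_mem_left _ _ (Ideal.pow_mem_of_mem _
      (Ideal.pow_mem_of_mem _ hw2 4 (by norm_num)) _ (by omega))
    refine ⟨σ1 + σ2 + σ3, ?_, ?_⟩
    · intro P hP hmem
      rcases (min_iff s).1 hP with rfl | rfl | rfl
      · apply h1a
        have : σ1 = (σ1 + σ2 + σ3) - σ2 - σ3 := by ring
        rw [this]; exact sub_mem (sub_mem hmem h2a) h3a
      · apply h2b
        have : σ2 = (σ1 + σ2 + σ3) - σ1 - σ3 := by ring
        rw [this]; exact sub_mem (sub_mem hmem h1b) h3b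
      · apply h3c
        have : σ3 = (σ1 + σ2 + σ3) - σ1 - σ2 := by ring
        rw [this]; exact sub_mem (sub_mem hmem h1c) h2c
    · rw [add_mul, add_mul]
      refine add_mem (add_mem ?_ ?_) ?_
      · apply hprod
        have e : σ1 * f = f * (X 2 ^ 4) ^ (t + 1) * X 3 ^ (t + 1) := by rw [h1]; ring
        rw [e]
        exact Ideal.mul_mem_mul (Ideal.mul_mem_mul hf.1.1 (Ideal.pow_mem_pow hw4 _))
          (Ideal.pow_mem_pow hu3 _)
      · apply hprod
        have e : σ2 * f = X 0 ^ (5 * (t + 1)) * f * X 0 ^ (t + 1) := by rw [h2]; ring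
        rw [e]
        exact Ideal.mul_mem_mul (Ideal.mul_mem_mul (Ideal.pow_mem_pow hx1 _) hf.1.2)
          (Ideal.pow_mem_pow hx3 _)
      · apply hprod
        exact Ideal.mul_mem_mul (Ideal.mul_mem_mul (Ideal.pow_mem_pow hG1 _)
          (Ideal.pow_mem_pow hw4 _)) hf.2
  · rintro ⟨σ, hσ, hf⟩
    refine ⟨⟨?_, ?_⟩, ?_⟩
    · refine primA s _ σ (hσ _ ((min_iff s).2 (Or.inl rfl))) f ?_
      rw [pow_mul]
      exact Ideal.pow_right_mono (inf_le_left.trans inf_le_left) t hf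
    · refine primJ _ σ (hσ _ ((min_iff s).2 (Or.inr (Or.inl rfl)))) f ?_
      exact Ideal.pow_right_mono (inf_le_left.trans inf_le_right) t hf
    · refine primB _ σ (hσ _ ((min_iff s).2 (Or.inr (Or.inr rfl)))) f ?_
      exact Ideal.pow_right_mono inf_le_right t hf

/-- The depth of `S / Qs t`, as in the statement. -/
noncomputable def dep (I : Ideal (R4 k)) : ℕ :=
  sSup {m : ℕ | ∃ rs : List (R4 k), rs.length = m ∧
          (∀ r ∈ rs, MvPolynomial.constantCoeff r = 0) ∧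
          RingTheory.Sequence.IsRegular (R4 k ⧸ I) rs}

lemma dep_le {t : ℕ} (h : (X 0 + C s * X 1 : R2 k) ^ (4 * (t + 1) + 1) ∉ J2 k ^ (t + 1)) :
    dep (Qs s (t + 1)) ≤ 1 := by
  apply csSup_le'
  rintro m ⟨rs, rfl, hc, hreg⟩
  by_contra hlt
  obtain ⟨r1, r2, hr1, hr2, h1, h2⟩ := le_two_seq hreg.toIsWeaklyRegular (by omega)
  exact shallow s h (hc _ hr1) (hc _ hr2) h1 h2

lemma le_dep (hs : s ≠ 0) {t : ℕ} (h : G s ^ (4 * t + 1) ∈ J k ^ t) (ht : t ≠ 0) :
    2 ≤ dep (Qs s t) := by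
  apply le_csSup
  · have hN : ringKrullDim (R4 k) ≤ (4 : ℕ) := by
      rw [MvPolynomial.ringKrullDim_of_isNoetherianRing, ringKrullDim_eq_zero_of_field, zero_add,
        Nat.card_eq_fintype_card, Fintype.card_fin]
    refine ⟨4, ?_⟩
    rintro m ⟨rs, rfl, -, hreg⟩
    have h1 := length_le rs _ hreg
    have h2 := h1.trans (Module.supportDim_le_ringKrullDim _ _)
    have h3 := h2.trans hN
    exact_mod_cast h3
  · refine ⟨[X 3 + X 2, X 0 + X 1], rfl, ?_, ?_⟩
    · intro r hr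
      simp only [List.mem_cons, List.not_mem_nil, or_false] at hr
      rcases hr with rfl | rfl <;> simp
    · obtain ⟨h1, h2⟩ := deep s hs h
      refine two_seq (m := RingHom.ker (constantCoeff : R4 k →+* k)) ?_ ?_ ?_ ?_ h1 h2
      · intro h
        have : (1 : R4 k) ∈ RingHom.ker (constantCoeff : R4 k →+* k) := by rw [h]; trivial
        rw [RingHom.mem_ker] at this
        simp at this
      · refine inf_le_right.trans ((Ideal.pow_le_self ht).trans ?_)
        rw [Pb, Ideal.span_le]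
        rintro z (rfl | rfl) <;> simp [RingHom.mem_ker]
      · simp [RingHom.mem_ker]
      · simp [RingHom.mem_ker]

end

end H379R3.Sym
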